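import Pool.Agent.Lib.MP_1bb70c_an.LemmaP

set_option autoImplicit false

open Finset
open scoped Classical

noncomputable section

namespace Pool.Agent.Lib.MP_1bb70c_an

/-! ### Part C1 -/

/-- cutting an interval into the cells of a grid and the grid points -/
private theorem C1_cut (x : ℕ →₀ ℝ) (g : ℕ → ℕ) (hg : StrictMono g) (N : ℕ) :
    rs (Set.Ioo (g 0) (g (N + 1))) x = rs {k | ∃ a, 1 ≤ a ∧ a ≤ N ∧ g a = k} x +
      ∑ a ∈ range (N + 1), rs (Set.Ioo (g a) (g (a + 1))) x := by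
  induction N with
  | zero =>
    have h1 : {k | ∃ a, 1 ≤ a ∧ a ≤ 0 ∧ g a = k} = (∅ : Set ℕ) := by
      ext k
      simp only [Set.mem_ofPred_eq, Set.mem_empty_iff_false, iff_false]
      rintro ⟨a, h1, h2, _⟩
      omega
    rw [h1, rs_empty, Finset.sum_range_one]
    simp
  | succ N ih =>
    have hN1 : g 0 < g (N + 1) := hg (by omega)
    have hN2 : g (N + 1) < g (N + 1 + 1) := hg (by omega)
    have e1 : Set.Ioo (g 0) (g (N + 1 + 1)) = Set.Ioo (g 0) (g (N + 1)) ∪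
        ({g (N + 1)} ∪ Set.Ioo (g (N + 1)) (g (N + 1 + 1))) := by
      ext k
      simp only [Set.mem_Ioo, Set.mem_union, Set.mem_singleton_iff]
      omega
    have e2 : {k | ∃ a, 1 ≤ a ∧ a ≤ N + 1 ∧ g a = k} =
        {k | ∃ a, 1 ≤ a ∧ a ≤ N ∧ g a = k} ∪ {g (N + 1)} := by
      ext k
      simp only [Set.mem_ofPred_eq, Set.mem_union, Set.mem_singleton_iff]
      constructor
      · rintro ⟨a, h1, h2, h3⟩
        rcases Nat.le_succ_iff.1 h2 with h | h
        · exact Or.inl ⟨a, h1, h, h3⟩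
        · right; rw [← h3]; exact congrArg g h
      · rintro (⟨a, h1, h2, h3⟩ | h)
        · exact ⟨a, h1, by omega, h3⟩
        · exact ⟨N + 1, by omega, le_refl _, h.symm⟩
    have d1 : Disjoint (Set.Ioo (g 0) (g (N + 1)))
        ({g (N + 1)} ∪ Set.Ioo (g (N + 1)) (g (N + 1 + 1))) := by
      rw [Set.disjoint_left]
      intro k hk hk2
      simp only [Set.mem_Ioo, Set.mem_union, Set.mem_singleton_iff] at hk hk2
      omega
    have d2 : Disjoint ({g (N + 1)} : Set ℕ) (Set.Ioo (g (N + 1)) (g (N + 1 + 1))) := by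
      rw [Set.disjoint_left]
      intro k hk hk2
      simp only [Set.mem_Ioo, Set.mem_singleton_iff] at hk hk2
      omega
    have d3 : Disjoint {k | ∃ a, 1 ≤ a ∧ a ≤ N ∧ g a = k} ({g (N + 1)} : Set ℕ) := by
      rw [Set.disjoint_left]
      rintro k ⟨a, h1, h2, h3⟩ hk2
      rw [Set.mem_singleton_iff] at hk2
      rw [hk2] at h3
      have := hg.injective h3
      omega
    rw [e1, e2, rs_union d1, rs_union d2, rs_union d3, ih, Finset.sum_range_succ _ (N + 1)]
    abel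

/-- ROW C1 (cell lemma). Apply Theorem M(i) (hypothesis `IH`) in the cells of a grid. `hh ν ≥ 1`.
Grid: `greedy` with `Good a b := Bd (ν+1) (SchU i c) (a+1) (rs (Ioc a b) x) (η/2)`, `c = 3 * hh ν * m^2`, start `g0`, `H` = a bound for the support. No chain of length `L`: `bd_chain` (with `hB` =
`Bd (SchU i (L*c)) (g0+1) x D`, from `hD` by `bd_beyond` since `L*c ≤ g0+1 ≤ k`) would give `L * (η/2) < D`, contradicting `hLD`.
So `r < L`, `g` strictly increasing, `g 0 = g0`, support `< g (r+1)`. Cells `Q_a = Ioo (g a) (g (a+1))`, `a ≤ r` (at most `L` cells); `Good (g a) (g (a+1) - 1)` gives `Bd (SchU i c) (g a + 1) (rs Q_a x) (η/2)`.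
`p := rs {g 1, ..., g r} x` (card `≤ r ≤ L`). For each cell: `Bd (SchU i c) (s / m^4) (rs Q_a x) η` by `bd_first_restU` (first average `≤ η/2` by `havg`, `bd_zero_iff` (`1 ≤ s/m^4` as `m^6 ≤ s`), rest with `ρ = g a + 1`, `bd_mono_size`), `η = η/2 + η/2`.
`IH (rs Q_a x)` with `T = η` (support `⊆ x.support`, `s^10 ≤ g0 < k`): `rs Q_a x = u_a + v_a`. Choose; `u = ∑_{a ≤ r} u_a`, `v = ∑ v_a`.
`BS (L) (Gam i * η) u`: for one cell `nrm u_a ≤ Gam i η`: `bs_of_nrm`; hmm: `bs_blocks` with `r+1 ≤ L` blocks and `BS 0` in each gives `BS ((r+1) * (0+1))`. (`rs Q_a u = u_a`: `0 ≤ u_a ≤ rs Q_a x`.)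
`Bd (Sch i) s v (∑_a Gam i η/m) ` by `bd_sum`, and `(r+1) ≤ L`. -/
theorem cell (ν i : ℕ) (hi : i ≤ ν) (x : ℕ →₀ ℝ) (hx : 0 ≤ x) (m s g0 : ℕ)
    (hm : m0 ν ≤ m) (hs : m ^ 6 ≤ s) (hg0 : s ^ 10 ≤ g0) (hsupp : ∀ k ∈ x.support, g0 < k)
    (η D : ℝ) (hη : 0 < η) (L : ℕ) (hL1 : 1 ≤ L)
    (hD : Bd (ν + 1) (Sch (i + 1)) (g0 + 1) x D) (hLD : D ≤ L * (η / 2))
    (hL : L * (3 * hh ν * m ^ 2) ≤ g0 + 1) (havg : av (ν + 1) (s / m ^ 4) x ≤ η / 2)
    (IH : ∀ y : ℕ →₀ ℝ, 0 ≤ y → y.support ⊆ x.support → MH ν i y) :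
    ∃ p u v : ℕ →₀ ℝ, 0 ≤ p ∧ 0 ≤ u ∧ 0 ≤ v ∧ x = p + u + v ∧ p.support.card ≤ L ∧
      BS (ν + 1) L (Gam i * η) u ∧ Bd (ν + 1) (Sch i) s v (L * (Gam i * η / m)) := by
  have hhh : 1000 ≤ hh ν := by unfold hh; omega
  have hm1 : 1 ≤ m := by
    refine le_trans ?_ hm
    unfold m0
    exact Nat.mul_pos (by norm_num) (Nat.pow_pos (by omega))
  have hm4 : 0 < m ^ 4 := by positivity
  have hσ : 1 ≤ s / m ^ 4 := by
    rw [Nat.one_le_div_iff hm4]
    exact le_trans (Nat.pow_le_pow_right hm1 (by norm_num)) hs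
  have hGam : 0 ≤ Gam i := by unfold Gam; positivity
  have hτ : 0 ≤ Gam i * η := mul_nonneg hGam hη.le
  have hmR : (0 : ℝ) < m := by exact_mod_cast hm1
  have hMB : Bd (ν + 1) (SchU i (L * (3 * hh ν * m ^ 2))) (g0 + 1) x D :=
    bd_beyond (fun k hk => le_trans hL (hsupp k hk)) hD
  obtain ⟨r, hrL, g, hg, hg0', hgH, hgood⟩ := greedy
    (fun a b => Bd (ν + 1) (SchU i (3 * hh ν * m ^ 2)) (a + 1) (rs (Set.Ioc a b) x) (η / 2))
    (by
      intro a b hab
      show Bd (ν + 1) (SchU i (3 * hh ν * m ^ 2)) (a + 1) (rs (Set.Ioc a b) x) (η / 2)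
      rw [Set.Ioc_eq_empty (by omega), rs_empty]
      exact bd_mono_B (by positivity) (bd_zero _ _ _)) g0 L (x.support.sup id)
    (by
      intro h h0 hch
      have := bd_chain (ν + 1) i (3 * hh ν * m ^ 2) L hL1 x h (fun a ha => (hch a ha).1)
        (fun _ => η / 2) (fun a ha => (hch a ha).2) D (by rw [h0]; exact hMB)
      rw [Finset.sum_const, Finset.card_range, nsmul_eq_mul] at this
      linarith)
  have hH : ∀ k ∈ x.support, k < g (r + 1) := fun k hk =>
    lt_of_le_of_lt (Finset.le_sup (f := id) hk) hgH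
  -- the cells
  have hcell : ∀ a, ∃ u v : ℕ →₀ ℝ, 0 ≤ u ∧ 0 ≤ v ∧ (a ≤ r →
      rs (Set.Ioo (g a) (g (a + 1))) x = u + v ∧ nrm (ν + 1) u ≤ Gam i * η ∧
      Bd (ν + 1) (Sch i) s v (Gam i * η / m)) := by
    intro a
    by_cases har : a ≤ r
    · have hga : g a < g (a + 1) := hg (by omega)
      have hI : Set.Ioc (g a) (g (a + 1) - 1) = Set.Ioo (g a) (g (a + 1)) := by
        ext k
        simp only [Set.mem_Ioc, Set.mem_Ioo]
        omega
      have h1 := hgood a har (g (a + 1) - 1) (by omega)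
      have h1' : Bd (ν + 1) (SchU i (3 * hh ν * m ^ 2)) (g a + 1)
          (rs (Set.Ioo (g a) (g (a + 1))) x) (η / 2) := by
        rw [← hI]; exact h1
      have h2 : Bd (ν + 1) (Sch 0) (s / m ^ 4) (rs (Set.Ioo (g a) (g (a + 1))) x) (η / 2) :=
        (bd_zero_iff _ _ hσ _ _ (by positivity)).2 ((av_rs_le _ _ _ _).trans havg)
      have h3 : Bd (ν + 1) (SchU i (3 * hh ν * m ^ 2)) (s / m ^ 4)
          (rs (Set.Ioo (g a) (g (a + 1))) x) (η / 2 + η / 2) :=
        bd_first_restU (ν + 1) i _ _ _ (g a) (fun k hk => (mem_support_rs.1 hk).1.1.le) _ _ h2 h1'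
      rw [add_halves] at h3
      have hsub : (rs (Set.Ioo (g a) (g (a + 1))) x).support ⊆ x.support :=
        fun k hk => (mem_support_rs.1 hk).2
      obtain ⟨u, v, hu, hv, he, hn, hb⟩ := IH _ (rs_nonneg _ hx) hsub m s hm hs
        (fun k hk => lt_of_le_of_lt hg0 (hsupp k (hsub hk))) η hη.le h3
      exact ⟨u, v, hu, hv, fun _ => ⟨he, hn, hb⟩⟩
    · exact ⟨0, 0, le_refl _, le_refl _, fun h => absurd h har⟩
  choose U V hU hV hUV using hcell
  have hUle : ∀ a ≤ r, ∀ k ∈ (U a).support, k ∈ Set.Ioo (g a) (g (a + 1)) := by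
    intro a ha k hk
    have h1 := (hUV a ha).1
    have h2 : rs (Set.Ioo (g a) (g (a + 1))) x k = U a k + V a k := by
      rw [h1, Finsupp.add_apply]
    have h3 : 0 < U a k := lt_of_le_of_ne (hU a k) (Ne.symm (Finsupp.mem_support_iff.1 hk))
    have h4 : 0 ≤ V a k := hV a k
    have h5 : rs (Set.Ioo (g a) (g (a + 1))) x k ≠ 0 := by rw [h2]; positivity
    exact (mem_support_rs.1 (Finsupp.mem_support_iff.2 h5)).1
  have hrL' : ((r + 1 : ℕ) : ℝ) ≤ L := by exact_mod_cast hrL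
  refine ⟨rs {k | ∃ a, 1 ≤ a ∧ a ≤ r ∧ g a = k} x, ∑ a ∈ range (r + 1), U a,
    ∑ a ∈ range (r + 1), V a, rs_nonneg _ hx, Finset.sum_nonneg (fun a _ => hU a),
    Finset.sum_nonneg (fun a _ => hV a), ?_, ?_, ?_, ?_⟩
  · have h1 := C1_cut x g hg r
    rw [rs_self (E := Set.Ioo (g 0) (g (r + 1))) (x := x)
      (fun k hk => ⟨by rw [hg0']; exact hsupp k hk, hH k hk⟩)] at h1
    rw [add_assoc, ← Finset.sum_add_distrib]
    refine h1.trans ?_
    congr 1
    exact Finset.sum_congr rfl (fun a ha =>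
      (hUV a (by have := Finset.mem_range.1 ha; omega)).1)
  · have h1 : (rs {k | ∃ a, 1 ≤ a ∧ a ≤ r ∧ g a = k} x).support ⊆ (Finset.Icc 1 r).image g := by
      intro k hk
      obtain ⟨a, h1, h2, h3⟩ := (mem_support_rs.1 hk).1
      exact Finset.mem_image.2 ⟨a, Finset.mem_Icc.2 ⟨h1, h2⟩, h3⟩
    refine (Finset.card_le_card h1).trans (Finset.card_image_le.trans ?_)
    rw [Nat.card_Icc]
    omega
  · have hB : SuccS (fun a => Set.Ioo (g a) (g (a + 1))) := by
      intro p q hpq a ha b hb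
      have h1 : g (p + 1) ≤ g q := hg.monotone hpq
      have h2 := ha.2
      have h3 := hb.1
      omega
    have hBS := bs_blocks (ν + 1) (∑ a ∈ range (r + 1), U a) (r + 1)
      (fun a => Set.Ioo (g a) (g (a + 1))) hB (by
        intro k hk
        rw [Finsupp.mem_support_iff, Finsupp.finsetSum_apply] at hk
        obtain ⟨a, ha, hk'⟩ := Finset.exists_ne_zero_of_sum_ne_zero hk
        rw [Finset.mem_range] at ha
        exact ⟨a, ha, hUle a (by omega) k (Finsupp.mem_support_iff.2 hk')⟩) 0 (Gam i * η)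
      (le_refl _) hτ (by
        intro b hb
        have h1 : rs (Set.Ioo (g b) (g (b + 1))) (∑ a ∈ range (r + 1), U a) = U b := by
          rw [rs_sum, Finset.sum_eq_single b]
          · exact rs_self (hUle b (by omega))
          · intro a ha hab
            rw [Finset.mem_range] at ha
            ext k
            rw [rs_apply, Finsupp.zero_apply]
            split_ifs with hk
            · by_contra hne
              have h2 := hUle a (by omega) k (Finsupp.mem_support_iff.2 hne)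
              rcases lt_or_gt_of_ne hab with h | h
              · exact absurd (hB a b h k h2 k hk) (lt_irrefl _)
              · exact absurd (hB b a h k hk k h2) (lt_irrefl _)
            · rfl
          · intro h
            exact absurd (Finset.mem_range.2 hb) h
        show BS (ν + 1) 0 (Gam i * η) (rs (Set.Ioo (g b) (g (b + 1))) _)
        rw [h1]
        exact bs_of_nrm _ _ _ (hUV b (by omega)).2.1)
    refine bs_mono hτ (by positivity) ?_ (le_refl _) hBS
    rw [zero_add, mul_one]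
    exact hrL'
  · have h1 := bd_sum (n := ν + 1) (G := Sch i) (σ := s) (range (r + 1)) V
      (fun _ => Gam i * η / m) (fun a ha => (hUV a (by
        have := Finset.mem_range.1 ha; omega)).2.2)
    refine bd_mono_B ?_ h1
    rw [Finset.sum_const, Finset.card_range, nsmul_eq_mul]
    exact mul_le_mul_of_nonneg_right hrL' (by positivity)

/-! ### Part M2 -/

private theorem M2_mono_on (h : ℕ → ℕ) (L : ℕ) (hh' : ∀ i < L, h i < h (i + 1)) :
    ∀ a b, a ≤ b → b ≤ L → h a ≤ h b := by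
  intro a b hab
  induction b, hab using Nat.le_induction with
  | base => intro _; exact le_refl _
  | succ n hn ih =>
    intro hL
    exact (ih (by omega)).trans (hh' n (by omega)).le

/-- at least `σ` intervals of norm `≥ 20` are impossible -/
private theorem M2_big (ν σ L : ℕ) (hσ : 1 ≤ σ) (x : ℕ →₀ ℝ) (hav : av (ν + 1) σ x ≤ 1)
    (h : ℕ → ℕ) (hh' : ∀ i < L, h i < h (i + 1)) (S : Finset ℕ) (hS : ∀ i ∈ S, i < L)
    (hcard : σ ≤ S.card)
    (hbig : ∀ i ∈ S, 20 ≤ nrm (ν + 1) (rs (Set.Ioc (h i) (h (i + 1))) x)) : False := by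
  obtain ⟨T, hTS, hT⟩ := Finset.exists_subset_card_eq hcard
  let t : ℕ → ℕ := fun p => if hp : p < σ then T.orderEmbOfFin hT ⟨p, hp⟩ else 0
  let D : ℕ → Set ℕ := fun p => if p < σ then Set.Ioc (h (t p)) (h (t p + 1)) else ∅
  have ht : ∀ p, p < σ → t p ∈ T := by
    intro p hp
    simp only [t, dif_pos hp]
    exact Finset.orderEmbOfFin_mem T hT ⟨p, hp⟩
  have htm : ∀ p q, p < q → q < σ → t p < t q := by
    intro p q hpq hq
    simp only [t, dif_pos hq, dif_pos (hpq.trans hq)]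
    exact (T.orderEmbOfFin hT).strictMono (by simpa using hpq)
  have hD : SuccS D := by
    intro p q hpq a ha b hb
    by_cases hq : q < σ
    · have hp : p < σ := hpq.trans hq
      simp only [D, if_pos hq, if_pos hp, Set.mem_Ioc] at ha hb
      have h1 := htm p q hpq hq
      have h2 := M2_mono_on h L hh' (t p + 1) (t q) h1 (hS _ (hTS (ht q hq))).le
      omega
    · simp only [D, if_neg hq] at hb
      exact absurd hb (Set.notMem_empty _)
  have h3 := av_ge (ν + 1) σ x D hD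
  have h4 : (σ : ℝ) * 20 ≤ ∑ p ∈ range σ, nrm (ν + 1) (rs (D p) x) := by
    have h5 : ∑ p ∈ range σ, (20 : ℝ) ≤ ∑ p ∈ range σ, nrm (ν + 1) (rs (D p) x) := by
      refine Finset.sum_le_sum fun p hp => ?_
      have hp' : p < σ := Finset.mem_range.1 hp
      simp only [D, if_pos hp']
      exact hbig _ (hTS (ht p hp'))
    rw [Finset.sum_const, Finset.card_range, nsmul_eq_mul] at h5
    exact h5
  have hσ' : (0 : ℝ) < σ := by exact_mod_cast hσ
  have h6 : (20 : ℝ) ≤ (1 / (σ : ℝ)) * ∑ p ∈ range σ, nrm (ν + 1) (rs (D p) x) := by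
    rw [one_div, inv_mul_eq_div, le_div_iff₀ hσ']
    linarith
  linarith

/-- disjoint intervals with a point of a set of cardinality `K` -/
private theorem M2_cnt (K L : ℕ) (ζ h : ℕ → ℕ) (hh' : ∀ i < L, h i < h (i + 1)) :
    ((range L).filter (fun i => ∃ l, 1 ≤ l ∧ l ≤ K ∧ h i < ζ l ∧ ζ l ≤ h (i + 1))).card ≤ K := by
  classical
  have hch : ∀ i ∈ (range L).filter (fun i => ∃ l, 1 ≤ l ∧ l ≤ K ∧ h i < ζ l ∧ ζ l ≤ h (i + 1)),
      ∃ l, 1 ≤ l ∧ l ≤ K ∧ h i < ζ l ∧ ζ l ≤ h (i + 1) := fun i hi => (Finset.mem_filter.1 hi).2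
  choose! l hl using hch
  have h1 := Finset.card_le_card_of_injOn
    (s := (range L).filter (fun i => ∃ l, 1 ≤ l ∧ l ≤ K ∧ h i < ζ l ∧ ζ l ≤ h (i + 1)))
    (t := Finset.Icc 1 K) l ?_ ?_
  · rw [Nat.card_Icc] at h1
    omega
  · intro i hi
    have := hl i hi
    exact Finset.mem_coe.2 (Finset.mem_Icc.2 ⟨this.1, this.2.1⟩)
  · intro i hi i' hi' hii
    have hi1 : i < L := Finset.mem_range.1 (Finset.mem_filter.1 hi).1
    have hi1' : i' < L := Finset.mem_range.1 (Finset.mem_filter.1 hi').1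
    obtain ⟨-, -, h3, h4⟩ := hl i hi
    obtain ⟨-, -, h5, h6⟩ := hl i' hi'
    rw [hii] at h3 h4
    rcases lt_trichotomy i i' with hlt | heq | hlt
    · have := M2_mono_on h L hh' (i + 1) i' hlt hi1'.le
      omega
    · exact heq
    · have := M2_mono_on h L hh' (i' + 1) i hlt hi1.le
      omega

/-- ROW M2 (base points, i = 0). `Z` = coarse points `ζ 0 < ... < ζ K`, fine points `e 0 < ... < e r`.
Let `e0` = least element of the support, `H` = largest one.
Coarse: `greedy` with `Good a b := Bd (ν+1) (SchU 0 1) (a+1) (rs (Ioc a b) x) (1/(2M))`, start `e0`, `L = 2M`: a chain of length `2M` contradicts `bd_chain` (`a = 0`, `c = 1`, `B = 1`: `2M * (1/(2M)) < 1`;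
`hB`: `SchU 0 (2M) ⊆ SchU 0 (3M)`, `schU_mono`, sizes `σ ≤ e0 + 1`). So `K < 2M` and `ζ`.
Fine: `greedy` with `Good a b := nrm (ν+1) (rs (Ioc a b) x) < 20 ∧ ∀ i, 1 ≤ i → i ≤ K → ¬ (a < ζ i ∧ ζ i ≤ b)`, start `e0`, `L = σ + 2M`: in a chain of this length, every step either
contains some `ζ i`, `1 ≤ i ≤ K` (disjoint intervals: at most `K < 2M` steps), or has norm `≥ 20`: then there are at least `σ` steps with norm `≥ 20`, and `av_ge` with these `σ` successive intervals gives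
`av σ x ≥ 20 > 1`, contradicting `av_le_of_bdU` (or `bd_zero_iff`). So `r < σ + 2M` and `e`.
`κ b` := the largest `i ≤ K` with `ζ i ≤ e b`. If `κ b < K` then `ζ (κ b + 1) > e b`, and it is not in `(e b, e (b+1) - 1]`, so every `k < e (b+1)` is `< ζ (κ b + 1)` ; if `κ b = K`, then `k ≤ H < ζ (K+1)`.
`av (ζ (κ b) + 1) (rs (Ioo (e b) (e (b+1))) x) ≤ 1/(2M)`: the points of the support in `Ioo (e b) (e (b+1))` are in `Ioc (ζ (κ b)) (ζ (κ b + 1) - 1)`. -/
theorem structure0 (ν M σ : ℕ) (hM : 1 ≤ M) (hσ : 1 ≤ σ) (x : ℕ →₀ ℝ) (hx : 0 ≤ x)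
    (hne : x ≠ 0) (hsupp : ∀ k ∈ x.support, σ ≤ k)
    (hB : Bd (ν + 1) (SchU 0 (3 * M)) σ x 1) :
    ∃ (r K : ℕ) (e ζ κ : ℕ → ℕ), StrictMono e ∧ StrictMono ζ ∧ e 0 ∈ x.support ∧
      (∀ k ∈ x.support, e 0 ≤ k) ∧ ζ 0 = e 0 ∧ (∀ k ∈ x.support, k < e (r + 1)) ∧
      (∀ k ∈ x.support, k < ζ (K + 1)) ∧ r < σ + 2 * M ∧ K < 2 * M ∧
      ∀ b ≤ r, κ b ≤ K ∧ ζ (κ b) ≤ e b ∧
        (∀ k ∈ x.support, e b < k → k < e (b + 1) → k < ζ (κ b + 1)) ∧
        nrm (ν + 1) (rs (Set.Ioo (e b) (e (b + 1))) x) < 20 ∧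
        av (ν + 1) (ζ (κ b) + 1) (rs (Set.Ioo (e b) (e (b + 1))) x) ≤ 1 / (2 * (M : ℝ)) := by
  classical
  have hne' : x.support.Nonempty := Finsupp.support_nonempty_iff.2 hne
  obtain ⟨e0, he0, he0'⟩ : ∃ e0 ∈ x.support, ∀ k ∈ x.support, e0 ≤ k :=
    ⟨x.support.min' hne', Finset.min'_mem _ _, fun k hk => Finset.min'_le _ _ hk⟩
  obtain ⟨H, -, hH⟩ : ∃ H ∈ x.support, ∀ k ∈ x.support, k ≤ H :=
    ⟨x.support.max' hne', Finset.max'_mem _ _, fun k hk => Finset.le_max' _ _ hk⟩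
  have hMr : (0 : ℝ) < M := by exact_mod_cast hM
  have hav1 : av (ν + 1) σ x ≤ 1 :=
    av_le_of_bdU (c := 3 * M) (by omega) (fun k hk => hσ.trans (hsupp k hk)) hB
  -- coarse points
  obtain ⟨K, hK, ζ, hζm, hζ0, hζH, hζg⟩ := greedy
    (fun a b => Bd (ν + 1) (SchU 0 1) (a + 1) (rs (Set.Ioc a b) x) (1 / (2 * (M : ℝ))))
    (by
      intro a b hab
      have h0 : Set.Ioc a b = ∅ := Set.Ioc_eq_empty (by omega)
      simp only [h0, rs_empty]
      exact bd_mono_B (by positivity) (bd_zero _ _ _)) e0 (2 * M) H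
    (by
      intro h hh0 hh'
      have h1 := bd_chain (ν + 1) 0 1 (2 * M) (by omega) x h (fun i hi => (hh' i hi).1)
        (fun _ => 1 / (2 * (M : ℝ))) (fun i hi => (hh' i hi).2) 1
        (bd_mono_size (σ := σ) (by rw [hh0]; exact (hsupp e0 he0).trans (by omega))
          (bd_mono_G (G := SchU 0 (3 * M)) (fun Q hQ => schU_mono 0 (by omega) hQ) hB))
      rw [Finset.sum_const, Finset.card_range, nsmul_eq_mul] at h1
      have h2 : ((2 * M : ℕ) : ℝ) * (1 / (2 * (M : ℝ))) = 1 := by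
        push_cast
        field_simp
      linarith)
  -- fine points
  obtain ⟨r, hr, e, hem, he00, heH, heg⟩ := greedy
    (fun a b => nrm (ν + 1) (rs (Set.Ioc a b) x) < 20 ∧
      ∀ i, 1 ≤ i → i ≤ K → ¬ (a < ζ i ∧ ζ i ≤ b))
    (by
      intro a b hab
      have h0 : Set.Ioc a b = ∅ := Set.Ioc_eq_empty (by omega)
      simp only [h0, rs_empty, nrm_zero]
      exact ⟨by norm_num, fun i _ _ h => by omega⟩) e0 (σ + 2 * M) H
    (by
      intro h hh0 hh'
      have hmono : ∀ i < σ + 2 * M, h i < h (i + 1) := fun i hi => (hh' i hi).1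
      have hc := M2_cnt K (σ + 2 * M) ζ h hmono
      have hsplit := Finset.card_filter_add_card_filter_not (s := range (σ + 2 * M))
        (fun i => ∃ l, 1 ≤ l ∧ l ≤ K ∧ h i < ζ l ∧ ζ l ≤ h (i + 1))
      rw [Finset.card_range] at hsplit
      refine M2_big ν σ (σ + 2 * M) hσ x hav1 h hmono
        ((range (σ + 2 * M)).filter
          (fun i => ¬ ∃ l, 1 ≤ l ∧ l ≤ K ∧ h i < ζ l ∧ ζ l ≤ h (i + 1)))
        (fun i hi => Finset.mem_range.1 (Finset.mem_filter.1 hi).1) (by omega) ?_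
      intro i hi
      obtain ⟨hi1, hi2⟩ := Finset.mem_filter.1 hi
      by_contra hlt
      refine (hh' i (Finset.mem_range.1 hi1)).2 ⟨not_le.1 hlt, ?_⟩
      intro l hl1 hl2 hl3
      exact hi2 ⟨l, hl1, hl2, hl3.1, hl3.2⟩)
  refine ⟨r, K, e, ζ, fun b => Nat.findGreatest (fun i => ζ i ≤ e b) K, hem, hζm, ?_, ?_, ?_,
    ?_, ?_, hr, hK, ?_⟩
  · rw [he00]; exact he0
  · intro k hk; rw [he00]; exact he0' k hk
  · rw [hζ0, he00]
  · intro k hk; exact (hH k hk).trans_lt heH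
  · intro k hk; exact (hH k hk).trans_lt hζH
  · intro b hb
    beta_reduce
    have k1 : Nat.findGreatest (fun i => ζ i ≤ e b) K ≤ K := Nat.findGreatest_le K
    have k2 : ζ (Nat.findGreatest (fun i => ζ i ≤ e b) K) ≤ e b := by
      refine Nat.findGreatest_spec (P := fun i => ζ i ≤ e b) (Nat.zero_le K) ?_
      rw [hζ0, ← he00]
      exact hem.monotone (Nat.zero_le b)
    have k3 : Nat.findGreatest (fun i => ζ i ≤ e b) K < K →
        e b < ζ (Nat.findGreatest (fun i => ζ i ≤ e b) K + 1) := by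
      intro hlt
      exact not_le.1 (Nat.findGreatest_is_greatest (P := fun i => ζ i ≤ e b)
        (Nat.lt_succ_self _) hlt)
    generalize Nat.findGreatest (fun i => ζ i ≤ e b) K = κ at k1 k2 k3
    have k4 : ∀ k ∈ x.support, e b < k → k < e (b + 1) → k < ζ (κ + 1) := by
      intro k hk h1 h2
      by_contra h3
      rcases Nat.lt_or_ge κ K with hlt | hge
      · exact (heg b hb k h2).2 (κ + 1) (by omega) (by omega) ⟨k3 hlt, not_lt.1 h3⟩
      · have : κ = K := le_antisymm k1 hge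
        rw [this] at h3
        exact h3 ((hH k hk).trans_lt hζH)
    refine ⟨k1, k2, k4, ?_, ?_⟩
    · have h1 := (heg b hb (e (b + 1) - 1)
        (by have := hem (show b < b + 1 by omega); omega)).1
      have h2 : rs (Set.Ioo (e b) (e (b + 1))) x = rs (Set.Ioc (e b) (e (b + 1) - 1)) x := by
        refine rs_congr fun k _ => ?_
        simp only [Set.mem_Ioo, Set.mem_Ioc]
        omega
      rw [h2]
      exact h1
    · have h1 := hζg κ k1 (ζ (κ + 1) - 1) (by have := hζm (show κ < κ + 1 by omega); omega)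
      have h2 : av (ν + 1) (ζ κ + 1) (rs (Set.Ioc (ζ κ) (ζ (κ + 1) - 1)) x)
          ≤ 1 / (2 * (M : ℝ)) := by
        refine av_le_of_bdU (c := 1) (le_refl 1) ?_ h1
        intro k hk
        exact hσ.trans (hsupp k (mem_support_rs.1 hk).2)
      refine le_trans (av_mono _ _ (rs_nonneg _ hx) ?_) h2
      intro k
      rw [rs_apply, rs_apply]
      by_cases hk : k ∈ Set.Ioo (e b) (e (b + 1))
      · rw [if_pos hk]
        by_cases hks : k ∈ x.support
        · have h3 := k4 k hks hk.1 hk.2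
          have h4 := hk.1
          rw [if_pos (by simp only [Set.mem_Ioc]; omega)]
        · have h0 : x k = 0 := by simpa using hks
          rw [h0]
          split_ifs <;> exact le_refl _
      · rw [if_neg hk]
        split_ifs
        · exact hx k
        · exact le_refl _

/-! ### Part M3 -/

private theorem M3_root (x : ℕ) : ∃ t : ℕ, t ^ 5 ≤ x ∧ x < (t + 1) ^ 5 := by
  refine ⟨Nat.findGreatest (fun t => t ^ 5 ≤ x) x, ?_, ?_⟩
  · have h := Nat.findGreatest_spec (P := fun t => t ^ 5 ≤ x) (Nat.zero_le x) (by simp)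
    exact h
  · by_contra hcon
    rw [not_lt] at hcon
    have h1 : Nat.findGreatest (fun t => t ^ 5 ≤ x) x + 1 ≤ x := by
      refine le_trans ?_ hcon
      exact Nat.le_self_pow (by norm_num) _
    have h2 := Nat.le_findGreatest (P := fun t => t ^ 5 ≤ x) h1 hcon
    omega

private theorem M3_pos {w x : ℕ →₀ ℝ} (hw : 0 ≤ w) (hwx : w ≤ x) {k : ℕ} (hk : k ∈ w.support) :
    k ∈ x.support := by
  rw [Finsupp.mem_support_iff] at hk ⊢
  have h1 : 0 ≤ w k := hw k
  have h2 : w k ≤ x k := hwx k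
  have h3 : 0 < w k := lt_of_le_of_ne h1 (Ne.symm hk)
  exact (lt_of_lt_of_le h3 h2).ne'

private theorem M3_T {t a y : ℕ} (h : a ^ 5 < y) (h2 : y < (t + 1) ^ 5) : a ≤ t := by
  by_contra hcon
  have h3 : t + 1 ≤ a := by omega
  have h4 := Nat.pow_le_pow_left h3 5
  omega

/-- ROW M3 (the good part is seen at most 42). Notation of `structure0`; `w ≤ x`; `w` lives in the blocks `Ioo (e b) (e (b+1))`, `b ≤ r`, and there only
beyond `(e b)^20`. Given an `S_{ν+1}` family `Q, E, j` with sizes `≥ σ`: `marking` with `W a = Ico (ζ a) (ζ (a+1))`, `a ≤ K`: `Q1`, `card ≤ K+1 ≤ 3M`: `val Q1 E j w ≤ val Q1 E j x ≤ 1` by `hfew` (`schU_zero`, `Fam.sub`).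
The rest `Q2 = Q \ Q1`: `block_lemma` with `i = ν`, blocks `B b = Ioo (e b) (e (b+1))` for `b ≤ r` (and `∅` for `b > r`), `σ b = ζ (κ b)^2`, `ρ b = (e b)^2`,
`γ b = 20` if `rs (B b) w ≠ 0`, `0` otherwise; `α b = 40 * Gam 0 / t_b`, `β b = 40 * Gam ν / t'_b`, where `t_b^5 ≤ ζ (κ b) < (t_b+1)^5`, `t'_b^5 ≤ e b < (t'_b+1)^5`
(and all three `= 0` where `rs (B b) w = 0` or `b > r`).
`h1`: `nrm (rs (B b) w) ≤ nrm (rs (B b) x) ≤ 20`, `bd_nrm`, `bd_mono_size` (`2 ≤ ζ^2`). `hσ`: `q ∈ Q2`, `k ∈ E q ∩ B b ∩ w.support`: `k ∈ W (κ b)` (`ζ (κ b) ≤ e b < k < ζ (κ b + 1)`), so by the marking property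
there is `k' ∈ w.support ∩ W (κ b)` with `k' < j q`; `k'` is in some block `b'`, `k' > (e b')^20`, and `ζ (κ b) ≤ k'`... we need `ζ (κ b)^2 ≤ j q`: `k' < ζ (κ b + 1)`. If `e b' ≥ ζ (κ b)` fine: `k' > (e b')^20 ≥ ζ (κ b)^2`. If `e b' < ζ (κ b)`, then
`κ b' < κ b`, so `k' < ζ (κ b' + 1) ≤ ζ (κ b) ≤ k'`, a contradiction.
`hC`: `C = 41`. `b0`, `P ∈ w.support ∩ B b0`. `P < e (b0+1)`. Let `b1 > b0` be the least index with `rs (B b1) w ≠ 0` (if any): its term is `≤ γ = 20`. For `b > b1` with `rs (B b) w ≠ 0`: a point of `w` in block `b1` is `> (e b1)^20` and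
`< e (b1+1) ≤ e b`, so `e b > (e b1)^20`, hence `t'_b ≥ (e b1)^4` and `P * β b ≤ P * 40 Gam ν / (e b1)^4 ≤ 40 Gam ν / (e b1)^3 ≤ 40 Gam ν / s^2` (`P < e (b0+1) ≤ e b1`, `s^10 < e 0 ≤ e b1`); `α b ≤ 40 Gam 0 / s^2` since `ζ (κ b) ≥ e 0 > s^10`, `t_b ≥ s^2`.
At most `r ≤ s` such `b`: total `≤ 20 + 20 + s * (40 Gam 0 + 40 Gam ν)/s^2 ≤ 41` (`s ≥ m0 ν ≥ 40 (Gam 0 + Gam ν)`). -/
theorem vw (ν M s σ : ℕ) (hM : 1 ≤ M) (hs : m0 ν ≤ s) (hσ : 1 ≤ σ) (x w : ℕ →₀ ℝ)
    (hx : 0 ≤ x) (hw : 0 ≤ w) (hwx : w ≤ x) (r K : ℕ) (e ζ κ : ℕ → ℕ) (he : StrictMono e)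
    (hζ : StrictMono ζ) (he0 : s ^ 10 < e 0) (hζ0 : ζ 0 = e 0)
    (hζK : ∀ k ∈ x.support, k < ζ (K + 1)) (hr : r ≤ s) (hK : K < 2 * M)
    (hb : ∀ b ≤ r, κ b ≤ K ∧ ζ (κ b) ≤ e b ∧
        (∀ k ∈ x.support, e b < k → k < e (b + 1) → k < ζ (κ b + 1)) ∧
        nrm (ν + 1) (rs (Set.Ioo (e b) (e (b + 1))) x) < 20)
    (hfew : Bd (ν + 1) (SchU 0 (3 * M)) σ x 1)
    (hw1 : ∀ k ∈ w.support, ∃ b ≤ r, e b < k ∧ k < e (b + 1) ∧ (e b) ^ 20 < k)
    (hwα : ∀ b ≤ r, ∀ t : ℕ, t ^ 5 ≤ ζ (κ b) → ζ (κ b) < (t + 1) ^ 5 →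
      Bd (ν + 1) (Sch 0) (ζ (κ b) ^ 2) (rs (Set.Ioo (e b) (e (b + 1))) w) (40 * Gam 0 / t))
    (hwβ : ∀ b ≤ r, ∀ t : ℕ, t ^ 5 ≤ e b → e b < (t + 1) ^ 5 →
      Bd (ν + 1) (Sch ν) (e b ^ 2) (rs (Set.Ioo (e b) (e (b + 1))) w) (40 * Gam ν / t)) :
    Bd (ν + 1) (Sch (ν + 1)) σ w 42 := by
  have hm0 : 1000000000 * (ν + 1) ≤ s := by
    refine le_trans ?_ hs
    unfold m0 hh
    nlinarith [Nat.zero_le ν]
  have hs1 : 1000000000 ≤ s := by nlinarith [Nat.zero_le ν]
  have hs10 : s ≤ s ^ 10 := Nat.le_self_pow (by norm_num) _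
  have he_ge : ∀ b, s ^ 10 < e b := fun b => lt_of_lt_of_le he0 (he.monotone (Nat.zero_le b))
  have hζ_ge : ∀ a, s ^ 10 < ζ a := fun a =>
    lt_of_lt_of_le he0 (hζ0 ▸ hζ.monotone (Nat.zero_le a))
  have huniq : ∀ b b' k, e b < k → k < e (b + 1) → e b' < k → k < e (b' + 1) → b = b' := by
    intro b b' k h1 h2 h3 h4
    rcases lt_trichotomy b b' with h | h | h
    · have := he.monotone (show b + 1 ≤ b' from h)
      omega
    · exact h
    · have := he.monotone (show b' + 1 ≤ b from h)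
      omega
  choose T hT1 hT2 using M3_root
  intro Q E j hF hQ
  obtain ⟨Q1, hQ1, hcard, hmark⟩ :=
    marking w K (fun a => Set.Ico (ζ a) (ζ (a + 1))) Q E j σ hF
  have hsplit : val (ν + 1) Q E j w = val (ν + 1) (Q \ Q1) E j w + val (ν + 1) Q1 E j w := by
    unfold val
    exact (Finset.sum_sdiff hQ1).symm
  have hv1 : val (ν + 1) Q1 E j w ≤ 1 := by
    refine (val_mono (ν + 1) Q1 E j hw hwx).trans ?_
    refine hfew Q1 E j (Fam.sub hF hQ1 (fun _ _ => subset_rfl) (fun _ _ => le_rfl)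
      (fun q hq => hF.sz q (hQ1 hq))) ?_
    rw [schU_zero]
    omega
  have hGam0 : Gam 0 = 240 := by unfold Gam; norm_num
  have hGamν : Gam ν = 240 + 260 * (ν : ℝ) := rfl
  have hGν0 : 0 ≤ Gam ν := by rw [hGamν]; positivity
  have hsR : (1000000000 : ℝ) * ((ν : ℝ) + 1) ≤ (s : ℝ) := by exact_mod_cast hm0
  have hν0 : (0 : ℝ) ≤ (ν : ℝ) := Nat.cast_nonneg ν
  have hspos : (0 : ℝ) < (s : ℝ) := by nlinarith
  have hbig : 40 * Gam 0 + 40 * Gam ν ≤ (s : ℝ) := by
    rw [hGam0, hGamν]; nlinarith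
  have hv2 : val (ν + 1) (Q \ Q1) E j w ≤ 41 := by
    refine block_lemma (ν + 1) ν w r (fun b => Set.Ioo (e b) (e (b + 1))) ?_ ?_
      (fun b => ζ (κ b) ^ 2) (fun b => e b ^ 2)
      (fun b => if rs (Set.Ioo (e b) (e (b + 1))) w = 0 then 0 else 40 * Gam 0 / (T (ζ (κ b)) : ℝ))
      (fun b => if rs (Set.Ioo (e b) (e (b + 1))) w = 0 then 0 else 40 * Gam ν / (T (e b) : ℝ))
      (fun b => if rs (Set.Ioo (e b) (e (b + 1))) w = 0 then 0 else 20)
      ?_ ?_ ?_ ?_ ?_ 41 (by norm_num) ?_ (Q \ Q1) E j ?_ ?_ ?_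
    · intro p q hpq a ha b hb'
      have := he.monotone (show p + 1 ≤ q from hpq)
      exact lt_trans (lt_of_lt_of_le ha.2 this) hb'.1
    · intro k hk
      obtain ⟨b, hbr, h1, h2, _⟩ := hw1 k hk
      exact ⟨b, hbr, h1, h2⟩
    · intro b
      show 0 ≤ if rs (Set.Ioo (e b) (e (b + 1))) w = 0 then (0 : ℝ)
        else 40 * Gam ν / (T (e b) : ℝ)
      split_ifs
      · exact le_rfl
      · positivity
    · intro b hbr
      show Bd (ν + 1) (Sch (ν + 1)) (ζ (κ b) ^ 2) (rs (Set.Ioo (e b) (e (b + 1))) w)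
        (if rs (Set.Ioo (e b) (e (b + 1))) w = 0 then 0 else 20)
      split_ifs with h0
      · rw [h0]; exact bd_zero _ _ _
      · have hn := (hb b hbr).2.2.2
        have hn2 : nrm (ν + 1) (rs (Set.Ioo (e b) (e (b + 1))) w) ≤ 20 :=
          (nrm_mono (ν + 1) (rs_nonneg _ hw) (rs_mono _ hwx)).trans hn.le
        refine bd_mono_B hn2 (bd_mono_size ?_ (bd_nrm (ν + 1) (by omega) _))
        have := hζ_ge (κ b)
        nlinarith
    · intro b hbr
      show Bd (ν + 1) (Sch 0) (ζ (κ b) ^ 2) (rs (Set.Ioo (e b) (e (b + 1))) w)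
        (if rs (Set.Ioo (e b) (e (b + 1))) w = 0 then 0 else 40 * Gam 0 / (T (ζ (κ b)) : ℝ))
      split_ifs with h0
      · rw [h0]; exact bd_zero _ _ _
      · exact hwα b hbr _ (hT1 _) (hT2 _)
    · intro b hbr
      show Bd (ν + 1) (Sch ν) (e b ^ 2) (rs (Set.Ioo (e b) (e (b + 1))) w)
        (if rs (Set.Ioo (e b) (e (b + 1))) w = 0 then 0 else 40 * Gam ν / (T (e b) : ℝ))
      split_ifs with h0
      · rw [h0]; exact bd_zero _ _ _
      · exact hwβ b hbr _ (hT1 _) (hT2 _)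
    · intro b hbr k hk hkw
      obtain ⟨b', hbr', h1, h2, h3⟩ := hw1 k hkw
      have hbb := huniq b b' k hk.1 hk.2 h1 h2
      subst hbb
      have h4 : e b ^ 2 ≤ e b ^ 20 := Nat.pow_le_pow_right (by have := he_ge b; omega) (by norm_num)
      show e b ^ 2 ≤ k + 1
      omega
    · intro b0 hb0 P hP hPb
      show (if rs (Set.Ioo (e b0) (e (b0 + 1))) w = 0 then (0 : ℝ) else 20)
        + ∑ b ∈ Finset.Ioc b0 r, min
          (if rs (Set.Ioo (e b) (e (b + 1))) w = 0 then (0 : ℝ) else 20)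
          ((if rs (Set.Ioo (e b) (e (b + 1))) w = 0 then (0 : ℝ)
              else 40 * Gam 0 / (T (ζ (κ b)) : ℝ))
            + (P : ℝ) * (if rs (Set.Ioo (e b) (e (b + 1))) w = 0 then (0 : ℝ)
              else 40 * Gam ν / (T (e b) : ℝ))) ≤ 41
      have hg0 : (if rs (Set.Ioo (e b0) (e (b0 + 1))) w = 0 then (0 : ℝ) else 20) ≤ 20 := by
        split_ifs <;> norm_num
      -- least later block meeting `w`
      by_cases hex : ∃ b1, b0 < b1 ∧ rs (Set.Ioo (e b1) (e (b1 + 1))) w ≠ 0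
      · classical
        have hspec := Nat.find_spec hex
        have hmin : ∀ b, b < Nat.find hex →
            ¬ (b0 < b ∧ rs (Set.Ioo (e b) (e (b + 1))) w ≠ 0) :=
          fun b hb => Nat.find_min hex hb
        generalize Nat.find hex = b1 at hspec hmin
        obtain ⟨hb01, hne1⟩ := hspec
        have hterm : ∀ b ∈ Finset.Ioc b0 r, min
          (if rs (Set.Ioo (e b) (e (b + 1))) w = 0 then (0 : ℝ) else 20)
          ((if rs (Set.Ioo (e b) (e (b + 1))) w = 0 then (0 : ℝ)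
              else 40 * Gam 0 / (T (ζ (κ b)) : ℝ))
            + (P : ℝ) * (if rs (Set.Ioo (e b) (e (b + 1))) w = 0 then (0 : ℝ)
              else 40 * Gam ν / (T (e b) : ℝ))) ≤ (if b = b1 then 20 else 0) + 1 / (s : ℝ) := by
          intro b hb'
          rw [Finset.mem_Ioc] at hb'
          have hinv : 0 ≤ 1 / (s : ℝ) := by positivity
          by_cases h0 : rs (Set.Ioo (e b) (e (b + 1))) w = 0
          · rw [if_pos h0]
            refine (min_le_left _ _).trans ?_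
            split_ifs
            · linarith
            · linarith
          · rw [if_neg h0, if_neg h0, if_neg h0]
            by_cases hbb : b = b1
            · rw [if_pos hbb]
              refine (min_le_left _ _).trans ?_
              linarith
            · rw [if_neg hbb, zero_add]
              refine (min_le_right _ _).trans ?_
              have hlt : b1 < b := by
                rcases lt_trichotomy b b1 with h | h | h
                · exact absurd ⟨hb'.1, h0⟩ (hmin b h)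
                · exact absurd h hbb
                · exact h
              -- a point of w in block b1
              obtain ⟨k, hk⟩ := Finsupp.support_nonempty_iff.2 hne1
              rw [mem_support_rs] at hk
              obtain ⟨b', hbr', h1, h2, h3⟩ := hw1 k hk.2
              have hbb' := huniq b1 b' k hk.1.1 hk.1.2 h1 h2
              subst hbb'
              have h5 : e b1 ^ 20 < e b :=
                lt_of_lt_of_le (lt_trans h3 h2) (he.monotone hlt)
              have hTe : e b1 ^ 4 ≤ T (e b) := by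
                refine M3_T ?_ (hT2 (e b))
                rw [← pow_mul]; exact h5
              have hTz : s ^ 2 ≤ T (ζ (κ b)) := by
                refine M3_T ?_ (hT2 (ζ (κ b)))
                rw [← pow_mul]; exact hζ_ge _
              have hP : P < e b1 := lt_of_lt_of_le hPb.2 (he.monotone hb01)
              have hes : s ≤ e b1 := by have := he_ge b1; omega
              have hTeR : ((e b1 : ℝ)) ^ 4 ≤ (T (e b) : ℝ) := by exact_mod_cast hTe
              have hTzR : ((s : ℝ)) ^ 2 ≤ (T (ζ (κ b)) : ℝ) := by exact_mod_cast hTz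
              have hPR : (P : ℝ) ≤ (e b1 : ℝ) := by exact_mod_cast hP.le
              have hesR : (s : ℝ) ≤ (e b1 : ℝ) := by exact_mod_cast hes
              have hepos : (0 : ℝ) < (e b1 : ℝ) := lt_of_lt_of_le hspos hesR
              have hs1R : (1 : ℝ) ≤ (s : ℝ) := by nlinarith
              have hA : 40 * Gam 0 / (T (ζ (κ b)) : ℝ) ≤ 40 * Gam 0 / (s : ℝ) ^ 2 :=
                div_le_div_of_nonneg_left (by rw [hGam0]; norm_num) (by positivity) hTzR
              have hB1 : 40 * Gam ν / (T (e b) : ℝ) ≤ 40 * Gam ν / (e b1 : ℝ) ^ 4 :=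
                div_le_div_of_nonneg_left (by positivity) (by positivity) hTeR
              have hB2 : (P : ℝ) * (40 * Gam ν / (T (e b) : ℝ))
                  ≤ (e b1 : ℝ) * (40 * Gam ν / (e b1 : ℝ) ^ 4) :=
                mul_le_mul hPR hB1 (by positivity) hepos.le
              have hB3 : (e b1 : ℝ) * (40 * Gam ν / (e b1 : ℝ) ^ 4)
                  = 40 * Gam ν / (e b1 : ℝ) ^ 3 := by
                field_simp
              have hB4 : 40 * Gam ν / (e b1 : ℝ) ^ 3 ≤ 40 * Gam ν / (s : ℝ) ^ 2 := by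
                refine div_le_div_of_nonneg_left (by positivity) (by positivity) ?_
                have q1 : (s : ℝ) ^ 2 ≤ (e b1 : ℝ) ^ 2 := pow_le_pow_left₀ hspos.le hesR 2
                have q2 : (1 : ℝ) ≤ (e b1 : ℝ) := hs1R.trans hesR
                nlinarith [sq_nonneg (e b1 : ℝ)]
              have hfin : 40 * Gam 0 / (s : ℝ) ^ 2 + 40 * Gam ν / (s : ℝ) ^ 2 ≤ 1 / (s : ℝ) := by
                rw [← add_div, div_le_div_iff₀ (by positivity) hspos]
                nlinarith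
              linarith
        have hsum := Finset.sum_le_sum hterm
        have hsum2 : ∑ b ∈ Finset.Ioc b0 r, ((if b = b1 then (20 : ℝ) else 0) + 1 / (s : ℝ))
            ≤ 21 := by
          rw [Finset.sum_add_distrib, Finset.sum_const, Nat.card_Ioc, nsmul_eq_mul]
          have q1 : ∑ b ∈ Finset.Ioc b0 r, (if b = b1 then (20 : ℝ) else 0) ≤ 20 := by
            rw [Finset.sum_ite_eq']
            split_ifs <;> norm_num
          have q2 : (((r - b0 : ℕ)) : ℝ) * (1 / (s : ℝ)) ≤ 1 := by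
            have q3 : (((r - b0 : ℕ)) : ℝ) ≤ (s : ℝ) := by
              exact_mod_cast (le_trans (Nat.sub_le r b0) hr)
            have q4 : (((r - b0 : ℕ)) : ℝ) * (1 / (s : ℝ)) ≤ (s : ℝ) * (1 / (s : ℝ)) :=
              mul_le_mul_of_nonneg_right q3 (by positivity)
            rw [mul_one_div_cancel hspos.ne'] at q4
            exact q4
          linarith
        linarith
      · have hzero : ∀ b ∈ Finset.Ioc b0 r, min
          (if rs (Set.Ioo (e b) (e (b + 1))) w = 0 then (0 : ℝ) else 20)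
          ((if rs (Set.Ioo (e b) (e (b + 1))) w = 0 then (0 : ℝ)
              else 40 * Gam 0 / (T (ζ (κ b)) : ℝ))
            + (P : ℝ) * (if rs (Set.Ioo (e b) (e (b + 1))) w = 0 then (0 : ℝ)
              else 40 * Gam ν / (T (e b) : ℝ))) ≤ 0 := by
          intro b hb'
          rw [Finset.mem_Ioc] at hb'
          have h0 : rs (Set.Ioo (e b) (e (b + 1))) w = 0 := by
            by_contra hne
            exact hex ⟨b, hb'.1, hne⟩
          rw [if_pos h0]
          exact min_le_left _ _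
        have hsum := Finset.sum_nonpos hzero
        linarith
    · exact Fam.sub hF Finset.sdiff_subset (fun _ _ => subset_rfl) (fun _ _ => le_rfl)
        (fun q hq => hσ.trans (hF.sz q (Finset.sdiff_subset hq)))
    · exact sch_subset (ν + 1) Finset.sdiff_subset hQ
    · intro q hq b hbr k hkE hkB hkw
      rw [Finset.mem_sdiff] at hq
      have hkx := M3_pos hw hwx hkw
      obtain ⟨hκK, hζe, hκ1, _⟩ := hb b hbr
      have hkW : k ∈ Set.Ico (ζ (κ b)) (ζ (κ b + 1)) :=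
        ⟨hζe.trans hkB.1.le, hκ1 k hkx hkB.1 hkB.2⟩
      obtain ⟨k', hk'w, hk'W, hk'j⟩ := hmark q hq.1 hq.2 k hkE hkw (κ b) hκK hkW
      obtain ⟨b', hbr', h1, h2, h3⟩ := hw1 k' hk'w
      show ζ (κ b) ^ 2 ≤ j q
      by_cases hle : ζ (κ b) ≤ e b'
      · have h4 : ζ (κ b) ^ 2 ≤ e b' ^ 2 := Nat.pow_le_pow_left hle 2
        have h5 : e b' ^ 2 ≤ e b' ^ 20 :=
          Nat.pow_le_pow_right (by have := he_ge b'; omega) (by norm_num)
        omega
      · rw [not_le] at hle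
        exfalso
        obtain ⟨_, hζe', hκ1', _⟩ := hb b' hbr'
        have h4 : ζ (κ b') < ζ (κ b) := lt_of_le_of_lt hζe' hle
        have h5 : κ b' < κ b := hζ.lt_iff_lt.1 h4
        have h6 : ζ (κ b' + 1) ≤ ζ (κ b) := hζ.monotone h5
        have h7 := hκ1' k' (M3_pos hw hwx hk'w) h1 h2
        have h8 := hk'W.1
        omega
  rw [hsplit]
  linarith

end Pool.Agent.Lib.MP_1bb70c_an
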