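import Mathlib

/-!
# MP_1bb70c_an: the norm of the spaces `X^n_{0,1}` (official definitions)

Coordinates are indexed by the positive integers: below we use finitely supported functions on `ℕ`
and the space `c_00` of the problem is the space of those with `x 0 = 0` (see the file E1).
-/

set_option autoImplicit false

open Finset
open scoped Classical

noncomputable section

namespace Pool.Agent.Lib.MP_1bb70c_an

/-- The Schreier families: `S_0` consists of the sets with at most one element, and `S_{k+1}` of the unions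
of `d` successive sets `E_1 < ... < E_d` in `S_k` with `d ≤ min E_1`. -/
def Schreier : ℕ → Finset ℕ → Prop
  | 0, s => s.card ≤ 1
  | (k + 1), s => ∃ (d : ℕ) (E : Fin d → Finset ℕ),
      (∀ i, ∀ a ∈ E i, d ≤ a) ∧ (∀ i j, i < j → ∀ a ∈ E i, ∀ b ∈ E j, a < b) ∧
      (∀ i, Schreier k (E i)) ∧ s = Finset.univ.biUnion E

/-- The sup norm of a finitely supported sequence. -/
def supn (x : ℕ →₀ ℝ) : ℝ := ⨆ k, |x k|

/-- `avg ν j x = sup (1/j) ∑ ν (E_p x)` over `d ≤ j` and successive finite sets `E_1 < ... < E_d`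
(this is `‖x‖_j` if `ν` is the norm; `x.filter (· ∈ E)` is the restriction `E x`). -/
def avg (ν : (ℕ →₀ ℝ) → ℝ) (j : ℕ) (x : ℕ →₀ ℝ) : ℝ :=
  sSup {r | ∃ (d : ℕ) (E : Fin d → Finset ℕ), d ≤ j ∧
    (∀ p q, p < q → ∀ a ∈ E p, ∀ b ∈ E q, a < b) ∧
    r = (1 / (j : ℝ)) * ∑ p, ν (x.filter (fun k => k ∈ E p))}

/-- The right hand side of the implicit equation of the norm of `X^n_{0,1}`, for a candidate `ν`:
the maximum of `‖x‖_∞` and `sup ∑_q ‖E_q x‖_{j_q}` over finite nonempty sets `E_1 < ... < E_d` whose minima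
`a_1, ..., a_d` form a set in `S_n`, and integers `2 ≤ j_1 < ... < j_d` with `j_q > max E_p` for `p < q`. -/
def stepN (n : ℕ) (ν : (ℕ →₀ ℝ) → ℝ) (x : ℕ →₀ ℝ) : ℝ :=
  max (supn x) (sSup {r | ∃ (d : ℕ) (E : Fin d → Finset ℕ) (a j : Fin d → ℕ),
    (∀ q, IsLeast (↑(E q) : Set ℕ) (a q)) ∧
    (∀ p q, p < q → ∀ k ∈ E p, ∀ l ∈ E q, k < l) ∧
    Schreier n (Finset.univ.image a) ∧
    (∀ q, 2 ≤ j q) ∧ StrictMono j ∧ (∀ p q, p < q → ∀ k ∈ E p, k < j q) ∧
    r = ∑ q, avg ν (j q) (x.filter (fun k => k ∈ E q))})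

/-- The levels of the norm: `lev 0 = ‖ ‖_∞`, and `lev (l+1)` is the right hand side of the implicit equation
for `lev l`. -/
def lev (n : ℕ) : ℕ → (ℕ →₀ ℝ) → ℝ
  | 0 => supn
  | (l + 1) => stepN n (lev n l)

/-- The norm of `X^n_{0,1}` on finitely supported sequences: the limit of the levels. It satisfies the
implicit equation: theorem `nrm_fix` (`nrm n x = stepN n (nrm n) x`). -/
def nrm (n : ℕ) (x : ℕ →₀ ℝ) : ℝ := ⨆ l, lev n l x

end Pool.Agent.Lib.MP_1bb70c_an
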