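import Pool.Agent.Lib.MP_1bb70c_an.Star

set_option autoImplicit false

open Finset
open scoped Classical

noncomputable section

namespace Pool.Agent.Lib.MP_1bb70c_an

/-! ### Part T0 -/

/-- `x` is diffuse for `S_h` up to `ε`. -/
def Diff (ν h : ℕ) (x : ℕ →₀ ℝ) (ε : ℝ) : Prop :=
  ∀ σ : ℕ, 1 ≤ σ → Bd (ν + 1) (Sch h) σ x (8 * (1 / (σ : ℝ) + ε))

/-- Level `0`: no condition; level `h + 1`: `Diff ν h`. -/
def Lv (ν : ℕ) : ℕ → (ℕ →₀ ℝ) → ℝ → Prop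
  | 0, _, _ => True
  | (h + 1), x, ε => Diff ν h x ε

/-- Successive nonempty finite index sets with `i ≤ min (A i)`. -/
def GoodSel (A : ℕ → Finset ℕ) : Prop :=
  (∀ i, (A i).Nonempty) ∧ (∀ i, ∀ k ∈ A i, i ≤ k) ∧
    ∀ i i', i < i' → ∀ k ∈ A i, ∀ k' ∈ A i', k < k'

/-- Weights of convex combinations on the sets `A i`. -/
def Wt (A : ℕ → Finset ℕ) (c : ℕ → ℕ → ℝ) : Prop :=
  (∀ i k, 0 ≤ c i k) ∧ ∀ i, ∑ k ∈ A i, c i k = 1

/-- Sums of members of `b`. -/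
def SumSel (A : ℕ → Finset ℕ) (b : ℕ → ℕ →₀ ℝ) (i : ℕ) : ℕ →₀ ℝ := ∑ k ∈ A i, b k

/-- Combinations of members of `x0`. -/
def Comb (A : ℕ → Finset ℕ) (c : ℕ → ℕ → ℝ) (x0 : ℕ → ℕ →₀ ℝ) (i : ℕ) : ℕ →₀ ℝ :=
  ∑ k ∈ A i, c i k • x0 k

/-! ### Part T9 -/

theorem T9_mono {r : ℕ} {ι : ℕ → ℕ} (hι : ∀ l, l + 1 < r → ι l < ι (l + 1)) :
    ∀ q p, p < q → q < r → ι p < ι q := by
  intro q
  induction q with
  | zero => intro p hp; omega
  | succ q ih =>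
    intro p hp hq
    rcases Nat.lt_succ_iff_lt_or_eq.1 hp with h | h
    · exact (ih p h (by omega)).trans (hι q hq)
    · subst h; exact hι p hq

theorem T9_mono_le {r : ℕ} {ι : ℕ → ℕ} (hι : ∀ l, l + 1 < r → ι l < ι (l + 1)) (p q : ℕ)
    (hpq : p ≤ q) (hq : q < r) : ι p ≤ ι q := by
  rcases Nat.lt_or_ge p q with h | h
  · exact (T9_mono hι q p h hq).le
  · have : p = q := by omega
    subst this; exact le_refl _

/-- the blocks -/
def T9_B (x : ℕ → ℕ →₀ ℝ) (r : ℕ) (ι : ℕ → ℕ) (l : ℕ) : Set ℕ :=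
  if l < r then (↑(x (ι l)).support : Set ℕ) else ∅

theorem T9_mem {x : ℕ → ℕ →₀ ℝ} {r : ℕ} {ι : ℕ → ℕ} {l k : ℕ} :
    k ∈ T9_B x r ι l ↔ l < r ∧ k ∈ (x (ι l)).support := by
  unfold T9_B
  split_ifs with h
  · simp [h]
  · simp [h]

theorem T9_succ {x : ℕ → ℕ →₀ ℝ} (hb : Blk x) {r : ℕ} {ι : ℕ → ℕ}
    (hι : ∀ l, l + 1 < r → ι l < ι (l + 1)) : SuccS (T9_B x r ι) := by
  intro p q hpq a ha b hb'
  rw [T9_mem] at ha hb'
  exact hb.2 (ι p) (ι q) (T9_mono hι q p hpq hb'.1) a ha.2 b hb'.2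

theorem T9_apply (x : ℕ → ℕ →₀ ℝ) (r : ℕ) (ι : ℕ → ℕ) (k : ℕ) :
    ((1 / (r : ℝ)) • ∑ l ∈ range r, x (ι l)) k = (1 / (r : ℝ)) * ∑ l ∈ range r, x (ι l) k := by
  rw [Finsupp.smul_apply, Finsupp.finsetSum_apply, smul_eq_mul]

theorem T9_cov (x : ℕ → ℕ →₀ ℝ) (r : ℕ) (ι : ℕ → ℕ) :
    ∀ k ∈ ((1 / (r : ℝ)) • ∑ l ∈ range r, x (ι l)).support, ∃ b < r, k ∈ T9_B x r ι b := by
  intro k hk
  rw [Finsupp.mem_support_iff, T9_apply] at hk
  have h1 : ∑ l ∈ range r, x (ι l) k ≠ 0 := fun h => hk (by rw [h, mul_zero])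
  obtain ⟨b, hb, hne⟩ := Finset.exists_ne_zero_of_sum_ne_zero h1
  exact ⟨b, Finset.mem_range.1 hb, T9_mem.2 ⟨Finset.mem_range.1 hb, Finsupp.mem_support_iff.2 hne⟩⟩

theorem T9_rs {x : ℕ → ℕ →₀ ℝ} (hb : Blk x) {r : ℕ} {ι : ℕ → ℕ}
    (hι : ∀ l, l + 1 < r → ι l < ι (l + 1)) {b : ℕ} (hbr : b < r) :
    rs (T9_B x r ι b) ((1 / (r : ℝ)) • ∑ l ∈ range r, x (ι l)) = (1 / (r : ℝ)) • x (ι b) := by
  ext k
  rw [rs_apply, T9_apply, Finsupp.smul_apply, smul_eq_mul]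
  by_cases hk : k ∈ T9_B x r ι b
  · rw [if_pos hk]
    congr 1
    rw [Finset.sum_eq_single b]
    · intro l hl hlb
      by_contra hne
      have hl' : k ∈ T9_B x r ι l :=
        T9_mem.2 ⟨Finset.mem_range.1 hl, Finsupp.mem_support_iff.2 hne⟩
      rcases lt_or_gt_of_ne hlb with h | h
      · exact lt_irrefl _ (T9_succ hb hι l b h k hl' k hk)
      · exact lt_irrefl _ (T9_succ hb hι b l h k hk k hl')
    · intro h; exact absurd (Finset.mem_range.2 hbr) h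
  · rw [if_neg hk]
    have : x (ι b) k = 0 := by
      by_contra hne
      exact hk (T9_mem.2 ⟨hbr, Finsupp.mem_support_iff.2 hne⟩)
    rw [this, mul_zero]

theorem T9_av (ν : ℕ) (x : ℕ → ℕ →₀ ℝ)
    (h2 : ∀ i, nrm (ν + 1) (x i) ≤ 2) (hb : Blk x) (r : ℕ) (hr : 1 ≤ r) (ι : ℕ → ℕ)
    (hι : ∀ l, l + 1 < r → ι l < ι (l + 1)) (σ : ℕ) (hσ : 1 ≤ σ) :
    Bd (ν + 1) (Sch 0) σ ((1 / (r : ℝ)) • ∑ l ∈ range r, x (ι l)) (2 / r + 2 / σ) := by
  have hr' : (0 : ℝ) < r := by exact_mod_cast hr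
  have hσ' : (0 : ℝ) < σ := by exact_mod_cast hσ
  rw [bd_zero_iff _ _ hσ _ _ (by positivity)]
  have h1 : BS (ν + 1) (r * (0 + 1)) (2 / r) ((1 / (r : ℝ)) • ∑ l ∈ range r, x (ι l)) := by
    refine bs_blocks (ν + 1) _ r (T9_B x r ι) (T9_succ hb hι) (T9_cov x r ι) 0 (2 / r) (le_refl _)
      (by positivity) fun b hbr => ?_
    apply bs_of_nrm
    rw [T9_rs hb hι hbr, nrm_smul, abs_of_pos (by positivity)]
    have := mul_le_mul_of_nonneg_left (h2 (ι b)) (by positivity : (0 : ℝ) ≤ 1 / (r : ℝ))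
    refine this.trans (le_of_eq ?_)
    ring
  refine (bs_av h1 σ hσ).trans (le_of_eq ?_)
  field_simp
  ring

/-- ROW T9 (averages of diffuse vectors). `ρ l` below = least point of `(x (ι l)).support`.
`avg_step0`: `z = (1/r) ∑_{l<r} x (ι l)`: `bs_blocks` with the `r` blocks `(x (ι l)).support`, each piece of norm `≤ 2/r` (`bs_of_nrm`): `BS r (2/r) z`, so `av σ z ≤ (2/r)(1 + r/σ) = 2/r + 2/σ` (`bs_av`, `bd_zero_iff`).
`avg_step`: `g a :=` a number such that `g a ≥ 8 r (a+1)` and `ε i ≤ 1/(8 r (a+1))` for all `i ≥ g a`, and `g a ≥ g 0`-type conditions `≥ 8r`. `bd_first_rest` (for `Sch (h+1)`) with `ρ = ` least point of `z.support` (`= ρ 0 ≥ ι 0 ≥ 8r`):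
first average `≤ 2/r + 2/σ`; rest: `Bd (Sch (h+1)) (ρ+1) z (6/r)` by `block_lemma` (n = ν+1, i = h) with `B l = (x (ι l)).support` (`l < r`), `σ l = ρ+1`, `ρ l`, `γ l = 2/r` (`bd_nrm`, `bd_sch_up` as `h+1 ≤ ν+1`, `bd_mono_size`, `bd_smul`),
`α l = (8/r)(1/(ρ+1) + ε (ι l)) ≤ 2/r^2` (`Diff`, `bd_sch_up`), `β l = (8/r)(1/ρ l + ε (ι l))`. `hC`: for `P ∈ (x (ι b0)).support`, `b0 < l`: `P ≤ a` := largest point of `(x (ι (l-1))).support`; `ρ l ≥ ι l ≥ g a`, so `P β l ≤ P (8/r) (2/(8 r (a+1))) ≤ 2/r^2`.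
Sum over `l < r`: `2/r + 2/r + 2/r`. Total `2/σ + 8/r`. -/
theorem avg_step0 (ν : ℕ) (x : ℕ → ℕ →₀ ℝ) (hx : ∀ i, 0 ≤ x i)
    (h2 : ∀ i, nrm (ν + 1) (x i) ≤ 2) (hb : Blk x) (r : ℕ) (hr : 1 ≤ r) (ι : ℕ → ℕ)
    (hι : ∀ l, l + 1 < r → ι l < ι (l + 1)) :
    Diff ν 0 ((1 / (r : ℝ)) • ∑ l ∈ range r, x (ι l)) (1 / (r : ℝ)) := by
  intro σ hσ
  have hr' : (0 : ℝ) < r := by exact_mod_cast hr
  have hσ' : (0 : ℝ) < σ := by exact_mod_cast hσ
  refine bd_mono_B ?_ (T9_av ν x h2 hb r hr ι hι σ hσ)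
  have e1 : (0 : ℝ) < 1 / σ := by positivity
  have e2 : (0 : ℝ) < 1 / r := by positivity
  have e3 : (2 : ℝ) / r + 2 / σ = 2 * (1 / r) + 2 * (1 / σ) := by ring
  rw [e3]
  linarith

theorem avg_step (ν h : ℕ) (hh : h + 1 ≤ ν + 1) (x : ℕ → ℕ →₀ ℝ) (hx : ∀ i, 0 ≤ x i)
    (h2 : ∀ i, nrm (ν + 1) (x i) ≤ 2) (hb : Blk x) (hne : ∀ i, (x i).support.Nonempty)
    (ε : ℕ → ℝ) (hε0 : ∀ i, 0 ≤ ε i) (hε : ∀ η : ℝ, 0 < η → ∃ i0, ∀ i, i0 ≤ i → ε i ≤ η)
    (hd : ∀ i, Diff ν h (x i) (ε i)) (r : ℕ) (hr : 1 ≤ r) :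
    ∃ g : ℕ → ℕ, ∀ ι : ℕ → ℕ, g 0 ≤ ι 0 →
      (∀ l, l + 1 < r → ι l < ι (l + 1) ∧ ∀ k ∈ (x (ι l)).support, g k ≤ ι (l + 1)) →
      Diff ν (h + 1) ((1 / (r : ℝ)) • ∑ l ∈ range r, x (ι l)) (1 / (r : ℝ)) := by
  have hr' : (0 : ℝ) < r := by exact_mod_cast hr
  have hg : ∀ a : ℕ, ∃ i0 : ℕ, ∀ i, i0 ≤ i → ε i ≤ 1 / (8 * r * (a + 1)) := fun a =>
    hε _ (by positivity)
  choose g0 hg0 using hg
  refine ⟨fun a => max (g0 a) (8 * r * (a + 1)), fun ι hι0 hι2 => ?_⟩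
  have hι : ∀ l, l + 1 < r → ι l < ι (l + 1) := fun l hl => (hι2 l hl).1
  have hge : ∀ l, l < r → ∀ a, max (g0 a) (8 * r * (a + 1)) ≤ ι l →
      ε (ι l) ≤ 1 / (8 * r * (a + 1)) ∧ (8 * (r : ℝ) * (a + 1)) ≤ ι l := by
    intro l _ a hla
    refine ⟨hg0 a _ ((le_max_left _ _).trans hla), ?_⟩
    have := (le_max_right (g0 a) (8 * r * (a + 1))).trans hla
    exact_mod_cast this
  have hge0 : ∀ l, l < r → max (g0 0) (8 * r * (0 + 1)) ≤ ι l := fun l hl =>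
    hι0.trans (T9_mono_le hι 0 l (Nat.zero_le _) hl)
  have hge1 : ∀ l, l < r → ε (ι l) ≤ 1 / (8 * r) ∧ (8 * (r : ℝ)) ≤ ι l := by
    intro l hl
    have := hge l hl 0 (hge0 l hl)
    simpa using this
  have hgeP : ∀ l l', l < l' → l' < r → ∀ k ∈ (x (ι l)).support,
      ε (ι l') ≤ 1 / (8 * r * (k + 1)) ∧ (8 * (r : ℝ) * (k + 1)) ≤ ι l' := by
    intro l l' hll hl' k hk
    apply hge l' hl'
    exact ((hι2 l (by omega)).2 k hk).trans (T9_mono_le hι (l + 1) l' (by omega) hl')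
  have h8 : ∀ l, l < r → 8 ≤ ι l := by
    intro l hl
    have h1 := (le_max_right (g0 0) (8 * r * (0 + 1))).trans (hge0 l hl)
    omega
  have hpos : ∀ l, l < r → ∀ k ∈ (x (ι l)).support, 1 ≤ k := by
    intro l hl k hk
    have := h8 l hl
    have := hb.1 (ι l) k hk
    omega
  set z : ℕ →₀ ℝ := (1 / (r : ℝ)) • ∑ l ∈ range r, x (ι l) with hz
  have hr0 : 0 < r := hr
  have hzsupp : ∀ k ∈ z.support, ι 0 ≤ k := by
    intro k hk
    obtain ⟨b, hbr, hkb⟩ := T9_cov x r ι k hk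
    rw [T9_mem] at hkb
    exact (T9_mono_le hι 0 b (Nat.zero_le _) hbr).trans (hb.1 (ι b) k hkb.2)
  have hι01 := hge1 0 hr0
  have hrest : Bd (ν + 1) (Sch (h + 1)) (ι 0 + 1) z (6 / r) := by
    intro Q E j hF hQ
    refine block_lemma (ν + 1) h z (r - 1) (T9_B x r ι) (T9_succ hb hι) ?_
      (fun _ => ι 0 + 1) (fun l => ι l)
      (fun l => (1 / (r : ℝ)) * (8 * (1 / ((ι 0 + 1 : ℕ) : ℝ) + ε (ι l))))
      (fun l => (1 / (r : ℝ)) * (8 * (1 / (ι l : ℝ) + ε (ι l))))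
      (fun _ => (1 / (r : ℝ)) * 2) ?_ ?_ ?_ ?_ ?_ (6 / r) (by positivity) ?_ Q E j ?_ hQ ?_
    · intro k hk
      obtain ⟨b, hbr, hkb⟩ := T9_cov x r ι k hk
      exact ⟨b, by omega, hkb⟩
    · intro b
      have := hε0 (ι b)
      positivity
    · intro b hbr
      rw [hz, T9_rs hb hι (by omega : b < r)]
      apply bd_smul _ (by positivity)
      have h3 := bd_mono_B (h2 (ι b)) (bd_nrm (ν + 1) (by omega) (x (ι b)))
      have h4 := bd_sch_up hh (hpos b (by omega)) h3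
      exact bd_mono_size (by have := h8 0 hr0; omega) h4
    · intro b hbr
      rw [hz, T9_rs hb hι (by omega : b < r)]
      apply bd_smul _ (by positivity)
      exact bd_sch_up (Nat.zero_le h) (hpos b (by omega)) (hd (ι b) (ι 0 + 1) (by omega))
    · intro b hbr
      rw [hz, T9_rs hb hι (by omega : b < r)]
      apply bd_smul _ (by positivity)
      exact hd (ι b) (ι b) (by have := h8 b (by omega); omega)
    · intro b hbr k hkb _
      rw [T9_mem] at hkb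
      have := hb.1 (ι b) k hkb.2
      show ι b ≤ k + 1
      omega
    · intro b0 hb0 P hP hPb
      rw [T9_mem] at hPb
      have hterm : ∀ b ∈ Finset.Ioc b0 (r - 1), min ((1 / (r : ℝ)) * 2)
          ((1 / (r : ℝ)) * (8 * (1 / ((ι 0 + 1 : ℕ) : ℝ) + ε (ι b))) +
            (P : ℝ) * ((1 / (r : ℝ)) * (8 * (1 / (ι b : ℝ) + ε (ι b))))) ≤ 4 / r ^ 2 := by
        intro b hbm
        rw [Finset.mem_Ioc] at hbm
        have hbr : b < r := by omega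
        refine (min_le_right _ _).trans ?_
        have e1 := (hge1 b hbr).1
        have e2 : 1 / ((ι 0 + 1 : ℕ) : ℝ) ≤ 1 / (8 * r) := by
          apply one_div_le_one_div_of_le (by positivity)
          push_cast
          linarith [hι01.2]
        have e3 := hgeP b0 b hbm.1 hbr P hPb.2
        have hP1 : (0 : ℝ) < (P : ℝ) + 1 := by positivity
        have e4 : 1 / (ι b : ℝ) ≤ 1 / (8 * r * (P + 1)) :=
          one_div_le_one_div_of_le (by positivity) e3.2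
        have e5 : (1 / (r : ℝ)) * (8 * (1 / ((ι 0 + 1 : ℕ) : ℝ) + ε (ι b))) ≤
            (1 / (r : ℝ)) * (8 * (1 / (8 * r) + 1 / (8 * r))) :=
          mul_le_mul_of_nonneg_left (by linarith) (by positivity)
        have e6 : (P : ℝ) * ((1 / (r : ℝ)) * (8 * (1 / (ι b : ℝ) + ε (ι b)))) ≤
            (P : ℝ) * ((1 / (r : ℝ)) * (8 * (1 / (8 * r * (P + 1)) + 1 / (8 * r * (P + 1))))) := by
          apply mul_le_mul_of_nonneg_left _ (by positivity)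
          exact mul_le_mul_of_nonneg_left (by linarith [e3.1]) (by positivity)
        have e7 : (1 / (r : ℝ)) * (8 * (1 / (8 * r) + 1 / (8 * r))) = 2 / r ^ 2 := by
          field_simp
          ring
        have e8 : (P : ℝ) * ((1 / (r : ℝ)) * (8 * (1 / (8 * r * (P + 1)) + 1 / (8 * r * (P + 1))))) =
            2 / r ^ 2 * (P / (P + 1)) := by
          field_simp
          ring
        have e9 : (P : ℝ) / (P + 1) ≤ 1 := by
          rw [div_le_one hP1]; linarith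
        have e10 : 2 / (r : ℝ) ^ 2 * (P / (P + 1)) ≤ 2 / (r : ℝ) ^ 2 * 1 :=
          mul_le_mul_of_nonneg_left e9 (by positivity)
        have e11 : (4 : ℝ) / r ^ 2 = 2 / r ^ 2 + 2 / r ^ 2 * 1 := by ring
        rw [e11]
        linarith
      have hsum := Finset.sum_le_sum hterm
      rw [Finset.sum_const, Nat.card_Ioc, nsmul_eq_mul] at hsum
      have hcard : ((r - 1 - b0 : ℕ) : ℝ) ≤ r := by
        have : r - 1 - b0 ≤ r := by omega
        exact_mod_cast this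
      have hs2 : ((r - 1 - b0 : ℕ) : ℝ) * (4 / (r : ℝ) ^ 2) ≤ (r : ℝ) * (4 / (r : ℝ) ^ 2) :=
        mul_le_mul_of_nonneg_right hcard (by positivity)
      have hs3 : (r : ℝ) * (4 / (r : ℝ) ^ 2) = 4 / r := by
        field_simp
      have hs4 : (6 : ℝ) / r = (1 / r) * 2 + 4 / r := by ring
      rw [hs4]
      refine add_le_add (le_refl _) ?_
      exact hsum.trans (hs2.trans (le_of_eq hs3))
    · exact ⟨hF.lb, hF.sep, fun q hq => le_trans (by omega) (hF.sz q hq)⟩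
    · intro q hq b _ k _ _ _
      exact hF.sz q hq
  intro σ hσ
  have hσ' : (0 : ℝ) < σ := by exact_mod_cast hσ
  have hA := T9_av ν x h2 hb r hr ι hι σ hσ
  rw [← hz] at hA
  refine bd_mono_B ?_ (bd_first_rest (ν + 1) (h + 1) z σ (ι 0) hzsupp _ _ hA hrest)
  have e1 : (0 : ℝ) < 1 / σ := by positivity
  have e2 : (0 : ℝ) < 1 / r := by positivity
  have e3 : (2 : ℝ) / r + 2 / σ + 6 / r = 8 * (1 / r) + 2 * (1 / σ) := by ring
  rw [e3]
  linarith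

/-! ### Part T10 -/

theorem T10_comb_apply (A : ℕ → Finset ℕ) (c : ℕ → ℕ → ℝ) (x0 : ℕ → ℕ →₀ ℝ) (i a : ℕ) :
    Comb A c x0 i a = ∑ k ∈ A i, c i k * x0 k a := by
  unfold Comb
  rw [Finsupp.finsetSum_apply]
  exact Finset.sum_congr rfl fun k _ => by rw [Finsupp.smul_apply, smul_eq_mul]

theorem T10_sumsel_apply (A : ℕ → Finset ℕ) (b : ℕ → ℕ →₀ ℝ) (i a : ℕ) :
    SumSel A b i a = ∑ k ∈ A i, b k a := by
  unfold SumSel
  rw [Finsupp.finsetSum_apply]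

theorem T10_nonneg (A : ℕ → Finset ℕ) (c : ℕ → ℕ → ℝ) (x0 : ℕ → ℕ →₀ ℝ)
    (hc : ∀ i k, 0 ≤ c i k) (hx0 : ∀ k, 0 ≤ x0 k) (i : ℕ) : 0 ≤ Comb A c x0 i := by
  intro a
  rw [T10_comb_apply]
  exact Finset.sum_nonneg fun k _ => mul_nonneg (hc i k) (hx0 k a)

theorem T10_nrm (n : ℕ) (A : ℕ → Finset ℕ) (c : ℕ → ℕ → ℝ) (x0 : ℕ → ℕ →₀ ℝ)
    (hc : Wt A c) (h2 : ∀ k, nrm n (x0 k) ≤ 2) (i : ℕ) : nrm n (Comb A c x0 i) ≤ 2 := by
  unfold Comb
  refine (nrm_sum_le n _ _).trans ?_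
  have h1 : ∀ k ∈ A i, nrm n (c i k • x0 k) ≤ c i k * 2 := fun k _ => by
    rw [nrm_smul, abs_of_nonneg (hc.1 i k)]
    exact mul_le_mul_of_nonneg_left (h2 k) (hc.1 i k)
  refine (Finset.sum_le_sum h1).trans ?_
  rw [← Finset.sum_mul, hc.2 i, one_mul]

theorem T10_support (A : ℕ → Finset ℕ) (c : ℕ → ℕ → ℝ) (b x0 : ℕ → ℕ →₀ ℝ) (hb0 : ∀ k, 0 ≤ b k)
    (hsub : ∀ k, (x0 k).support ⊆ (b k).support) (i a : ℕ) (ha : a ∈ (Comb A c x0 i).support) :
    a ∈ (SumSel A b i).support ∧ ∃ k ∈ A i, a ∈ (b k).support := by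
  rw [Finsupp.mem_support_iff, T10_comb_apply] at ha
  obtain ⟨k, hk, hne⟩ := Finset.exists_ne_zero_of_sum_ne_zero ha
  have h1 : a ∈ (x0 k).support := by
    rw [Finsupp.mem_support_iff]
    exact right_ne_zero_of_mul hne
  have h2 : a ∈ (b k).support := hsub k h1
  refine ⟨?_, k, hk, h2⟩
  rw [Finsupp.mem_support_iff, T10_sumsel_apply]
  have h3 : 0 < b k a := lt_of_le_of_ne (hb0 k a) (Ne.symm (Finsupp.mem_support_iff.1 h2))
  have h4 : b k a ≤ ∑ k ∈ A i, b k a :=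
    Finset.single_le_sum (f := fun k => b k a) (fun k _ => hb0 k a) hk
  linarith

theorem T10_blk (A : ℕ → Finset ℕ) (c : ℕ → ℕ → ℝ) (b x0 : ℕ → ℕ →₀ ℝ) (hb0 : ∀ k, 0 ≤ b k)
    (hb : Blk b) (hsub : ∀ k, (x0 k).support ⊆ (b k).support) (hA : GoodSel A) :
    Blk (Comb A c x0) := by
  refine ⟨fun i a ha => ?_, fun i i' hlt a ha a' ha' => ?_⟩
  · obtain ⟨_, k, hk, hab⟩ := T10_support A c b x0 hb0 hsub i a ha
    exact (hA.2.1 i k hk).trans (hb.1 k a hab)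
  · obtain ⟨_, k, hk, hab⟩ := T10_support A c b x0 hb0 hsub i a ha
    obtain ⟨_, k', hk', hab'⟩ := T10_support A c b x0 hb0 hsub i' a' ha'
    exact hb.2 k k' (hA.2.2 i i' hlt k hk k' hk') a hab a' hab'

theorem T10_nonempty (A : ℕ → Finset ℕ) (c : ℕ → ℕ → ℝ) (x0 : ℕ → ℕ →₀ ℝ)
    (hc : Wt A c) (hx0 : ∀ k, 0 ≤ x0 k) (hne : ∀ k, (x0 k).support.Nonempty) (i : ℕ) :
    (Comb A c x0 i).support.Nonempty := by
  have h1 : ∑ k ∈ A i, c i k ≠ 0 := by rw [hc.2 i]; exact one_ne_zero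
  obtain ⟨k, hk, hck⟩ := Finset.exists_ne_zero_of_sum_ne_zero h1
  obtain ⟨a, ha⟩ := hne k
  refine ⟨a, ?_⟩
  rw [Finsupp.mem_support_iff, T10_comb_apply]
  have h2 : 0 < c i k * x0 k a :=
    mul_pos (lt_of_le_of_ne (hc.1 i k) (Ne.symm hck))
      (lt_of_le_of_ne (hx0 k a) (Ne.symm (Finsupp.mem_support_iff.1 ha)))
  have h3 : c i k * x0 k a ≤ ∑ k ∈ A i, c i k * x0 k a :=
    Finset.single_le_sum (f := fun k => c i k * x0 k a)
      (fun k _ => mul_nonneg (hc.1 i k) (hx0 k a)) hk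
  linarith

theorem T10_thr (ν h : ℕ) (hh : h ≤ ν) (x : ℕ → ℕ →₀ ℝ) (hx : ∀ i, 0 ≤ x i)
    (h2 : ∀ i, nrm (ν + 1) (x i) ≤ 2) (hb : Blk x) (hne : ∀ i, (x i).support.Nonempty)
    (hL : ∀ i, Lv ν h (x i) (1 / ((i : ℝ) + 1))) :
    ∀ i : ℕ, ∃ g : ℕ → ℕ, ∀ ι : ℕ → ℕ, g 0 ≤ ι 0 →
      (∀ l, l + 1 < i + 1 → ι l < ι (l + 1) ∧ ∀ k ∈ (x (ι l)).support, g k ≤ ι (l + 1)) →
      Lv ν (h + 1) ((1 / (((i + 1 : ℕ)) : ℝ)) • ∑ l ∈ range (i + 1), x (ι l))
        (1 / ((i + 1 : ℕ) : ℝ)) := by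
  intro i
  rcases h with _ | h
  · refine ⟨fun _ => 0, fun ι _ hι => ?_⟩
    exact avg_step0 ν x hx h2 hb (i + 1) (Nat.le_add_left 1 i) ι (fun l hl => (hι l hl).1)
  · have hε : ∀ η : ℝ, 0 < η → ∃ i0 : ℕ, ∀ i : ℕ, i0 ≤ i → 1 / ((i : ℝ) + 1) ≤ η := by
      intro η hη
      obtain ⟨i0, hi0⟩ := exists_nat_one_div_lt hη
      refine ⟨i0, fun i hi => ?_⟩
      have h3 : (i0 : ℝ) ≤ i := by exact_mod_cast hi
      exact (one_div_le_one_div_of_le (by positivity) (by linarith)).trans hi0.le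
    exact avg_step ν h (by omega) x hx h2 hb hne (fun i => 1 / ((i : ℝ) + 1))
      (fun i => by positivity) hε hL (i + 1) (Nat.le_add_left 1 i)

/-- Fast growing sequence. -/
theorem T10_seq (S : ℕ → Finset ℕ) (H : ℕ → ℕ → ℕ) :
    ∃ j : ℕ → ℕ, StrictMono j ∧ (∀ i t, i ≤ t → H i 0 ≤ j t) ∧
      ∀ i t, i ≤ t + 1 → ∀ k ∈ S (j t), H i k ≤ j (t + 1) := by
  let nxt : ℕ → ℕ → ℕ := fun t v =>
    v + 1 + ∑ i ∈ range (t + 2), (H i 0 + ∑ k ∈ S v, H i k)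
  let j : ℕ → ℕ := fun t => Nat.rec (H 0 0) (fun t v => nxt t v) t
  have hj : ∀ t, j (t + 1) = j t + 1 + ∑ i ∈ range (t + 2), (H i 0 + ∑ k ∈ S (j t), H i k) :=
    fun t => rfl
  have h1 : ∀ i t, i ≤ t + 1 → H i 0 + ∑ k ∈ S (j t), H i k ≤ j (t + 1) := by
    intro i t hit
    rw [hj t]
    have h2 : H i 0 + ∑ k ∈ S (j t), H i k
        ≤ ∑ i ∈ range (t + 2), (H i 0 + ∑ k ∈ S (j t), H i k) :=
      Finset.single_le_sum (f := fun i => H i 0 + ∑ k ∈ S (j t), H i k)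
        (fun _ _ => Nat.zero_le _) (Finset.mem_range.2 (by omega))
    omega
  refine ⟨j, strictMono_nat_of_lt_succ fun t => ?_, fun i t hit => ?_, fun i t hit k hk => ?_⟩
  · rw [hj t]; omega
  · rcases t with _ | t
    · have : i = 0 := by omega
      subst this
      exact le_refl _
    · have := h1 i t hit
      omega
  · have h2 := h1 i t hit
    have h3 : H i k ≤ ∑ k ∈ S (j t), H i k :=
      Finset.single_le_sum (f := fun k => H i k) (fun _ _ => Nat.zero_le _) hk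
    omega

/-- ROW T10 (one step of the tree). Input: `A, c` of level `h`; output: `A', c'` of level `h+1`, where the `i`-th new set is the union of `i+1` old sets `A (ι i l)`, `l ≤ i`, chosen so sparse that
both the thresholds `G i` and those of `avg_step` (for `x := Comb A c x0`, `r = i+1`, `ε i = 1/(i+1)`; for `h = 0`: `avg_step0`, no thresholds) are respected. -/
theorem tree_step (ν h : ℕ) (hh : h ≤ ν) (b x0 : ℕ → ℕ →₀ ℝ) (hb0 : ∀ k, 0 ≤ b k)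
    (hb : Blk b) (hx0 : ∀ k, 0 ≤ x0 k) (h2 : ∀ k, nrm (ν + 1) (x0 k) ≤ 2)
    (hsub : ∀ k, (x0 k).support ⊆ (b k).support) (hne : ∀ k, (x0 k).support.Nonempty)
    (A : ℕ → Finset ℕ) (c : ℕ → ℕ → ℝ) (hA : GoodSel A) (hc : Wt A c)
    (hL : ∀ i, Lv ν h (Comb A c x0 i) (1 / ((i : ℝ) + 1))) (G : ℕ → ℕ → ℕ) :
    ∃ (A' : ℕ → Finset ℕ) (c' : ℕ → ℕ → ℝ) (ι : ℕ → ℕ → ℕ), GoodSel A' ∧ Wt A' c' ∧
      (∀ i, Lv ν (h + 1) (Comb A' c' x0 i) (1 / ((i : ℝ) + 1))) ∧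
      (∀ i, SumSel A' b i = ∑ l ∈ range (i + 1), SumSel A b (ι i l)) ∧
      (∀ i, G i 0 ≤ ι i 0) ∧
      (∀ i l, l + 1 < i + 1 → ι i l < ι i (l + 1) ∧
        ∀ k ∈ (SumSel A b (ι i l)).support, G i k ≤ ι i (l + 1)) := by
  obtain ⟨g, hg⟩ := Classical.axiom_of_choice (T10_thr ν h hh (Comb A c x0)
    (T10_nonneg A c x0 hc.1 hx0) (T10_nrm (ν + 1) A c x0 hc h2) (T10_blk A c b x0 hb0 hb hsub hA)
    (T10_nonempty A c x0 hc hx0 hne) hL)
  obtain ⟨j, hjm, hj0, hj1⟩ := T10_seq (fun t => (SumSel A b t).support)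
    (fun i k => max (G i k) (g i k))
  let st : ℕ → ℕ := fun i => ∑ m ∈ range i, (m + 1)
  have hst : ∀ i, st (i + 1) = st i + (i + 1) := fun i => Finset.sum_range_succ _ _
  have hsti : ∀ i, i ≤ st i := by
    intro i
    induction i with
    | zero => exact Nat.zero_le _
    | succ i ih => rw [hst i]; omega
  have hstm : ∀ i i', i < i' → st i + i < st i' := by
    intro i i' hlt
    induction i' with
    | zero => omega
    | succ i' ih =>
      rw [hst i']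
      rcases Nat.lt_succ_iff_lt_or_eq.1 hlt with h3 | h3
      · have := ih h3; omega
      · subst h3; omega
  let ι : ℕ → ℕ → ℕ := fun i l => j (st i + l)
  have hι0 : ∀ i, G i 0 ≤ ι i 0 ∧ g i 0 ≤ ι i 0 := by
    intro i
    have h3 : max (G i 0) (g i 0) ≤ j (st i + 0) := hj0 i (st i + 0) (by have := hsti i; omega)
    exact ⟨(le_max_left _ _).trans h3, (le_max_right _ _).trans h3⟩
  have hι1 : ∀ i l, ι i l < ι i (l + 1) ∧
      ∀ k ∈ (SumSel A b (ι i l)).support, G i k ≤ ι i (l + 1) ∧ g i k ≤ ι i (l + 1) := by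
    intro i l
    refine ⟨hjm (by omega), fun k hk => ?_⟩
    have h3 : max (G i k) (g i k) ≤ j (st i + l + 1) :=
      hj1 i (st i + l) (by have := hsti i; omega) k hk
    exact ⟨(le_max_left _ _).trans h3, (le_max_right _ _).trans h3⟩
  have hιm : ∀ i l i' l', l ≤ i → (i < i' ∨ (i = i' ∧ l < l')) → ι i l < ι i' l' := by
    intro i l i' l' hl hor
    refine hjm ?_
    rcases hor with h3 | ⟨h3, h4⟩
    · have := hstm i i' h3
      omega
    · subst h3; omega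
  let A' : ℕ → Finset ℕ := fun i => (range (i + 1)).biUnion (fun l => A (ι i l))
  let c' : ℕ → ℕ → ℝ := fun i k =>
    ∑ l ∈ range (i + 1), if k ∈ A (ι i l) then (1 / ((i : ℝ) + 1)) * c (ι i l) k else 0
  have hdisj : ∀ i, (↑(range (i + 1)) : Set ℕ).PairwiseDisjoint (fun l => A (ι i l)) := by
    intro i l hl l' hl' hne'
    rw [Finset.mem_coe, Finset.mem_range] at hl hl'
    show Disjoint (A (ι i l)) (A (ι i l'))
    rw [Finset.disjoint_left]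
    intro a ha ha'
    rcases Nat.lt_or_gt_of_ne hne' with h3 | h3
    · exact lt_irrefl _ (hA.2.2 _ _ (hιm i l i l' (by omega) (Or.inr ⟨rfl, h3⟩)) a ha a ha')
    · exact lt_irrefl _ (hA.2.2 _ _ (hιm i l' i l (by omega) (Or.inr ⟨rfl, h3⟩)) a ha' a ha)
  have hc' : ∀ i, ∀ l ∈ range (i + 1), ∀ k ∈ A (ι i l),
      c' i k = (1 / ((i : ℝ) + 1)) * c (ι i l) k := by
    intro i l hl k hk
    show (∑ l ∈ range (i + 1), if k ∈ A (ι i l) then (1 / ((i : ℝ) + 1)) * c (ι i l) k else 0) = _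
    rw [Finset.sum_eq_single_of_mem l hl]
    · rw [if_pos hk]
    · intro l' hl' hne'
      rw [if_neg]
      intro hk'
      exact (Finset.disjoint_left.1 (hdisj i (Finset.mem_coe.2 hl) (Finset.mem_coe.2 hl') hne'.symm)) hk hk'
  have hi1 : ∀ i : ℕ, ((i : ℝ) + 1) ≠ 0 := fun i => by positivity
  refine ⟨A', c', ι, ⟨fun i => ?_, fun i k hk => ?_, fun i i' hlt k hk k' hk' => ?_⟩,
    ⟨fun i k => ?_, fun i => ?_⟩, fun i => ?_, fun i => ?_, fun i => (hι0 i).1,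
    fun i l _ => ⟨(hι1 i l).1, fun k hk => ((hι1 i l).2 k hk).1⟩⟩
  · obtain ⟨k, hk⟩ := hA.1 (ι i 0)
    exact ⟨k, Finset.mem_biUnion.2 ⟨0, Finset.mem_range.2 (Nat.succ_pos i), hk⟩⟩
  · obtain ⟨l, hl, hk2⟩ := Finset.mem_biUnion.1 hk
    have h3 : ι i l ≤ k := hA.2.1 _ k hk2
    have h4 : st i + l ≤ ι i l := hjm.id_le _
    have := hsti i
    omega
  · obtain ⟨l, hl, hk2⟩ := Finset.mem_biUnion.1 hk
    obtain ⟨l', hl', hk2'⟩ := Finset.mem_biUnion.1 hk'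
    rw [Finset.mem_range] at hl hl'
    exact hA.2.2 _ _ (hιm i l i' l' (by omega) (Or.inl hlt)) k hk2 k' hk2'
  · refine Finset.sum_nonneg fun l _ => ?_
    split_ifs
    · exact mul_nonneg (by positivity) (hc.1 _ _)
    · exact le_refl _
  · show ∑ k ∈ (range (i + 1)).biUnion (fun l => A (ι i l)), c' i k = 1
    rw [Finset.sum_biUnion (hdisj i)]
    have h3 : ∀ l ∈ range (i + 1), ∑ k ∈ A (ι i l), c' i k = 1 / ((i : ℝ) + 1) := by
      intro l hl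
      rw [Finset.sum_congr rfl (hc' i l hl), ← Finset.mul_sum, hc.2, mul_one]
    rw [Finset.sum_congr rfl h3, Finset.sum_const, Finset.card_range, nsmul_eq_mul]
    push_cast
    field_simp
  · have h3 : Comb A' c' x0 i
        = (1 / (((i + 1 : ℕ)) : ℝ)) • ∑ l ∈ range (i + 1), Comb A c x0 (ι i l) := by
      show ∑ k ∈ (range (i + 1)).biUnion (fun l => A (ι i l)), c' i k • x0 k = _
      rw [Finset.sum_biUnion (hdisj i), Finset.smul_sum]
      refine Finset.sum_congr rfl fun l hl => ?_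
      unfold Comb
      rw [Finset.smul_sum]
      refine Finset.sum_congr rfl fun k hk => ?_
      rw [hc' i l hl k hk, smul_smul]
      push_cast
      rfl
    rw [h3]
    have h4 : (1 : ℝ) / ((i : ℝ) + 1) = 1 / ((i + 1 : ℕ) : ℝ) := by push_cast; rfl
    rw [h4]
    exact hg i (ι i) (hι0 i).2 fun l hl => ⟨(hι1 i l).1, fun k hk =>
      ((hι1 i l).2 k (T10_support A c b x0 hb0 hsub _ k hk).1).2⟩
  · show ∑ k ∈ (range (i + 1)).biUnion (fun l => A (ι i l)), b k = _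
    rw [Finset.sum_biUnion (hdisj i)]
    rfl

/-! ### Part T12 -/

private theorem T12_levels (ν : ℕ) (u : ℕ → ℕ →₀ ℝ) (hu : ∀ k, 0 ≤ u k)
    (h2 : ∀ k, nrm (ν + 1) (u k) ≤ 2) (hb : Blk u) (hne : ∀ k, (u k).support.Nonempty) :
    ∀ h : ℕ, h ≤ ν + 1 → ∃ (A : ℕ → Finset ℕ) (c : ℕ → ℕ → ℝ), GoodSel A ∧ Wt A c ∧
      ∀ i, Lv ν h (Comb A c u i) (1 / ((i : ℝ) + 1)) := by
  intro h
  induction h with
  | zero =>
    intro _
    refine ⟨fun i => {i}, fun _ _ => 1, ⟨?_, ?_, ?_⟩, ⟨?_, ?_⟩, ?_⟩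
    · intro i; exact Finset.singleton_nonempty i
    · intro i k hk
      exact le_of_eq (Finset.mem_singleton.1 hk).symm
    · intro i i' hii k hk k' hk'
      rw [Finset.mem_singleton.1 hk, Finset.mem_singleton.1 hk']
      exact hii
    · intro i k; exact zero_le_one
    · intro i; rw [Finset.sum_singleton]
    · intro i; exact trivial
  | succ h ih =>
    intro hh
    obtain ⟨A, c, hA, hc, hL⟩ := ih (by omega)
    obtain ⟨A', c', ι, hA', hc', hL', -⟩ := tree_step ν h (by omega) u u hu hb hu h2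
      (fun k => Finset.Subset.refl _) hne A c hA hc hL (fun _ _ => 0)
    exact ⟨A', c', hA', hc', hL'⟩

private theorem T12_nonneg (A : ℕ → Finset ℕ) (c : ℕ → ℕ → ℝ) (hc : Wt A c) (u : ℕ → ℕ →₀ ℝ)
    (hu : ∀ k, 0 ≤ u k) (i : ℕ) : 0 ≤ Comb A c u i := by
  unfold Comb
  apply Finset.sum_nonneg
  intro k _ p
  rw [Finsupp.smul_apply]
  exact mul_nonneg (hc.1 i k) (hu k p)

private theorem T12_nrm (ν : ℕ) (A : ℕ → Finset ℕ) (c : ℕ → ℕ → ℝ) (hc : Wt A c) (u : ℕ → ℕ →₀ ℝ)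
    (h2 : ∀ k, nrm (ν + 1) (u k) ≤ 2) (i : ℕ) : nrm (ν + 1) (Comb A c u i) ≤ 2 := by
  unfold Comb
  refine (nrm_sum_le (ν + 1) (A i) (fun k => c i k • u k)).trans ?_
  have h1 : ∑ k ∈ A i, nrm (ν + 1) (c i k • u k) ≤ ∑ k ∈ A i, c i k * 2 := by
    apply Finset.sum_le_sum
    intro k _
    rw [nrm_smul, abs_of_nonneg (hc.1 i k)]
    exact mul_le_mul_of_nonneg_left (h2 k) (hc.1 i k)
  refine h1.trans ?_
  rw [← Finset.sum_mul, hc.2 i, one_mul]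

private theorem T12_supp (A : ℕ → Finset ℕ) (c : ℕ → ℕ → ℝ) (u : ℕ → ℕ →₀ ℝ) (i p : ℕ)
    (hp : p ∈ (Comb A c u i).support) : ∃ k ∈ A i, p ∈ (u k).support := by
  by_contra hcon
  push Not at hcon
  rw [Finsupp.mem_support_iff] at hp
  apply hp
  unfold Comb
  rw [Finsupp.finsetSum_apply]
  apply Finset.sum_eq_zero
  intro k hk
  have := hcon k hk
  rw [Finsupp.notMem_support_iff] at this
  rw [Finsupp.smul_apply, this, smul_zero]

/-- ROW T12 (long combinations of bounded norm; used for the shrinking basis). `tree_step` iterated `ν + 1` times with `b = x0 = u`, `G = 0` (start `A i = {i}`, `c = 1`): `A, c` with `Lv ν (ν+1)`, i.e. `Diff ν ν (X i) (1/(i+1))`, `X i = Comb A c u i`, `nrm (X i) ≤ 2`, successive supports (`i ≤`).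
`c0_select` with `s m = 8 m`, `P i x := x = (1/2) • X i`: `H M i0`: `i = max i0 (8M)`: `Bd (Sch ν) (8m) ((1/2) X i) (4 (1/(8m) + 1/(i+1)))`, `≤ 1/m`. So `φ`, and for `F = {r+1, ..., 2r}` (`card F = r ≤ l`): `nrm (∑_{l ∈ F} (1/2) X (φ l)) ≤ 16`. `A := ⋃_{l ∈ F} A (φ l)`, the weights add up to `r`. -/
theorem big_comb (ν : ℕ) (u : ℕ → ℕ →₀ ℝ) (hu : ∀ k, 0 ≤ u k)
    (h2 : ∀ k, nrm (ν + 1) (u k) ≤ 2) (hb : Blk u) (hne : ∀ k, (u k).support.Nonempty)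
    (r : ℕ) : ∃ (A : Finset ℕ) (c : ℕ → ℝ), (∀ k, 0 ≤ c k) ∧ ∑ k ∈ A, c k = r ∧
      nrm (ν + 1) (∑ k ∈ A, c k • u k) ≤ 32 := by
  obtain ⟨A, c, hA, hc, hL⟩ := T12_levels ν u hu h2 hb hne (ν + 1) (le_refl _)
  have hlow : ∀ i, ∀ p ∈ (Comb A c u i).support, i ≤ p := by
    intro i p hp
    obtain ⟨k, hk, hpk⟩ := T12_supp A c u i p hp
    exact (hA.2.1 i k hk).trans (hb.1 k p hpk)
  have hsucc0 : ∀ i i', i < i' → ∀ p ∈ (Comb A c u i).support,
      ∀ p' ∈ (Comb A c u i').support, p < p' := by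
    intro i i' hii p hp p' hp'
    obtain ⟨k, hk, hpk⟩ := T12_supp A c u i p hp
    obtain ⟨k', hk', hpk'⟩ := T12_supp A c u i' p' hp'
    exact hb.2 k k' (hA.2.2 i i' hii k hk k' hk') p hpk p' hpk'
  have hhalf : ∀ i, ((1 / 2 : ℝ) • Comb A c u i).support ⊆ (Comb A c u i).support :=
    fun i => Finsupp.support_smul
  obtain ⟨φ, x, hφ, hx, hF⟩ := c0_select ν (fun m => 8 * m)
    (fun i x => x = (1 / 2 : ℝ) • Comb A c u i)
    (by
      intro M i0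
      refine ⟨max i0 (8 * M), le_max_left _ _, _, rfl, ?_, ?_, ?_, ?_⟩
      · intro p
        rw [Finsupp.smul_apply]
        exact mul_nonneg (by norm_num) (T12_nonneg A c hc u hu _ p)
      · rw [nrm_smul, abs_of_nonneg (by norm_num : (0 : ℝ) ≤ 1 / 2)]
        have := T12_nrm ν A c hc u h2 (max i0 (8 * M))
        linarith
      · intro k hk
        exact hlow _ k (hhalf _ hk)
      · intro m hm hmM
        have h1 : Bd (ν + 1) (Sch ν) (8 * m) (Comb A c u (max i0 (8 * M)))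
            (8 * (1 / ((8 * m : ℕ) : ℝ) + 1 / (((max i0 (8 * M) : ℕ) : ℝ) + 1))) :=
          hL (max i0 (8 * M)) (8 * m) (by omega)
        refine bd_mono_B ?_ (bd_smul (1 / 2 : ℝ) (by norm_num) h1)
        have hm' : (0 : ℝ) < m := by exact_mod_cast hm
        have h3 : (8 * m : ℝ) ≤ ((max i0 (8 * M) : ℕ) : ℝ) + 1 := by
          have : 8 * m ≤ max i0 (8 * M) := le_max_of_le_right (by omega)
          have h4 : ((8 * m : ℕ) : ℝ) ≤ ((max i0 (8 * M) : ℕ) : ℝ) := by exact_mod_cast this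
          push_cast at h4 ⊢
          linarith
        have h5 : 1 / (((max i0 (8 * M) : ℕ) : ℝ) + 1) ≤ 1 / (8 * m : ℝ) :=
          one_div_le_one_div_of_le (by positivity) h3
        have h6 : ((8 * m : ℕ) : ℝ) = 8 * m := by push_cast; ring
        rw [h6]
        have h7 : (1 : ℝ) / (8 * m) = (1 / m) / 8 := by field_simp
        rw [h7] at h5 ⊢
        linarith)
    (by
      rintro i i' x x' hii rfl rfl a ha b hb'
      exact hsucc0 i i' hii a (hhalf i ha) b (hhalf i' hb'))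
  let F : Finset ℕ := Finset.Ico r (2 * r)
  have hFc : F.card = r := by
    simp only [F, Nat.card_Ico]
    omega
  have hF16 : nrm (ν + 1) (∑ l ∈ F, x l) ≤ 16 := by
    apply hF
    intro l hl
    rw [hFc]
    exact (Finset.mem_Ico.1 hl).1
  have hXx : ∀ l, Comb A c u (φ l) = (2 : ℝ) • x l := by
    intro l
    rw [(hx l).1, smul_smul]
    norm_num
  have hsub : ∀ l ∈ F, (F.biUnion (fun l => A (φ l))) ∩ A (φ l) = A (φ l) := by
    intro l hl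
    apply Finset.inter_eq_right.2
    exact Finset.subset_biUnion_of_mem (fun l => A (φ l)) hl
  refine ⟨F.biUnion (fun l => A (φ l)), fun k => ∑ l ∈ F, if k ∈ A (φ l) then c (φ l) k else 0,
    ?_, ?_, ?_⟩
  · intro k
    apply Finset.sum_nonneg
    intro l _
    split_ifs
    · exact hc.1 _ _
    · exact le_refl _
  · rw [Finset.sum_comm]
    have h3 : ∀ l ∈ F, ∑ k ∈ F.biUnion (fun l => A (φ l)), (if k ∈ A (φ l) then c (φ l) k else 0) = 1 := by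
      intro l hl
      rw [Finset.sum_ite_mem, hsub l hl, hc.2]
    rw [Finset.sum_congr rfl h3, Finset.sum_const, hFc, nsmul_eq_mul, mul_one]
  · have h4 : ∑ k ∈ F.biUnion (fun l => A (φ l)),
        (∑ l ∈ F, if k ∈ A (φ l) then c (φ l) k else 0) • u k = (2 : ℝ) • ∑ l ∈ F, x l := by
      have h5 : ∀ k ∈ F.biUnion (fun l => A (φ l)),
          (∑ l ∈ F, if k ∈ A (φ l) then c (φ l) k else 0) • u k =
            ∑ l ∈ F, if k ∈ A (φ l) then c (φ l) k • u k else 0 := by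
        intro k _
        rw [Finset.sum_smul]
        apply Finset.sum_congr rfl
        intro l _
        split_ifs
        · rfl
        · rw [zero_smul]
      rw [Finset.sum_congr rfl h5, Finset.sum_comm, Finset.smul_sum]
      apply Finset.sum_congr rfl
      intro l hl
      rw [Finset.sum_ite_mem, hsub l hl, ← hXx l]
      rfl
    rw [h4, nrm_smul, abs_of_nonneg (by norm_num : (0 : ℝ) ≤ 2)]
    linarith

end Pool.Agent.Lib.MP_1bb70c_an
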