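import Pool.Agent.Lib.MP_1bb70c_an.Space
import Pool.Agent.Lib.MP_1bb70c_an.Tree

set_option autoImplicit false

open Finset
open scoped Classical

noncomputable section

namespace Pool.Agent.Lib.MP_1bb70c_an

/-! ### Part E2 -/

/-- the element of `c_00` given by a finitely supported sequence (coordinate `0` erased) -/
def toV (n : ℕ) : (ℕ →₀ ℝ) →ₗ[ℝ] V n where
  toFun := fun x => (⟨x.erase 0, by
    show x.erase 0 ∈ LinearMap.ker (Finsupp.lapply (R := ℝ) 0)
    rw [LinearMap.mem_ker, Finsupp.lapply_apply, Finsupp.erase_same]⟩ : c00)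
  map_add' := by
    intro x y
    apply V.seq_inj
    show (x + y).erase 0 = x.erase 0 + y.erase 0
    exact Finsupp.erase_add 0 x y
  map_smul' := by
    intro c x
    apply V.seq_inj
    show (c • x).erase 0 = c • x.erase 0
    ext k
    by_cases hk : k = 0
    · subst hk; simp
    · rw [Finsupp.erase_ne hk, Finsupp.smul_apply, Finsupp.smul_apply, Finsupp.erase_ne hk]

/-- value of a functional at a finitely supported sequence -/
def ev {n : ℕ} (y : StrongDual ℝ (X01 n)) (x : ℕ →₀ ℝ) : ℝ :=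
  y ((toV n x : V n) : UniformSpace.Completion (V n))

/-- coordinates of a functional -/
def crd {n : ℕ} (y : StrongDual ℝ (X01 n)) (k : ℕ) : ℝ := ev y (Finsupp.single k 1)

theorem E2_toV_seq (n : ℕ) (x : ℕ →₀ ℝ) : (toV n x).seq = x.erase 0 := rfl

theorem E2_seq_zero {n : ℕ} (v : V n) : v.seq 0 = 0 := by
  have h : v.seq ∈ c00 := Subtype.property (p := fun x => x ∈ c00) v
  have h2 : v.seq ∈ LinearMap.ker (Finsupp.lapply (R := ℝ) (M := ℝ) (0 : ℕ)) := h
  rw [LinearMap.mem_ker, Finsupp.lapply_apply] at h2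
  exact h2

theorem E2_toV_self {n : ℕ} (v : V n) : toV n v.seq = v := by
  apply V.seq_inj
  rw [E2_toV_seq]
  ext k
  by_cases hk : k = 0
  · subst hk
    rw [Finsupp.erase_same, E2_seq_zero]
  · rw [Finsupp.erase_ne hk]

theorem E2_toV_erase (n : ℕ) (x : ℕ →₀ ℝ) : toV n (x.erase 0) = toV n x := by
  apply V.seq_inj
  rw [E2_toV_seq, E2_toV_seq]
  ext k
  by_cases hk : k = 0
  · subst hk
    rw [Finsupp.erase_same, Finsupp.erase_same]
  · rw [Finsupp.erase_ne hk]

theorem E2_nrm_erase_le (n : ℕ) (x : ℕ →₀ ℝ) : nrm n (x.erase 0) ≤ nrm n x := by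
  apply nrm_mono_abs
  intro k
  by_cases hk : k = 0
  · subst hk
    rw [Finsupp.erase_same, abs_zero]
    exact abs_nonneg _
  · rw [Finsupp.erase_ne hk]

theorem E2_ev_erase {n : ℕ} (y : StrongDual ℝ (X01 n)) (x : ℕ →₀ ℝ) :
    ev y (x.erase 0) = ev y x := by
  unfold ev
  rw [E2_toV_erase]

theorem E2_norm_toV_le (n : ℕ) (x : ℕ →₀ ℝ) : ‖toV n x‖ ≤ nrm n x := by
  rw [V.norm_def, E2_toV_seq]
  exact E2_nrm_erase_le n x

/-- ROW E2. Functionals on the completion. `ev` is linear in both arguments, and determined by the coordinates (`x = ∑ x k • single k 1`); `|ev y x| ≤ ‖y‖ ‖toV x‖ ≤ ‖y‖ nrm n x`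
(`x.erase 0` is a restriction of `x`). `norm_le_ev`: `y` is bounded by `C ‖·‖` on the dense subspace `V n` (every `v : V n` is `toV n v.seq`), hence everywhere (closed set, `UniformSpace.Completion.denseRange_coe`),
`ContinuousLinearMap.opNorm_le_bound`. `exists_fn`: the linear functional `v ↦ ∑ k ∈ v.seq.support, b k * v.seq k` on `V n` is bounded by `(∑ |b k|) ‖v‖` (`coord_le_nrm`);
extend it to the completion (`ContinuousLinearMap.extend`, or `NormedSpace`/`UniformSpace.Completion.extension`). -/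
theorem ev_add {n : ℕ} (y : StrongDual ℝ (X01 n)) (x x' : ℕ →₀ ℝ) :
    ev y (x + x') = ev y x + ev y x' := by
  unfold ev
  rw [map_add, UniformSpace.Completion.coe_add, map_add]

theorem ev_smul {n : ℕ} (y : StrongDual ℝ (X01 n)) (c : ℝ) (x : ℕ →₀ ℝ) :
    ev y (c • x) = c * ev y x := by
  unfold ev
  rw [map_smul, UniformSpace.Completion.coe_smul, map_smul, smul_eq_mul]

theorem ev_add' {n : ℕ} (y y' : StrongDual ℝ (X01 n)) (x : ℕ →₀ ℝ) :
    ev (y + y') x = ev y x + ev y' x := rfl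

theorem ev_smul' {n : ℕ} (y : StrongDual ℝ (X01 n)) (c : ℝ) (x : ℕ →₀ ℝ) :
    ev (c • y) x = c * ev y x := rfl

theorem E2_ev_zero' {n : ℕ} (x : ℕ →₀ ℝ) : ev (0 : StrongDual ℝ (X01 n)) x = 0 := rfl

theorem ev_sum' {n : ℕ} (s : Finset ℕ) (y : ℕ → StrongDual ℝ (X01 n)) (x : ℕ →₀ ℝ) :
    ev (∑ i ∈ s, y i) x = ∑ i ∈ s, ev (y i) x := by
  induction s using Finset.induction_on with
  | empty => rw [Finset.sum_empty, Finset.sum_empty, E2_ev_zero']
  | insert a t ha ih => rw [Finset.sum_insert ha, Finset.sum_insert ha, ev_add', ih]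

theorem E2_ev_zero {n : ℕ} (y : StrongDual ℝ (X01 n)) : ev y 0 = 0 := by
  have h := ev_smul y 0 0
  rw [zero_smul, zero_mul] at h
  exact h

theorem E2_ev_sum {n : ℕ} (y : StrongDual ℝ (X01 n)) (s : Finset ℕ) (f : ℕ → ℕ →₀ ℝ) :
    ev y (∑ i ∈ s, f i) = ∑ i ∈ s, ev y (f i) := by
  induction s using Finset.induction_on with
  | empty => rw [Finset.sum_empty, Finset.sum_empty, E2_ev_zero]
  | insert a t ha ih => rw [Finset.sum_insert ha, Finset.sum_insert ha, ev_add, ih]

theorem ev_eq_sum {n : ℕ} (y : StrongDual ℝ (X01 n)) (x : ℕ →₀ ℝ) :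
    ev y x = ∑ k ∈ x.support, crd y k * x k := by
  have h1 : x = ∑ k ∈ x.support, x k • Finsupp.single k (1 : ℝ) := by
    conv_lhs => rw [← Finsupp.sum_single x]
    unfold Finsupp.sum
    refine Finset.sum_congr rfl (fun k _ => ?_)
    rw [Finsupp.smul_single, smul_eq_mul, mul_one]
  conv_lhs => rw [h1]
  rw [E2_ev_sum]
  refine Finset.sum_congr rfl (fun k _ => ?_)
  rw [ev_smul, mul_comm]
  rfl

theorem crd_zero {n : ℕ} (y : StrongDual ℝ (X01 n)) : crd y 0 = 0 := by
  unfold crd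
  rw [← E2_ev_erase]
  have h : (Finsupp.single 0 (1 : ℝ) : ℕ →₀ ℝ).erase 0 = 0 := by
    ext k
    by_cases hk : k = 0
    · subst hk
      rw [Finsupp.erase_same]
      rfl
    · rw [Finsupp.erase_ne hk, Finsupp.single_apply, if_neg (fun h => hk h.symm)]
      rfl
  rw [h, E2_ev_zero]

theorem abs_ev_le {n : ℕ} (y : StrongDual ℝ (X01 n)) (x : ℕ →₀ ℝ) :
    |ev y x| ≤ ‖y‖ * nrm n x := by
  unfold ev
  have h1 := y.le_opNorm ((toV n x : V n) : UniformSpace.Completion (V n))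
  rw [UniformSpace.Completion.norm_coe, Real.norm_eq_abs] at h1
  exact h1.trans (mul_le_mul_of_nonneg_left (E2_norm_toV_le n x) (norm_nonneg y))

theorem norm_le_ev {n : ℕ} (y : StrongDual ℝ (X01 n)) (C : ℝ) (hC : 0 ≤ C)
    (h : ∀ x : ℕ →₀ ℝ, |ev y x| ≤ C * nrm n x) : ‖y‖ ≤ C := by
  refine ContinuousLinearMap.opNorm_le_bound y hC ?_
  intro z
  refine UniformSpace.Completion.induction_on z ?_ ?_
  · exact isClosed_le (y.continuous.norm) (continuous_const.mul continuous_norm)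
  · intro v
    have h1 := h v.seq
    unfold ev at h1
    rw [E2_toV_self] at h1
    rw [UniformSpace.Completion.norm_coe, Real.norm_eq_abs, V.norm_def]
    exact h1

/-- almost norming vectors: `C < ‖y‖` gives `x` with `C * nrm x < ev y x`. -/
theorem exists_ev {n : ℕ} (y : StrongDual ℝ (X01 n)) (C : ℝ) (hC : 0 ≤ C) (h : C < ‖y‖) :
    ∃ x : ℕ →₀ ℝ, x 0 = 0 ∧ C * nrm n x < ev y x := by
  by_contra hcon
  push Not at hcon
  have h1 : ∀ x : ℕ →₀ ℝ, ev y x ≤ C * nrm n x := by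
    intro x
    have h2 := hcon (x.erase 0) (Finsupp.erase_same)
    rw [E2_ev_erase] at h2
    exact h2.trans (mul_le_mul_of_nonneg_left (E2_nrm_erase_le n x) hC)
  have h3 : ‖y‖ ≤ C := by
    refine norm_le_ev y C hC (fun x => ?_)
    rw [abs_le]
    constructor
    · have h4 := h1 ((-1 : ℝ) • x)
      rw [ev_smul, nrm_smul] at h4
      have h5 : |(-1 : ℝ)| = 1 := by norm_num
      rw [h5] at h4
      linarith
    · exact h1 x
  linarith

/-- unconditionality on the dual side: test with `x' k = sign (crd y k) * x k`. -/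
theorem abs_crd_sum {n : ℕ} (y : StrongDual ℝ (X01 n)) (x : ℕ →₀ ℝ) (hx : 0 ≤ x) :
    ∑ k ∈ x.support, |crd y k| * x k ≤ ‖y‖ * nrm n x := by
  let g : ℕ → ℝ := fun k => if 0 ≤ crd y k then x k else - x k
  have hg : ∀ k, |g k| = |x k| := by
    intro k
    show |if 0 ≤ crd y k then x k else - x k| = |x k|
    split_ifs
    · rfl
    · rw [abs_neg]
  have hsup : ∀ k, g k ≠ 0 → k ∈ x.support := by
    intro k hk
    rw [Finsupp.mem_support_iff]
    intro h0
    apply hk
    have := hg k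
    rw [h0, abs_zero, abs_eq_zero] at this
    exact this
  let x' : ℕ →₀ ℝ := Finsupp.onFinset x.support g hsup
  have hx'a : ∀ k, x' k = g k := fun k => Finsupp.onFinset_apply
  have hnrm : nrm n x' ≤ nrm n x := by
    apply nrm_mono_abs
    intro k
    rw [hx'a, hg]
  have h1 := abs_ev_le y x'
  have h2 : ev y x' = ∑ k ∈ x.support, |crd y k| * x k := by
    rw [ev_eq_sum]
    have hs : x'.support ⊆ x.support := Finsupp.support_onFinset_subset
    rw [Finset.sum_subset hs]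
    · refine Finset.sum_congr rfl (fun k _ => ?_)
      rw [hx'a]
      show crd y k * (if 0 ≤ crd y k then x k else - x k) = |crd y k| * x k
      split_ifs with h0
      · rw [abs_of_nonneg h0]
      · rw [abs_of_neg (lt_of_not_ge h0)]
        ring
    · intro k _ hk
      rw [Finsupp.notMem_support_iff] at hk
      rw [hk, mul_zero]
  rw [← h2]
  exact (le_abs_self _).trans (h1.trans (mul_le_mul_of_nonneg_left hnrm (norm_nonneg y)))

/-! ### Part E3 -/

private theorem E3_ev_zero {n : ℕ} (y : StrongDual ℝ (X01 n)) : ev y 0 = 0 := by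
  have h := ev_smul y 0 (0 : ℕ →₀ ℝ)
  rw [smul_zero, zero_mul] at h
  exact h

private theorem E3_ev_sum {n : ℕ} (y : StrongDual ℝ (X01 n)) (s : Finset ℕ) (c : ℕ → ℝ)
    (x : ℕ → ℕ →₀ ℝ) : ev y (∑ k ∈ s, c k • x k) = ∑ k ∈ s, c k * ev y (x k) := by
  induction s using Finset.induction_on with
  | empty => rw [Finset.sum_empty, Finset.sum_empty, E3_ev_zero]
  | insert a s ha ih =>
    rw [Finset.sum_insert ha, Finset.sum_insert ha, ev_add, ev_smul, ih]

/-- the recursively chosen starting points -/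
private def E3_N (X : ℕ → ℕ →₀ ℝ) : ℕ → ℕ
  | 0 => 0
  | (k + 1) => E3_N X k + 1 + (X (E3_N X k)).support.sup id

private theorem E3_N_succ (X : ℕ → ℕ →₀ ℝ) (k : ℕ) :
    E3_N X (k + 1) = E3_N X k + 1 + (X (E3_N X k)).support.sup id := rfl

private theorem E3_N_strict (X : ℕ → ℕ →₀ ℝ) : StrictMono (E3_N X) := by
  apply strictMono_nat_of_lt_succ
  intro k
  rw [E3_N_succ]
  omega

private theorem E3_N_sup (X : ℕ → ℕ →₀ ℝ) (k k' : ℕ) (h : k < k') (a : ℕ)
    (ha : a ∈ (X (E3_N X k)).support) : a < E3_N X k' := by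
  have h1 : a ≤ (X (E3_N X k)).support.sup id := Finset.le_sup (f := id) ha
  have h2 : E3_N X (k + 1) ≤ E3_N X k' := (E3_N_strict X).monotone h
  rw [E3_N_succ] at h2
  omega

/-- ROW E3 (the basis is shrinking). Suppose not: there is `ε > 0` such that for every `N` there is `x` with support in `[N, ∞)` and `ε * nrm x < |ev y x|`; so (scaling, sign) `nrm x ≤ 1`, `nrm x ≤ 1`, `ε ≤ ev y x`, `x ≠ 0` (replace `x` by `± (nrm x)⁻¹ • x`).
Choose recursively `x k` (signed) with successive supports, `k ≤` all points, nonempty supports. `u k :=` the modulus of `x k` (`Finsupp.mapRange` with `|·|`), `nrm (u k) = nrm (x k)` (`nrm_mono_abs`). `big_comb` with `r > 32 ‖y‖ / ε`: `A`, `c`. Then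
`r ε ≤ ∑_{k ∈ A} c k * ev y (x k) = ev y (∑ c k • x k) ≤ ‖y‖ nrm (∑ c k • x k) ≤ 32 ‖y‖` (the modulus of `∑ c k • x k` is at most `∑ c k • u k` pointwise): contradiction. -/
theorem shrink (ν : ℕ) (y : StrongDual ℝ (X01 (ν + 1))) (ε : ℝ) (hε : 0 < ε) :
    ∃ N : ℕ, ∀ x : ℕ →₀ ℝ, (∀ k ∈ x.support, N ≤ k) → |ev y x| ≤ ε * nrm (ν + 1) x := by
  by_contra hcon
  push Not at hcon
  have h1 : ∀ N : ℕ, ∃ x : ℕ →₀ ℝ, (∀ k ∈ x.support, N ≤ k) ∧ nrm (ν + 1) x = 1 ∧
      ε ≤ ev y x := by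
    intro N
    obtain ⟨x, hx, hlt⟩ := hcon N
    have hpos : 0 < nrm (ν + 1) x := by
      rcases (nrm_nonneg (ν + 1) x).lt_or_eq with h | h
      · exact h
      · exfalso
        have h2 := abs_ev_le y x
        rw [← h] at h2 hlt
        linarith
    obtain ⟨s, hs1, hs2⟩ : ∃ s : ℝ, |s| = 1 ∧ s * ev y x = |ev y x| := by
      rcases le_total 0 (ev y x) with h | h
      · exact ⟨1, abs_one, by rw [abs_of_nonneg h, one_mul]⟩
      · exact ⟨-1, by rw [abs_neg, abs_one], by rw [abs_of_nonpos h]; ring⟩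
    refine ⟨(s * (nrm (ν + 1) x)⁻¹) • x, ?_, ?_, ?_⟩
    · intro k hk
      apply hx
      exact Finsupp.support_smul hk
    · rw [nrm_smul, abs_mul, hs1, one_mul, abs_inv, abs_of_pos hpos, inv_mul_cancel₀ hpos.ne']
    · rw [ev_smul]
      have h3 : s * (nrm (ν + 1) x)⁻¹ * ev y x = |ev y x| / nrm (ν + 1) x := by
        rw [← hs2]
        field_simp
      rw [h3, le_div_iff₀ hpos]
      exact hlt.le
  choose X hX1 hX2 hX3 using h1
  set N := E3_N X with hN
  let x : ℕ → ℕ →₀ ℝ := fun k => X (N k)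
  let u : ℕ → ℕ →₀ ℝ := fun k => Finsupp.mapRange (fun t : ℝ => |t|) abs_zero (x k)
  have hua : ∀ k a, u k a = |x k a| := fun k a => rfl
  have hsupp : ∀ k a, a ∈ (u k).support → a ∈ (x k).support := by
    intro k a ha
    rw [Finsupp.mem_support_iff] at ha ⊢
    intro h0
    apply ha
    rw [hua, h0, abs_zero]
  have hu : ∀ k, 0 ≤ u k := by
    intro k a
    rw [hua]
    exact abs_nonneg _
  have h2 : ∀ k, nrm (ν + 1) (u k) ≤ 2 := by
    intro k
    have h3 : nrm (ν + 1) (u k) ≤ nrm (ν + 1) (x k) := by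
      apply nrm_mono_abs
      intro a
      rw [hua, abs_abs]
    have h4 : nrm (ν + 1) (x k) = 1 := hX2 (N k)
    linarith
  have hb : Blk u := by
    constructor
    · intro i k hk
      exact ((E3_N_strict X).id_le i).trans (hX1 (N i) k (hsupp i k hk))
    · intro i i' hlt a ha b hb
      exact lt_of_lt_of_le (E3_N_sup X i i' hlt a (hsupp i a ha))
        (hX1 (N i') b (hsupp i' b hb))
  have hne : ∀ k, (u k).support.Nonempty := by
    intro k
    rw [Finset.nonempty_iff_ne_empty]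
    intro h0
    have h3 : x k = 0 := by
      ext a
      have h4 : a ∉ (u k).support := by rw [h0]; exact Finset.notMem_empty a
      rw [Finsupp.notMem_support_iff, hua] at h4
      exact abs_eq_zero.1 h4
    have h4 : nrm (ν + 1) (x k) = 1 := hX2 (N k)
    rw [h3, nrm_zero] at h4
    exact zero_ne_one h4
  obtain ⟨r, hr⟩ := exists_nat_gt (32 * ‖y‖ / ε)
  rw [div_lt_iff₀ hε] at hr
  obtain ⟨A, c, hc, hsum, hn⟩ := big_comb ν u hu h2 hb hne r
  have h5 : (r : ℝ) * ε ≤ ev y (∑ k ∈ A, c k • x k) := by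
    rw [E3_ev_sum, ← hsum, Finset.sum_mul]
    apply Finset.sum_le_sum
    intro k _
    exact mul_le_mul_of_nonneg_left (hX3 (N k)) (hc k)
  have h6 : nrm (ν + 1) (∑ k ∈ A, c k • x k) ≤ nrm (ν + 1) (∑ k ∈ A, c k • u k) := by
    apply nrm_mono_abs
    intro a
    rw [Finsupp.finsetSum_apply, Finsupp.finsetSum_apply]
    refine le_trans (Finset.abs_sum_le_sum_abs _ _) (le_trans (le_of_eq ?_) (le_abs_self _))
    refine Finset.sum_congr rfl fun k _ => ?_
    rw [Finsupp.smul_apply, Finsupp.smul_apply, smul_eq_mul, smul_eq_mul, abs_mul,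
      abs_of_nonneg (hc k), hua]
  have h7 : ev y (∑ k ∈ A, c k • x k) ≤ ‖y‖ * 32 :=
    (le_abs_self _).trans ((abs_ev_le y _).trans
      (mul_le_mul_of_nonneg_left (h6.trans hn) (norm_nonneg y)))
  linarith

/-! ### Part E4 -/

/-- the coordinates as a linear map on a subspace -/
private def E4_lin (ν N : ℕ) (Y : Submodule ℝ (StrongDual ℝ (X01 (ν + 1)))) :
    Y →ₗ[ℝ] (Fin (N + 1) → ℝ) where
  toFun := fun y k => crd (y : StrongDual ℝ (X01 (ν + 1))) k
  map_add' := by
    intro y y'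
    funext k
    show crd ((y : StrongDual ℝ (X01 (ν + 1))) + (y' : StrongDual ℝ (X01 (ν + 1)))) k = _
    unfold crd
    rw [ev_add']
    rfl
  map_smul' := by
    intro c y
    funext k
    show crd (c • (y : StrongDual ℝ (X01 (ν + 1)))) k = _
    unfold crd
    rw [ev_smul']
    rfl

private theorem E4_step (ν : ℕ) (Y : Submodule ℝ (StrongDual ℝ (X01 (ν + 1))))
    (hY : ¬ FiniteDimensional ℝ Y) (N : ℕ) (ε : ℝ) (hε : 0 < ε) :
    ∃ (y : StrongDual ℝ (X01 (ν + 1))) (N' : ℕ), y ∈ Y ∧ ‖y‖ = 1 ∧ (∀ k, k ≤ N → crd y k = 0) ∧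
      N < N' ∧ ∀ x : ℕ →₀ ℝ, (∀ k ∈ x.support, N' ≤ k) → |ev y x| ≤ ε * nrm (ν + 1) x := by
  have h1 : ¬ Function.Injective (E4_lin ν N Y) := by
    intro hinj
    exact hY (Module.Finite.of_injective (E4_lin ν N Y) hinj)
  have h2 : ∃ z : Y, z ≠ 0 ∧ E4_lin ν N Y z = 0 := by
    by_contra hcon
    push Not at hcon
    apply h1
    intro m m' hm
    by_contra hne
    have hsub : m - m' ≠ 0 := sub_ne_zero.2 hne
    apply hcon _ hsub
    have h3 := (E4_lin ν N Y).map_sub m m'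
    rw [h3, hm, sub_self]
  obtain ⟨z, hz0, hz⟩ := h2
  have hzn : (z : StrongDual ℝ (X01 (ν + 1))) ≠ 0 := by
    intro h
    exact hz0 (Subtype.ext h)
  have hpos : 0 < ‖(z : StrongDual ℝ (X01 (ν + 1)))‖ := norm_pos_iff.2 hzn
  set y : StrongDual ℝ (X01 (ν + 1)) := (‖(z : StrongDual ℝ (X01 (ν + 1)))‖)⁻¹ • (z : StrongDual ℝ (X01 (ν + 1))) with hy
  obtain ⟨N0, hN0⟩ := shrink ν y ε hε
  refine ⟨y, max N0 (N + 1), ?_, ?_, ?_, ?_, ?_⟩
  · exact Y.smul_mem _ z.2
  · rw [hy, norm_smul, norm_inv, norm_norm, inv_mul_cancel₀ (ne_of_gt hpos)]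
  · intro k hk
    have h3 : crd (z : StrongDual ℝ (X01 (ν + 1))) k = 0 := by
      have := congrFun hz ⟨k, by omega⟩
      exact this
    unfold crd at h3 ⊢
    rw [hy, ev_smul', h3, mul_zero]
  · have := le_max_right N0 (N + 1)
    omega
  · intro x hx
    apply hN0
    intro k hk
    exact le_trans (le_max_left _ _) (hx k hk)

/-- ROW E4 (gliding hump). Recursively: given `N` (a bound for the supports of all `b i'`, `i' < i`, and `N ≥ i`) choose `y i ∈ Y`, `‖y i‖ = 1`, with `crd (y i) k = 0` for all `k ≤ N`: exists since the linear map `Y → (Fin (N+1) → ℝ)`, `y ↦ (crd y k)_k`, cannot be injective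
(`Y` is infinite dimensional). By `shrink` with `ε = η i` there is `N' > N` such that `|ev (y i) x| ≤ η i * nrm x` for supports in `[N', ∞)`. Let `b i` = the coordinates of `y i` on `(N, N')` : `b i k = crd (y i) k` if `N < k < N'`, `0` otherwise.
Then `ev (y i) x - ∑ k ∈ x.support, b i k * x k = ev (y i) (rs [N', ∞) x)`. -/
theorem hump (ν : ℕ) (Y : Submodule ℝ (StrongDual ℝ (X01 (ν + 1))))
    (hY : ¬ FiniteDimensional ℝ Y) (η : ℕ → ℝ) (hη : ∀ i, 0 < η i) :
    ∃ (y : ℕ → StrongDual ℝ (X01 (ν + 1))) (b : ℕ → ℕ →₀ ℝ), (∀ i, y i ∈ Y) ∧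
      (∀ i, ‖y i‖ = 1) ∧ (∀ i, ∀ k ∈ (b i).support, i < k) ∧
      (∀ i i', i < i' → ∀ a ∈ (b i).support, ∀ c ∈ (b i').support, a < c) ∧
      (∀ i, ∀ k ∈ (b i).support, b i k = crd (y i) k) ∧
      ∀ i (x : ℕ →₀ ℝ), |ev (y i) x - ∑ k ∈ x.support, b i k * x k| ≤ η i * nrm (ν + 1) x := by
  choose! Yf Nf hYm hYn hYc hNN hYs using fun (N : ℕ) (ε : ℝ) (hε : 0 < ε) =>
    E4_step ν Y hY N ε hε
  obtain ⟨M, hM0, hM1⟩ : ∃ M : ℕ → ℕ, M 0 = 0 ∧ ∀ i, M (i + 1) = Nf (M i) (η i) :=
    ⟨fun i => Nat.rec (motive := fun _ => ℕ) 0 (fun i a => Nf a (η i)) i, rfl, fun i => rfl⟩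
  have hMs : ∀ i, M i < M (i + 1) := by
    intro i
    rw [hM1]
    exact hNN (M i) (η i) (hη i)
  have hMmono : StrictMono M := strictMono_nat_of_lt_succ hMs
  have hMi : ∀ i, i ≤ M i := fun i => hMmono.id_le i
  let y : ℕ → StrongDual ℝ (X01 (ν + 1)) := fun i => Yf (M i) (η i)
  let f : ℕ → ℕ → ℝ := fun i k => if M i < k ∧ k < M (i + 1) then crd (y i) k else 0
  have hf : ∀ i k, f i k = if M i < k ∧ k < M (i + 1) then crd (y i) k else 0 := fun i k => rfl
  have hf' : ∀ i k, f i k ≠ 0 → k ∈ Finset.Ioo (M i) (M (i + 1)) := by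
    intro i k hk
    rw [Finset.mem_Ioo]
    by_contra hcon
    apply hk
    rw [hf, if_neg hcon]
  let b : ℕ → ℕ →₀ ℝ := fun i => Finsupp.onFinset (Finset.Ioo (M i) (M (i + 1))) (f i) (hf' i)
  have hb : ∀ i k, b i k = if M i < k ∧ k < M (i + 1) then crd (y i) k else 0 := fun i k => rfl
  have hbs : ∀ i, ∀ k ∈ (b i).support, M i < k ∧ k < M (i + 1) := by
    intro i k hk
    rw [Finsupp.mem_support_iff, hb] at hk
    by_contra hcon
    exact hk (if_neg hcon)
  refine ⟨y, b, ?_, ?_, ?_, ?_, ?_, ?_⟩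
  · intro i
    exact hYm (M i) (η i) (hη i)
  · intro i
    exact hYn (M i) (η i) (hη i)
  · intro i k hk
    exact lt_of_le_of_lt (hMi i) (hbs i k hk).1
  · intro i i' hii a ha c hc
    have h1 := (hbs i a ha).2
    have h2 := (hbs i' c hc).1
    have h3 : M (i + 1) ≤ M i' := hMmono.monotone hii
    omega
  · intro i k hk
    rw [hb, if_pos (hbs i k hk)]
  · intro i x
    have key : ev (y i) x - ∑ k ∈ x.support, b i k * x k =
        ev (y i) (rs {k | M (i + 1) ≤ k} x) := by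
      rw [ev_eq_sum, ev_eq_sum, ← Finset.sum_sub_distrib]
      have hsub : (rs {k | M (i + 1) ≤ k} x).support ⊆ x.support := by
        intro k hk
        exact (mem_support_rs.1 hk).2
      rw [← Finset.sum_subset hsub (f := fun k => crd (y i) k * x k - b i k * x k)]
      · apply Finset.sum_congr rfl
        intro k hk
        have hk1 : M (i + 1) ≤ k := (mem_support_rs.1 hk).1
        have hk2 : k ∈ {k | M (i + 1) ≤ k} := hk1
        rw [hb, if_neg (by omega), rs_apply, if_pos hk2, zero_mul, sub_zero]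
      · intro k hk hkn
        have hk1 : ¬ M (i + 1) ≤ k := by
          intro h
          exact hkn (mem_support_rs.2 ⟨h, hk⟩)
        by_cases hk2 : M i < k
        · rw [hb, if_pos ⟨hk2, by omega⟩, sub_self]
        · rw [hb, if_neg (by omega)]
          have : crd (y i) k = 0 := hYc (M i) (η i) (hη i) k (by omega)
          rw [this]
          ring
    rw [key]
    have h1 : |ev (y i) (rs {k | M (i + 1) ≤ k} x)| ≤
        η i * nrm (ν + 1) (rs {k | M (i + 1) ≤ k} x) := by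
      apply hYs (M i) (η i) (hη i)
      intro k hk
      have h2 : M (i + 1) ≤ k := (mem_support_rs.1 hk).1
      rw [← hM1]
      exact h2
    exact le_trans h1 (mul_le_mul_of_nonneg_left (nrm_rs_le _ _ _) (le_of_lt (hη i)))

end Pool.Agent.Lib.MP_1bb70c_an
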