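import Pool.Agent.Lib.MP_1bb70c_an.Norm

set_option autoImplicit false

open Finset
open scoped Classical

noncomputable section

namespace Pool.Agent.Lib.MP_1bb70c_an

/-! ### Part F1 -/

/-- ROW F1 (re-marking). Every family can be re-marked so that the markers are the first points of the
sets inside the support of `x`. Take `q ∈ Q` with `E q ∩ x.support ≠ ∅` (call them good), let `g q` = least element of
`E q ∩ x.support`, `Q'` = image of the good ones under `g` (strictly increasing on the good ones since `g q < q' ≤ g q'` for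
`q < q'`, by `Fam.sep` and `Fam.lb`), `φ` = the inverse of `g` on `Q'`. `φ b ≤ b` by `Fam.lb`. The members `q` that are not good have
`rs (E q) x = 0` and `av n _ 0 = 0`; for the good ones `rs (E q) x = rs (E q ∩ x.support) x`. -/
theorem remark_fam (n : ℕ) (x : ℕ →₀ ℝ) (Q : Finset ℕ) (E : ℕ → Set ℕ) (j : ℕ → ℕ) (σ : ℕ)
    (hF : Fam Q E j σ) :
    ∃ (Q' : Finset ℕ) (φ : ℕ → ℕ), (∀ b ∈ Q', φ b ∈ Q) ∧
      (∀ b ∈ Q', ∀ b' ∈ Q', b < b' → φ b < φ b') ∧ (∀ b ∈ Q', φ b ≤ b) ∧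
      (∀ b ∈ Q', b ∈ x.support ∧ b ∈ E (φ b) ∧ ∀ k ∈ x.support, k ∈ E (φ b) → b ≤ k) ∧
      Fam Q' (fun b => E (φ b) ∩ (↑x.support : Set ℕ)) (fun b => j (φ b)) σ ∧
      val n Q E j x = val n Q' (fun b => E (φ b) ∩ (↑x.support : Set ℕ)) (fun b => j (φ b)) x := by
  obtain ⟨S, hS⟩ : ∃ S : ℕ → Finset ℕ, S = fun q => x.support.filter (fun k => k ∈ E q) := ⟨_, rfl⟩
  have memS : ∀ q k, k ∈ S q ↔ k ∈ x.support ∧ k ∈ E q := by
    intro q k; rw [hS]; simp only [Finset.mem_filter]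
  obtain ⟨G, hG⟩ : ∃ G : Finset ℕ, G = Q.filter (fun q => (S q).Nonempty) := ⟨_, rfl⟩
  have memG : ∀ q, q ∈ G ↔ q ∈ Q ∧ (S q).Nonempty := by
    intro q; rw [hG]; simp only [Finset.mem_filter]
  have hg : ∃ g : ℕ → ℕ, ∀ q ∈ G, g q ∈ S q ∧ ∀ k ∈ S q, g q ≤ k := by
    refine ⟨fun q => if h : (S q).Nonempty then (S q).min' h else 0, ?_⟩
    intro q hq
    have h := ((memG q).1 hq).2
    simp only [dif_pos h]
    exact ⟨Finset.min'_mem _ h, fun k hk => Finset.min'_le _ k hk⟩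
  obtain ⟨g, hg⟩ := hg
  have hqg : ∀ q ∈ G, q ≤ g q := fun q hq =>
    hF.lb q ((memG q).1 hq).1 _ ((memS q _).1 (hg q hq).1).2
  have hlt : ∀ q ∈ G, ∀ q' ∈ G, q < q' → g q < g q' := by
    intro q hq q' hq' h
    have h1 := (hF.sep q ((memG q).1 hq).1 q' ((memG q').1 hq').1 h _
      ((memS q _).1 (hg q hq).1).2).1
    exact lt_of_lt_of_le h1 (hqg q' hq')
  have hinj : ∀ q ∈ G, ∀ q' ∈ G, g q = g q' → q = q' := by
    intro q hq q' hq' h
    rcases lt_trichotomy q q' with h1 | h1 | h1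
    · exact absurd h (hlt q hq q' hq' h1).ne
    · exact h1
    · exact absurd h.symm (hlt q' hq' q hq h1).ne
  obtain ⟨φ, hφ⟩ : ∃ φ : ℕ → ℕ, ∀ q ∈ G, φ (g q) = q := by
    refine ⟨fun b => if h : ∃ q ∈ G, g q = b then h.choose else 0, ?_⟩
    intro q hq
    have h : ∃ q' ∈ G, g q' = g q := ⟨q, hq, rfl⟩
    simp only [dif_pos h]
    exact hinj _ h.choose_spec.1 _ hq h.choose_spec.2
  refine ⟨G.image g, φ, ?_, ?_, ?_, ?_, ?_, ?_⟩
  · intro b hb
    obtain ⟨q, hq, rfl⟩ := Finset.mem_image.1 hb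
    rw [hφ q hq]; exact ((memG q).1 hq).1
  · intro b hb b' hb' hbb
    obtain ⟨q, hq, rfl⟩ := Finset.mem_image.1 hb
    obtain ⟨q', hq', rfl⟩ := Finset.mem_image.1 hb'
    rw [hφ q hq, hφ q' hq']
    rcases lt_trichotomy q q' with h1 | h1 | h1
    · exact h1
    · rw [h1] at hbb; exact absurd hbb (lt_irrefl _)
    · exact absurd hbb (hlt q' hq' q hq h1).not_gt
  · intro b hb
    obtain ⟨q, hq, rfl⟩ := Finset.mem_image.1 hb
    rw [hφ q hq]; exact hqg q hq
  · intro b hb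
    obtain ⟨q, hq, rfl⟩ := Finset.mem_image.1 hb
    rw [hφ q hq]
    have h1 := (memS q _).1 (hg q hq).1
    exact ⟨h1.1, h1.2, fun k hk hk' => (hg q hq).2 k ((memS q k).2 ⟨hk, hk'⟩)⟩
  · refine ⟨?_, ?_, ?_⟩
    · intro b hb k hk
      obtain ⟨q, hq, rfl⟩ := Finset.mem_image.1 hb
      rw [hφ q hq] at hk
      exact (hg q hq).2 k ((memS q k).2 ⟨Finset.mem_coe.1 hk.2, hk.1⟩)
    · intro b hb b' hb' hbb k hk
      obtain ⟨q, hq, rfl⟩ := Finset.mem_image.1 hb
      obtain ⟨q', hq', rfl⟩ := Finset.mem_image.1 hb'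
      rw [hφ q hq] at hk
      have hqq : q < q' := by
        rcases lt_trichotomy q q' with h1 | h1 | h1
        · exact h1
        · rw [h1] at hbb; exact absurd hbb (lt_irrefl _)
        · exact absurd hbb (hlt q' hq' q hq h1).not_gt
      have h1 := hF.sep q ((memG q).1 hq).1 q' ((memG q').1 hq').1 hqq k hk.1
      show k < g q' ∧ k < j (φ (g q'))
      rw [hφ q' hq']
      exact ⟨lt_of_lt_of_le h1.1 (hqg q' hq'), h1.2⟩
    · intro b hb
      obtain ⟨q, hq, rfl⟩ := Finset.mem_image.1 hb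
      show σ ≤ j (φ (g q))
      rw [hφ q hq]; exact hF.sz q ((memG q).1 hq).1
  · unfold val
    rw [Finset.sum_image (fun q hq q' hq' h => hinj q hq q' hq' h)]
    have h1 : ∑ q ∈ Q, av n (j q) (rs (E q) x) = ∑ q ∈ G, av n (j q) (rs (E q) x) := by
      symm
      apply Finset.sum_subset (by rw [hG]; exact Finset.filter_subset _ _)
      intro q hq hq'
      have h2 : rs (E q) x = 0 := by
        ext k
        rw [rs_apply, Finsupp.zero_apply]
        split_ifs with hk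
        · by_contra hne
          exact hq' ((memG q).2 ⟨hq, ⟨k, (memS q k).2 ⟨Finsupp.mem_support_iff.2 hne, hk⟩⟩⟩)
        · rfl
      rw [h2, av_zero]
    rw [h1]
    refine Finset.sum_congr rfl (fun q hq => ?_)
    show av n (j q) (rs (E q) x) = av n (j (φ (g q))) (rs (E (φ (g q)) ∩ (↑x.support : Set ℕ)) x)
    rw [hφ q hq]
    congr 1
    apply rs_congr
    intro k hk
    exact ⟨fun h => ⟨h, Finset.mem_coe.2 hk⟩, fun h => h.1⟩

/-! ### Part F2 -/

private theorem F2_val_zero (n : ℕ) (Q : Finset ℕ) (E : ℕ → Set ℕ) (j : ℕ → ℕ) :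
    val n Q E j 0 = 0 := by
  unfold val
  refine Finset.sum_eq_zero (fun q _ => ?_)
  rw [rs_zero, av_zero]

/-- ROW F2. Basic facts on `Bd`. -/
theorem bd_mono_x {n : ℕ} {G : Finset ℕ → Prop} {σ : ℕ} {x y : ℕ →₀ ℝ} {B : ℝ} (hy : 0 ≤ y)
    (hyx : y ≤ x) (h : Bd n G σ x B) : Bd n G σ y B := by
  intro Q E j hF hG
  exact (val_mono n Q E j hy hyx).trans (h Q E j hF hG)

theorem bd_rs {n : ℕ} {G : Finset ℕ → Prop} {σ : ℕ} {x : ℕ →₀ ℝ} {B : ℝ} (hx : 0 ≤ x)
    (E : Set ℕ) (h : Bd n G σ x B) : Bd n G σ (rs E x) B :=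
  bd_mono_x (rs_nonneg E hx) (rs_le E hx) h

theorem bd_mono_size {n : ℕ} {G : Finset ℕ → Prop} {σ σ' : ℕ} (hσ : σ ≤ σ') {x : ℕ →₀ ℝ}
    {B : ℝ} (h : Bd n G σ x B) : Bd n G σ' x B := by
  intro Q E j hF hG
  refine h Q E j ?_ hG
  exact hF.sub (Finset.Subset.refl Q) (fun _ _ => Set.Subset.refl _) (fun _ _ => le_refl _)
    (fun q hq => hσ.trans (hF.sz q hq))

theorem bd_mono_B {n : ℕ} {G : Finset ℕ → Prop} {σ : ℕ} {x : ℕ →₀ ℝ} {B B' : ℝ} (hB : B ≤ B')
    (h : Bd n G σ x B) : Bd n G σ x B' := by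
  intro Q E j hF hG
  exact (h Q E j hF hG).trans hB

theorem bd_mono_G {n : ℕ} {G G' : Finset ℕ → Prop} (hG : ∀ Q, G' Q → G Q) {σ : ℕ}
    {x : ℕ →₀ ℝ} {B : ℝ} (h : Bd n G σ x B) : Bd n G' σ x B := by
  intro Q E j hF hG'
  exact h Q E j hF (hG Q hG')

theorem bd_add {n : ℕ} {G : Finset ℕ → Prop} {σ : ℕ} {x y : ℕ →₀ ℝ} {A B : ℝ}
    (hx : Bd n G σ x A) (hy : Bd n G σ y B) : Bd n G σ (x + y) (A + B) := by
  intro Q E j hF hG
  have h1 : val n Q E j (x + y) ≤ val n Q E j x + val n Q E j y := by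
    unfold val
    rw [← Finset.sum_add_distrib]
    refine Finset.sum_le_sum (fun q _ => ?_)
    rw [rs_add]
    exact av_add_le n (j q) _ _
  exact h1.trans (add_le_add (hx Q E j hF hG) (hy Q E j hF hG))

theorem bd_sum {n : ℕ} {G : Finset ℕ → Prop} {σ : ℕ} {ι : Type} (s : Finset ι)
    (f : ι → ℕ →₀ ℝ) (B : ι → ℝ) (h : ∀ i ∈ s, Bd n G σ (f i) (B i)) :
    Bd n G σ (∑ i ∈ s, f i) (∑ i ∈ s, B i) := by
  classical
  induction s using Finset.induction_on with
  | empty =>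
    intro Q E j _ _
    rw [Finset.sum_empty, Finset.sum_empty, F2_val_zero]
  | insert a s ha ih =>
    rw [Finset.sum_insert ha, Finset.sum_insert ha]
    exact bd_add (h a (Finset.mem_insert_self a s))
      (ih (fun i hi => h i (Finset.mem_insert_of_mem hi)))

theorem bd_smul {n : ℕ} {G : Finset ℕ → Prop} {σ : ℕ} {x : ℕ →₀ ℝ} {B : ℝ} (c : ℝ) (hc : 0 ≤ c)
    (h : Bd n G σ x B) : Bd n G σ (c • x) (c * B) := by
  intro Q E j hF hG
  have h1 : val n Q E j (c • x) = c * val n Q E j x := by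
    unfold val
    rw [Finset.mul_sum]
    refine Finset.sum_congr rfl (fun q _ => ?_)
    rw [rs_smul, av_smul, abs_of_nonneg hc]
  rw [h1]
  exact mul_le_mul_of_nonneg_left (h Q E j hF hG) hc

theorem bd_zero (n : ℕ) (G : Finset ℕ → Prop) (σ : ℕ) : Bd n G σ 0 0 := by
  intro Q E j _ _
  rw [F2_val_zero]

/-- `G ∅` gives `0 ≤ B`. -/
theorem bd_nonneg {n : ℕ} {G : Finset ℕ → Prop} (hG : G ∅) {σ : ℕ} {x : ℕ →₀ ℝ} {B : ℝ}
    (h : Bd n G σ x B) : 0 ≤ B := by
  have h1 := h ∅ (fun _ => ∅) (fun _ => 0) (Fam.empty _ _ _) hG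
  rwa [val_empty] at h1

/-- every family with sizes `≥ σ ≥ 1` has value at most `(1/σ) ∑ |x k|` (`av_l1`, the sets are disjoint). -/
theorem bd_l1 (n : ℕ) (G : Finset ℕ → Prop) (σ : ℕ) (hσ : 1 ≤ σ) (x : ℕ →₀ ℝ) :
    Bd n G σ x ((1 / (σ : ℝ)) * ∑ k ∈ x.support, |x k|) := by
  intro Q E j hF _
  have hσ0 : (0 : ℝ) < (σ : ℝ) := by exact_mod_cast hσ
  have h1 : ∀ q ∈ Q, av n (j q) (rs (E q) x) ≤
      (1 / (σ : ℝ)) * ∑ k ∈ (rs (E q) x).support, |x k| := by
    intro q hq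
    have h2 := av_l1 n (j q) (rs (E q) x)
    have h3 : ∑ k ∈ (rs (E q) x).support, |rs (E q) x k| =
        ∑ k ∈ (rs (E q) x).support, |x k| := by
      refine Finset.sum_congr rfl (fun k hk => ?_)
      rw [rs_apply, if_pos (mem_support_rs.1 hk).1]
    rw [h3] at h2
    have h4 : (σ : ℝ) ≤ (j q : ℝ) := by exact_mod_cast hF.sz q hq
    have h5 : (1 / (j q : ℝ)) ≤ 1 / (σ : ℝ) := one_div_le_one_div_of_le hσ0 h4
    exact h2.trans (mul_le_mul_of_nonneg_right h5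
      (Finset.sum_nonneg (fun k _ => abs_nonneg _)))
  have hd : Set.PairwiseDisjoint (↑Q : Set ℕ) (fun q => (rs (E q) x).support) := by
    intro q hq q' hq' hne
    rw [Function.onFun, Finset.disjoint_left]
    intro k hk hk'
    have hkE := (mem_support_rs.1 hk).1
    have hkE' := (mem_support_rs.1 hk').1
    have hq1 : q ∈ Q := hq
    have hq1' : q' ∈ Q := hq'
    rcases lt_or_gt_of_ne hne with hlt | hlt
    · have ha := (hF.sep q hq1 q' hq1' hlt k hkE).1
      have hb := hF.lb q' hq1' k hkE'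
      omega
    · have ha := (hF.sep q' hq1' q hq1 hlt k hkE').1
      have hb := hF.lb q hq1 k hkE
      omega
  unfold val
  calc ∑ q ∈ Q, av n (j q) (rs (E q) x)
      ≤ ∑ q ∈ Q, (1 / (σ : ℝ)) * ∑ k ∈ (rs (E q) x).support, |x k| := Finset.sum_le_sum h1
    _ = (1 / (σ : ℝ)) * ∑ q ∈ Q, ∑ k ∈ (rs (E q) x).support, |x k| := by
        rw [Finset.mul_sum]
    _ = (1 / (σ : ℝ)) * ∑ k ∈ Q.biUnion (fun q => (rs (E q) x).support), |x k| := by
        rw [Finset.sum_biUnion hd]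
    _ ≤ (1 / (σ : ℝ)) * ∑ k ∈ x.support, |x k| := by
        refine mul_le_mul_of_nonneg_left ?_ (by positivity)
        refine Finset.sum_le_sum_of_subset_of_nonneg ?_ (fun k _ _ => abs_nonneg _)
        intro k hk
        rw [Finset.mem_biUnion] at hk
        obtain ⟨q, _, hk2⟩ := hk
        exact (mem_support_rs.1 hk2).2

/-- single averages: for `1 ≤ σ`, `|x|_{S_0,σ} = ‖x‖_σ`.
`→`: the one-element family `Q = {0}`, `E = univ`, `j = σ`. `←`: `Q` empty or a singleton, `av_rs_le`, `av_anti`. -/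
theorem bd_zero_iff (n σ : ℕ) (hσ : 1 ≤ σ) (x : ℕ →₀ ℝ) (B : ℝ) (hB : 0 ≤ B) :
    Bd n (Sch 0) σ x B ↔ av n σ x ≤ B := by
  constructor
  · intro h
    have h1 := h {0} (fun _ => Set.univ) (fun _ => σ)
      (Fam.single 0 _ _ σ (fun k _ => Nat.zero_le k) (le_refl σ)) (by simp [Sch])
    unfold val at h1
    rw [Finset.sum_singleton, rs_univ] at h1
    exact h1
  · intro h Q E j hF hG
    have hc : Q.card ≤ 1 := by simpa [Sch] using hG
    rcases Nat.le_one_iff_eq_zero_or_eq_one.1 hc with h0 | h0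
    · rw [Finset.card_eq_zero] at h0
      subst h0
      rw [val_empty]; exact hB
    · obtain ⟨q, rfl⟩ := Finset.card_eq_one.1 h0
      unfold val
      rw [Finset.sum_singleton]
      exact ((av_rs_le n (j q) (E q) x).trans
        (av_anti n hσ (hF.sz q (Finset.mem_singleton_self q)) x)).trans h

/-! ### Part F2b -/

private theorem F2b_sch_small (i : ℕ) : ∀ Q : Finset ℕ, Q.card ≤ 1 → (∀ q ∈ Q, 1 ≤ q) → Sch i Q := by
  induction i with
  | zero =>
    intro Q hQ _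
    exact hQ
  | succ i ih =>
    intro Q hQ h1
    exact sch_succ_of i 1 Q h1 ((schU_one i Q).2 (ih Q hQ h1))

private theorem F2b_schU_small (i c : ℕ) (hc : 1 ≤ c) (Q : Finset ℕ) (hQ : Q.card ≤ 1)
    (h1 : ∀ q ∈ Q, 1 ≤ q) : SchU i c Q :=
  schU_mono i hc ((schU_one i Q).2 (F2b_sch_small i Q hQ h1))

private theorem F2b_schU_of_zero (i c : ℕ) (Q : Finset ℕ) (h1 : ∀ q ∈ Q, 1 ≤ q)
    (h : SchU 0 c Q) : SchU i c Q := by
  obtain ⟨f, hf1, hf2, hf3⟩ := h
  refine ⟨f, hf1, hf2, fun a => ?_⟩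
  refine F2b_sch_small i _ (hf3 a) ?_
  intro q hq
  exact h1 q (Finset.mem_filter.1 hq).1

/-- The value of a family is at most `∑ |x k|`. -/
private theorem F2b_val_le (n : ℕ) (x : ℕ →₀ ℝ) (Q : Finset ℕ) (E : ℕ → Set ℕ) (j : ℕ → ℕ) (σ : ℕ)
    (hF : Fam Q E j σ) : val n Q E j x ≤ ∑ k ∈ x.support, |x k| := by
  have h1 : ∀ q ∈ Q, av n (j q) (rs (E q) x) ≤ ∑ k ∈ x.support, (if k ∈ E q then |x k| else 0) := by
    intro q _
    refine (av_le_nrm n (j q) _).trans ((nrm_l1 n _).trans ?_)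
    have hsub : (rs (E q) x).support ⊆ x.support := by
      intro k hk
      exact (mem_support_rs.1 hk).2
    refine (Finset.sum_le_sum_of_subset_of_nonneg hsub (fun _ _ _ => abs_nonneg _)).trans ?_
    refine Finset.sum_le_sum (fun k _ => ?_)
    rw [rs_apply]
    by_cases hk : k ∈ E q
    · rw [if_pos hk, if_pos hk]
    · rw [if_neg hk, if_neg hk, abs_zero]
  unfold val
  refine (Finset.sum_le_sum h1).trans ?_
  rw [Finset.sum_comm]
  refine Finset.sum_le_sum (fun k _ => ?_)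
  by_cases hex : ∃ q ∈ Q, k ∈ E q
  · obtain ⟨q0, hq0, hk0⟩ := hex
    have hz : ∀ q ∈ Q, q ≠ q0 → (if k ∈ E q then |x k| else (0 : ℝ)) = 0 := by
      intro q hq hne
      rw [if_neg]
      intro hk
      rcases lt_or_gt_of_ne hne with hlt | hlt
      · have := (hF.sep q hq q0 hq0 hlt k hk).1
        have := hF.lb q0 hq0 k hk0
        omega
      · have := (hF.sep q0 hq0 q hq hlt k hk0).1
        have := hF.lb q hq k hk
        omega
    rw [Finset.sum_eq_single_of_mem q0 hq0 hz, if_pos hk0]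
  · have hz : ∀ q ∈ Q, (if k ∈ E q then |x k| else (0 : ℝ)) = 0 := by
      intro q hq
      rw [if_neg]
      intro hk
      exact hex ⟨q, hq, hk⟩
    rw [Finset.sum_eq_zero hz]
    exact abs_nonneg _

/-- ROW F2b. Facts on `Bd` which need re-marking (`remark_fam`), and the numbers `bn`. -/
theorem f2b_dummy : True := trivial

/-- also from unions: `SchU i c` with `c ≥ 1` contains the singletons `{q}`, `q ≥ 1` (take `q = 1`, `E = univ ∩ [1,∞)`). -/
theorem av_le_of_bdU {n i c σ : ℕ} (hc : 1 ≤ c) {x : ℕ →₀ ℝ} {B : ℝ}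
    (hx : ∀ k ∈ x.support, 1 ≤ k) (h : Bd n (SchU i c) σ x B) : av n σ x ≤ B := by
  have hF : Fam {1} (fun _ => {k : ℕ | 1 ≤ k}) (fun _ => σ) σ :=
    Fam.single 1 (fun _ => {k : ℕ | 1 ≤ k}) (fun _ => σ) σ (fun k hk => hk) le_rfl
  have hU : SchU i c {1} := by
    refine F2b_schU_small i c hc {1} (by simp) ?_
    intro q hq
    rw [Finset.mem_singleton] at hq
    omega
  have h2 := h _ _ _ hF hU
  unfold val at h2
  rw [Finset.sum_singleton] at h2
  have h3 : rs {k : ℕ | 1 ≤ k} x = x := rs_self hx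
  have h4 : av n σ (rs {k : ℕ | 1 ≤ k} x) ≤ B := h2
  rw [h3] at h4
  exact h4

/-- families with at most `c` sets are in `SchU i c` after re-marking (markers `≥ 1`; colour by rank; `{q} ∈ Sch i` for `q ≥ 1`). -/
theorem bd_few_of_bdU {n i c σ : ℕ} {x : ℕ →₀ ℝ} {B : ℝ} (hx : ∀ k ∈ x.support, 1 ≤ k)
    (h : Bd n (SchU i c) σ x B) : Bd n (SchU 0 c) σ x B := by
  intro Q E j hF hQ
  obtain ⟨Q', φ, h1, h2, h3, h4, h5, h6⟩ := remark_fam n x Q E j σ hF
  rw [h6]
  refine h _ _ _ h5 ?_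
  refine F2b_schU_of_zero i c Q' (fun q hq => hx q (h4 q hq).1) ?_
  exact schU_spread 0 c φ Q Q' h1 h2 h3 hQ

theorem av_le_of_bd_sch {n i σ : ℕ} {x : ℕ →₀ ℝ} {B : ℝ} (hx : ∀ k ∈ x.support, 1 ≤ k)
    (h : Bd n (Sch i) σ x B) : av n σ x ≤ B := by
  refine av_le_of_bdU (i := i) (c := 1) le_rfl hx ?_
  exact bd_mono_G (fun Q hQ => (schU_one i Q).1 hQ) h

/-- Beyond `c`, unions of `c` sets of `S_i` are in `S_{i+1}` (re-mark by `remark_fam`, `schU_spread`,
`sch_succ_of`). -/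
theorem bd_beyond {n i c σ : ℕ} {x : ℕ →₀ ℝ} {B : ℝ} (hc : ∀ k ∈ x.support, c ≤ k)
    (h : Bd n (Sch (i + 1)) σ x B) : Bd n (SchU i c) σ x B := by
  intro Q E j hF hQ
  obtain ⟨Q', φ, h1, h2, h3, h4, h5, h6⟩ := remark_fam n x Q E j σ hF
  rw [h6]
  refine h _ _ _ h5 ?_
  refine sch_succ_of i c Q' (fun q hq => hc q (h4 q hq).1) ?_
  exact schU_spread i c φ Q Q' h1 h2 h3 hQ

/-- `S_i ⊆ S_{i'}` for supports in `[1,∞)` (`bd_beyond` with `c = 1`, `schU_one`). -/
theorem bd_sch_up {n i i' σ : ℕ} (hi : i ≤ i') {x : ℕ →₀ ℝ} {B : ℝ}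
    (hx : ∀ k ∈ x.support, 1 ≤ k) (h : Bd n (Sch i') σ x B) : Bd n (Sch i) σ x B := by
  induction i', hi using Nat.le_induction with
  | base => exact h
  | succ k hk ih =>
    refine ih ?_
    exact bd_mono_G (fun Q hQ => (schU_one k Q).2 hQ) (bd_beyond (c := 1) hx h)

theorem not_bd {n : ℕ} {G : Finset ℕ → Prop} {σ : ℕ} {x : ℕ →₀ ℝ} {B : ℝ}
    (h : ¬ Bd n G σ x B) : ∃ Q E j, Fam Q E j σ ∧ G Q ∧ B < val n Q E j x := by
  by_contra hcon
  apply h
  intro Q E j hF hQ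
  by_contra hlt
  exact hcon ⟨Q, E, j, hF, hQ, not_le.1 hlt⟩

private theorem F2b_bdd (n : ℕ) (G : Finset ℕ → Prop) (σ : ℕ) (x : ℕ →₀ ℝ) :
    BddAbove {r : ℝ | ∃ (Q : Finset ℕ) (E : ℕ → Set ℕ) (j : ℕ → ℕ),
      Fam Q E j σ ∧ G Q ∧ r = val n Q E j x} := by
  refine ⟨∑ k ∈ x.support, |x k|, ?_⟩
  rintro r ⟨Q, E, j, hF, _, rfl⟩
  exact F2b_val_le n x Q E j σ hF

/-- The number `bn n G σ x` (values of families are bounded by `∑ |x k|`: each average is `≤ nrm (rs (E q) x) ≤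
∑_{E q} |x k|`). -/
theorem bn_spec {n : ℕ} {G : Finset ℕ → Prop} {σ : ℕ} (x : ℕ →₀ ℝ) :
    Bd n G σ x (bn n G σ x) := by
  intro Q E j hF hQ
  exact le_csSup (F2b_bdd n G σ x) ⟨Q, E, j, hF, hQ, rfl⟩

private theorem F2b_zero_mem (n : ℕ) (G : Finset ℕ → Prop) (hG : G ∅) (σ : ℕ) (x : ℕ →₀ ℝ) :
    (0 : ℝ) ∈ {r : ℝ | ∃ (Q : Finset ℕ) (E : ℕ → Set ℕ) (j : ℕ → ℕ),
      Fam Q E j σ ∧ G Q ∧ r = val n Q E j x} :=
  ⟨∅, fun _ => ∅, fun _ => 0, Fam.empty _ _ _, hG, (val_empty n _ _ x).symm⟩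

theorem bn_le {n : ℕ} {G : Finset ℕ → Prop} (hG : G ∅) {σ : ℕ} {x : ℕ →₀ ℝ} {B : ℝ}
    (h : Bd n G σ x B) : bn n G σ x ≤ B := by
  refine csSup_le ⟨0, F2b_zero_mem n G hG σ x⟩ ?_
  rintro r ⟨Q, E, j, hF, hQ, rfl⟩
  exact h Q E j hF hQ

theorem bn_nonneg {n : ℕ} {G : Finset ℕ → Prop} (hG : G ∅) {σ : ℕ} (x : ℕ →₀ ℝ) :
    0 ≤ bn n G σ x :=
  le_csSup (F2b_bdd n G σ x) (F2b_zero_mem n G hG σ x)

/-- near-optimal families -/
theorem bn_approx {n : ℕ} {G : Finset ℕ → Prop} (hG : G ∅) {σ : ℕ} (x : ℕ →₀ ℝ) (ε : ℝ)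
    (hε : 0 < ε) : ∃ Q E j, Fam Q E j σ ∧ G Q ∧ bn n G σ x - ε < val n Q E j x := by
  have hlt : bn n G σ x - ε < bn n G σ x := by linarith
  obtain ⟨r, ⟨Q, E, j, hF, hQ, rfl⟩, hr⟩ :=
    exists_lt_of_lt_csSup ⟨0, F2b_zero_mem n G hG σ x⟩ hlt
  exact ⟨Q, E, j, hF, hQ, hr⟩

/-! ### Part F3 -/

/-- ROW F3. For `n ≥ 1` the norm dominates every admissible family with sizes `≥ 2` (with our relaxed size condition).
Proof: re-mark (`remark_fam`): so `q ∈ E q ∩ x.support` for all `q ∈ Q'` and `Q'` is in `Sch n` (`sch_spread`), i.e. in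
`Schreier n` (`sch_iff`). If `Q'` is empty the value is `0`. Otherwise `Q'` does not contain `0` (`schreier_pos`). Enumerate
`Q' = {a_0 < ... < a_{d-1}}` (`Finset.orderEmbOfFin`), `E q := (E (φ a_q)).filter on x.support` as a finset, with least element `a_q`, and sizes
`J_0 = 2`, `J_q = (max of E_{q-1}) + 1` for `q ≥ 1`. These are strictly increasing: `J_{q+1} = max E_q + 1 > max E_{q-1} + 1 = J_q`;
and `J_1 = max E_0 + 1 > 2` since `max E_0 ≥ 2`: otherwise `max E_0 = a_0 = 1`, so `1 ∈ Q'`, `Q' = {1}` by `schreier_one` and `d = 1`.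
`J_q ≤ j (φ a_q)` (`Fam.sep`, resp. `2 ≤ j`), so by `av_anti` `av (j ..) ≤ av J_q`; then `step_ge` and `nrm_fix`.
(`av = avg (nrm n)`.) -/
theorem bd_nrm (n : ℕ) (hn : 1 ≤ n) (x : ℕ →₀ ℝ) : Bd n (Sch n) 2 x (nrm n x) := by
  intro Q E j hF hG
  obtain ⟨Q', φ, h1, h2, h3, h4, hF', hval⟩ := remark_fam n x Q E j 2 hF
  rw [hval]
  have hS : Schreier n Q' := (sch_iff n Q').1 (sch_spread n φ Q Q' h1 h2 h3 hG)
  have hpos : ∀ q ∈ Q', 1 ≤ q := schreier_pos hn Q' hS
  -- enumeration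
  obtain ⟨d, hd⟩ : ∃ d, Q'.card = d := ⟨_, rfl⟩
  let e : Fin d ↪o ℕ := Q'.orderEmbOfFin hd
  have he : ∀ i, e i ∈ Q' := fun i => Finset.orderEmbOfFin_mem Q' hd i
  have himg : Finset.univ.image (fun i => e i) = Q' := by
    have := Finset.image_orderEmbOfFin_univ Q' hd
    exact this
  let Es : Fin d → Finset ℕ := fun i => x.support.filter (fun k => k ∈ E (φ (e i)))
  have hEs : ∀ i k, k ∈ Es i ↔ k ∈ x.support ∧ k ∈ E (φ (e i)) := fun i k => by
    simp [Es]
  have hle : ∀ i, IsLeast (↑(Es i) : Set ℕ) (e i) := by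
    intro i
    obtain ⟨g1, g2, g3⟩ := h4 (e i) (he i)
    refine ⟨?_, ?_⟩
    · rw [Finset.mem_coe, hEs]; exact ⟨g1, g2⟩
    · intro k hk
      rw [Finset.mem_coe, hEs] at hk
      exact g3 k hk.1 hk.2
  have hsep : ∀ p q, p < q → ∀ k ∈ Es p, k < e q ∧ k < j (φ (e q)) := by
    intro p q hpq k hk
    rw [hEs] at hk
    exact hF'.sep (e p) (he p) (e q) (he q) (e.strictMono hpq) k ⟨hk.2, by simpa using hk.1⟩
  let mx : Fin d → ℕ := fun i => (Es i).sup id
  have hmx : ∀ i, ∀ k ∈ Es i, k ≤ mx i := fun i k hk => Finset.le_sup (f := id) hk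
  have hmxe : ∀ i, e i ≤ mx i := fun i => hmx i (e i) (Finset.mem_coe.1 (hle i).1)
  have hmxlt : ∀ p q, p < q → mx p < e q := by
    intro p q hpq
    have h0 : 0 < e q := hpos _ (he q)
    exact (Finset.sup_lt_iff (by simpa using h0)).2 (fun k hk => (hsep p q hpq k hk).1)
  have hmxj : ∀ p q, p < q → mx p < j (φ (e q)) := by
    intro p q hpq
    have h0 : 0 < j (φ (e q)) := by
      have := hF'.sz (e q) (he q)
      omega
    exact (Finset.sup_lt_iff (by simpa using h0)).2 (fun k hk => (hsep p q hpq k hk).2)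
  have h2le : ∀ i : Fin d, 2 ≤ d → 2 ≤ e i := by
    intro i hd2
    have hp := hpos _ (he i)
    by_contra hc
    have h1e : e i = 1 := by omega
    have hmem : 1 ∈ Q' := by rw [← h1e]; exact he i
    have := schreier_one Q' hn hS hmem
    rw [this] at hd
    simp at hd
    omega
  let J : Fin d → ℕ := fun i => if h : (i : ℕ) = 0 then 2 else mx ⟨(i : ℕ) - 1, by omega⟩ + 1
  have hJ0 : ∀ i : Fin d, (i : ℕ) = 0 → J i = 2 := fun i hi => by simp [J, hi]
  have hJ1 : ∀ (i : Fin d) (hi : (i : ℕ) ≠ 0), J i = mx ⟨(i : ℕ) - 1, by omega⟩ + 1 := fun i hi => by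
    simp [J, hi]
  have hJ2 : ∀ i, 2 ≤ J i := by
    intro i
    by_cases hi : (i : ℕ) = 0
    · rw [hJ0 i hi]
    · rw [hJ1 i hi]
      have := hmxe ⟨(i : ℕ) - 1, by omega⟩
      have := hpos _ (he ⟨(i : ℕ) - 1, by omega⟩)
      omega
  have hJm : StrictMono J := by
    intro p q hpq
    have hpq' : (p : ℕ) < (q : ℕ) := hpq
    have hq0 : (q : ℕ) ≠ 0 := by omega
    rw [hJ1 q hq0]
    by_cases hp0 : (p : ℕ) = 0
    · rw [hJ0 p hp0]
      have hd2 : 2 ≤ d := by have := q.2; omega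
      have g1 := hmxe ⟨(q : ℕ) - 1, by omega⟩
      have g2 := h2le ⟨(q : ℕ) - 1, by omega⟩ hd2
      omega
    · rw [hJ1 p hp0]
      have g1 := hmxlt ⟨(p : ℕ) - 1, by omega⟩ ⟨(q : ℕ) - 1, by omega⟩
        (by rw [Fin.mk_lt_mk]; omega)
      have g2 := hmxe ⟨(q : ℕ) - 1, by omega⟩
      omega
  have hJ6 : ∀ p q, p < q → ∀ k ∈ Es p, k < J q := by
    intro p q hpq k hk
    have hpq' : (p : ℕ) < (q : ℕ) := hpq
    have hq0 : (q : ℕ) ≠ 0 := by omega
    rw [hJ1 q hq0]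
    by_cases hc : (p : ℕ) = (q : ℕ) - 1
    · have hpe : p = ⟨(q : ℕ) - 1, by omega⟩ := Fin.ext hc
      have := hmx p k hk
      rw [hpe] at this
      omega
    · have g1 := (hsep p ⟨(q : ℕ) - 1, by omega⟩ (by rw [Fin.lt_def]; simp only; omega) k hk).1
      have g2 := hmxe ⟨(q : ℕ) - 1, by omega⟩
      omega
  have hJj : ∀ q, J q ≤ j (φ (e q)) := by
    intro q
    by_cases hq : (q : ℕ) = 0
    · rw [hJ0 q hq]
      exact hF'.sz (e q) (he q)
    · rw [hJ1 q hq]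
      exact hmxj ⟨(q : ℕ) - 1, by omega⟩ q (by rw [Fin.lt_def]; simp only; omega)
  have hstep := step_ge n (nrm n) (nice_nrm n) x d Es (fun i => e i) J hle
    (fun p q hpq k hk l hl => lt_of_lt_of_le (hsep p q hpq k hk).1 ((hle q).2 (Finset.mem_coe.2 hl)))
    (by rw [himg]; exact hS) hJ2 hJm hJ6
  rw [← nrm_fix] at hstep
  refine le_trans ?_ hstep
  unfold val
  have hsum : ∑ q ∈ Q', av n (j (φ q)) (rs (E (φ q) ∩ (↑x.support : Set ℕ)) x)
      = ∑ i : Fin d, av n (j (φ (e i))) (rs (E (φ (e i)) ∩ (↑x.support : Set ℕ)) x) := by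
    conv_lhs => rw [← himg]
    rw [Finset.sum_image]
    intro a _ b _ hab
    exact e.injective hab
  rw [hsum]
  apply Finset.sum_le_sum
  intro i _
  have hrs : rs (E (φ (e i)) ∩ (↑x.support : Set ℕ)) x = rs (↑(Es i) : Set ℕ) x := by
    apply rs_congr
    intro k hk
    rw [Finset.mem_coe, hEs]
    constructor
    · rintro ⟨g1, _⟩; exact ⟨hk, g1⟩
    · rintro ⟨_, g2⟩; exact ⟨g2, by simpa using hk⟩
  rw [hrs]
  exact av_anti n (by have := hJ2 i; omega) (hJj i) _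

/-! ### Part F3b -/

private theorem F3b_mono {d : ℕ} (E : Fin d → Finset ℕ) (a : Fin d → ℕ)
    (h1 : ∀ q, IsLeast (↑(E q) : Set ℕ) (a q))
    (h2 : ∀ p q, p < q → ∀ k ∈ E p, ∀ l ∈ E q, k < l) : StrictMono a := by
  intro p q hpq
  exact h2 p q hpq _ (by exact_mod_cast (h1 p).1) _ (by exact_mod_cast (h1 q).1)

private theorem F3b_fam {d : ℕ} (E : Fin d → Finset ℕ) (a j : Fin d → ℕ)
    (h1 : ∀ q, IsLeast (↑(E q) : Set ℕ) (a q))
    (h2 : ∀ p q, p < q → ∀ k ∈ E p, ∀ l ∈ E q, k < l)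
    (h4 : ∀ q, 2 ≤ j q) (h6 : ∀ p q, p < q → ∀ k ∈ E p, k < j q) :
    ∃ (E' : ℕ → Set ℕ) (j' : ℕ → ℕ), Fam (Finset.univ.image a) E' j' 2 ∧
      (∀ q, E' (a q) = ↑(E q)) ∧ (∀ q, j' (a q) = j q) := by
  have ha := F3b_mono E a h1 h2
  have hE : ∀ q, {k | ∃ q', a q' = a q ∧ k ∈ E q'} = (↑(E q) : Set ℕ) := by
    intro q
    ext k
    simp only [Set.mem_setOf_eq, Finset.mem_coe]
    constructor
    · rintro ⟨q', hq', hk⟩
      rw [ha.injective hq'] at hk
      exact hk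
    · intro hk
      exact ⟨q, rfl, hk⟩
  have hj : ∀ q, (∑ q' ∈ Finset.univ.filter (fun q' => a q' = a q), j q') = j q := by
    intro q
    have : Finset.univ.filter (fun q' => a q' = a q) = {q} := by
      ext q'
      simp only [Finset.mem_filter, Finset.mem_univ, true_and, Finset.mem_singleton]
      exact ⟨fun h => ha.injective h, fun h => by rw [h]⟩
    rw [this, Finset.sum_singleton]
  refine ⟨fun b => {k | ∃ q', a q' = b ∧ k ∈ E q'},
    fun b => ∑ q' ∈ Finset.univ.filter (fun q' => a q' = b), j q', ?_, hE, hj⟩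
  refine ⟨?_, ?_, ?_⟩
  · intro b _ k hk
    obtain ⟨q, rfl, hk⟩ := hk
    exact (h1 q).2 (by exact_mod_cast hk)
  · intro b hb b' hb' hlt k hk
    obtain ⟨q, rfl, hk⟩ := hk
    obtain ⟨q', _, rfl⟩ := Finset.mem_image.1 hb'
    have hqq : q < q' := ha.lt_iff_lt.1 hlt
    refine ⟨h2 q q' hqq k hk _ (by exact_mod_cast (h1 q').1), ?_⟩
    show k < ∑ r ∈ Finset.univ.filter (fun r => a r = a q'), j r
    rw [hj q']
    exact h6 q q' hqq k hk
  · intro b hb
    obtain ⟨q, _, rfl⟩ := Finset.mem_image.1 hb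
    show 2 ≤ ∑ r ∈ Finset.univ.filter (fun r => a r = a q), j r
    rw [hj q]
    exact h4 q

/-- ROW F3b. Upper bounds for the norm and its levels from marker families.
An official family `(E, a, j)` (indexed by `Fin d`) gives the marker family `Q = univ.image a`, `E' (a q) = E q`, `j' (a q) = j q`
(`a` is strictly increasing), and `∑ q : Fin d, avg ν (j q) (rs (E q) x) = ∑ b ∈ Q, avg ν (j' b) (rs (E' b) x)`. -/
theorem nrm_le_of_bd (n : ℕ) (x : ℕ →₀ ℝ) (B : ℝ) (hB : ∀ k, |x k| ≤ B)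
    (h : Bd n (Sch n) 2 x B) : nrm n x ≤ B := by
  rw [nrm_fix]
  refine step_le n (nrm n) (nice_nrm n) x B (supn_le x B hB) ?_
  intro d E a j h1 h2 h3 h4 _ h6
  obtain ⟨E', j', hF, hE, hj⟩ := F3b_fam E a j h1 h2 h4 h6
  have ha := F3b_mono E a h1 h2
  have hval := h _ E' j' hF ((sch_iff n _).2 h3)
  unfold val at hval
  rw [Finset.sum_image (fun p _ q _ hpq => ha.injective hpq)] at hval
  refine le_trans (le_of_eq ?_) hval
  refine Finset.sum_congr rfl (fun q _ => ?_)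
  rw [hE, hj]
  rfl

/-- The same for levels, with the averages unfolded. (From `avg_le`, finitely many `q`: use `ε / 2 ^ …`, or induction on the
finset of `q`'s for the statement `∑ q ∈ Q', avg .. + ∑ q ∈ Q \ Q', (1/j) ∑ .. ≤ B` for all choices of `D` on `Q \ Q'`.) -/
theorem lev_succ_le (n l : ℕ) (x : ℕ →₀ ℝ) (B : ℝ) (hB : ∀ k, |x k| ≤ B)
    (h : ∀ (Q : Finset ℕ) (E : ℕ → Set ℕ) (j : ℕ → ℕ), Fam Q E j 2 → Sch n Q →
      ∀ D : ℕ → ℕ → Set ℕ, (∀ q, SuccS (D q)) → (∀ q p, D q p ⊆ E q) →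
      ∑ q ∈ Q, (1 / (j q : ℝ)) * ∑ p ∈ range (j q), lev n l (rs (D q p) x) ≤ B) :
    lev n (l + 1) x ≤ B := by
  show stepN n (lev n l) x ≤ B
  refine step_le n (lev n l) (nice_lev n l) x B (supn_le x B hB) ?_
  intro d E a j h1 h2 h3 h4 _ h6
  obtain ⟨E', j', hF, hE, hj⟩ := F3b_fam E a j h1 h2 h4 h6
  have ha := F3b_mono E a h1 h2
  have key : ∀ ε : ℝ, 0 < ε →
      ∑ q, avg (lev n l) (j q) (rs (↑(E q) : Set ℕ) x) ≤ B + (d : ℝ) * ε := by
    intro ε hε
    have hex : ∀ q : Fin d, ∃ D : ℕ → Set ℕ, SuccS D ∧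
        avg (lev n l) (j q) (rs (↑(E q) : Set ℕ) x) - ε ≤
          (1 / (j q : ℝ)) * ∑ p ∈ range (j q), lev n l (rs (D p) (rs (↑(E q) : Set ℕ) x)) := by
      intro q
      by_contra hcon
      push Not at hcon
      have := avg_le (lev n l) (nice_lev n l) (j q) (rs (↑(E q) : Set ℕ) x)
        (avg (lev n l) (j q) (rs (↑(E q) : Set ℕ) x) - ε) (fun D hD => (hcon D hD).le)
      linarith
    choose D hD1 hD2 using hex
    have hh := h _ E' j' hF ((sch_iff n _).2 h3)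
      (fun b p => {k | ∃ q, a q = b ∧ k ∈ D q p ∧ k ∈ E q}) ?_ ?_
    · rw [Finset.sum_image (fun p _ q _ hpq => ha.injective hpq)] at hh
      have h5 : ∑ q, avg (lev n l) (j q) (rs (↑(E q) : Set ℕ) x) ≤
          ∑ q : Fin d, ((1 / (j q : ℝ)) * ∑ p ∈ range (j q),
            lev n l (rs (D q p) (rs (↑(E q) : Set ℕ) x)) + ε) := by
        refine Finset.sum_le_sum (fun q _ => ?_)
        have := hD2 q
        linarith
      rw [Finset.sum_add_distrib] at h5
      have h7 : ∑ _q : Fin d, ε = (d : ℝ) * ε := by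
        rw [Finset.sum_const, Finset.card_univ, Fintype.card_fin, nsmul_eq_mul]
      rw [h7] at h5
      refine h5.trans (add_le_add (le_trans (le_of_eq ?_) hh) (le_refl _))
      refine Finset.sum_congr rfl (fun q _ => ?_)
      rw [hj]
      congr 1
      refine Finset.sum_congr rfl (fun p _ => ?_)
      rw [rs_rs]
      congr 2
      ext k
      simp only [Set.mem_inter_iff, Finset.mem_coe, Set.mem_setOf_eq]
      constructor
      · rintro ⟨hk1, hk2⟩
        exact ⟨q, rfl, hk1, hk2⟩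
      · rintro ⟨q', hq', hk1, hk2⟩
        rw [ha.injective hq'] at hk1 hk2
        exact ⟨hk1, hk2⟩
    · intro b p p' hpp x1 hx1 x2 hx2
      obtain ⟨q1, hq1, hk1, _⟩ := hx1
      obtain ⟨q2, hq2, hk2, _⟩ := hx2
      have : q1 = q2 := ha.injective (hq1.trans hq2.symm)
      subst this
      exact hD1 q1 p p' hpp x1 hk1 x2 hk2
    · rintro b p k ⟨q, rfl, hk1, hk2⟩
      rw [hE]
      exact_mod_cast hk2
  refine le_of_forall_pos_le_add (fun δ hδ => ?_)
  have h8 := key (δ / ((d : ℝ) + 1)) (by positivity)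
  have h9 : (d : ℝ) * (δ / ((d : ℝ) + 1)) ≤ δ := by
    rw [mul_div_assoc', div_le_iff₀ (by positivity)]
    nlinarith
  linarith

/-! ### Part F4 -/

/-- ROW F4 (first + rest). If `supp x ⊆ [ρ,∞)` then all sets of a family but the first one meeting the support have
sizes `≥ ρ + 1`. Proof: given a family `Q, E, j`; if no `E q` meets `x.support` the value is `0 ≤ A + B` (`bd_nonneg`). Otherwise let `q1 ∈ Q` be
the least `q` with `E q ∩ x.support ≠ ∅`. The `q < q1` contribute `0`; `q1` contributes `≤ A` (one-element family `{q1}`, `Fam.single`, sizes `≥ σ`); the others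
form the family `Q.filter (q1 < ·)` with sizes `> k ≥ ρ` for a `k ∈ E q1 ∩ x.support`, and `Q.filter ..` is in `SchU i c` (`schU_subset`). -/
theorem bd_first_restU (n i c : ℕ) (x : ℕ →₀ ℝ) (σ ρ : ℕ) (hρ : ∀ k ∈ x.support, ρ ≤ k)
    (A B : ℝ) (hA : Bd n (Sch 0) σ x A) (hB : Bd n (SchU i c) (ρ + 1) x B) :
    Bd n (SchU i c) σ x (A + B) := by
  intro Q E j hF hG
  have hA0 : 0 ≤ A := bd_nonneg (sch_empty 0) hA
  have hB0 : 0 ≤ B := bd_nonneg (schU_empty i c) hB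
  have hzero : ∀ q : ℕ, (¬ ∃ k, k ∈ E q ∧ k ∈ x.support) → av n (j q) (rs (E q) x) = 0 := by
    intro q hq
    have h0 : rs (E q) x = 0 := by
      ext k
      rw [rs_apply]
      by_cases hk : k ∈ E q
      · rw [if_pos hk]
        have : k ∉ x.support := fun h => hq ⟨k, hk, h⟩
        simpa using this
      · rw [if_neg hk]; rfl
    rw [h0, av_zero]
  by_cases hne : (Q.filter (fun q => ∃ k, k ∈ E q ∧ k ∈ x.support)).Nonempty
  · obtain ⟨q1, hq1, hmin⟩ := Finset.exists_min_image _ (fun q : ℕ => q) hne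
    rw [Finset.mem_filter] at hq1
    obtain ⟨hq1Q, k, hkE, hkx⟩ := hq1
    have hsplit : val n Q E j x = val n {q1} E j x + val n (Q.filter (fun q => q1 < q)) E j x := by
      unfold val
      rw [Finset.sum_singleton]
      have h1 : ∑ q ∈ Q, av n (j q) (rs (E q) x)
          = ∑ q ∈ Q.filter (fun q => q1 ≤ q), av n (j q) (rs (E q) x) := by
        rw [Finset.sum_filter_of_ne]
        intro q hq hn
        by_contra hlt
        apply hn
        apply hzero
        rintro ⟨k', h1, h2⟩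
        exact hlt (hmin q (Finset.mem_filter.2 ⟨hq, k', h1, h2⟩))
      have h2 : Q.filter (fun q => q1 ≤ q) = insert q1 (Q.filter (fun q => q1 < q)) := by
        ext q
        simp only [Finset.mem_filter, Finset.mem_insert]
        constructor
        · rintro ⟨hq, hle⟩
          rcases Nat.eq_or_lt_of_le hle with h | h
          · exact Or.inl h.symm
          · exact Or.inr ⟨hq, h⟩
        · rintro (h | ⟨hq, h⟩)
          · subst h; exact ⟨hq1Q, le_refl _⟩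
          · exact ⟨hq, h.le⟩
      rw [h1, h2, Finset.sum_insert]
      simp
    rw [hsplit]
    apply add_le_add
    · refine hA {q1} E j (Fam.single q1 E j σ (fun k hk => hF.lb q1 hq1Q k hk) (hF.sz q1 hq1Q)) ?_
      change ({q1} : Finset ℕ).card ≤ 1
      rw [Finset.card_singleton]
    · refine hB (Q.filter (fun q => q1 < q)) E j ?_ (schU_subset i c (Finset.filter_subset _ _) hG)
      refine hF.sub (Finset.filter_subset _ _) (fun q _ => Set.Subset.refl _)
        (fun q _ => le_refl _) (fun q hq => ?_)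
      rw [Finset.mem_filter] at hq
      have h3 := (hF.sep q1 hq1Q q hq.1 hq.2 k hkE).2
      have h4 := hρ k hkx
      omega
  · have hv : val n Q E j x = 0 := by
      unfold val
      refine Finset.sum_eq_zero fun q hq => hzero q ?_
      intro h
      exact hne ⟨q, Finset.mem_filter.2 ⟨hq, h⟩⟩
    rw [hv]
    exact add_nonneg hA0 hB0

theorem bd_first_rest (n i : ℕ) (x : ℕ →₀ ℝ) (σ ρ : ℕ) (hρ : ∀ k ∈ x.support, ρ ≤ k)
    (A B : ℝ) (hA : Bd n (Sch 0) σ x A) (hB : Bd n (Sch i) (ρ + 1) x B) :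
    Bd n (Sch i) σ x (A + B) := by
  have h := bd_first_restU n i 1 x σ ρ hρ A B hA
    (fun Q E j hF hG => hB Q E j hF ((schU_one i Q).1 hG))
  exact fun Q E j hF hG => h Q E j hF ((schU_one i Q).2 hG)

/-! ### Part F5 -/

/-- strengthened induction for `concat_fam`. -/
private theorem F5_aux (n a : ℕ) (x : ℕ →₀ ℝ) (D : ℕ → Set ℕ) (hD : SuccS D) (σ : ℕ)
    (ρ : ℕ → ℕ) (c : ℕ → ℕ) (Q : ℕ → Finset ℕ) (E : ℕ → ℕ → Set ℕ) (j : ℕ → ℕ → ℕ) (d : ℕ)
    (hρ : ∀ p < d, σ ≤ ρ p)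
    (hρ2 : ∀ p < d, ∀ p' < p, ∀ k ∈ D p', k ∈ x.support → k < ρ p)
    (hF : ∀ p < d, Fam (Q p) (E p) (j p) (ρ p)) (hS : ∀ p < d, SchU a (c p) (Q p)) :
    ∃ (Q' : Finset ℕ) (E' : ℕ → Set ℕ) (j' : ℕ → ℕ), Fam Q' E' j' σ ∧
      SchU a (∑ p ∈ range d, c p) Q' ∧
      (∀ b ∈ Q', ∃ p < d, b ∈ D p) ∧
      (∀ b ∈ Q', ∀ k ∈ E' b, k ∈ x.support ∧ ∃ p < d, k ∈ D p) ∧
      ∑ p ∈ range d, val n (Q p) (E p) (j p) (rs (D p) x) ≤ val n Q' E' j' x := by
  induction d with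
  | zero =>
    refine ⟨∅, fun _ => ∅, fun _ => σ, Fam.empty _ _ _, ?_, ?_, ?_, ?_⟩
    · exact schU_empty _ _
    · intro b hb; exact absurd hb (Finset.notMem_empty b)
    · intro b hb; exact absurd hb (Finset.notMem_empty b)
    · rw [Finset.sum_range_zero, val_empty]
  | succ d ih =>
    obtain ⟨Q0, E0, j0, hF0, hS0, hQ0, hE0, hv0⟩ := ih (fun p hp => hρ p (by omega))
      (fun p hp => hρ2 p (by omega)) (fun p hp => hF p (by omega)) (fun p hp => hS p (by omega))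
    obtain ⟨Q1, φ, hφ1, hφ2, hφ3, hφ4, hF1, hv1⟩ := remark_fam n (rs (D d) x) (Q d) (E d) (j d)
      (ρ d) (hF d (Nat.lt_succ_self d))
    obtain ⟨E1, hE1⟩ : ∃ E1 : ℕ → Set ℕ,
        E1 = (fun b => E d (φ b) ∩ (↑(rs (D d) x).support : Set ℕ)) := ⟨_, rfl⟩
    obtain ⟨j1, hj1⟩ : ∃ j1 : ℕ → ℕ, j1 = (fun b => j d (φ b)) := ⟨_, rfl⟩
    rw [← hE1, ← hj1] at hF1 hv1
    have hQ1D : ∀ b ∈ Q1, b ∈ D d ∧ b ∈ x.support := fun b hb =>
      mem_support_rs.1 (hφ4 b hb).1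
    have hE1D : ∀ b, ∀ k ∈ E1 b, k ∈ D d ∧ k ∈ x.support := by
      intro b k hk
      rw [hE1] at hk
      exact mem_support_rs.1 (Finset.mem_coe.1 hk.2)
    have hlt : ∀ q ∈ Q0, ∀ b ∈ Q1, q < b := by
      intro q hq b hb
      obtain ⟨p, hp, hqp⟩ := hQ0 q hq
      exact hD p d hp q hqp b (hQ1D b hb).1
    have hdisj : Disjoint Q0 Q1 := by
      rw [Finset.disjoint_left]
      intro q hq hq1
      exact lt_irrefl _ (hlt q hq q hq1)
    have hn : ∀ b ∈ Q1, b ∉ Q0 := fun b hb hb0 => lt_irrefl _ (hlt b hb0 b hb)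
    refine ⟨Q0 ∪ Q1, fun b => if b ∈ Q0 then E0 b else E1 b,
      fun b => if b ∈ Q0 then j0 b else j1 b, ⟨?_, ?_, ?_⟩, ?_, ?_, ?_, ?_⟩
    · intro q hq k hk
      by_cases h0 : q ∈ Q0
      · simp only [if_pos h0] at hk
        exact hF0.lb q h0 k hk
      · simp only [if_neg h0] at hk
        have h1 : q ∈ Q1 := (Finset.mem_union.1 hq).resolve_left h0
        exact hF1.lb q h1 k hk
    · intro q hq q' hq' hqq k hk
      by_cases h0 : q ∈ Q0
      · simp only [if_pos h0] at hk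
        by_cases h0' : q' ∈ Q0
        · simp only [if_pos h0']
          exact hF0.sep q h0 q' h0' hqq k hk
        · simp only [if_neg h0']
          have h1' : q' ∈ Q1 := (Finset.mem_union.1 hq').resolve_left h0'
          obtain ⟨hks, p, hp, hkp⟩ := hE0 q h0 k hk
          refine ⟨hD p d hp k hkp q' (hQ1D q' h1').1, ?_⟩
          exact lt_of_lt_of_le (hρ2 d (Nat.lt_succ_self d) p hp k hkp hks) (hF1.sz q' h1')
      · simp only [if_neg h0] at hk
        have h1 : q ∈ Q1 := (Finset.mem_union.1 hq).resolve_left h0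
        have h0' : q' ∉ Q0 := fun h => absurd (hlt q' h q h1) (by omega)
        have h1' : q' ∈ Q1 := (Finset.mem_union.1 hq').resolve_left h0'
        simp only [if_neg h0']
        exact hF1.sep q h1 q' h1' hqq k hk
    · intro q hq
      by_cases h0 : q ∈ Q0
      · simp only [if_pos h0]
        exact hF0.sz q h0
      · simp only [if_neg h0]
        have h1 : q ∈ Q1 := (Finset.mem_union.1 hq).resolve_left h0
        exact (hρ d (Nat.lt_succ_self d)).trans (hF1.sz q h1)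
    · rw [Finset.sum_range_succ]
      exact schU_union a _ _ Q0 Q1 hlt hS0
        (schU_spread a (c d) φ (Q d) Q1 hφ1 hφ2 hφ3 (hS d (Nat.lt_succ_self d)))
    · intro b hb
      rcases Finset.mem_union.1 hb with h0 | h1
      · obtain ⟨p, hp, hbp⟩ := hQ0 b h0
        exact ⟨p, by omega, hbp⟩
      · exact ⟨d, Nat.lt_succ_self d, (hQ1D b h1).1⟩
    · intro b hb k hk
      by_cases h0 : b ∈ Q0
      · simp only [if_pos h0] at hk
        obtain ⟨hks, p, hp, hkp⟩ := hE0 b h0 k hk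
        exact ⟨hks, p, by omega, hkp⟩
      · simp only [if_neg h0] at hk
        exact ⟨(hE1D b k hk).2, d, Nat.lt_succ_self d, (hE1D b k hk).1⟩
    · rw [Finset.sum_range_succ]
      have e1 : val n (Q0 ∪ Q1) (fun b => if b ∈ Q0 then E0 b else E1 b)
          (fun b => if b ∈ Q0 then j0 b else j1 b) x = val n Q0 E0 j0 x + val n Q1 E1 j1 x := by
        unfold val
        rw [Finset.sum_union hdisj]
        congr 1
        · refine Finset.sum_congr rfl (fun q hq => ?_)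
          simp only [if_pos hq]
        · refine Finset.sum_congr rfl (fun q hq => ?_)
          simp only [if_neg (hn q hq)]
      have e2 : val n Q1 E1 j1 (rs (D d) x) = val n Q1 E1 j1 x := by
        unfold val
        refine Finset.sum_congr rfl (fun q hq => ?_)
        rw [rs_rs, Set.inter_eq_left.2 (fun k hk => (hE1D q k hk).1)]
      rw [e1, hv1, e2]
      exact add_le_add hv0 (le_refl _)

/-- ROW F5 (concatenation of families). `D 0 < D 1 < ...` successive sets; on `rs (D p) x` (`p < d`) a family with sizes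
`≥ ρ p`, where `ρ p ≥ σ` is bigger than all points of `D p' ∩ x.support`, `p' < p`. Then the union of the families is a family for `x`.
Proof: re-mark each family w.r.t. `rs (D p) x` (`remark_fam`): markers `Q_p ⊆ D p ∩ x.support`, sets `E_p b ⊆ D p ∩ x.support`, so the `Q_p` are successive. Let
`Q' = ⋃ Q_p` and for `b ∈ Q'` let `p(b)` be the unique `p < d` with `b ∈ Q_p`; `E' b = E_{p(b)} b`, `j' b = j_{p(b)} b`. `Fam.sep`: same `p`: from the family; `p < p'`: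
`k ∈ D p`, `q' ∈ D p'` gives `k < q'`; and `k < ρ p' ≤ j' q'`. `SchU`: by induction on `d` with `schU_union`, or directly: colour `b` by
`(∑ p' < p(b), c p') + f_{p(b)} b`. Value: `rs (E' b) x = rs (E_p b) (rs (D p) x)`, `Finset.sum_biUnion`. -/
theorem concat_fam (n a : ℕ) (x : ℕ →₀ ℝ) (d : ℕ) (D : ℕ → Set ℕ) (hD : SuccS D) (σ : ℕ)
    (ρ : ℕ → ℕ) (hρ : ∀ p < d, σ ≤ ρ p)
    (hρ2 : ∀ p < d, ∀ p' < p, ∀ k ∈ D p', k ∈ x.support → k < ρ p) (c : ℕ → ℕ)
    (Q : ℕ → Finset ℕ) (E : ℕ → ℕ → Set ℕ) (j : ℕ → ℕ → ℕ)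
    (hF : ∀ p < d, Fam (Q p) (E p) (j p) (ρ p)) (hS : ∀ p < d, SchU a (c p) (Q p)) :
    ∃ (Q' : Finset ℕ) (E' : ℕ → Set ℕ) (j' : ℕ → ℕ), Fam Q' E' j' σ ∧
      SchU a (∑ p ∈ range d, c p) Q' ∧
      ∑ p ∈ range d, val n (Q p) (E p) (j p) (rs (D p) x) ≤ val n Q' E' j' x := by
  obtain ⟨Q', E', j', h1, h2, _, _, h3⟩ := F5_aux n a x D hD σ ρ c Q E j d hρ hρ2 hF hS
  exact ⟨Q', E', j', h1, h2, h3⟩

/-- consequence for the numbers `bn` (all families, `G = True`); near-optimal families `bn_approx` with `ε`. `SchU 0 (card)` always holds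
(`schU_zero`). -/
theorem sum_bn_le_all (n : ℕ) (x : ℕ →₀ ℝ) (d : ℕ) (D : ℕ → Set ℕ) (hD : SuccS D) (σ : ℕ)
    (ρ : ℕ → ℕ) (hρ : ∀ p < d, σ ≤ ρ p)
    (hρ2 : ∀ p < d, ∀ p' < p, ∀ k ∈ D p', k ∈ x.support → k < ρ p) (G : Finset ℕ → Prop)
    (hG : G ∅) (A : ℝ) (hA : Bd n (fun _ => True) σ x A) :
    ∑ p ∈ range d, bn n G (ρ p) (rs (D p) x) ≤ A := by
  have key : ∀ ε : ℝ, 0 < ε → ∑ p ∈ range d, bn n G (ρ p) (rs (D p) x) ≤ A + d * ε := by
    intro ε hε
    have happ : ∀ p, ∃ (Q : Finset ℕ) (E : ℕ → Set ℕ) (j : ℕ → ℕ), Fam Q E j (ρ p) ∧ G Q ∧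
        bn n G (ρ p) (rs (D p) x) - ε < val n Q E j (rs (D p) x) :=
      fun p => bn_approx hG (rs (D p) x) ε hε
    choose Q E j h1 _ h3 using happ
    obtain ⟨Q', E', j', g1, _, g3⟩ := concat_fam n 0 x d D hD σ ρ hρ hρ2 (fun p => (Q p).card)
      Q E j (fun p _ => h1 p) (fun p _ => (schU_zero _ _).2 (le_refl _))
    have h4 : ∑ p ∈ range d, bn n G (ρ p) (rs (D p) x) ≤
        ∑ p ∈ range d, (val n (Q p) (E p) (j p) (rs (D p) x) + ε) :=
      Finset.sum_le_sum (fun p _ => by linarith only [h3 p])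
    rw [Finset.sum_add_distrib, Finset.sum_const, Finset.card_range, nsmul_eq_mul] at h4
    have h5 := hA Q' E' j' g1 trivial
    linarith only [h4, h5, g3]
  refine le_of_forall_pos_le_add (fun δ hδ => ?_)
  have hd : (0 : ℝ) ≤ d := Nat.cast_nonneg d
  have h := key (δ / (d + 1)) (by positivity)
  have h2 : (d : ℝ) * (δ / (d + 1)) ≤ δ := by
    rw [mul_div_assoc', div_le_iff₀ (by positivity)]
    nlinarith only [hδ, hd]
  linarith only [h, h2]

/-! ### Part F5b -/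

/-- ROW F5b. Concatenation for the numbers `bn` of unions of Schreier families: near-optimal families (`bn_approx`, `ε` arbitrary) on each
`rs (D p) x` and `concat_fam`. -/
theorem sum_bnU_le (n a : ℕ) (x : ℕ →₀ ℝ) (d : ℕ) (D : ℕ → Set ℕ) (hD : SuccS D) (σ : ℕ)
    (ρ : ℕ → ℕ) (hρ : ∀ p < d, σ ≤ ρ p)
    (hρ2 : ∀ p < d, ∀ p' < p, ∀ k ∈ D p', k ∈ x.support → k < ρ p) (c : ℕ → ℕ) (B : ℝ)
    (hB : Bd n (SchU a (∑ p ∈ range d, c p)) σ x B) :
    ∑ p ∈ range d, bn n (SchU a (c p)) (ρ p) (rs (D p) x) ≤ B := by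
  refine le_of_forall_pos_le_add fun δ hδ => ?_
  have hd : (0 : ℝ) < (d : ℝ) + 1 := by positivity
  have hch : ∀ p, ∃ (Q : Finset ℕ) (E : ℕ → Set ℕ) (j : ℕ → ℕ), Fam Q E j (ρ p) ∧
      SchU a (c p) Q ∧
      bn n (SchU a (c p)) (ρ p) (rs (D p) x) - δ / ((d : ℝ) + 1) < val n Q E j (rs (D p) x) :=
    fun p => bn_approx (schU_empty a (c p)) (rs (D p) x) _ (div_pos hδ hd)
  choose Q E j hF hS hv using hch
  obtain ⟨Q', E', j', h1, h2, h3⟩ := concat_fam n a x d D hD σ ρ hρ hρ2 c Q E j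
    (fun p _ => hF p) (fun p _ => hS p)
  have h4 := hB Q' E' j' h1 h2
  have h5 : ∑ p ∈ range d, bn n (SchU a (c p)) (ρ p) (rs (D p) x)
      ≤ ∑ p ∈ range d, (val n (Q p) (E p) (j p) (rs (D p) x) + δ / ((d : ℝ) + 1)) :=
    Finset.sum_le_sum fun p _ => by linarith [hv p]
  rw [Finset.sum_add_distrib, Finset.sum_const, Finset.card_range, nsmul_eq_mul] at h5
  have h6 : (d : ℝ) * (δ / ((d : ℝ) + 1)) ≤ δ := by
    rw [mul_div_assoc', div_le_iff₀ hd]
    nlinarith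
  linarith

/-! ### Part F6 -/

private theorem F6_mono (L : ℕ) (g : ℕ → ℕ) (hg : ∀ i < L, g i < g (i + 1)) :
    ∀ q, q ≤ L → ∀ p, p ≤ q → g p ≤ g q := by
  intro q
  induction q with
  | zero =>
    intro _ p hp
    obtain rfl : p = 0 := by omega
    exact le_refl _
  | succ q ih =>
    intro hq p hp
    rcases Nat.lt_or_ge p (q + 1) with h | h
    · exact (ih (by omega) p (by omega)).trans (hg q (by omega)).le
    · obtain rfl : p = q + 1 := by omega
      exact le_refl _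

private theorem F6_aux (n a c L : ℕ) (x : ℕ →₀ ℝ) (g : ℕ → ℕ)
    (hg : ∀ i < L, g i < g (i + 1)) (C : ℕ → Set ℕ)
    (hC : ∀ i < L, C i ⊆ Set.Ioc (g i) (g (i + 1)))
    (Q : ℕ → Finset ℕ) (E : ℕ → ℕ → Set ℕ) (j : ℕ → ℕ → ℕ)
    (hF : ∀ p < L, Fam (Q p) (E p) (j p) (g p + 1)) (hS : ∀ p < L, SchU a c (Q p)) (B : ℝ)
    (hB : Bd n (SchU a (L * c)) (g 0 + 1) x B) :
    ∑ i ∈ range L, val n (Q i) (E i) (j i) (rs (C i) x) ≤ B := by
  have hgm := F6_mono L g hg
  let D : ℕ → Set ℕ := fun i => if i < L then C i else ∅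
  have hDlt : ∀ i, i < L → D i = C i := fun i hi => if_pos hi
  have hDge : ∀ i, ¬ i < L → D i = ∅ := fun i hi => if_neg hi
  have hDm : ∀ i, ∀ k ∈ D i, i < L ∧ g i < k ∧ k ≤ g (i + 1) := by
    intro i k hk
    by_cases hi : i < L
    · rw [hDlt i hi] at hk
      exact ⟨hi, (hC i hi hk).1, (hC i hi hk).2⟩
    · rw [hDge i hi] at hk
      exact absurd hk (Set.notMem_empty k)
  have hD : SuccS D := by
    intro p q hpq u hu v hv
    obtain ⟨hp, _, h2⟩ := hDm p u hu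
    obtain ⟨hq, h3, _⟩ := hDm q v hv
    exact (h2.trans (hgm q hq.le (p + 1) hpq)).trans_lt h3
  obtain ⟨Q', E', j', hF', hS', hval⟩ := concat_fam n a x L D hD (g 0 + 1) (fun i => g i + 1)
    (fun p hp => Nat.add_le_add_right (hgm p hp.le 0 (Nat.zero_le p)) 1)
    (fun p hp p' hp' k hk _ => by
      obtain ⟨_, _, h2⟩ := hDm p' k hk
      exact Nat.lt_succ_of_le (h2.trans (hgm p hp.le (p' + 1) hp')))
    (fun _ => c) Q E j hF hS
  have hc : ∑ _p ∈ range L, c = L * c := by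
    rw [Finset.sum_const, Finset.card_range, smul_eq_mul]
  rw [hc] at hS'
  have h1 := hB Q' E' j' hF' hS'
  refine le_trans (le_of_eq ?_) (hval.trans h1)
  apply Finset.sum_congr rfl
  intro i hi
  rw [hDlt i (Finset.mem_range.1 hi)]

/-- ROW F6 (chains of intervals). From `concat_fam` with `D i = Ioc (g i) (g (i+1))` for `i < L` (`∅` for `i ≥ L`), `ρ i = g i + 1`.
First part: `not_bd` gives a family on each interval with value `> V i`. -/
theorem bd_chain (n a c L : ℕ) (hL : 1 ≤ L) (x : ℕ →₀ ℝ) (g : ℕ → ℕ)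
    (hg : ∀ i < L, g i < g (i + 1)) (V : ℕ → ℝ)
    (h : ∀ i < L, ¬ Bd n (SchU a c) (g i + 1) (rs (Set.Ioc (g i) (g (i + 1))) x) (V i)) (B : ℝ)
    (hB : Bd n (SchU a (L * c)) (g 0 + 1) x B) : ∑ i ∈ range L, V i < B := by
  have hex : ∀ i, ∃ (Q : Finset ℕ) (E : ℕ → Set ℕ) (j : ℕ → ℕ), i < L →
      Fam Q E j (g i + 1) ∧ SchU a c Q ∧
        V i < val n Q E j (rs (Set.Ioc (g i) (g (i + 1))) x) := by
    intro i
    by_cases hi : i < L
    · obtain ⟨Q, E, j, h1, h2, h3⟩ := not_bd (h i hi)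
      exact ⟨Q, E, j, fun _ => ⟨h1, h2, h3⟩⟩
    · exact ⟨∅, fun _ => ∅, fun _ => 0, fun hi' => absurd hi' hi⟩
  choose Q E j hQ using hex
  have h1 := F6_aux n a c L x g hg (fun i => Set.Ioc (g i) (g (i + 1))) (fun i _ => le_refl _)
    Q E j (fun p hp => (hQ p hp).1) (fun p hp => (hQ p hp).2.1) B hB
  refine lt_of_lt_of_le ?_ h1
  apply Finset.sum_lt_sum_of_nonempty
  · exact ⟨0, Finset.mem_range.2 hL⟩
  · intro i hi
    exact (hQ i (Finset.mem_range.1 hi)).2.2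

/-- Second part: near-optimal families (`bn_approx`), open intervals. -/
theorem sum_bn_le (n a c L : ℕ) (x : ℕ →₀ ℝ) (g : ℕ → ℕ)
    (hg : ∀ i < L, g i < g (i + 1)) (B : ℝ)
    (hB : Bd n (SchU a (L * c)) (g 0 + 1) x B) :
    ∑ i ∈ range L, bn n (SchU a c) (g i + 1) (rs (Set.Ioo (g i) (g (i + 1))) x) ≤ B := by
  apply le_of_forall_pos_le_add
  intro ε hε
  have hL1 : (0 : ℝ) < (L : ℝ) + 1 := by positivity
  have hδ : 0 < ε / ((L : ℝ) + 1) := div_pos hε hL1
  have hex : ∀ i, ∃ (Q : Finset ℕ) (E : ℕ → Set ℕ) (j : ℕ → ℕ),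
      Fam Q E j (g i + 1) ∧ SchU a c Q ∧
        bn n (SchU a c) (g i + 1) (rs (Set.Ioo (g i) (g (i + 1))) x) - ε / ((L : ℝ) + 1) <
          val n Q E j (rs (Set.Ioo (g i) (g (i + 1))) x) := by
    intro i
    obtain ⟨Q, E, j, h1, h2, h3⟩ := bn_approx (n := n) (G := SchU a c) (schU_empty a c)
      (σ := g i + 1) (rs (Set.Ioo (g i) (g (i + 1))) x) (ε / ((L : ℝ) + 1)) hδ
    exact ⟨Q, E, j, h1, h2, h3⟩
  choose Q E j hQ using hex
  have h1 := F6_aux n a c L x g hg (fun i => Set.Ioo (g i) (g (i + 1)))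
    (fun i _ => Set.Ioo_subset_Ioc_self)
    Q E j (fun p _ => (hQ p).1) (fun p _ => (hQ p).2.1) B hB
  have h2 : ∑ i ∈ range L, (bn n (SchU a c) (g i + 1) (rs (Set.Ioo (g i) (g (i + 1))) x) -
      ε / ((L : ℝ) + 1)) ≤
      ∑ i ∈ range L, val n (Q i) (E i) (j i) (rs (Set.Ioo (g i) (g (i + 1))) x) :=
    Finset.sum_le_sum (fun i _ => (hQ i).2.2.le)
  rw [Finset.sum_sub_distrib, Finset.sum_const, Finset.card_range, nsmul_eq_mul] at h2
  have h3 : (L : ℝ) * (ε / ((L : ℝ) + 1)) ≤ ε := by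
    rw [← mul_div_assoc, div_le_iff₀ hL1]
    nlinarith
  linarith

/-! ### Part F7 -/

/-- the restriction of `w` to the blocks -/
private theorem F7_split (w : ℕ →₀ ℝ) (r : ℕ) (B : ℕ → Set ℕ)
    (hB : SuccS B) (hcov : ∀ k ∈ w.support, ∃ b ≤ r, k ∈ B b) :
    w = ∑ b ∈ range (r + 1), rs (B b) w := by
  ext k
  rw [Finsupp.finsetSum_apply]
  by_cases hk : k ∈ w.support
  · obtain ⟨b, hb, hkb⟩ := hcov k hk
    rw [Finset.sum_eq_single b]
    · rw [rs_apply, if_pos hkb]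
    · intro b' _ hne
      rw [rs_apply, if_neg]
      intro hkb'
      rcases lt_or_gt_of_ne hne with h | h
      · exact absurd (hB b' b h k hkb' k hkb) (lt_irrefl k)
      · exact absurd (hB b b' h k hkb k hkb') (lt_irrefl k)
    · intro hnot
      exact absurd (Finset.mem_range.2 (Nat.lt_succ_of_le hb)) hnot
  · have h0 : w k = 0 := by simpa using hk
    rw [h0]
    symm
    apply Finset.sum_eq_zero
    intro b _
    rw [rs_apply, h0]
    split_ifs <;> rfl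

/-- terms without support vanish -/
private theorem F7_zero (n : ℕ) (w : ℕ →₀ ℝ) (F : Set ℕ) (m : ℕ)
    (h : ∀ k ∈ w.support, k ∉ F) : av n m (rs F w) = 0 := by
  have : rs F w = 0 := by
    ext k
    rw [rs_apply]
    by_cases hk : k ∈ w.support
    · rw [if_neg (h k hk)]; rfl
    · have h0 : w k = 0 := by simpa using hk
      rw [h0]; split_ifs <;> rfl
  rw [this, av_zero]

/-- ROW F7 (the block lemma). Blocks `B 0 < ... < B r` covering the support of `w`. An `S_{i+1}`-family is, in the block of its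
first point `P`, bounded by `γ`, and in every later block either by `γ b`, or by `α b` (the first set meeting the block) plus `P β b`
(the other sets meeting the block have sizes `≥ ρ b`, and they are at most `P` families in `S_i`).
Proof. If no `E q` meets `w.support`, the value is `0`. Let `q1` be the least `q ∈ Q` with `E q ∩ w.support ≠ ∅`, `P` the least element of
`E q1 ∩ w.support`, `b0 ≤ r` its block. `hQ` gives `d`, `f` with `d ≤ q1 ≤ P`. For every `q ∈ Q`: `w = ∑_b rs (B b) w` on the support, so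
`av (j q) (rs (E q) w) ≤ ∑_{b ≤ r} av (j q) (rs (E q ∩ B b) w)` (`av_sum_le`). For `b < b0` all these terms vanish
(a point `k ∈ E q ∩ B b ∩ w.support`: `k < P` by `hB`, but `q = q1` has least point `P`, `q > q1` has all points `> P`, `q < q1` has none).
So `val Q E j w ≤ ∑_{b0 ≤ b ≤ r} V_b`, `V_b = ∑_{q ∈ Q} av (j q) (rs (E q ∩ B b) w) = ∑_{q ∈ Q_b} ..`, `Q_b = {q ∈ Q : E q ∩ B b ∩ w.support ≠ ∅}`.
(1) `V_b ≤ γ b`: family `Q_b` (in `Sch (i+1)` by `sch_subset`), `E q ∩ B b`, `j`, sizes `≥ σ b` by `hσ`; at the vector `rs (B b) w` (`rs_rs`).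
(2) `V_b ≤ α b + P β b` : `q_b = min Q_b`: one average of size `≥ σ b`: `≤ α b` by `h2`. The other `q ∈ Q_b` have `j q > k` for a `k ∈ E q_b ∩ B b ∩ w.support`, so
`j q ≥ k+1 ≥ ρ b`; for each colour `a < d` the `q ∈ Q_b \ {q_b}` with `f q = a` are in `Sch i` (`sch_subset`): `≤ β b` by `h3`. Sum over `a < d`: `≤ d β b ≤ P β b`.
Conclude with `hC`. -/
theorem block_lemma (n i : ℕ) (w : ℕ →₀ ℝ) (r : ℕ) (B : ℕ → Set ℕ)
    (hB : SuccS B) (hcov : ∀ k ∈ w.support, ∃ b ≤ r, k ∈ B b)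
    (σ ρ : ℕ → ℕ) (α β γ : ℕ → ℝ) (hβ0 : ∀ b, 0 ≤ β b)
    (h1 : ∀ b ≤ r, Bd n (Sch (i + 1)) (σ b) (rs (B b) w) (γ b))
    (h2 : ∀ b ≤ r, Bd n (Sch 0) (σ b) (rs (B b) w) (α b))
    (h3 : ∀ b ≤ r, Bd n (Sch i) (ρ b) (rs (B b) w) (β b))
    (hρ : ∀ b ≤ r, ∀ k ∈ B b, k ∈ w.support → ρ b ≤ k + 1)
    (C : ℝ) (hC0 : 0 ≤ C)
    (hC : ∀ b0 ≤ r, ∀ P ∈ w.support, P ∈ B b0 →
      γ b0 + ∑ b ∈ Finset.Ioc b0 r, min (γ b) (α b + (P : ℝ) * β b) ≤ C)
    (Q : Finset ℕ) (E : ℕ → Set ℕ) (j : ℕ → ℕ) (hF : Fam Q E j 1) (hQ : Sch (i + 1) Q)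
    (hσ : ∀ q ∈ Q, ∀ b ≤ r, ∀ k ∈ E q, k ∈ B b → k ∈ w.support → σ b ≤ j q) :
    val n Q E j w ≤ C := by
  classical
  obtain ⟨d, hd, f, hfm, hfd, hfa⟩ := hQ
  have hQ' : Sch (i + 1) Q := ⟨d, hd, f, hfm, hfd, hfa⟩
  -- the parts of the value
  set t : ℕ → ℕ → ℝ := fun b q => av n (j q) (rs (E q ∩ B b) w) with ht
  have ht0 : ∀ b q, 0 ≤ t b q := fun b q => av_nonneg n (j q) _
  set Qb : ℕ → Finset ℕ := fun b => Q.filter (fun q => ∃ k ∈ w.support, k ∈ E q ∧ k ∈ B b) with hQb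
  have hQbQ : ∀ b, Qb b ⊆ Q := fun b => Finset.filter_subset _ _
  have hmem : ∀ b q, q ∈ Qb b ↔ q ∈ Q ∧ ∃ k ∈ w.support, k ∈ E q ∧ k ∈ B b := by
    intro b q; simp only [hQb, Finset.mem_filter]
  set V : ℕ → ℝ := fun b => ∑ q ∈ Q, t b q with hV
  have hVb : ∀ b, V b = ∑ q ∈ Qb b, t b q := by
    intro b
    rw [hV]
    symm
    apply Finset.sum_subset (hQbQ b)
    intro q hq hnq
    apply F7_zero
    intro k hk hkF
    exact hnq ((hmem b q).2 ⟨hq, k, hk, hkF.1, hkF.2⟩)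
  -- the value is at most the sum of the parts
  have hval : val n Q E j w ≤ ∑ b ∈ range (r + 1), V b := by
    have h2 : ∑ b ∈ range (r + 1), V b = ∑ q ∈ Q, ∑ b ∈ range (r + 1), t b q := by
      rw [hV]; exact Finset.sum_comm
    rw [h2]
    unfold val
    apply Finset.sum_le_sum
    intro q _
    have h3 : rs (E q) w = ∑ b ∈ range (r + 1), rs (E q ∩ B b) w := by
      conv_lhs => rw [F7_split w r B hB hcov]
      rw [rs_sum]
      apply Finset.sum_congr rfl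
      intro b _
      rw [rs_rs]
    rw [h3]
    exact av_sum_le n (j q) _ _
  -- sizes
  have hsz : ∀ b ≤ r, ∀ q ∈ Qb b, σ b ≤ j q := by
    intro b hb q hq
    obtain ⟨hqQ, k, hk, hkE, hkB⟩ := (hmem b q).1 hq
    exact hσ q hqQ b hb k hkE hkB hk
  have hrr : ∀ (b : ℕ) (Q' : Finset ℕ), val n Q' E j (rs (B b) w) = ∑ q ∈ Q', t b q := by
    intro b Q'
    unfold val
    apply Finset.sum_congr rfl
    intro q _
    rw [rs_rs]
  -- (1)
  have hV1 : ∀ b ≤ r, V b ≤ γ b := by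
    intro b hb
    rw [hVb b, ← hrr b (Qb b)]
    exact h1 b hb (Qb b) E j
      (hF.sub (hQbQ b) (fun q _ => le_refl _) (fun q _ => le_refl _) (hsz b hb))
      (sch_subset (i + 1) (hQbQ b) hQ')
  -- (2)
  have hα0 : ∀ b ≤ r, 0 ≤ α b := by
    intro b hb
    have h := h2 b hb ∅ E j (Fam.empty E j (σ b)) (by
      show (∅ : Finset ℕ).card ≤ 1
      simp)
    rwa [val_empty] at h
  have hV2 : ∀ (P : ℕ), d ≤ P → ∀ b ≤ r, V b ≤ α b + (P : ℝ) * β b := by
    intro P hdP b hb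
    rw [hVb b]
    have hPβ : (d : ℝ) * β b ≤ (P : ℝ) * β b :=
      mul_le_mul_of_nonneg_right (by exact_mod_cast hdP) (hβ0 b)
    have hP0 : 0 ≤ (P : ℝ) * β b := mul_nonneg (Nat.cast_nonneg P) (hβ0 b)
    by_cases hne : (Qb b).Nonempty
    · set q0 := (Qb b).min' hne with hq0
      have hq0m : q0 ∈ Qb b := Finset.min'_mem _ _
      obtain ⟨hq0Q, k, hk, hkE, hkB⟩ := (hmem b q0).1 hq0m
      rw [← Finset.add_sum_erase _ _ hq0m]
      apply add_le_add
      · have h := h2 b hb {q0} E j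
          (hF.sub (Finset.singleton_subset_iff.2 hq0Q) (fun q _ => le_refl _)
            (fun q _ => le_refl _) (by
              intro q hq
              rw [Finset.mem_singleton] at hq
              rw [hq]
              exact hsz b hb q0 hq0m)) (by
              show ({q0} : Finset ℕ).card ≤ 1
              simp)
        rw [hrr] at h
        simpa using h
      · -- the other sets
        have hlt : ∀ q ∈ (Qb b).erase q0, q0 < q := by
          intro q hq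
          have hq1 := Finset.mem_erase.1 hq
          exact lt_of_le_of_ne (Finset.min'_le _ _ hq1.2) (Ne.symm hq1.1)
        have hsz2 : ∀ q ∈ (Qb b).erase q0, ρ b ≤ j q := by
          intro q hq
          have hqQ : q ∈ Q := hQbQ b (Finset.mem_of_mem_erase hq)
          have h := (hF.sep q0 hq0Q q hqQ (hlt q hq) k hkE).2
          have h' := hρ b hb k hkB hk
          omega
        have hmaps : ∀ q ∈ (Qb b).erase q0, f q ∈ range d := by
          intro q hq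
          exact Finset.mem_range.2 (hfd q (hQbQ b (Finset.mem_of_mem_erase hq)))
        rw [← Finset.sum_fiberwise_of_maps_to hmaps]
        have hstep : ∀ a ∈ range d,
            ∑ q ∈ ((Qb b).erase q0).filter (fun q => f q = a), t b q ≤ β b := by
          intro a _
          rw [← hrr]
          apply h3 b hb
          · apply hF.sub
            · exact (Finset.filter_subset _ _).trans ((Finset.erase_subset _ _).trans (hQbQ b))
            · exact fun q _ => le_refl _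
            · exact fun q _ => le_refl _
            · intro q hq
              exact hsz2 q (Finset.mem_of_mem_filter q hq)
          · apply sch_subset i _ (hfa a)
            apply Finset.filter_subset_filter
            exact (Finset.erase_subset _ _).trans (hQbQ b)
        calc ∑ a ∈ range d, ∑ q ∈ ((Qb b).erase q0).filter (fun q => f q = a), t b q
            ≤ ∑ a ∈ range d, β b := Finset.sum_le_sum hstep
          _ = (d : ℝ) * β b := by rw [Finset.sum_const, Finset.card_range, nsmul_eq_mul]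
          _ ≤ (P : ℝ) * β b := hPβ
    · rw [Finset.not_nonempty_iff_eq_empty] at hne
      rw [hne, Finset.sum_empty]
      exact add_nonneg (hα0 b hb) hP0
  -- the first point
  by_cases hex : ∃ q, q ∈ Q ∧ ∃ k ∈ w.support, k ∈ E q
  · set q1 := Nat.find hex with hq1
    obtain ⟨hq1Q, hq1k⟩ := Nat.find_spec hex
    have hq1min : ∀ q ∈ Q, (∃ k ∈ w.support, k ∈ E q) → q1 ≤ q :=
      fun q hq hk => Nat.find_min' hex ⟨hq, hk⟩
    have hexP : ∃ k, k ∈ w.support ∧ k ∈ E q1 := by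
      obtain ⟨k, hk, hkE⟩ := hq1k
      exact ⟨k, hk, hkE⟩
    set P := Nat.find hexP with hP
    obtain ⟨hPw, hPE⟩ := Nat.find_spec hexP
    have hPmin : ∀ k, k ∈ w.support → k ∈ E q1 → P ≤ k :=
      fun k hk hkE => Nat.find_min' hexP ⟨hk, hkE⟩
    obtain ⟨b0, hb0, hPb0⟩ := hcov P hPw
    have hdP : d ≤ P := (hd q1 hq1Q).trans (hF.lb q1 hq1Q P hPE)
    have hVlow : ∀ b, b < b0 → V b = 0 := by
      intro b hb
      rw [hVb b]
      have : Qb b = ∅ := by
        rw [Finset.eq_empty_iff_forall_notMem]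
        intro q hq
        obtain ⟨hqQ, k, hk, hkE, hkB⟩ := (hmem b q).1 hq
        have hkP : k < P := hB b b0 hb k hkB P hPb0
        have hle : q1 ≤ q := hq1min q hqQ ⟨k, hk, hkE⟩
        rcases eq_or_lt_of_le hle with h | h
        · have hk1 : k ∈ E q1 := by rw [h]; exact hkE
          have := hPmin k hk hk1
          omega
        · have h5 := (hF.sep q1 hq1Q q hqQ h P hPE).1
          have h6 := hF.lb q hqQ k hkE
          omega
      rw [this, Finset.sum_empty]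
    have hsum : ∑ b ∈ range (r + 1), V b = V b0 + ∑ b ∈ Finset.Ioc b0 r, V b := by
      have hsub : Finset.Icc b0 r ⊆ range (r + 1) := by
        intro b hb
        rw [Finset.mem_Icc] at hb
        exact Finset.mem_range.2 (by omega)
      rw [← Finset.sum_subset hsub (by
        intro b hb hnb
        rw [Finset.mem_range] at hb
        rw [Finset.mem_Icc] at hnb
        exact hVlow b (by omega))]
      have hins : Finset.Icc b0 r = insert b0 (Finset.Ioc b0 r) := by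
        ext b
        rw [Finset.mem_Icc, Finset.mem_insert, Finset.mem_Ioc]
        constructor
        · intro h; omega
        · intro h; omega
      rw [hins, Finset.sum_insert (by
        rw [Finset.mem_Ioc]; omega)]
    calc val n Q E j w ≤ ∑ b ∈ range (r + 1), V b := hval
      _ = V b0 + ∑ b ∈ Finset.Ioc b0 r, V b := hsum
      _ ≤ γ b0 + ∑ b ∈ Finset.Ioc b0 r, min (γ b) (α b + (P : ℝ) * β b) := by
          apply add_le_add (hV1 b0 hb0)
          apply Finset.sum_le_sum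
          intro b hb
          rw [Finset.mem_Ioc] at hb
          exact le_min (hV1 b hb.2) (hV2 P hdP b hb.2)
      _ ≤ C := hC b0 hb0 P hPw hPb0
  · have : val n Q E j w = 0 := by
      unfold val
      apply Finset.sum_eq_zero
      intro q hq
      apply F7_zero
      intro k hk hkE
      exact hex ⟨q, hq, k, hk, hkE⟩
    rw [this]
    exact hC0

/-! ### Part F8 -/

/-- ROW F8 (marking). `Q1` = the set of the `q ∈ Q` for which there is `a ≤ K` such that `q` is the least element of `Q` with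
`E q ∩ W a ∩ w.support ≠ ∅` (at most one for each `a`, so `card ≤ K + 1`: it is contained in the image of `range (K+1)` under `a ↦` that least element).
If `q ∉ Q1` and `k ∈ E q ∩ W a ∩ w.support`, the least `q'` for `a` is `< q`; take `k' ∈ E q' ∩ W a ∩ w.support`; `k' < j q` by `Fam.sep`. -/
theorem marking (w : ℕ →₀ ℝ) (K : ℕ) (W : ℕ → Set ℕ) (Q : Finset ℕ) (E : ℕ → Set ℕ)
    (j : ℕ → ℕ) (σ : ℕ) (hF : Fam Q E j σ) :
    ∃ Q1 ⊆ Q, Q1.card ≤ K + 1 ∧ ∀ q ∈ Q, q ∉ Q1 → ∀ k ∈ E q, k ∈ w.support →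
      ∀ a ≤ K, k ∈ W a → ∃ k' ∈ w.support, k' ∈ W a ∧ k' < j q := by
  let g : ℕ → Finset ℕ := fun a =>
    if h : (Q.filter (fun q => ∃ k ∈ E q, k ∈ w.support ∧ k ∈ W a)).Nonempty then
      {(Q.filter (fun q => ∃ k ∈ E q, k ∈ w.support ∧ k ∈ W a)).min' h} else ∅
  have hg1 : ∀ a, (g a).card ≤ 1 := by
    intro a
    by_cases h : (Q.filter (fun q => ∃ k ∈ E q, k ∈ w.support ∧ k ∈ W a)).Nonempty
    · have : g a = {(Q.filter (fun q => ∃ k ∈ E q, k ∈ w.support ∧ k ∈ W a)).min' h} := dif_pos h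
      rw [this, Finset.card_singleton]
    · have : g a = ∅ := dif_neg h
      rw [this, Finset.card_empty]
      exact Nat.zero_le _
  have hg2 : ∀ a, ∀ q ∈ g a, q ∈ Q := by
    intro a q hq
    by_cases h : (Q.filter (fun q => ∃ k ∈ E q, k ∈ w.support ∧ k ∈ W a)).Nonempty
    · have h1 : g a = {(Q.filter (fun q => ∃ k ∈ E q, k ∈ w.support ∧ k ∈ W a)).min' h} :=
        dif_pos h
      rw [h1, Finset.mem_singleton] at hq
      rw [hq]
      exact (Finset.mem_filter.mp (Finset.min'_mem _ h)).1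
    · have h1 : g a = ∅ := dif_neg h
      rw [h1] at hq
      exact absurd hq (Finset.notMem_empty q)
  refine ⟨(range (K + 1)).biUnion g, ?_, ?_, ?_⟩
  · intro q hq
    obtain ⟨a, _, hqa⟩ := Finset.mem_biUnion.mp hq
    exact hg2 a q hqa
  · have h := Finset.card_biUnion_le_card_mul (range (K + 1)) g 1 (fun a _ => hg1 a)
    rw [Finset.card_range, mul_one] at h
    exact h
  · intro q hq hq1 k hk hkw a ha hka
    have hmem : q ∈ Q.filter (fun q => ∃ k ∈ E q, k ∈ w.support ∧ k ∈ W a) :=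
      Finset.mem_filter.mpr ⟨hq, k, hk, hkw, hka⟩
    have h : (Q.filter (fun q => ∃ k ∈ E q, k ∈ w.support ∧ k ∈ W a)).Nonempty := ⟨q, hmem⟩
    have hga : g a = {(Q.filter (fun q => ∃ k ∈ E q, k ∈ w.support ∧ k ∈ W a)).min' h} :=
      dif_pos h
    have hle := Finset.min'_le _ q hmem
    have hm := Finset.min'_mem _ h
    set m := (Q.filter (fun q => ∃ k ∈ E q, k ∈ w.support ∧ k ∈ W a)).min' h with hmdef
    have hm1 : m ∈ (range (K + 1)).biUnion g := by
      refine Finset.mem_biUnion.mpr ⟨a, Finset.mem_range.mpr (Nat.lt_succ_of_le ha), ?_⟩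
      rw [hga]
      exact Finset.mem_singleton_self m
    have hne : m ≠ q := fun he => hq1 (he ▸ hm1)
    have hlt : m < q := lt_of_le_of_ne hle hne
    obtain ⟨hmQ, k', hk', hk'w, hk'a⟩ := Finset.mem_filter.mp hm
    exact ⟨k', hk'w, hk'a, (hF.sep m hmQ q hq hlt k' hk').2⟩

end Pool.Agent.Lib.MP_1bb70c_an
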