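import Pool.Agent.Lib.MP_1bb70c_an.LemmaP

set_option autoImplicit false

open Finset
open scoped Classical

noncomputable section

namespace Pool.Agent.Lib.MP_1bb70c_an

/-! ### Part T1 -/

private theorem T1_geom (a r : ℕ) (h : a ≤ r) :
    ∑ b ∈ Finset.Ioc a r, ((1 : ℝ) / 2) ^ b = (1 / 2) ^ a - (1 / 2) ^ r := by
  induction r, h using Nat.le_induction with
  | base => simp
  | succ r hr ih =>
    rw [← Finset.insert_Ioc_right_eq_Ioc_add_one hr, Finset.sum_insert (by simp), ih, pow_succ]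
    ring

private theorem T1_rs (x : ℕ → ℕ →₀ ℝ)
    (hsucc : ∀ l l', l < l' → ∀ a ∈ (x l).support, ∀ b ∈ (x l').support, a < b)
    (F : Finset ℕ) (l : ℕ) (hl : l ∈ F) :
    rs (↑(x l).support : Set ℕ) (∑ l ∈ F, x l) = x l := by
  rw [rs_sum, Finset.sum_eq_single l]
  · exact rs_self (fun k hk => hk)
  · intro l' _ hne
    ext k
    rw [rs_apply]
    split_ifs with hk
    · by_contra hne2
      have hk' : k ∈ (x l').support := Finsupp.mem_support_iff.2 hne2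
      have hk1 : k ∈ (x l).support := hk
      rcases lt_or_gt_of_ne hne with h | h
      · exact lt_irrefl _ (hsucc l' l h k hk' k hk1)
      · exact lt_irrefl _ (hsucc l l' h k hk1 k hk')
    · rfl
  · intro h; exact absurd hl h

private theorem T1_mem (x : ℕ → ℕ →₀ ℝ) (F : Finset ℕ) (k : ℕ)
    (hk : k ∈ (∑ l ∈ F, x l).support) : ∃ l ∈ F, k ∈ (x l).support := by
  by_contra hcon
  push Not at hcon
  rw [Finsupp.mem_support_iff] at hk
  apply hk
  rw [Finsupp.finsetSum_apply]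
  refine Finset.sum_eq_zero fun l hl => ?_
  have := hcon l hl
  rwa [Finsupp.notMem_support_iff] at this

/-- ROW T1 (c_0 computation). `F` with `card F ≤ min F`; `z = ∑_{l ∈ F} x l`. If `z = 0` trivial. Let `l1 = min F ≥ 1` (`F` nonempty, `card F ≥ 1`), `R` = least point of `z.support` (`≥ 32`; it is in some
`(x l').support`, `l' ≥ l1`, so `s l1 ≤ s l' ≤ R`). `Bd (Sch (ν+1)) R z 3` by `block_lemma` (n = ν+1, i = ν): `B l = (x l).support` for `l ∈ F`, `∅` otherwise, `r = max F`; `rs (B l) z = x l` for `l ∈ F` (disjoint supports);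
`σ l = R`, `ρ l = s (M l)`, `γ l = 1`, `α l = 1/l1`, `β l = 1/(M l)` for `l ∈ F`, all `0` otherwise. `h1`: `bd_nrm`, `bd_mono_size`. `h2`: `hbd l l1` (`1 ≤ l1 ≤ l ≤ M l`), `bd_mono_size` (`s l1 ≤ R`), `bd_sch_up`. `h3`: `hbd l (M l)`.
`hC`: `γ b0 + ∑_{l > b0, l ∈ F} (1/l1 + P / M l) ≤ 1 + card F / l1 + ∑_{l ∈ F} 2^{-l} ≤ 3` since `2^l * P ≤ M l` for `P ∈ (x b0).support`, `b0 < l` and `∑_{l ≥ 1} 2^{-l} ≤ 1`.
Then `lemmaP` with `τ = 1` (coordinates `≤ nrm (x l) ≤ 1`), `A = 3`. -/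
theorem c0_sum (ν : ℕ) (x : ℕ → ℕ →₀ ℝ) (s M : ℕ → ℕ) (hs : Monotone s)
    (hx : ∀ l, 0 ≤ x l) (h1 : ∀ l, nrm (ν + 1) (x l) ≤ 1)
    (hsucc : ∀ l l', l < l' → ∀ a ∈ (x l).support, ∀ b ∈ (x l').support, a < b)
    (hbd : ∀ l m, 1 ≤ m → m ≤ M l → Bd (ν + 1) (Sch ν) (s m) (x l) (1 / (m : ℝ)))
    (h32 : ∀ l, ∀ k ∈ (x l).support, 32 ≤ k ∧ s l ≤ k ∧ s (M l) ≤ k)
    (hM1 : ∀ l, l ≤ M l) (hM2 : ∀ l l', l' < l → ∀ k ∈ (x l').support, 2 ^ l * k ≤ M l)
    (F : Finset ℕ) (hF : ∀ l ∈ F, F.card ≤ l) : nrm (ν + 1) (∑ l ∈ F, x l) ≤ 16 := by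
  rcases F.eq_empty_or_nonempty with hF0 | hFne
  · rw [hF0, Finset.sum_empty, nrm_zero]; norm_num
  have hz0 : 0 ≤ ∑ l ∈ F, x l := Finset.sum_nonneg fun l _ => hx l
  by_cases hz : ∑ l ∈ F, x l = 0
  · rw [hz, nrm_zero]; norm_num
  have hcard : 1 ≤ F.card := hFne.card_pos
  obtain ⟨l1, hl1F, hl1min⟩ : ∃ l1 ∈ F, ∀ l ∈ F, l1 ≤ l :=
    ⟨F.min' hFne, F.min'_mem hFne, fun l hl => F.min'_le l hl⟩
  have hl1 : 1 ≤ l1 := hcard.trans (hF l1 hl1F)
  have hzs : (∑ l ∈ F, x l).support.Nonempty := Finsupp.support_nonempty_iff.2 hz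
  obtain ⟨R, hRz, hRmin⟩ : ∃ R ∈ (∑ l ∈ F, x l).support, ∀ k ∈ (∑ l ∈ F, x l).support, R ≤ k :=
    ⟨_, Finset.min'_mem _ hzs, fun k hk => Finset.min'_le _ k hk⟩
  obtain ⟨l', hl'F, hRl'⟩ := T1_mem x F R hRz
  have hR32 : 32 ≤ R := (h32 l' R hRl').1
  have hsR : s l1 ≤ R := (hs (hl1min l' hl'F)).trans (h32 l' R hRl').2.1
  have hrs : ∀ l ∈ F, rs (↑(x l).support : Set ℕ) (∑ l ∈ F, x l) = x l :=
    fun l hl => T1_rs x hsucc F l hl
  have hτ : ∀ k, (∑ l ∈ F, x l) k ≤ 1 := by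
    intro k
    by_cases hk : k ∈ (∑ l ∈ F, x l).support
    · obtain ⟨l, hl, hkl⟩ := T1_mem x F k hk
      have h2 : (∑ l ∈ F, x l) k = x l k := by
        have h3 := congrArg (fun f : ℕ →₀ ℝ => f k) (hrs l hl)
        simp only [rs_apply] at h3
        rw [if_pos (show k ∈ (↑(x l).support : Set ℕ) from hkl)] at h3
        exact h3
      rw [h2]
      exact (le_abs_self _).trans ((coord_le_nrm (ν + 1) (x l) k).trans (h1 l))
    · rw [Finsupp.notMem_support_iff] at hk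
      rw [hk]; norm_num
  have hBd : Bd (ν + 1) (Sch (ν + 1)) R (∑ l ∈ F, x l) 3 := by
    intro Q E j hFam hQ
    have hset : ∀ b, b ∈ F → (if b ∈ F then (↑(x b).support : Set ℕ) else ∅) = ↑(x b).support :=
      fun b hb => if_pos hb
    refine block_lemma (ν + 1) ν (∑ l ∈ F, x l) (F.sup id)
      (fun b => if b ∈ F then (↑(x b).support : Set ℕ) else ∅) ?_ ?_
      (fun _ => R) (fun b => s (M b))
      (fun b => if b ∈ F then 1 / (l1 : ℝ) else 0) (fun b => if b ∈ F then 1 / (M b : ℝ) else 0)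
      (fun b => if b ∈ F then 1 else 0) ?_ ?_ ?_ ?_ ?_ 3 (by norm_num) ?_ Q E j ?_ hQ ?_
    · intro p q hpq a ha b hb
      by_cases hp : p ∈ F
      · by_cases hq : q ∈ F
        · simp only [if_pos hp] at ha
          simp only [if_pos hq] at hb
          exact hsucc p q hpq a ha b hb
        · simp only [if_neg hq] at hb
          exact absurd hb (Set.notMem_empty b)
      · simp only [if_neg hp] at ha
        exact absurd ha (Set.notMem_empty a)
    · intro k hk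
      obtain ⟨l, hl, hkl⟩ := T1_mem x F k hk
      refine ⟨l, Finset.le_sup (f := id) hl, ?_⟩
      simp only [if_pos hl]
      exact hkl
    · intro b
      show 0 ≤ if b ∈ F then 1 / (M b : ℝ) else 0
      split_ifs
      · positivity
      · exact le_rfl
    · intro b _
      show Bd (ν + 1) (Sch (ν + 1)) R
        (rs (if b ∈ F then (↑(x b).support : Set ℕ) else ∅) (∑ l ∈ F, x l)) (if b ∈ F then 1 else 0)
      by_cases hb : b ∈ F
      · rw [if_pos hb, if_pos hb, hrs b hb]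
        exact bd_mono_B (h1 b) (bd_mono_size (by omega) (bd_nrm (ν + 1) (by omega) _))
      · rw [if_neg hb, if_neg hb, rs_empty]
        exact bd_zero _ _ _
    · intro b _
      show Bd (ν + 1) (Sch 0) R
        (rs (if b ∈ F then (↑(x b).support : Set ℕ) else ∅) (∑ l ∈ F, x l))
        (if b ∈ F then 1 / (l1 : ℝ) else 0)
      by_cases hb : b ∈ F
      · rw [if_pos hb, if_pos hb, hrs b hb]
        exact bd_sch_up (Nat.zero_le ν) (fun k hk => by have := (h32 b k hk).1; omega)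
          (bd_mono_size hsR (hbd b l1 hl1 ((hl1min b hb).trans (hM1 b))))
      · rw [if_neg hb, if_neg hb, rs_empty]
        exact bd_zero _ _ _
    · intro b _
      show Bd (ν + 1) (Sch ν) (s (M b))
        (rs (if b ∈ F then (↑(x b).support : Set ℕ) else ∅) (∑ l ∈ F, x l))
        (if b ∈ F then 1 / (M b : ℝ) else 0)
      by_cases hb : b ∈ F
      · rw [if_pos hb, if_pos hb, hrs b hb]
        exact hbd b (M b) (hl1.trans ((hl1min b hb).trans (hM1 b))) le_rfl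
      · rw [if_neg hb, if_neg hb, rs_empty]
        exact bd_zero _ _ _
    · intro b _ k hk _
      by_cases hb : b ∈ F
      · simp only [if_pos hb] at hk
        have := (h32 b k hk).2.2
        show s (M b) ≤ k + 1
        omega
      · simp only [if_neg hb] at hk
        exact absurd hk (Set.notMem_empty k)
    · intro b0 hb0 P _ hPb
      by_cases hb0F : b0 ∈ F
      swap
      · simp only [if_neg hb0F] at hPb
        exact absurd hPb (Set.notMem_empty P)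
      simp only [if_pos hb0F] at hPb
      show (if b0 ∈ F then (1 : ℝ) else 0) + ∑ b ∈ Finset.Ioc b0 (F.sup id),
        min (if b ∈ F then (1 : ℝ) else 0) ((if b ∈ F then 1 / (l1 : ℝ) else 0)
          + (P : ℝ) * (if b ∈ F then 1 / (M b : ℝ) else 0)) ≤ 3
      have hl1R : (0 : ℝ) < (l1 : ℝ) := by exact_mod_cast hl1
      have hterm : ∀ b ∈ Finset.Ioc b0 (F.sup id),
          min (if b ∈ F then (1 : ℝ) else 0) ((if b ∈ F then 1 / (l1 : ℝ) else 0)
          + (P : ℝ) * (if b ∈ F then 1 / (M b : ℝ) else 0))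
          ≤ (if b ∈ F then 1 / (l1 : ℝ) else 0) + ((1 : ℝ) / 2) ^ b := by
        intro b hb
        rw [Finset.mem_Ioc] at hb
        have hp2 : (0 : ℝ) ≤ ((1 : ℝ) / 2) ^ b := by positivity
        by_cases hbF : b ∈ F
        · rw [if_pos hbF, if_pos hbF, if_pos hbF]
          refine (min_le_right _ _).trans ?_
          have h2 := hM2 b b0 hb.1 P hPb
          have hP32 := (h32 b0 P hPb).1
          have hMpos : (0 : ℝ) < (M b : ℝ) := by
            have : 0 < M b := lt_of_lt_of_le (by positivity) h2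
            exact_mod_cast this
          have h3 : (2 : ℝ) ^ b * (P : ℝ) ≤ (M b : ℝ) := by exact_mod_cast h2
          have h4 : (P : ℝ) * (1 / (M b : ℝ)) ≤ ((1 : ℝ) / 2) ^ b := by
            rw [one_div_pow, mul_one_div, div_le_div_iff₀ hMpos (by positivity)]
            linarith
          linarith
        · rw [if_neg hbF, if_neg hbF, if_neg hbF]
          refine (min_le_left _ _).trans ?_
          linarith
      have hsum := Finset.sum_le_sum hterm
      rw [Finset.sum_add_distrib, T1_geom b0 _ hb0] at hsum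
      have hA1 : ∑ b ∈ Finset.Ioc b0 (F.sup id), (if b ∈ F then 1 / (l1 : ℝ) else 0) ≤ 1 := by
        rw [← Finset.sum_filter, Finset.sum_const, nsmul_eq_mul]
        have hc : ((Finset.Ioc b0 (F.sup id)).filter (fun b => b ∈ F)).card ≤ l1 := by
          refine le_trans (Finset.card_le_card ?_) (hF l1 hl1F)
          intro b hb
          exact (Finset.mem_filter.1 hb).2
        have hcR : ((((Finset.Ioc b0 (F.sup id)).filter (fun b => b ∈ F)).card : ℕ) : ℝ)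
            ≤ (l1 : ℝ) := by exact_mod_cast hc
        calc ((((Finset.Ioc b0 (F.sup id)).filter (fun b => b ∈ F)).card : ℕ) : ℝ) * (1 / (l1 : ℝ))
            ≤ (l1 : ℝ) * (1 / (l1 : ℝ)) := mul_le_mul_of_nonneg_right hcR (by positivity)
          _ = 1 := mul_one_div_cancel hl1R.ne'
      have hA2 : ((1 : ℝ) / 2) ^ b0 ≤ 1 := pow_le_one₀ (by norm_num) (by norm_num)
      have hA3 : (0 : ℝ) ≤ ((1 : ℝ) / 2) ^ (F.sup id) := by positivity
      rw [if_pos hb0F]
      linarith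
    · exact Fam.sub hFam subset_rfl (fun _ _ => subset_rfl) (fun _ _ => le_rfl)
        (fun q hq => by have := hFam.sz q hq; omega)
    · intro q hq b _ k _ _ _
      exact hFam.sz q hq
  have := lemmaP ν (∑ l ∈ F, x l) hz0 1 3 (by norm_num) hτ R hR32 hRmin hBd
  linarith

/-! ### Part T2 -/

/-- ROW T2 (selection). First replace `s` by `s' m = max_{m' ≤ m} s m'` (monotone, `bd_mono_size`). Choose recursively `φ l`, `x l` (dependent choice, e.g. by strong recursion or by a sequence in the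
subtype of triples (index, vector, bound for all supports so far)): `M l := 2^l * (N + 1) + l` with `N` a bound for all points of the supports of `x l'`, `l' < l`; then `i0 := max (φ (l-1) + 1) (max 32 (max (s' l) (s' (M l))))` and
`H (M l) i0`. Since `i ≤ k` on the support, all requirements of `c0_sum` hold. (`hsucc` gives successive supports.) -/
theorem c0_select (ν : ℕ) (s : ℕ → ℕ) (P : ℕ → (ℕ →₀ ℝ) → Prop)
    (H : ∀ M i0 : ℕ, ∃ i, i0 ≤ i ∧ ∃ x : ℕ →₀ ℝ, P i x ∧ 0 ≤ x ∧ nrm (ν + 1) x ≤ 1 ∧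
      (∀ k ∈ x.support, i ≤ k) ∧
      ∀ m : ℕ, 1 ≤ m → m ≤ M → Bd (ν + 1) (Sch ν) (s m) x (1 / (m : ℝ)))
    (hsucc : ∀ i i' x x', i < i' → P i x → P i' x' → ∀ a ∈ x.support, ∀ b ∈ x'.support, a < b) :
    ∃ (φ : ℕ → ℕ) (x : ℕ → ℕ →₀ ℝ), StrictMono φ ∧
      (∀ l, P (φ l) (x l) ∧ 0 ≤ x l ∧ nrm (ν + 1) (x l) ≤ 1) ∧
      ∀ F : Finset ℕ, (∀ l ∈ F, F.card ≤ l) → nrm (ν + 1) (∑ l ∈ F, x l) ≤ 16 := by
  choose I hI X hP hX0 hXn hXs hXb using H
  -- the monotone version of the sizes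
  let s' : ℕ → ℕ := fun m => (Finset.range (m + 1)).sup s
  have hs' : Monotone s' := fun a b hab =>
    Finset.sup_mono (Finset.range_mono (by omega))
  have hss' : ∀ m, s m ≤ s' m := fun m =>
    Finset.le_sup (f := s) (Finset.mem_range.mpr (Nat.lt_succ_self m))
  -- the recursion
  let Mf : ℕ → ℕ → ℕ := fun l N => 2 ^ l * (N + 1) + l
  let If : ℕ → ℕ → ℕ → ℕ := fun l i N => max (i + 1) (max 32 (max (s' l) (s' (Mf l N))))
  let st : ℕ → ℕ × ℕ := fun l => Nat.rec (motive := fun _ => ℕ × ℕ) (0, 0)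
    (fun l p => (I (Mf l p.2) (If l p.1 p.2),
      max p.2 ((X (Mf l p.2) (If l p.1 p.2)).support.sup id))) l
  have hst : ∀ l, st (l + 1) = (I (Mf l (st l).2) (If l (st l).1 (st l).2),
      max (st l).2 ((X (Mf l (st l).2) (If l (st l).1 (st l).2)).support.sup id)) := fun l => rfl
  let M : ℕ → ℕ := fun l => Mf l (st l).2
  let i0 : ℕ → ℕ := fun l => If l (st l).1 (st l).2
  let φ : ℕ → ℕ := fun l => I (M l) (i0 l)
  let x : ℕ → ℕ →₀ ℝ := fun l => X (M l) (i0 l)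
  have h1 : ∀ l, (st (l + 1)).1 = φ l := fun l => rfl
  have h2 : ∀ l, (st (l + 1)).2 = max (st l).2 ((x l).support.sup id) := fun l => rfl
  have hge : ∀ l, i0 l ≤ φ l := fun l => hI (M l) (i0 l)
  have hφ : StrictMono φ := by
    refine strictMono_nat_of_lt_succ (fun l => ?_)
    have a1 : (st (l + 1)).1 + 1 ≤ i0 (l + 1) := le_max_left _ _
    have a2 := hge (l + 1)
    have a3 := h1 l
    omega
  have hN : Monotone (fun l => (st l).2) := by
    refine monotone_nat_of_le_succ (fun l => ?_)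
    show (st l).2 ≤ (st (l + 1)).2
    rw [h2 l]
    exact le_max_left _ _
  have hsupp : ∀ l l', l' < l → ∀ k ∈ (x l').support, k ≤ (st l).2 := by
    intro l l' hl k hk
    have a1 : k ≤ (x l').support.sup id := Finset.le_sup (f := id) hk
    have a2 : (x l').support.sup id ≤ (st (l' + 1)).2 := by
      rw [h2 l']
      exact le_max_right _ _
    have a3 : (st (l' + 1)).2 ≤ (st l).2 := hN (Nat.succ_le_of_lt hl)
    omega
  have hsc : ∀ l l', l < l' → ∀ a ∈ (x l).support, ∀ b ∈ (x l').support, a < b :=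
    fun l l' hl => hsucc (φ l) (φ l') (x l) (x l') (hφ hl) (hP _ _) (hP _ _)
  refine ⟨φ, x, hφ, fun l => ⟨hP _ _, hX0 _ _, hXn _ _⟩, fun F hF => ?_⟩
  refine c0_sum ν x s' M hs' (fun l => hX0 _ _) (fun l => hXn _ _) hsc
    (fun l m hm1 hm2 => bd_mono_size (hss' m) (hXb (M l) (i0 l) m hm1 hm2)) ?_ ?_ ?_ F hF
  · intro l k hk
    have a1 : φ l ≤ k := hXs (M l) (i0 l) k hk
    have a2 := hge l
    have a3 : max 32 (max (s' l) (s' (M l))) ≤ i0 l := le_max_right _ _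
    have a4 : 32 ≤ max 32 (max (s' l) (s' (M l))) := le_max_left _ _
    have a5 : max (s' l) (s' (M l)) ≤ max 32 (max (s' l) (s' (M l))) := le_max_right _ _
    have a6 : s' l ≤ max (s' l) (s' (M l)) := le_max_left _ _
    have a7 : s' (M l) ≤ max (s' l) (s' (M l)) := le_max_right _ _
    exact ⟨by omega, by omega, by omega⟩
  · intro l
    exact Nat.le_add_left _ _
  · intro l l' hl k hk
    have a1 := hsupp l l' hl k hk
    show 2 ^ l * k ≤ 2 ^ l * ((st l).2 + 1) + l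
    have a2 : 2 ^ l * k ≤ 2 ^ l * ((st l).2 + 1) := Nat.mul_le_mul_left _ (by omega)
    omega

/-! ### Part T3 -/

private theorem T3_dot_eq (y x : ℕ →₀ ℝ) (s : Finset ℕ) (h : x.support ⊆ s) :
    dot y x = ∑ k ∈ s, y k * x k := by
  unfold dot
  refine Finset.sum_subset h (fun k _ hk => ?_)
  have : x k = 0 := by simpa using hk
  rw [this, mul_zero]

private theorem T3_dot_nonneg {y x : ℕ →₀ ℝ} (hy : 0 ≤ y) (hx : 0 ≤ x) : 0 ≤ dot y x := by
  unfold dot
  exact Finset.sum_nonneg (fun k _ => mul_nonneg (hy k) (hx k))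

private theorem T3_dot_sum {ι : Type} (y : ℕ →₀ ℝ) (F : Finset ι) (x : ι → ℕ →₀ ℝ) :
    dot y (∑ l ∈ F, x l) = ∑ l ∈ F, dot y (x l) := by
  have h1 : ∀ z : ℕ →₀ ℝ, dot y z = z.sum (fun k v => y k * v) := fun z => rfl
  rw [h1, ← Finsupp.sum_finsetSum_index]
  · rfl
  · intro k
    exact mul_zero _
  · intro k a b
    exact mul_add _ _ _

private theorem T3_dot_smul (y : ℕ →₀ ℝ) (c : ℝ) (x : ℕ →₀ ℝ) :
    dot y (c • x) = c * dot y x := by
  rw [T3_dot_eq y (c • x) x.support Finsupp.support_smul]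
  unfold dot
  rw [Finset.mul_sum]
  refine Finset.sum_congr rfl (fun k _ => ?_)
  rw [Finsupp.smul_apply, smul_eq_mul]
  ring

/-- ROW T3. If (*) fails then a subsequence has a lower `l_1` estimate on sets `F` with `card F ≤ min F`.
Let `δ`, `s` witness `¬ Star`. `P i x := x.support ⊆ (y i).support ∧ δ < dot (y i) x`. `H`: from the failure for `M, i0` we get `i ≥ i0` and `x`; replace `x` by `rs (y i).support x`
(`dot` does not change, `bd_rs`, `nrm_rs_le`). `c0_select` gives `φ`, `x l`. `c = δ/16`; for `F`, `lam` take `z = (1/16) • ∑_{l ∈ F} x l`: `dot (y (φ l)) z ≥ (1/16) dot (y (φ l)) (x l) > δ/16` for `l ∈ F`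
(the other terms are nonnegative). -/
theorem dot_rs (y x : ℕ →₀ ℝ) : dot y (rs (↑y.support : Set ℕ) x) = dot y x := by
  rw [T3_dot_eq y (rs (↑y.support : Set ℕ) x) x.support (fun k hk => (mem_support_rs.1 hk).2)]
  unfold dot
  refine Finset.sum_congr rfl (fun k _ => ?_)
  rw [rs_apply]
  by_cases hk : k ∈ (↑y.support : Set ℕ)
  · rw [if_pos hk]
  · have : y k = 0 := by simpa using hk
    rw [this, zero_mul, zero_mul]

theorem star_fail (ν : ℕ) (y : ℕ → ℕ →₀ ℝ) (hy : ∀ i, 0 ≤ y i) (hb : Blk y)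
    (h : ¬ Star ν y) : ∃ c : ℝ, 0 < c ∧ ∃ φ : ℕ → ℕ, StrictMono φ ∧
      ∀ F : Finset ℕ, (∀ l ∈ F, F.card ≤ l) → ∀ lam : ℕ → ℝ, (∀ l ∈ F, 0 ≤ lam l) →
        ∃ x : ℕ →₀ ℝ, 0 ≤ x ∧ nrm (ν + 1) x ≤ 1 ∧
          c * ∑ l ∈ F, lam l ≤ ∑ l ∈ F, lam l * dot (y (φ l)) x := by
  unfold Star at h
  push Not at h
  obtain ⟨δ, hδ, s, hs⟩ := h
  obtain ⟨φ, x, hφ, hx, hF⟩ := c0_select ν s
    (fun i x => x.support ⊆ (y i).support ∧ δ < dot (y i) x) (by
      intro M i0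
      obtain ⟨i, hi, x, hx0, hx1, hxb, hxd⟩ := hs M i0
      refine ⟨i, hi, rs (↑(y i).support : Set ℕ) x, ⟨?_, ?_⟩, rs_nonneg _ hx0, ?_, ?_, ?_⟩
      · intro k hk
        exact (mem_support_rs.1 hk).1
      · rw [dot_rs]
        exact hxd
      · exact (nrm_rs_le _ _ _).trans hx1
      · intro k hk
        exact hb.1 i k (mem_support_rs.1 hk).1
      · intro m hm1 hm2
        exact bd_rs hx0 _ (hxb m hm1 hm2)) (by
      intro i i' x x' hii hP hP' a ha b hbb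
      exact hb.2 i i' hii a (hP.1 ha) b (hP'.1 hbb))
  refine ⟨δ / 16, by positivity, φ, hφ, ?_⟩
  intro F hFc lam hlam
  have hz : nrm (ν + 1) ((1 / 16 : ℝ) • ∑ l ∈ F, x l) ≤ 1 := by
    rw [nrm_smul, abs_of_nonneg (by norm_num : (0 : ℝ) ≤ 1 / 16)]
    have := hF F hFc
    linarith
  refine ⟨(1 / 16 : ℝ) • ∑ l ∈ F, x l, ?_, hz, ?_⟩
  · intro k
    rw [Finsupp.smul_apply, Finsupp.finsetSum_apply, smul_eq_mul]
    exact mul_nonneg (by norm_num) (Finset.sum_nonneg (fun l _ => (hx l).2.1 k))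
  · rw [Finset.mul_sum]
    refine Finset.sum_le_sum (fun l hl => ?_)
    have h1 : δ / 16 ≤ dot (y (φ l)) ((1 / 16 : ℝ) • ∑ l ∈ F, x l) := by
      rw [T3_dot_smul, T3_dot_sum]
      have h2 : dot (y (φ l)) (x l) ≤ ∑ l' ∈ F, dot (y (φ l)) (x l') :=
        Finset.single_le_sum (f := fun l' => dot (y (φ l)) (x l'))
          (fun l' _ => T3_dot_nonneg (hy _) (hx l').2.1) hl
      have h3 := (hx l).1.2
      linarith
    rw [mul_comm]
    exact mul_le_mul_of_nonneg_left h1 (hlam l hl)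

/-! ### Part T5 -/

/-- ROW T5 (consequences of (*)). `star_diffuse`: (*) for the profile `s m = 2 C m` and `δ` gives `M, i0`; `K0 := 2 C M + 1`: for `1 ≤ m ≤ M`, `K ≥ K0`: `C (1/(2Cm) + 1/K) ≤ 1/m`.
`star_points`: profile `s m = K m + 1`: every family with sizes `≥ σ'` has value `≤ (1/σ') ∑ |g k| ≤ K/σ'` (`bd_l1`, coordinates `≤ nrm g ≤ 1`). -/
theorem star_diffuse (ν : ℕ) (y : ℕ → ℕ →₀ ℝ) (hS : Star ν y) (C : ℕ) (hC : 1 ≤ C) (δ : ℝ)
    (hδ : 0 < δ) : ∃ K0 i0 : ℕ, ∀ K, K0 ≤ K → ∀ i, i0 ≤ i → ∀ u : ℕ →₀ ℝ, 0 ≤ u →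
      nrm (ν + 1) u ≤ 1 → (∀ σ' : ℕ, 1 ≤ σ' →
        Bd (ν + 1) (Sch ν) σ' u ((C : ℝ) * (1 / (σ' : ℝ) + 1 / (K : ℝ)))) →
      dot (y i) u ≤ δ := by
  obtain ⟨M, i0, h⟩ := hS δ hδ (fun m => 2 * C * m)
  refine ⟨2 * C * M + 1, i0, fun K hK i hi u hu hn hb => ?_⟩
  refine h i hi u hu hn (fun m hm hmM => ?_)
  have hCm : 1 ≤ 2 * C * m := by
    have h1 : 1 ≤ C * m := Nat.one_le_iff_ne_zero.2 (Nat.mul_ne_zero (by omega) (by omega))
    calc 1 ≤ C * m := h1
      _ ≤ 2 * (C * m) := by omega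
      _ = 2 * C * m := by ring
  have hb1 := hb (2 * C * m) hCm
  refine bd_mono_B ?_ hb1
  have hKm : 2 * C * m ≤ K := by
    calc 2 * C * m ≤ 2 * C * M := Nat.mul_le_mul_left _ hmM
      _ ≤ K := by omega
  have hCr : (1 : ℝ) ≤ (C : ℝ) := by exact_mod_cast hC
  have hmr : (1 : ℝ) ≤ (m : ℝ) := by exact_mod_cast hm
  have hKr : 2 * (C : ℝ) * (m : ℝ) ≤ (K : ℝ) := by exact_mod_cast hKm
  have hC0 : (0 : ℝ) < (C : ℝ) := by linarith
  have hm0' : (0 : ℝ) < (m : ℝ) := by linarith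
  have hK0 : (0 : ℝ) < 2 * (C : ℝ) * (m : ℝ) := by positivity
  have hKpos : (0 : ℝ) < (K : ℝ) := lt_of_lt_of_le hK0 hKr
  have h1 : (1 : ℝ) / (K : ℝ) ≤ 1 / (2 * (C : ℝ) * (m : ℝ)) := one_div_le_one_div_of_le hK0 hKr
  push_cast
  calc (C : ℝ) * (1 / (2 * (C : ℝ) * (m : ℝ)) + 1 / (K : ℝ))
      ≤ (C : ℝ) * (1 / (2 * (C : ℝ) * (m : ℝ)) + 1 / (2 * (C : ℝ) * (m : ℝ))) := by
        refine mul_le_mul_of_nonneg_left ?_ hC0.le
        linarith
    _ = 1 / (m : ℝ) := by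
        field_simp
        ring

theorem star_points (ν : ℕ) (y : ℕ → ℕ →₀ ℝ) (hS : Star ν y) (K : ℕ) (δ : ℝ) (hδ : 0 < δ) :
    ∃ i0 : ℕ, ∀ i, i0 ≤ i → ∀ g : ℕ →₀ ℝ, 0 ≤ g → nrm (ν + 1) g ≤ 1 → g.support.card ≤ K →
      dot (y i) g ≤ δ := by
  obtain ⟨M, i0, h⟩ := hS δ hδ (fun m => K * m + 1)
  refine ⟨i0, fun i hi g hg hn hc => ?_⟩
  refine h i hi g hg hn (fun m hm hmM => ?_)
  have hb1 := bd_l1 (ν + 1) (Sch ν) (K * m + 1) (by omega) g
  refine bd_mono_B ?_ hb1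
  have hs : ∑ k ∈ g.support, |g k| ≤ (K : ℝ) := by
    calc ∑ k ∈ g.support, |g k| ≤ ∑ _k ∈ g.support, (1 : ℝ) :=
          Finset.sum_le_sum (fun k _ => (coord_le_nrm (ν + 1) g k).trans hn)
      _ = (g.support.card : ℝ) := by rw [Finset.sum_const, nsmul_eq_mul, mul_one]
      _ ≤ (K : ℝ) := by exact_mod_cast hc
  have hmr : (1 : ℝ) ≤ (m : ℝ) := by exact_mod_cast hm
  have hm0' : (0 : ℝ) < (m : ℝ) := by linarith
  have hK0 : (0 : ℝ) ≤ (K : ℝ) := Nat.cast_nonneg K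
  have hpos : (0 : ℝ) < (K : ℝ) * (m : ℝ) + 1 := by positivity
  push_cast
  calc (1 : ℝ) / ((K : ℝ) * (m : ℝ) + 1) * ∑ k ∈ g.support, |g k|
      ≤ (1 : ℝ) / ((K : ℝ) * (m : ℝ) + 1) * (K : ℝ) :=
        mul_le_mul_of_nonneg_left hs (by positivity)
    _ ≤ 1 / (m : ℝ) := by
        rw [div_mul_eq_mul_div, one_mul, div_le_div_iff₀ hpos hm0']
        linarith

theorem star_smul (ν : ℕ) (y : ℕ → ℕ →₀ ℝ) (hS : Star ν y) (c : ℝ) (hc : 0 < c) :
    Star ν (fun i => c • y i) := by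
  intro δ hδ s
  obtain ⟨M, i0, h⟩ := hS (δ / c) (div_pos hδ hc) s
  refine ⟨M, i0, fun i hi x hx hn hb => ?_⟩
  have h1 := h i hi x hx hn hb
  have h2 : dot (c • y i) x = c * dot (y i) x := by
    unfold dot
    rw [Finset.mul_sum]
    refine Finset.sum_congr rfl (fun k _ => ?_)
    rw [Finsupp.smul_apply, smul_eq_mul, mul_assoc]
  show dot (c • y i) x ≤ δ
  rw [h2]
  calc c * dot (y i) x ≤ c * (δ / c) := mul_le_mul_of_nonneg_left h1 hc.le
    _ = δ := by field_simp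

end Pool.Agent.Lib.MP_1bb70c_an
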