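import Pool.Agent.Lib.MP_1bb70c_an.ThmM
import Pool.Agent.Lib.MP_1bb70c_an.Star

set_option autoImplicit false

open Finset
open scoped Classical

noncomputable section

namespace Pool.Agent.Lib.MP_1bb70c_an

/-! ### Part T4 -/

private theorem T4_supp {x u : ℕ →₀ ℝ} (hu : 0 ≤ u) (hux : u ≤ x) {k : ℕ} (hk : k ∈ u.support) :
    k ∈ x.support := by
  rw [Finsupp.mem_support_iff] at hk ⊢
  intro h0
  apply hk
  have h1 : (0 : ℝ) ≤ u k := hu k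
  have h2 : u k ≤ x k := hux k
  rw [h0] at h2
  exact le_antisymm h2 h1

/-- ROW T4 (one step of the chain of Lemma C). `cell` with `i = ν`, `m`, `s := s * m^6`, `g0 := max ((s*m^6)^10) (K * (3 * hh ν * m^2))`, `η = 2/K`, `D = 1`, `L = K`. `hD`: `bd_nrm`. `havg`: `s * m^6 / m^4 = s * m^2 ≥ s`, `av s x ≤ 1/K` by
`av_le_of_bd_sch`. `IH` = `theoremM`. Result `x = g + u + v`, `Bd (Sch ν) (s m^6) v (K * (Gam ν * (2/K) / m))`. For `u`: `bd_first_rest` with `ρ = s`: first average: `bs_av`: `Gam ν * (2/K) * (1 + K/σ') = 2Γ/K + 2Γ/σ'`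
(`bd_zero_iff`); rest: `Bd (Sch ν) (s+1) u (1/K)` from `hB`, `u ≤ x`. Sum `≤ (2Γ+1)(1/σ' + 1/K)`. -/
theorem chain_step (ν K m s : ℕ) (hK : 1 ≤ K) (hm : m0 ν ≤ m) (hs : 1 ≤ s) (x : ℕ →₀ ℝ)
    (hx : 0 ≤ x) (h1 : nrm (ν + 1) x ≤ 1)
    (hsupp : ∀ k ∈ x.support, (s * m ^ 6) ^ 10 < k ∧ K * (3 * hh ν * m ^ 2) < k)
    (hB : Bd (ν + 1) (Sch ν) s x (1 / (K : ℝ))) :
    ∃ g u v : ℕ →₀ ℝ, 0 ≤ g ∧ 0 ≤ u ∧ 0 ≤ v ∧ x = g + u + v ∧ g.support.card ≤ K ∧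
      (∀ σ' : ℕ, 1 ≤ σ' →
        Bd (ν + 1) (Sch ν) σ' u ((2 * Gam ν + 1) * (1 / (σ' : ℝ) + 1 / (K : ℝ)))) ∧
      Bd (ν + 1) (Sch ν) (s * m ^ 6) v (2 * Gam ν / m) := by
  have hKr : (0 : ℝ) < (K : ℝ) := by exact_mod_cast (lt_of_lt_of_le Nat.zero_lt_one hK)
  have hm1 : 1 ≤ m := by
    refine le_trans ?_ hm
    unfold m0 hh
    exact Nat.one_le_iff_ne_zero.2 (by positivity)
  have hmr : (0 : ℝ) < (m : ℝ) := by exact_mod_cast (lt_of_lt_of_le Nat.zero_lt_one hm1)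
  have hm6 : 1 ≤ m ^ 6 := Nat.one_le_pow _ _ hm1
  have hG : 0 ≤ Gam ν := by unfold Gam; positivity
  have hsm : 1 ≤ s * m ^ 6 := Nat.one_le_iff_ne_zero.2 (Nat.mul_ne_zero (by omega) (by omega))
  have hg01 : 1 ≤ max ((s * m ^ 6) ^ 10) (K * (3 * hh ν * m ^ 2)) :=
    le_trans (Nat.one_le_pow _ _ hsm) (le_max_left _ _)
  have hdiv : s * m ^ 6 / m ^ 4 = s * m ^ 2 := by
    have e : s * m ^ 6 = (s * m ^ 2) * m ^ 4 := by ring
    rw [e, Nat.mul_div_cancel _ (by positivity)]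
  have hx1 : ∀ k ∈ x.support, 1 ≤ k := fun k hk => by
    have := (hsupp k hk).1
    omega
  have havg : av (ν + 1) (s * m ^ 6 / m ^ 4) x ≤ (2 / (K : ℝ)) / 2 := by
    rw [hdiv]
    have a1 : av (ν + 1) s x ≤ 1 / (K : ℝ) := av_le_of_bd_sch hx1 hB
    have a2 : s ≤ s * m ^ 2 := Nat.le_mul_of_pos_right s (by positivity)
    have a3 : av (ν + 1) (s * m ^ 2) x ≤ av (ν + 1) s x := av_anti (ν + 1) hs a2 x
    have a4 : (2 / (K : ℝ)) / 2 = 1 / (K : ℝ) := by ring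
    rw [a4]
    exact a3.trans a1
  obtain ⟨g, u, v, hg, hu, hv, hxe, hgc, hbs, hbv⟩ := cell ν ν le_rfl x hx m (s * m ^ 6)
    (max ((s * m ^ 6) ^ 10) (K * (3 * hh ν * m ^ 2))) hm (Nat.le_mul_of_pos_left _ (by omega))
    (le_max_left _ _) (fun k hk => max_lt (hsupp k hk).1 (hsupp k hk).2) (2 / (K : ℝ)) 1
    (by positivity) K hK
    (bd_mono_size (by omega) (bd_mono_B h1 (bd_nrm (ν + 1) (by omega) x)))
    (by field_simp; norm_num) (le_trans (le_max_right _ _) (Nat.le_succ _)) havg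
    (fun y hy _ => (theoremM ν y hy).2 ν le_rfl)
  refine ⟨g, u, v, hg, hu, hv, hxe, hgc, ?_, ?_⟩
  · intro σ' hσ'
    have hσr : (0 : ℝ) < (σ' : ℝ) := by exact_mod_cast (lt_of_lt_of_le Nat.zero_lt_one hσ')
    have hux : u ≤ x := by
      intro k
      have e1 : x k = g k + u k + v k := by rw [hxe]; rfl
      have e2 : (0 : ℝ) ≤ g k := hg k
      have e3 : (0 : ℝ) ≤ v k := hv k
      rw [e1]
      linarith
    have hA0 : 0 ≤ Gam ν * (2 / (K : ℝ)) * (1 + (K : ℝ) / σ') := by positivity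
    have hA : Bd (ν + 1) (Sch 0) σ' u (Gam ν * (2 / (K : ℝ)) * (1 + (K : ℝ) / σ')) :=
      (bd_zero_iff (ν + 1) σ' hσ' u _ hA0).2 (bs_av hbs σ' hσ')
    have hR : Bd (ν + 1) (Sch ν) (s + 1) u (1 / (K : ℝ)) :=
      bd_mono_size (Nat.le_succ s) (bd_mono_x hu hux hB)
    have hρ : ∀ k ∈ u.support, s ≤ k := by
      intro k hk
      have h2 := (hsupp k (T4_supp hu hux hk)).1
      have h3 : s ≤ s * m ^ 6 := Nat.le_mul_of_pos_right s (by omega)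
      have h4 : s * m ^ 6 ≤ (s * m ^ 6) ^ 10 := Nat.le_self_pow (by norm_num) _
      omega
    have h5 := bd_first_rest (ν + 1) ν u σ' s hρ _ _ hA hR
    refine bd_mono_B ?_ h5
    have e1 : Gam ν * (2 / (K : ℝ)) * (1 + (K : ℝ) / σ') + 1 / (K : ℝ)
        = (2 * Gam ν + 1) * (1 / (σ' : ℝ) + 1 / (K : ℝ)) - 1 / (σ' : ℝ) := by
      field_simp
      ring
    rw [e1]
    have : (0 : ℝ) ≤ 1 / (σ' : ℝ) := by positivity
    linarith
  · have e1 : (K : ℝ) * (Gam ν * (2 / (K : ℝ)) / m) = 2 * Gam ν / m := by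
      field_simp
    rw [← e1]
    exact hbv

/-! ### Part T6 -/

private theorem T6_supp {x u : ℕ →₀ ℝ} (hu : 0 ≤ u) (hux : u ≤ x) {k : ℕ} (hk : k ∈ u.support) :
    k ∈ x.support := by
  rw [Finsupp.mem_support_iff] at hk ⊢
  intro h0
  apply hk
  have h1 : (0 : ℝ) ≤ u k := hu k
  have h2 : u k ≤ x k := hux k
  rw [h0] at h2
  exact le_antisymm h2 h1

private theorem T6_dot_add (y a b : ℕ →₀ ℝ) : dot y (a + b) = dot y a + dot y b := by
  have h : ∀ x : ℕ →₀ ℝ, dot y x = x.sum (fun k c => y k * c) := fun x => rfl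
  rw [h, h, h]
  exact Finsupp.sum_add_index' (fun k => mul_zero _) (fun k c d => mul_add _ _ _)

/-- ROW T6 (the chain of Lemma C). `K j ≥ 1`, `K j ≥` the `K0` of `star_diffuse` for `δ j` (hypothesis `hK`), `mm (j+1) = 2 Γ K (j+1)` (`hm`), `ss (j+1) = ss j * mm (j+1)^6`. Induction on `J`.
`J = 0`: `z = x`. Step: `z` for `J`; `chain_step` with `K J`, `mm (J+1)`, `ss J` (the support conditions: the support of `x` is in `supp (y i)`, points `≥ i ≥ i0`): `z = g + u + v`; `dot (y i) g ≤ δ J`, `dot (y i) u ≤ δ J` for large `i`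
(`star_points` with `K J`, `hK`; `nrm ≤ 1` as `g, u ≤ z ≤ x`), and `v` has `Bd (Sch ν) (ss (J+1)) v (2Γ/mm (J+1)) = 1/K (J+1)`; for `j ≤ J` the bounds pass from `z` to `v ≤ z`. (`2 * Gam ν + 1` is the natural number `C = 481 + 520 ν`.) -/
theorem chain (ν : ℕ) (y : ℕ → ℕ →₀ ℝ) (hy : ∀ i, 0 ≤ y i) (hS : Star ν y)
    (δ : ℕ → ℝ) (hδ : ∀ j, 0 < δ j) (K mm ss : ℕ → ℕ) (hK1 : ∀ j, 1 ≤ K j)
    (hK : ∀ j, ∃ i0 : ℕ, ∀ i, i0 ≤ i → ∀ u : ℕ →₀ ℝ, 0 ≤ u → nrm (ν + 1) u ≤ 1 →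
      (∀ σ' : ℕ, 1 ≤ σ' → Bd (ν + 1) (Sch ν) σ' u
        ((2 * Gam ν + 1) * (1 / (σ' : ℝ) + 1 / (K j : ℝ)))) → dot (y i) u ≤ δ j)
    (hm0 : ∀ j, m0 ν ≤ mm j) (hm : ∀ j, (mm (j + 1) : ℝ) = 2 * Gam ν * K (j + 1))
    (hs0 : 1 ≤ ss 0) (hs : ∀ j, ss (j + 1) = ss j * mm (j + 1) ^ 6) (J : ℕ) :
    ∃ i0 : ℕ, ∀ i, i0 ≤ i → ∀ x : ℕ →₀ ℝ, 0 ≤ x → nrm (ν + 1) x ≤ 1 →
      (∀ k ∈ x.support, i ≤ k) → Bd (ν + 1) (Sch ν) (ss 0) x (1 / (K 0 : ℝ)) →
      ∃ z : ℕ →₀ ℝ, 0 ≤ z ∧ z ≤ x ∧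
        (∀ j ≤ J, Bd (ν + 1) (Sch ν) (ss j) z (1 / (K j : ℝ))) ∧
        dot (y i) x ≤ dot (y i) z + ∑ j ∈ range J, 2 * δ j := by
  have hG : 0 < Gam ν := by unfold Gam; positivity
  have hmm1 : ∀ j, 1 ≤ mm j := fun j => by
    refine le_trans ?_ (hm0 j)
    unfold m0 hh
    exact Nat.one_le_iff_ne_zero.2 (by positivity)
  have hss1 : ∀ j, 1 ≤ ss j := by
    intro j
    induction j with
    | zero => exact hs0
    | succ j ih =>
      rw [hs j]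
      have h1 : 1 ≤ mm (j + 1) ^ 6 := Nat.one_le_pow _ _ (hmm1 (j + 1))
      exact Nat.one_le_iff_ne_zero.2 (Nat.mul_ne_zero (by omega) (by omega))
  induction J with
  | zero =>
    refine ⟨0, fun i _ x hx _ _ hB => ⟨x, hx, le_rfl, ?_, ?_⟩⟩
    · intro j hj
      have : j = 0 := by omega
      rw [this]
      exact hB
    · rw [Finset.range_zero, Finset.sum_empty, add_zero]
  | succ J ih =>
    obtain ⟨i0, h0⟩ := ih
    obtain ⟨i1, hi1⟩ := star_points ν y hS (K J) (δ J) (hδ J)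
    obtain ⟨i2, hi2⟩ := hK J
    refine ⟨max (max i0 i1) (max i2 ((ss J * mm (J + 1) ^ 6) ^ 10
      + K J * (3 * hh ν * mm (J + 1) ^ 2) + 1)), fun i hi x hx hx1 hxs hB => ?_⟩
    have g0 : i0 ≤ i := le_trans (le_trans (le_max_left _ _) (le_max_left _ _)) hi
    have g1 : i1 ≤ i := le_trans (le_trans (le_max_right _ _) (le_max_left _ _)) hi
    have g2 : i2 ≤ i := le_trans (le_trans (le_max_left _ _) (le_max_right _ _)) hi
    have g3 : (ss J * mm (J + 1) ^ 6) ^ 10 + K J * (3 * hh ν * mm (J + 1) ^ 2) + 1 ≤ i :=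
      le_trans (le_trans (le_max_right _ _) (le_max_right _ _)) hi
    obtain ⟨z, hz, hzx, hzB, hzd⟩ := h0 i g0 x hx hx1 hxs hB
    have hz1 : nrm (ν + 1) z ≤ 1 := (nrm_mono (ν + 1) hz hzx).trans hx1
    obtain ⟨g, u, v, hg, hu, hv, hze, hgc, huB, hvB⟩ := chain_step ν (K J) (mm (J + 1)) (ss J)
      (hK1 J) (hm0 (J + 1)) (hss1 J) z hz hz1
      (fun k hk => by
        have := hxs k (T6_supp hz hzx hk)
        constructor <;> omega)
      (hzB J le_rfl)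
    have hz_apply : ∀ k, z k = g k + u k + v k := fun k => by rw [hze]; rfl
    have hgz : g ≤ z := by
      intro k
      have e2 : (0 : ℝ) ≤ u k := hu k
      have e3 : (0 : ℝ) ≤ v k := hv k
      rw [hz_apply k]
      linarith
    have huz : u ≤ z := by
      intro k
      have e2 : (0 : ℝ) ≤ g k := hg k
      have e3 : (0 : ℝ) ≤ v k := hv k
      rw [hz_apply k]
      linarith
    have hvz : v ≤ z := by
      intro k
      have e2 : (0 : ℝ) ≤ g k := hg k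
      have e3 : (0 : ℝ) ≤ u k := hu k
      rw [hz_apply k]
      linarith
    refine ⟨v, hv, hvz.trans hzx, ?_, ?_⟩
    · intro j hj
      rcases Nat.lt_or_ge j (J + 1) with hlt | hge
      · exact bd_mono_x hv hvz (hzB j (by omega))
      · have hj' : j = J + 1 := le_antisymm hj hge
        rw [hj', hs J]
        refine bd_mono_B (le_of_eq ?_) hvB
        have hKr : (0 : ℝ) < (K (J + 1) : ℝ) := by
          exact_mod_cast (lt_of_lt_of_le Nat.zero_lt_one (hK1 (J + 1)))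
        rw [hm J]
        field_simp
    · have d1 : dot (y i) z = dot (y i) g + dot (y i) u + dot (y i) v := by
        rw [hze, T6_dot_add, T6_dot_add]
      have d2 : dot (y i) g ≤ δ J := hi1 i g1 g hg ((nrm_mono (ν + 1) hg hgz).trans hz1) hgc
      have d3 : dot (y i) u ≤ δ J := hi2 i g2 u hu ((nrm_mono (ν + 1) hu huz).trans hz1) huB
      rw [Finset.sum_range_succ]
      linarith

/-! ### Part T7 -/

private theorem T7_dot_add (y u v : ℕ →₀ ℝ) : dot y (u + v) = dot y u + dot y v := by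
  have h : ∀ x : ℕ →₀ ℝ, dot y x = x.sum (fun k a => y k * a) := fun x => rfl
  rw [h, h, h]
  exact Finsupp.sum_add_index' (fun k => mul_zero (y k)) (fun k a b => mul_add (y k) a b)

private theorem T7_sum (δ : ℝ) (J : ℕ) :
    ∑ j ∈ range J, 2 * (δ / 2 ^ (j + 3)) = δ / 2 - δ / 2 ^ (J + 1) := by
  induction J with
  | zero => simp
  | succ J ih =>
    rw [Finset.sum_range_succ, ih]
    have h2 : (2 : ℝ) ^ J ≠ 0 := pow_ne_zero J (by norm_num)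
    rw [pow_succ (2 : ℝ) (J + 2), pow_succ (2 : ℝ) (J + 1), pow_succ (2 : ℝ) J]
    field_simp
    ring

private theorem T7_supp {u x : ℕ →₀ ℝ} (hu : 0 ≤ u) (hux : u ≤ x) {k : ℕ}
    (hk : k ∈ u.support) : k ∈ x.support := by
  rw [Finsupp.mem_support_iff] at hk ⊢
  intro h0
  apply hk
  have h1 : u k ≤ x k := hux k
  have h2 : 0 ≤ u k := hu k
  rw [h0] at h1
  exact le_antisymm h1 h2

/-- ROW T7 (Lemma C). `G := 240 + 260 ν` (`= Gam ν`), `C = 2G+1`, `δ j = δ / 2^(j+3)`; `star_diffuse` for `C`, `δ j` gives `K0 j`; choose `K 0 ≥ K0 0, m0 ν, 1` and `K (j+1) ≥ K0 (j+1), K j + 1` recursively; `mm j := 2 G K j`; `k := 3 * hh ν * (mm 0)^2` (depends on `δ`, not on `N`).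
Given `N`: `ss 0 := (N+1) * (mm 0)^6`, `ss (j+1) := ss j * mm (j+1)^6`. Profile `s* m := ss j` for the least `j` with `m ≤ K j`; (*) for `s*`, `δ/4` gives `M*`, `i*`; `J` with `M* ≤ K J`. Let `i0` be larger than `i*`, the `i0` of `chain` for `J`, `(ss 0)^10 + 1`, `k`.
`x`: replace it by `rs (y i).support x` (`dot_rs`, `bd_rs`); then `i ≤` all points. `T' := min T 1`: `Bd (SchU ν k) (ss 0 / (mm 0)^4) x T'` (`ss 0/(mm 0)^4 = (N+1) (mm 0)^2 ≥ N`; the bound `1`: `bd_nrm`, `bd_mono_size`, `bd_beyond` as `k ≤ i`).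
`theoremM` (`MH ν ν x`) with `m = mm 0`, `s = ss 0`, `T'`: `x = u + v`; `dot (y i) u ≤ nrm u ≤ Gam ν T' ≤ Gam ν T` (`DB .. 1`), `Bd (Sch ν) (ss 0) v (Gam ν T'/mm 0)`, `≤ 1/(2 K 0) ≤ 1/K 0`. `chain` for `v`: `z`; for `1 ≤ m ≤ M*` the least `j` with `m ≤ K j` is `≤ J`, so
`Bd (Sch ν) (s* m) z (1/K j)`, `≤ 1/m`: (*) gives `dot (y i) z ≤ δ/4`. Total `≤ Gam ν T + ∑ 2 δ j + δ/4 ≤ Gam ν T + δ`. -/
theorem lemmaC (ν : ℕ) (y : ℕ → ℕ →₀ ℝ) (hy : ∀ i, 0 ≤ y i) (hb : Blk y)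
    (hD : ∀ i, DB (ν + 1) (y i) 1) (hS : Star ν y) (δ : ℝ) (hδ : 0 < δ) :
    ∃ k : ℕ, ∀ N : ℕ, ∃ i0 : ℕ, ∀ i, i0 ≤ i → ∀ x : ℕ →₀ ℝ, 0 ≤ x → nrm (ν + 1) x ≤ 1 →
      ∀ T : ℝ, 0 ≤ T → Bd (ν + 1) (SchU ν k) N x T → dot (y i) x ≤ Gam ν * T + δ := by
  have hG : (0 : ℝ) < Gam ν := by
    unfold Gam; positivity
  have hCcast : ((481 + 520 * ν : ℕ) : ℝ) = 2 * Gam ν + 1 := by
    unfold Gam; push_cast; ring
  have hδj : ∀ j : ℕ, 0 < δ / 2 ^ (j + 3) := fun j => by positivity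
  have hsd : ∀ j : ℕ, ∃ K0 i0 : ℕ, ∀ K, K0 ≤ K → ∀ i, i0 ≤ i → ∀ u : ℕ →₀ ℝ, 0 ≤ u →
      nrm (ν + 1) u ≤ 1 → (∀ σ' : ℕ, 1 ≤ σ' →
        Bd (ν + 1) (Sch ν) σ' u (((481 + 520 * ν : ℕ) : ℝ) * (1 / (σ' : ℝ) + 1 / (K : ℝ)))) →
      dot (y i) u ≤ δ / 2 ^ (j + 3) := fun j =>
    star_diffuse ν y hS (481 + 520 * ν) (by omega) (δ / 2 ^ (j + 3)) (hδj j)
  choose K0 I0 hK0 using hsd
  obtain ⟨K, hKdef⟩ : ∃ K : ℕ → ℕ, ∀ j, K j = (∑ l ∈ range (j + 1), K0 l) + m0 ν + 1 + j :=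
    ⟨_, fun _ => rfl⟩
  have hKK0 : ∀ j, K0 j ≤ K j := by
    intro j
    have h1 : K0 j ≤ ∑ l ∈ range (j + 1), K0 l :=
      Finset.single_le_sum (f := K0) (fun _ _ => Nat.zero_le _) (Finset.self_mem_range_succ j)
    rw [hKdef]; omega
  have hK1 : ∀ j, 1 ≤ K j := by intro j; rw [hKdef]; omega
  have hKm0 : ∀ j, m0 ν ≤ K j := by intro j; rw [hKdef]; omega
  have hKj : ∀ j, j ≤ K j := by intro j; rw [hKdef]; omega
  obtain ⟨mm, hmmdef⟩ : ∃ mm : ℕ → ℕ, ∀ j, mm j = (480 + 520 * ν) * K j := ⟨_, fun _ => rfl⟩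
  have hmmcast : ∀ j, (mm j : ℝ) = 2 * Gam ν * K j := by
    intro j; rw [hmmdef]; unfold Gam; push_cast; ring
  have hmmK : ∀ j, 480 * K j ≤ mm j := by
    intro j; rw [hmmdef]; exact Nat.mul_le_mul_right _ (by omega)
  have hmm0 : ∀ j, m0 ν ≤ mm j := by
    intro j; have := hmmK j; have := hKm0 j; omega
  have hmm480 : 480 ≤ mm 0 := by
    have := hmmK 0; have := hK1 0; omega
  refine ⟨3 * hh ν * (mm 0) ^ 2, fun N => ?_⟩
  obtain ⟨ss, hssdef⟩ : ∃ ss : ℕ → ℕ, ∀ j, ss j = (N + 1) * ∏ l ∈ range (j + 1), mm l ^ 6 :=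
    ⟨_, fun _ => rfl⟩
  have hss0 : ss 0 = (N + 1) * (mm 0) ^ 6 := by
    rw [hssdef]; simp
  have hsss : ∀ j, ss (j + 1) = ss j * mm (j + 1) ^ 6 := by
    intro j
    rw [hssdef, hssdef, Finset.prod_range_succ _ (j + 1), mul_assoc]
  have hmmpos : 0 < mm 0 := by omega
  have hs01 : 1 ≤ ss 0 := by
    rw [hss0]; exact Nat.mul_pos (Nat.succ_pos N) (pow_pos hmmpos 6)
  have hex : ∀ m : ℕ, ∃ j, m ≤ K j := fun m => ⟨m, hKj m⟩
  obtain ⟨Mst, ist, hst⟩ := hS (δ / 4) (by positivity) (fun m => ss (Nat.find (hex m)))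
  obtain ⟨ic, hic⟩ := chain ν y hy hS (fun j => δ / 2 ^ (j + 3)) hδj K mm ss hK1
    (fun j => ⟨I0 j, fun i hi u hu hnu hbu => hK0 j (K j) (hKK0 j) i hi u hu hnu (by
      rw [hCcast]; exact hbu)⟩)
    hmm0 (fun j => hmmcast (j + 1)) hs01 hsss Mst
  refine ⟨ist + ic + (ss 0) ^ 10 + 1 + 3 * hh ν * (mm 0) ^ 2, ?_⟩
  intro i hi x hx hnx T hT hBd
  -- restrict to the support of `y i`
  rw [← dot_rs (y i) x]
  have hx'0 : 0 ≤ rs (↑(y i).support : Set ℕ) x := rs_nonneg _ hx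
  have hnx' : nrm (ν + 1) (rs (↑(y i).support : Set ℕ) x) ≤ 1 := (nrm_rs_le _ _ _).trans hnx
  have hBd' := bd_rs hx (↑(y i).support : Set ℕ) hBd
  have hsup' : ∀ l ∈ (rs (↑(y i).support : Set ℕ) x).support, i ≤ l := by
    intro l hl
    have h1 := (mem_support_rs.1 hl).1
    exact hb.1 i l (by exact_mod_cast h1)
  generalize rs (↑(y i).support : Set ℕ) x = x' at hx'0 hnx' hBd' hsup'
  have hdiv : ss 0 / (mm 0) ^ 4 = (N + 1) * (mm 0) ^ 2 := by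
    rw [hss0]
    have h1 : (N + 1) * (mm 0) ^ 6 = ((N + 1) * (mm 0) ^ 2) * (mm 0) ^ 4 := by ring
    rw [h1]
    exact Nat.mul_div_cancel _ (pow_pos hmmpos 4)
  have hmmsq : 2 ≤ (mm 0) ^ 2 := by nlinarith
  have hdivN : N ≤ ss 0 / (mm 0) ^ 4 := by
    rw [hdiv]; nlinarith
  have hdiv2 : 2 ≤ ss 0 / (mm 0) ^ 4 := by
    rw [hdiv]; nlinarith
  have hB1 : Bd (ν + 1) (SchU ν (3 * hh ν * (mm 0) ^ 2)) (ss 0 / (mm 0) ^ 4) x' 1 := by
    refine bd_beyond (fun l hl => ?_) (bd_mono_size hdiv2 (bd_mono_B hnx'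
      (bd_nrm (ν + 1) (by omega) x')))
    have := hsup' l hl
    omega
  have hB2 : Bd (ν + 1) (SchU ν (3 * hh ν * (mm 0) ^ 2)) (ss 0 / (mm 0) ^ 4) x' (min T 1) := by
    intro Q E j hF hQ
    exact le_min (bd_mono_size hdivN hBd' Q E j hF hQ) (hB1 Q E j hF hQ)
  have hT' : 0 ≤ min T 1 := le_min hT zero_le_one
  obtain ⟨u, v, hu, hv, hxuv, hnu, hBv⟩ := (theoremM ν x' hx'0).2 ν (le_refl ν) (mm 0) (ss 0)
    (hmm0 0) (by rw [hss0]; exact Nat.le_mul_of_pos_left _ (Nat.succ_pos N))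
    (fun l hl => by have := hsup' l hl; omega) (min T 1) hT' hB2
  have hvx : v ≤ x' := by
    rw [hxuv]; exact le_add_of_nonneg_left hu
  have hdu : dot (y i) u ≤ Gam ν * T := by
    have h1 := hD i u hu
    rw [one_mul] at h1
    exact (h1.trans hnu).trans (mul_le_mul_of_nonneg_left (min_le_left T 1) hG.le)
  have hK0pos : (0 : ℝ) < K 0 := by exact_mod_cast hK1 0
  have hBv' : Bd (ν + 1) (Sch ν) (ss 0) v (1 / (K 0 : ℝ)) := by
    refine bd_mono_B ?_ hBv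
    rw [hmmcast 0, div_le_div_iff₀ (by positivity) hK0pos]
    have h1 : min T 1 ≤ 1 := min_le_right T 1
    have h2 : Gam ν * min T 1 ≤ Gam ν := by nlinarith
    have h3 : Gam ν * min T 1 * K 0 ≤ Gam ν * K 0 := mul_le_mul_of_nonneg_right h2 hK0pos.le
    have h4 : 0 ≤ Gam ν * K 0 := by positivity
    linarith
  obtain ⟨z, hz, hzv, hzB, hdz⟩ := hic i (by omega) v hv ((nrm_mono _ hv hvx).trans hnx')
    (fun l hl => hsup' l (T7_supp hv hvx hl)) hBv'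
  have hnz : nrm (ν + 1) z ≤ 1 := (nrm_mono _ hz (hzv.trans hvx)).trans hnx'
  have hdz2 : dot (y i) z ≤ δ / 4 := by
    refine hst i (by omega) z hz hnz (fun m hm1 hm2 => ?_)
    have hfind : m ≤ K (Nat.find (hex m)) := Nat.find_spec (hex m)
    have hle : Nat.find (hex m) ≤ Mst := Nat.find_min' (hex m) (hm2.trans (hKj Mst))
    refine bd_mono_B ?_ (hzB (Nat.find (hex m)) hle)
    exact one_div_le_one_div_of_le (by exact_mod_cast hm1) (by exact_mod_cast hfind)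
  rw [hxuv, T7_dot_add]
  have hsum := T7_sum δ Mst
  have hpos : 0 < δ / 2 ^ (Mst + 1) := by positivity
  have hdz' : dot (y i) v ≤ dot (y i) z + ∑ j ∈ range Mst, 2 * (δ / 2 ^ (j + 3)) := hdz
  rw [hsum] at hdz'
  linarith

/-! ### Part T8 -/

private theorem T8_dot_sum (s : Finset ℕ) (y : ℕ → ℕ →₀ ℝ) (x : ℕ →₀ ℝ) :
    dot (∑ l ∈ s, y l) x = ∑ l ∈ s, dot (y l) x := by
  unfold dot
  rw [Finset.sum_comm]
  apply Finset.sum_congr rfl
  intro k _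
  rw [Finsupp.finsetSum_apply, Finset.sum_mul]

private theorem T8_dot_smul (y x : ℕ →₀ ℝ) (c : ℝ) (hc : c ≠ 0) :
    dot y (c • x) = c * dot y x := by
  unfold dot
  rw [Finsupp.support_smul_eq hc, Finset.mul_sum]
  apply Finset.sum_congr rfl
  intro k _
  rw [Finsupp.smul_apply, smul_eq_mul]; ring

private theorem T8_core (ν : ℕ) (y : ℕ → ℕ →₀ ℝ) (hb : Blk y)
    (hne : ∀ i, (y i).support.Nonempty) (r k : ℕ) (hr : 1 ≤ r) (i0 : ℕ → ℕ)
    (hi0 : ∀ N i, i0 N ≤ i → ∀ x : ℕ →₀ ℝ, 0 ≤ x → nrm (ν + 1) x ≤ 1 →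
      ∀ T : ℝ, 0 ≤ T → Bd (ν + 1) (SchU ν k) N x T → dot (y i) x ≤ Gam ν * T + 1 / (r : ℝ))
    (ι : ℕ → ℕ) (h0 : i0 2 ≤ ι 0) (h0' : r * k ≤ ι 0)
    (hstep : ∀ l, l + 1 < r → ι l < ι (l + 1) ∧
      ∀ a ∈ (y (ι l)).support, i0 (max 2 (a + 1)) ≤ ι (l + 1))
    (x : ℕ →₀ ℝ) (hx : 0 ≤ x) (hx1 : nrm (ν + 1) x ≤ 1) :
    ∑ l ∈ range r, dot (y (ι l)) x ≤ Gam ν + 1 := by
  have hmono : ∀ l', l' < r → ∀ l, l < l' → ι l < ι l' := by
    intro l'
    induction l' with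
    | zero => intro _ l hl; omega
    | succ m ih =>
      intro hm l hl
      have h1 := (hstep m hm).1
      rcases Nat.lt_succ_iff_lt_or_eq.1 hl with h | h
      · exact (ih (by omega) l h).trans h1
      · subst h; exact h1
  have hge0 : ∀ l, l < r → ι 0 ≤ ι l := by
    intro l hl
    rcases Nat.eq_zero_or_pos l with h | h
    · subst h; exact le_refl _
    · exact (hmono l hl 0 h).le
  obtain ⟨D, hDdef⟩ : ∃ D : ℕ → Set ℕ, D = fun l => if l < r then (↑(y (ι l)).support : Set ℕ)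
    else ∅ := ⟨_, rfl⟩
  have hDlt : ∀ l, l < r → D l = (↑(y (ι l)).support : Set ℕ) := by
    intro l hl; rw [hDdef]; simp only [if_pos hl]
  have hDge : ∀ l, ¬ l < r → D l = ∅ := by
    intro l hl; rw [hDdef]; simp only [if_neg hl]
  have hDs : SuccS D := by
    intro p q hpq a ha b hb'
    by_cases hq : q < r
    · have hp : p < r := hpq.trans hq
      rw [hDlt p hp] at ha
      rw [hDlt q hq] at hb'
      exact hb.2 (ι p) (ι q) (hmono q hq p hpq) a (by exact_mod_cast ha) b (by exact_mod_cast hb')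
    · rw [hDge q hq] at hb'; exact absurd hb' (Set.notMem_empty b)
  obtain ⟨mx, hmx⟩ : ∃ mx : ℕ → ℕ, ∀ i, mx i ∈ (y i).support ∧ ∀ a ∈ (y i).support, a ≤ mx i := by
    refine ⟨fun i => (y i).support.max' (hne i), fun i => ⟨Finset.max'_mem _ _, ?_⟩⟩
    intro a ha; exact Finset.le_max' _ a ha
  obtain ⟨ρ, hρdef⟩ : ∃ ρ : ℕ → ℕ, ρ = fun l => if l = 0 then 2 else max 2 (mx (ι (l - 1)) + 1) :=
    ⟨_, rfl⟩
  have hρ0 : ρ 0 = 2 := by rw [hρdef]; simp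
  have hρs : ∀ l, ρ (l + 1) = max 2 (mx (ι l) + 1) := by
    intro l; rw [hρdef]; simp
  have hρ2 : ∀ l, 2 ≤ ρ l := by
    intro l
    cases l with
    | zero => rw [hρ0]
    | succ m => rw [hρs]; exact le_max_left _ _
  have hιge : ∀ l, l < r → i0 (ρ l) ≤ ι l := by
    intro l hl
    cases l with
    | zero => rw [hρ0]; exact h0
    | succ m => rw [hρs]; exact (hstep m hl).2 _ (hmx (ι m)).1
  obtain ⟨S, hS⟩ : ∃ S : Set ℕ, S = {a | ∃ l, l < r ∧ a ∈ (y (ι l)).support} := ⟨_, rfl⟩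
  obtain ⟨x1, hx1def⟩ : ∃ x1 : ℕ →₀ ℝ, x1 = rs S x := ⟨_, rfl⟩
  have hx1nn : 0 ≤ x1 := by rw [hx1def]; exact rs_nonneg S hx
  have hx1n : nrm (ν + 1) x1 ≤ 1 := by rw [hx1def]; exact (nrm_rs_le _ S x).trans hx1
  have hsupp1 : ∀ a ∈ x1.support, r * k ≤ a := by
    intro a ha
    rw [hx1def, mem_support_rs, hS] at ha
    obtain ⟨⟨l, hl, hal⟩, -⟩ := ha
    exact (h0'.trans (hge0 l hl)).trans (hb.1 (ι l) a hal)
  have hBd : Bd (ν + 1) (SchU ν (∑ _p ∈ range r, k)) 2 x1 1 := by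
    rw [Finset.sum_const, Finset.card_range, smul_eq_mul]
    apply bd_beyond hsupp1
    exact bd_mono_B hx1n (bd_nrm (ν + 1) (by omega) x1)
  have hsum := sum_bnU_le (ν + 1) ν x1 r D hDs 2 ρ (fun p _ => hρ2 p) (by
    intro p hp p' hp' a ha _
    rw [hDlt p' (hp'.trans hp)] at ha
    have ha' : a ∈ (y (ι p')).support := by exact_mod_cast ha
    cases p with
    | zero => omega
    | succ m =>
      rw [hρs]
      apply lt_max_of_lt_right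
      rcases Nat.lt_succ_iff_lt_or_eq.1 hp' with h | h
      · have := hb.2 (ι p') (ι m) (hmono m (by omega) p' h) a ha' _ (hmx (ι m)).1
        omega
      · subst h
        have := (hmx (ι p')).2 a ha'
        omega) (fun _ => k) 1 hBd
  have hterm : ∀ l ∈ range r, dot (y (ι l)) x ≤
      Gam ν * bn (ν + 1) (SchU ν k) (ρ l) (rs (D l) x1) + 1 / (r : ℝ) := by
    intro l hl
    have hl' := Finset.mem_range.1 hl
    have e1 : rs (↑(y (ι l)).support : Set ℕ) x = rs (D l) x1 := by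
      rw [hx1def, rs_rs, hDlt l hl']
      apply rs_congr
      intro a _
      constructor
      · intro ha
        refine ⟨ha, ?_⟩
        rw [hS]; exact ⟨l, hl', by exact_mod_cast ha⟩
      · intro ha; exact ha.1
    rw [← dot_rs, e1]
    exact hi0 (ρ l) (ι l) (hιge l hl') _ (rs_nonneg _ hx1nn) ((nrm_rs_le _ _ _).trans hx1n) _
      (bn_nonneg (schU_empty ν k) _) (bn_spec _)
  have hrpos : (0 : ℝ) < r := by exact_mod_cast hr
  have hG : 0 ≤ Gam ν := by unfold Gam; positivity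
  calc ∑ l ∈ range r, dot (y (ι l)) x
      ≤ ∑ l ∈ range r, (Gam ν * bn (ν + 1) (SchU ν k) (ρ l) (rs (D l) x1) + 1 / (r : ℝ)) :=
        Finset.sum_le_sum hterm
    _ = Gam ν * ∑ l ∈ range r, bn (ν + 1) (SchU ν k) (ρ l) (rs (D l) x1) + 1 := by
        rw [Finset.sum_add_distrib, ← Finset.mul_sum, Finset.sum_const, Finset.card_range,
          nsmul_eq_mul, mul_one_div, div_self (ne_of_gt hrpos)]
    _ ≤ Gam ν * 1 + 1 := by
        have := mul_le_mul_of_nonneg_left hsum hG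
        linarith
    _ = Gam ν + 1 := by ring

theorem sum_bound (ν : ℕ) (y : ℕ → ℕ →₀ ℝ) (hy : ∀ i, 0 ≤ y i) (hb : Blk y)
    (hne : ∀ i, (y i).support.Nonempty) (hD : ∀ i, DB (ν + 1) (y i) 1) (hS : Star ν y)
    (r : ℕ) (hr : 1 ≤ r) :
    ∃ g : ℕ → ℕ, ∀ ι : ℕ → ℕ, g 0 ≤ ι 0 →
      (∀ l, l + 1 < r → ι l < ι (l + 1) ∧ ∀ k ∈ (y (ι l)).support, g k ≤ ι (l + 1)) →
      DB (ν + 1) (∑ l ∈ range r, y (ι l)) (Gam ν + 1) := by
  have hrpos : (0 : ℝ) < r := by exact_mod_cast hr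
  obtain ⟨k, hk⟩ := lemmaC ν y hy hb hD hS (1 / (r : ℝ)) (by positivity)
  choose i0 hi0 using hk
  refine ⟨fun a => max (i0 (max 2 (a + 1))) (max (i0 2) (r * k)), ?_⟩
  intro ι h0 hstep x hx
  have h0a : i0 2 ≤ ι 0 := (le_trans (le_max_left _ _) (le_max_right _ _)).trans h0
  have h0b : r * k ≤ ι 0 := (le_trans (le_max_right _ _) (le_max_right _ _)).trans h0
  have hstep' : ∀ l, l + 1 < r → ι l < ι (l + 1) ∧
      ∀ a ∈ (y (ι l)).support, i0 (max 2 (a + 1)) ≤ ι (l + 1) := by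
    intro l hl
    refine ⟨(hstep l hl).1, fun a ha => ?_⟩
    exact (le_max_left _ _).trans ((hstep l hl).2 a ha)
  have core := T8_core ν y hb hne r k hr i0 hi0 ι h0a h0b hstep'
  rw [T8_dot_sum]
  by_cases hN : nrm (ν + 1) x = 0
  · have hx0 : x = 0 := by
      ext a
      have := coord_le_nrm (ν + 1) x a
      rw [hN] at this
      exact abs_nonpos_iff.1 this
    rw [hx0, nrm_zero]
    simp [dot]
  · have hNpos : 0 < nrm (ν + 1) x := lt_of_le_of_ne (nrm_nonneg _ _) (Ne.symm hN)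
    have hinv : 0 < (nrm (ν + 1) x)⁻¹ := inv_pos.2 hNpos
    have h1 := core ((nrm (ν + 1) x)⁻¹ • x) (by
      intro a
      rw [Finsupp.smul_apply, smul_eq_mul]
      exact mul_nonneg hinv.le (hx a)) (by
      rw [nrm_smul, abs_of_pos hinv, inv_mul_cancel₀ hN])
    have h2 : ∑ l ∈ range r, dot (y (ι l)) ((nrm (ν + 1) x)⁻¹ • x) =
        (nrm (ν + 1) x)⁻¹ * ∑ l ∈ range r, dot (y (ι l)) x := by
      rw [Finset.mul_sum]
      exact Finset.sum_congr rfl (fun l _ => T8_dot_smul _ _ _ (ne_of_gt hinv))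
    rw [h2] at h1
    have h3 := mul_le_mul_of_nonneg_left h1 hNpos.le
    rw [← mul_assoc, mul_inv_cancel₀ hN, one_mul] at h3
    linarith

end Pool.Agent.Lib.MP_1bb70c_an
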