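import Pool.Agent.Lib.MP_1bb70c_an.Tree
import Pool.Agent.Lib.MP_1bb70c_an.LemmaC

set_option autoImplicit false

open Finset
open scoped Classical

noncomputable section

namespace Pool.Agent.Lib.MP_1bb70c_an

/-! ### Part T11 -/

private theorem T11_dot_sup (y x : ℕ →₀ ℝ) (S : Finset ℕ) (h : x.support ⊆ S) :
    dot y x = ∑ k ∈ S, y k * x k := by
  unfold dot
  exact Finset.sum_subset h (fun k _ hk => by rw [Finsupp.notMem_support_iff.1 hk, mul_zero])

private theorem T11_dot_smul_left (c : ℝ) (y x : ℕ →₀ ℝ) : dot (c • y) x = c * dot y x := by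
  unfold dot
  rw [Finset.mul_sum]
  refine Finset.sum_congr rfl (fun k _ => ?_)
  rw [Finsupp.smul_apply, smul_eq_mul, mul_assoc]

private theorem T11_dot_smul_right (c : ℝ) (y x : ℕ →₀ ℝ) : dot y (c • x) = c * dot y x := by
  rw [T11_dot_sup y (c • x) x.support Finsupp.support_smul, T11_dot_sup y x x.support (le_refl _),
    Finset.mul_sum]
  refine Finset.sum_congr rfl (fun k _ => ?_)
  rw [Finsupp.smul_apply, smul_eq_mul]; ring

private theorem T11_dot_zero_left (x : ℕ →₀ ℝ) : dot 0 x = 0 := by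
  unfold dot; simp

private theorem T11_dot_zero_right (y : ℕ →₀ ℝ) : dot y 0 = 0 := by
  unfold dot; simp

private theorem T11_dot_add_left (y z x : ℕ →₀ ℝ) : dot (y + z) x = dot y x + dot z x := by
  unfold dot
  rw [← Finset.sum_add_distrib]
  refine Finset.sum_congr rfl (fun k _ => ?_)
  rw [Finsupp.add_apply, add_mul]

private theorem T11_dot_add_right (y x z : ℕ →₀ ℝ) : dot y (x + z) = dot y x + dot y z := by
  rw [T11_dot_sup y (x + z) (x.support ∪ z.support) Finsupp.support_add,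
    T11_dot_sup y x (x.support ∪ z.support) Finset.subset_union_left,
    T11_dot_sup y z (x.support ∪ z.support) Finset.subset_union_right,
    ← Finset.sum_add_distrib]
  refine Finset.sum_congr rfl (fun k _ => ?_)
  rw [Finsupp.add_apply, mul_add]

private theorem T11_dot_sum_left (s : Finset ℕ) (f : ℕ → ℕ →₀ ℝ) (x : ℕ →₀ ℝ) :
    dot (∑ k ∈ s, f k) x = ∑ k ∈ s, dot (f k) x := by
  induction s using Finset.induction_on with
  | empty => simp [T11_dot_zero_left]
  | insert a s ha ih => rw [Finset.sum_insert ha, Finset.sum_insert ha, T11_dot_add_left, ih]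

private theorem T11_dot_sum_right (s : Finset ℕ) (f : ℕ → ℕ →₀ ℝ) (y : ℕ →₀ ℝ) :
    dot y (∑ k ∈ s, f k) = ∑ k ∈ s, dot y (f k) := by
  induction s using Finset.induction_on with
  | empty => simp [T11_dot_zero_right]
  | insert a s ha ih => rw [Finset.sum_insert ha, Finset.sum_insert ha, T11_dot_add_right, ih]

private theorem T11_sum_nonneg (s : Finset ℕ) (f : ℕ → ℕ →₀ ℝ) (hf : ∀ k, 0 ≤ f k) :
    0 ≤ ∑ k ∈ s, f k := Finset.sum_nonneg (fun k _ => hf k)

private theorem T11_mem_sum (s : Finset ℕ) (f : ℕ → ℕ →₀ ℝ) (p : ℕ)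
    (hp : p ∈ (∑ k ∈ s, f k).support) : ∃ k ∈ s, p ∈ (f k).support := by
  by_contra hcon
  push Not at hcon
  rw [Finsupp.mem_support_iff] at hp
  apply hp
  rw [Finsupp.finsetSum_apply]
  exact Finset.sum_eq_zero (fun k hk => Finsupp.notMem_support_iff.1 (hcon k hk))

private theorem T11_blk (A : ℕ → Finset ℕ) (hA : GoodSel A) (b : ℕ → ℕ →₀ ℝ) (hb : Blk b) :
    Blk (SumSel A b) := by
  refine ⟨fun i k hk => ?_, fun i i' hii a ha c hc => ?_⟩
  · obtain ⟨m, hm, hk'⟩ := T11_mem_sum _ _ _ hk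
    exact (hA.2.1 i m hm).trans (hb.1 m k hk')
  · obtain ⟨m, hm, hm'⟩ := T11_mem_sum _ _ _ ha
    obtain ⟨l, hl, hl'⟩ := T11_mem_sum _ _ _ hc
    exact hb.2 m l (hA.2.2 i i' hii m hm l hl) a hm' c hl'

private theorem T11_ne (A : ℕ → Finset ℕ) (hA : GoodSel A) (b : ℕ → ℕ →₀ ℝ) (hb0 : ∀ k, 0 ≤ b k)
    (hbne : ∀ k, (b k).support.Nonempty) (i : ℕ) : (SumSel A b i).support.Nonempty := by
  obtain ⟨m, hm⟩ := hA.1 i
  obtain ⟨p, hp⟩ := hbne m
  refine ⟨p, ?_⟩
  rw [Finsupp.mem_support_iff]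
  unfold SumSel
  rw [Finsupp.finsetSum_apply]
  have h1 : b m p ≤ ∑ k ∈ A i, b k p :=
    Finset.single_le_sum (f := fun k => b k p) (fun k _ => hb0 k p) hm
  have h2 : 0 < b m p := lt_of_le_of_ne (hb0 m p) (Ne.symm (Finsupp.mem_support_iff.1 hp))
  exact ne_of_gt (lt_of_lt_of_le h2 h1)

private theorem T11_comb_nrm (n : ℕ) (A : ℕ → Finset ℕ) (c : ℕ → ℕ → ℝ) (hc : Wt A c)
    (x0 : ℕ → ℕ →₀ ℝ) (h2 : ∀ k, nrm n (x0 k) ≤ 2) (i : ℕ) : nrm n (Comb A c x0 i) ≤ 2 := by
  unfold Comb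
  calc nrm n (∑ k ∈ A i, c i k • x0 k) ≤ ∑ k ∈ A i, nrm n (c i k • x0 k) := nrm_sum_le n _ _
    _ ≤ ∑ k ∈ A i, c i k * 2 := by
        refine Finset.sum_le_sum (fun k _ => ?_)
        rw [nrm_smul, abs_of_nonneg (hc.1 i k)]
        exact mul_le_mul_of_nonneg_left (h2 k) (hc.1 i k)
    _ = 2 := by rw [← Finset.sum_mul, hc.2 i, one_mul]

private theorem T11_gam (ν : ℕ) : 0 ≤ Gam ν := by
  unfold Gam
  positivity

/-- ROW T11 ((*) fails somewhere). Suppose not: for every `GoodSel A` with `∃ C, ∀ i, DB (SumSel A b i) C` condition (*) holds. By induction on `h ≤ ν+1`: there are `A, c`, `GoodSel A`, `Wt A c`, all `Lv ν h (Comb A c x0 i) (1/(i+1))`, and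
`∃ C ≥ 1, ∀ i, DB (ν+1) (SumSel A b i) C`. `h = 0`: `A i = {i}`, `c = 1`, `C = 1`. Step (`h ≤ ν`): `y i := (1/C) • SumSel A b i` satisfies `Star` (`star_smul`), `DB .. 1`, `Blk`, nonempty supports; `sum_bound` for `r = i+1` gives `g_i`; `G i := g_i`; `tree_step`;
`DB (SumSel A' b i) ((Gam ν + 1) C)`. At `h = ν + 1`: `W i = SumSel A b i` satisfies (*), with the profile `s m = 8 m` and `δ = 1/4`: `M, i0`. Take `i ≥ i0`, `i + 1 ≥ 8M`: `x = (1/2) • Comb A c x0 i`: `nrm x ≤ 1`, `Bd (Sch ν) (8m) x (4 (1/(8m) + 1/(i+1)))`, `≤ 1/m` for `1 ≤ m ≤ M`;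
`dot (W i) x = (1/2) ∑ c i k dot (b k) (x0 k) = 1/2 > 1/4` (supports of different `k` are disjoint: `dot (b k') (x0 k) = 0`). Contradiction. -/
theorem exists_not_star (ν : ℕ) (b x0 : ℕ → ℕ →₀ ℝ) (hb0 : ∀ k, 0 ≤ b k) (hb : Blk b)
    (hD : ∀ k, DB (ν + 1) (b k) 1) (hx0 : ∀ k, 0 ≤ x0 k) (h2 : ∀ k, nrm (ν + 1) (x0 k) ≤ 2)
    (hsub : ∀ k, (x0 k).support ⊆ (b k).support) (hdot : ∀ k, dot (b k) (x0 k) = 1) :
    ∃ A : ℕ → Finset ℕ, GoodSel A ∧ (∃ C : ℝ, ∀ i, DB (ν + 1) (SumSel A b i) C) ∧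
      ¬ Star ν (SumSel A b) := by
  by_contra hcon
  have hstar : ∀ A : ℕ → Finset ℕ, GoodSel A →
      (∃ C : ℝ, ∀ i, DB (ν + 1) (SumSel A b i) C) → Star ν (SumSel A b) := by
    intro A hA hC
    by_contra hns
    exact hcon ⟨A, hA, hC, hns⟩
  have hne : ∀ k, (x0 k).support.Nonempty := by
    intro k
    by_contra hk
    rw [Finset.not_nonempty_iff_eq_empty] at hk
    have h1 := hdot k
    unfold dot at h1
    rw [hk, Finset.sum_empty] at h1
    exact zero_ne_one h1
  have hbne : ∀ k, (b k).support.Nonempty := fun k => (hne k).mono (hsub k)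
  have hind : ∀ h : ℕ, h ≤ ν + 1 → ∃ (A : ℕ → Finset ℕ) (c : ℕ → ℕ → ℝ), GoodSel A ∧ Wt A c ∧
      (∀ i, Lv ν h (Comb A c x0 i) (1 / ((i : ℝ) + 1))) ∧
      ∃ C : ℝ, 1 ≤ C ∧ ∀ i, DB (ν + 1) (SumSel A b i) C := by
    intro h
    induction h with
    | zero =>
      intro _
      refine ⟨fun i => {i}, fun _ _ => 1, ⟨fun i => Finset.singleton_nonempty i, ?_, ?_⟩,
        ⟨fun _ _ => zero_le_one, fun i => ?_⟩, fun i => trivial, 1, le_refl _, fun i => ?_⟩
      · intro i k hk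
        rw [Finset.mem_singleton] at hk
        exact le_of_eq hk.symm
      · intro i i' hii k hk k' hk'
        rw [Finset.mem_singleton] at hk hk'
        rw [hk, hk']; exact hii
      · rw [Finset.sum_singleton]
      · unfold SumSel
        rw [Finset.sum_singleton]
        exact hD i
    | succ h ih =>
      intro hh
      obtain ⟨A, c, hA, hc, hL, C, hC1, hC⟩ := ih (by omega)
      have hC0 : 0 < C := lt_of_lt_of_le zero_lt_one hC1
      have hS : Star ν (SumSel A b) := hstar A hA ⟨C, hC⟩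
      have hSB : Blk (SumSel A b) := T11_blk A hA b hb
      have hSn : ∀ i, 0 ≤ SumSel A b i := fun i => T11_sum_nonneg _ _ hb0
      have hCi : 0 < 1 / C := by positivity
      have hyS : Star ν (fun i => (1 / C) • SumSel A b i) := star_smul ν _ hS _ hCi
      have hsup : ∀ i, ((1 / C) • SumSel A b i).support = (SumSel A b i).support := fun i =>
        Finsupp.support_smul_eq (ne_of_gt hCi)
      have hyn : ∀ i, 0 ≤ (fun i => (1 / C) • SumSel A b i) i :=
        fun i => smul_nonneg hCi.le (hSn i)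
      have hyB : Blk (fun i => (1 / C) • SumSel A b i) := by
        refine ⟨fun i k hk => ?_, fun i i' hii p hp q hq => ?_⟩
        · rw [hsup] at hk; exact hSB.1 i k hk
        · rw [hsup] at hp hq; exact hSB.2 i i' hii p hp q hq
      have hyne : ∀ i, ((fun i => (1 / C) • SumSel A b i) i).support.Nonempty := by
        intro i
        show ((1 / C) • SumSel A b i).support.Nonempty
        rw [hsup]; exact T11_ne A hA b hb0 hbne i
      have hyD : ∀ i, DB (ν + 1) ((fun i => (1 / C) • SumSel A b i) i) 1 := by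
        intro i x hx
        show dot ((1 / C) • SumSel A b i) x ≤ 1 * nrm (ν + 1) x
        rw [T11_dot_smul_left]
        have h1 := hC i x hx
        calc 1 / C * dot (SumSel A b i) x ≤ 1 / C * (C * nrm (ν + 1) x) :=
              mul_le_mul_of_nonneg_left h1 hCi.le
          _ = 1 * nrm (ν + 1) x := by field_simp
      have hsb := fun r : ℕ => sum_bound ν (fun i => (1 / C) • SumSel A b i) hyn hyB hyne hyD hyS
        (r + 1) (Nat.succ_le_succ (Nat.zero_le r))
      choose G hG using hsb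
      obtain ⟨A', c', ι, hA', hc', hL', hsum, hι0, hιs⟩ :=
        tree_step ν h (by omega) b x0 hb0 hb hx0 h2 hsub hne A c hA hc hL G
      refine ⟨A', c', hA', hc', hL', C * (Gam ν + 1), ?_, fun i => ?_⟩
      · have := T11_gam ν
        nlinarith
      · have h1 := hG i (ι i) (hι0 i) (fun l hl => ⟨(hιs i l hl).1, fun k hk => by
          have hk' : k ∈ (SumSel A b (ι i l)).support := by
            rw [← hsup]; exact hk
          exact (hιs i l hl).2 k hk'⟩)
        intro x hx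
        have h3 := h1 x hx
        have h4 : ∑ l ∈ range (i + 1), (1 / C) • SumSel A b (ι i l) =
            (1 / C) • SumSel A' b i := by
          rw [hsum i, Finset.smul_sum]
        have h5 : dot ((1 / C) • SumSel A' b i) x ≤ (Gam ν + 1) * nrm (ν + 1) x := by
          rw [← h4]; exact h3
        rw [T11_dot_smul_left] at h5
        calc dot (SumSel A' b i) x = C * (1 / C * dot (SumSel A' b i) x) := by field_simp
          _ ≤ C * ((Gam ν + 1) * nrm (ν + 1) x) := mul_le_mul_of_nonneg_left h5 hC0.le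
          _ = C * (Gam ν + 1) * nrm (ν + 1) x := by ring
  obtain ⟨A, c, hA, hc, hL, C, hC1, hC⟩ := hind (ν + 1) (le_refl _)
  have hS : Star ν (SumSel A b) := hstar A hA ⟨C, hC⟩
  obtain ⟨M, i0, hM⟩ := hS (1 / 4) (by norm_num) (fun m => 8 * m)
  have hi := hM (max i0 (8 * M)) (le_max_left _ _)
    ((1 / 2 : ℝ) • Comb A c x0 (max i0 (8 * M)))
  set i := max i0 (8 * M) with hidef
  have hi8 : 8 * M ≤ i := le_max_right _ _
  have hcomb0 : 0 ≤ Comb A c x0 i :=
    Finset.sum_nonneg (fun k _ => smul_nonneg (hc.1 i k) (hx0 k))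
  have hx1 : 0 ≤ (1 / 2 : ℝ) • Comb A c x0 i := smul_nonneg (by norm_num) hcomb0
  have hx2 : nrm (ν + 1) ((1 / 2 : ℝ) • Comb A c x0 i) ≤ 1 := by
    rw [nrm_smul, abs_of_nonneg (by norm_num : (0 : ℝ) ≤ 1 / 2)]
    have := T11_comb_nrm (ν + 1) A c hc x0 h2 i
    linarith
  have hx3 : ∀ m : ℕ, 1 ≤ m → m ≤ M →
      Bd (ν + 1) (Sch ν) (8 * m) ((1 / 2 : ℝ) • Comb A c x0 i) (1 / (m : ℝ)) := by
    intro m hm1 hmM
    have h1 : Diff ν ν (Comb A c x0 i) (1 / ((i : ℝ) + 1)) := hL i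
    have h3 := bd_smul (1 / 2 : ℝ) (by norm_num) (h1 (8 * m) (by omega))
    refine bd_mono_B ?_ h3
    have hm0 : (0 : ℝ) < m := by exact_mod_cast hm1
    have hi0 : (8 : ℝ) * m ≤ (i : ℝ) + 1 := by
      have : 8 * m ≤ i + 1 := by omega
      exact_mod_cast this
    have hq : 1 / ((i : ℝ) + 1) ≤ 1 / (8 * (m : ℝ)) :=
      one_div_le_one_div_of_le (by positivity) hi0
    have hcast : ((8 * m : ℕ) : ℝ) = 8 * (m : ℝ) := by push_cast; ring
    rw [hcast]
    have hfin : (1 / 2 : ℝ) * (8 * (1 / (8 * (m : ℝ)) + 1 / (8 * (m : ℝ)))) = 1 / (m : ℝ) := by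
      field_simp
      norm_num
    rw [← hfin]
    linarith
  have hx4 := hi hx1 hx2 hx3
  rw [T11_dot_smul_right] at hx4
  have hd : dot (SumSel A b i) (Comb A c x0 i) = 1 := by
    unfold Comb
    rw [T11_dot_sum_right]
    rw [← hc.2 i]
    refine Finset.sum_congr rfl (fun k hk => ?_)
    rw [T11_dot_smul_right]
    unfold SumSel
    rw [T11_dot_sum_left, Finset.sum_eq_single_of_mem k hk, hdot k, mul_one]
    intro k' hk' hne'
    unfold dot
    refine Finset.sum_eq_zero (fun p hp => ?_)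
    have hpb : p ∈ (b k).support := hsub k hp
    have : b k' p = 0 := by
      by_contra hcon2
      have hpk : p ∈ (b k').support := Finsupp.mem_support_iff.2 hcon2
      rcases lt_or_gt_of_ne hne' with hlt | hlt
      · exact lt_irrefl _ (hb.2 k' k hlt p hpk p hpb)
      · exact lt_irrefl _ (hb.2 k k' hlt p hpb p hpk)
    rw [this, zero_mul]
  rw [hd] at hx4
  norm_num at hx4

end Pool.Agent.Lib.MP_1bb70c_an
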