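import Pool.Agent.Lib.MP_1bb70c_an.Duality
import Pool.Agent.Lib.MP_1bb70c_an.TreeB

set_option autoImplicit false

open Finset
open scoped Classical

noncomputable section

namespace Pool.Agent.Lib.MP_1bb70c_an

/-! ### Part E5 -/

/-- the modulus of a finitely supported sequence -/
def fabs (b : ℕ →₀ ℝ) : ℕ →₀ ℝ := b.mapRange (fun t => |t|) abs_zero

theorem E5_fabs_apply (b : ℕ →₀ ℝ) (k : ℕ) : fabs b k = |b k| := by
  unfold fabs
  rw [Finsupp.mapRange_apply]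

theorem E5_fabs_support (b : ℕ →₀ ℝ) : (fabs b).support = b.support := by
  ext k
  rw [Finsupp.mem_support_iff, Finsupp.mem_support_iff, E5_fabs_apply, ne_eq, abs_eq_zero]

theorem E5_fabs_nonneg (b : ℕ →₀ ℝ) : 0 ≤ fabs b := by
  intro k
  rw [E5_fabs_apply]
  exact abs_nonneg _

theorem E5_nrm_fabs_le (n : ℕ) (x : ℕ →₀ ℝ) : nrm n (fabs x) ≤ nrm n x :=
  nrm_mono_abs n _ _ (fun k => by rw [E5_fabs_apply, abs_abs])

theorem E5_dot_smul (y x : ℕ →₀ ℝ) (c : ℝ) : dot y (c • x) = c * dot y x := by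
  unfold dot
  have h : (c • x).support ⊆ x.support := Finsupp.support_smul
  rw [Finset.mul_sum]
  rw [Finset.sum_subset h]
  · refine Finset.sum_congr rfl (fun k _ => ?_)
    rw [Finsupp.smul_apply, smul_eq_mul]
    ring
  · intro k _ hk
    rw [Finsupp.notMem_support_iff.1 hk, mul_zero]

theorem E5_geom (l M : ℕ) (h : l ≤ M) :
    ∑ k ∈ Finset.Ico l M, (1 / 2 ^ (k + 2) : ℝ) = 1 / 2 ^ (l + 1) - 1 / 2 ^ (M + 1) := by
  induction M, h using Nat.le_induction with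
  | base => simp
  | succ M hM ih =>
    rw [Finset.sum_Ico_succ_top hM, ih]
    have h1 : (1 : ℝ) / 2 ^ (M + 2) = 1 / 2 * (1 / 2 ^ (M + 1)) := by
      rw [show M + 2 = M + 1 + 1 from rfl, pow_succ (2 : ℝ) (M + 1), one_div_mul_one_div, mul_comm]
    have h2 : (1 : ℝ) / 2 ^ (M + 1 + 1) = 1 / 2 * (1 / 2 ^ (M + 1)) := h1
    linarith only [h1, h2]

theorem E5_sum_le (l : ℕ) (A : Finset ℕ) (hA : ∀ k ∈ A, l ≤ k) :
    ∑ k ∈ A, (1 / 2 ^ (k + 2) : ℝ) ≤ 1 / 2 ^ l := by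
  obtain ⟨M, hM⟩ : ∃ M, ∀ k ∈ A, k < M :=
    ⟨A.sup id + 1, fun k hk => Nat.lt_succ_of_le (Finset.le_sup (f := id) hk)⟩
  have hsub : A ⊆ Finset.Ico l (max l M) := by
    intro k hk
    rw [Finset.mem_Ico]
    exact ⟨hA k hk, lt_of_lt_of_le (hM k hk) (le_max_right _ _)⟩
  have h1 : ∑ k ∈ A, (1 / 2 ^ (k + 2) : ℝ) ≤ ∑ k ∈ Finset.Ico l (max l M), (1 / 2 ^ (k + 2) : ℝ) :=
    Finset.sum_le_sum_of_subset_of_nonneg hsub (fun k _ _ => by positivity)
  rw [E5_geom l _ (le_max_left _ _)] at h1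
  have h2 : (0 : ℝ) < 1 / 2 ^ (max l M + 1) := by positivity
  have h3 : (1 / 2 ^ (l + 1) : ℝ) ≤ 1 / 2 ^ l :=
    one_div_le_one_div_of_le (by positivity) (pow_le_pow_right₀ (by norm_num) (Nat.le_succ l))
  linarith only [h1, h2, h3]

theorem E5_mem_sum_support (A : Finset ℕ) (b : ℕ → ℕ →₀ ℝ) (m : ℕ)
    (h : m ∈ (∑ k ∈ A, b k).support) : ∃ k ∈ A, m ∈ (b k).support := by
  by_contra hc
  push Not at hc
  rw [Finsupp.mem_support_iff, Finsupp.finsetSum_apply] at h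
  exact h (Finset.sum_eq_zero (fun k hk => Finsupp.notMem_support_iff.1 (hc k hk)))

/-- disjoint supports: the modulus of the sum is the sum of the moduli -/
theorem E5_fabs_sum (A : Finset ℕ) (b : ℕ → ℕ →₀ ℝ)
    (hb : ∀ i i', i < i' → ∀ a ∈ (b i).support, ∀ c ∈ (b i').support, a < c) :
    fabs (∑ k ∈ A, b k) = ∑ k ∈ A, fabs (b k) := by
  ext m
  rw [E5_fabs_apply, Finsupp.finsetSum_apply, Finsupp.finsetSum_apply]
  by_cases h : ∃ k ∈ A, m ∈ (b k).support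
  · obtain ⟨k, hk, hm⟩ := h
    have h0 : ∀ k' ∈ A, k' ≠ k → b k' m = 0 := by
      intro k' _ hne
      by_contra hc
      have hm' : m ∈ (b k').support := Finsupp.mem_support_iff.2 hc
      rcases lt_or_gt_of_ne hne with hlt | hlt
      · exact lt_irrefl _ (hb k' k hlt m hm' m hm)
      · exact lt_irrefl _ (hb k k' hlt m hm m hm')
    rw [Finset.sum_eq_single k h0 (fun h => absurd hk h)]
    rw [Finset.sum_eq_single k (fun k' hk' hne => by
      rw [E5_fabs_apply, h0 k' hk' hne, abs_zero]) (fun h => absurd hk h), E5_fabs_apply]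
  · push Not at h
    rw [Finset.sum_eq_zero (fun k hk => Finsupp.notMem_support_iff.1 (h k hk))]
    rw [Finset.sum_eq_zero (fun k hk => by
      rw [E5_fabs_apply, Finsupp.notMem_support_iff.1 (h k hk), abs_zero]), abs_zero]

/-- the vector `x0` -/
theorem E5_x0 (n : ℕ) (y : StrongDual ℝ (X01 n)) (hy : ‖y‖ = 1) (b : ℕ →₀ ℝ) (η : ℝ)
    (hη : η ≤ 1 / 4)
    (h : ∀ x : ℕ →₀ ℝ, |ev y x - ∑ k ∈ x.support, b k * x k| ≤ η * nrm n x) :
    ∃ x0 : ℕ →₀ ℝ, 0 ≤ x0 ∧ nrm n x0 ≤ 2 ∧ x0.support ⊆ (fabs b).support ∧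
      dot (fabs b) x0 = 1 := by
  obtain ⟨x, _, hx⟩ := exists_ev y (7 / 8) (by norm_num) (by rw [hy]; norm_num)
  have hn : 0 ≤ nrm n x := nrm_nonneg n x
  have h1 := abs_le.1 (h x)
  have h2 : η * nrm n x ≤ 1 / 4 * nrm n x := mul_le_mul_of_nonneg_right hη hn
  have h3 : ∑ k ∈ x.support, b k * x k ≤ dot (fabs b) (fabs x) := by
    unfold dot
    rw [E5_fabs_support]
    refine Finset.sum_le_sum (fun k _ => ?_)
    rw [E5_fabs_apply, E5_fabs_apply, ← abs_mul]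
    exact le_abs_self _
  obtain ⟨t, ht⟩ : ∃ t, t = dot (fabs b) (fabs x) := ⟨_, rfl⟩
  rw [← ht] at h3
  have ht1 : 1 / 2 * nrm n x < t := by linarith only [hx, h1.2, h2, h3, hn]
  have ht0 : 0 < t := by linarith only [ht1, hn]
  refine ⟨t⁻¹ • rs (↑(fabs b).support : Set ℕ) (fabs x), ?_, ?_, ?_, ?_⟩
  · intro k
    rw [Finsupp.smul_apply, smul_eq_mul]
    exact mul_nonneg (inv_nonneg.2 ht0.le) (rs_nonneg _ (E5_fabs_nonneg x) k)
  · rw [nrm_smul, abs_of_pos (inv_pos.2 ht0)]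
    have h4 : nrm n (rs (↑(fabs b).support : Set ℕ) (fabs x)) ≤ nrm n x :=
      (nrm_rs_le n _ _).trans (E5_nrm_fabs_le n x)
    have h5 : t⁻¹ * nrm n (rs (↑(fabs b).support : Set ℕ) (fabs x)) ≤ t⁻¹ * (2 * t) :=
      mul_le_mul_of_nonneg_left (by linarith only [h4, ht1]) (inv_nonneg.2 ht0.le)
    have h6 : t⁻¹ * (2 * t) = 2 := by
      field_simp
    rw [h6] at h5
    exact h5
  · intro k hk
    exact (mem_support_rs.1 (Finsupp.support_smul hk)).1
  · rw [E5_dot_smul, dot_rs, ← ht, inv_mul_cancel₀ ht0.ne']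

/-- ROW E5 (near-block sequence in `Y` with a lower `l_1` estimate). `hump` with `η i = 1/2^(i+2)`; `B k := fabs (b k)`: `B k ≥ 0`, `Blk B`, `DB (ν+1) (B k) 1` (`abs_crd_sum`: `dot (B k) x ≤ ∑ |crd (y k) l| x l ≤ nrm x`).
`x0 k`: by `exists_ev` for `y k` (`‖y k‖ = 1 > 7/8`...): there is `x` with `(7/8) nrm x < ev (y k) x`, so `∑ b k * x > (7/8 - 1/4) nrm x ≥ (1/2) nrm x`; `t := dot (B k) (fabs x) ≥ ∑ b k l * x l > (1/2) nrm x ≥ 0`; `x0 k := t⁻¹ • rs (b k).support (fabs x)`: `nrm ≤ 2`, `dot (B k) (x0 k) = 1`, support in `(B k).support`.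
`exists_not_star` gives `A`, `C`; `star_fail` for `SumSel A B` gives `c`, `φ`. `z l := ∑_{k ∈ A (φ l)} y k ∈ Y`, `w l := ∑_{k ∈ A (φ l)} b k`; `fabs (w l) = SumSel A B (φ l)` (disjoint supports). Error: `∑_{k ∈ A (φ l)} η k ≤ ∑_{k ≥ l} 1/2^(k+2) ≤ 1/2^l` (`k ≥ φ l ≥ l` on `A (φ l)`). -/
theorem near_block (ν : ℕ) (Y : Submodule ℝ (StrongDual ℝ (X01 (ν + 1))))
    (hY : ¬ FiniteDimensional ℝ Y) :
    ∃ (z : ℕ → StrongDual ℝ (X01 (ν + 1))) (w : ℕ → ℕ →₀ ℝ) (c C : ℝ), 0 < c ∧ 0 ≤ C ∧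
      (∀ l, z l ∈ Y) ∧ (∀ l, ∀ k ∈ (w l).support, l < k) ∧
      (∀ l l', l < l' → ∀ a ∈ (w l).support, ∀ k ∈ (w l').support, a < k) ∧
      (∀ l (x : ℕ →₀ ℝ), |ev (z l) x - ∑ k ∈ x.support, w l k * x k| ≤
        (1 / 2 ^ l) * nrm (ν + 1) x) ∧
      (∀ l, DB (ν + 1) (fabs (w l)) C) ∧
      ∀ F : Finset ℕ, (∀ l ∈ F, F.card ≤ l) → ∀ lam : ℕ → ℝ, (∀ l ∈ F, 0 ≤ lam l) →
        ∃ x : ℕ →₀ ℝ, 0 ≤ x ∧ nrm (ν + 1) x ≤ 1 ∧
          c * ∑ l ∈ F, lam l ≤ ∑ l ∈ F, lam l * dot (fabs (w l)) x := by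
  obtain ⟨y, b, hyY, hy1, hb1, hb2, hb3, hb4⟩ := hump ν Y hY (fun i => 1 / 2 ^ (i + 2))
    (fun i => by positivity)
  have hη : ∀ i : ℕ, (1 / 2 ^ (i + 2) : ℝ) ≤ 1 / 4 := by
    intro i
    refine one_div_le_one_div_of_le (by norm_num) ?_
    have h1 : (1 : ℝ) ≤ 2 ^ i := one_le_pow₀ (by norm_num)
    rw [pow_add]
    linarith only [h1]
  choose x0 hx0 hx2 hxs hxd using fun k => E5_x0 (ν + 1) (y k) (hy1 k) (b k) _ (hη k) (hb4 k)
  have hBblk : Blk (fun k => fabs (b k)) := by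
    refine ⟨fun i k hk => ?_, fun i i' hii a ha k hk => ?_⟩
    · rw [E5_fabs_support] at hk
      exact (hb1 i k hk).le
    · rw [E5_fabs_support] at ha hk
      exact hb2 i i' hii a ha k hk
  have hBD : ∀ k, DB (ν + 1) (fabs (b k)) 1 := by
    intro i x hx
    have h1 := abs_crd_sum (y i) x hx
    rw [hy1 i] at h1
    refine le_trans ?_ h1
    unfold dot
    refine Finset.sum_le_sum (fun k _ => mul_le_mul_of_nonneg_right ?_ (hx k))
    rw [E5_fabs_apply]
    by_cases hk : k ∈ (b i).support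
    · rw [hb3 i k hk]
    · rw [Finsupp.notMem_support_iff.1 hk, abs_zero]
      exact abs_nonneg _
  obtain ⟨A, hA, ⟨C, hC⟩, hns⟩ := exists_not_star ν (fun k => fabs (b k)) x0
    (fun k => E5_fabs_nonneg _) hBblk hBD hx0 hx2 hxs hxd
  have hSnn : ∀ i, 0 ≤ SumSel A (fun k => fabs (b k)) i := by
    intro i
    unfold SumSel
    exact Finset.sum_nonneg (fun k _ => E5_fabs_nonneg _)
  have hSsup : ∀ i, ∀ m ∈ (SumSel A (fun k => fabs (b k)) i).support,
      ∃ k ∈ A i, m ∈ (b k).support := by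
    intro i m hm
    unfold SumSel at hm
    obtain ⟨k, hk, hmk⟩ := E5_mem_sum_support _ _ _ hm
    simp only [E5_fabs_support] at hmk
    exact ⟨k, hk, hmk⟩
  have hSblk : Blk (SumSel A (fun k => fabs (b k))) := by
    refine ⟨fun i m hm => ?_, fun i i' hii a ha m hm => ?_⟩
    · obtain ⟨k, hk, hmk⟩ := hSsup i m hm
      exact (hA.2.1 i k hk).trans (hb1 k m hmk).le
    · obtain ⟨k, hk, hak⟩ := hSsup i a ha
      obtain ⟨k', hk', hmk⟩ := hSsup i' m hm
      exact hb2 k k' (hA.2.2 i i' hii k hk k' hk') a hak m hmk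
  obtain ⟨c, hc, φ, hφ, hF⟩ := star_fail ν _ hSnn hSblk hns
  have hfw : ∀ l, fabs (∑ k ∈ A (φ l), b k) = SumSel A (fun k => fabs (b k)) (φ l) := by
    intro l
    rw [E5_fabs_sum _ _ hb2]
    rfl
  refine ⟨fun l => ∑ k ∈ A (φ l), y k, fun l => ∑ k ∈ A (φ l), b k, c, max C 0, hc,
    le_max_right _ _, ?_, ?_, ?_, ?_, ?_, ?_⟩
  · intro l
    exact Y.sum_mem (fun k _ => hyY k)
  · intro l m hm
    obtain ⟨k, hk, hmk⟩ := E5_mem_sum_support _ _ _ hm
    have h1 := hA.2.1 (φ l) k hk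
    have h2 := hb1 k m hmk
    have h3 : l ≤ φ l := hφ.le_apply
    omega
  · intro l l' hll a ha m hm
    obtain ⟨k, hk, hak⟩ := E5_mem_sum_support _ _ _ ha
    obtain ⟨k', hk', hmk⟩ := E5_mem_sum_support _ _ _ hm
    exact hb2 k k' (hA.2.2 _ _ (hφ hll) k hk k' hk') a hak m hmk
  · intro l x
    have e1 : ev (∑ k ∈ A (φ l), y k) x - ∑ m ∈ x.support, (∑ k ∈ A (φ l), b k) m * x m =
        ∑ k ∈ A (φ l), (ev (y k) x - ∑ m ∈ x.support, b k m * x m) := by
      rw [ev_sum', Finset.sum_sub_distrib]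
      congr 1
      rw [Finset.sum_comm]
      refine Finset.sum_congr rfl (fun m _ => ?_)
      rw [Finsupp.finsetSum_apply, Finset.sum_mul]
    have e2 : |∑ k ∈ A (φ l), (ev (y k) x - ∑ m ∈ x.support, b k m * x m)| ≤
        ∑ k ∈ A (φ l), (1 / 2 ^ (k + 2)) * nrm (ν + 1) x :=
      (Finset.abs_sum_le_sum_abs _ _).trans (Finset.sum_le_sum (fun k _ => hb4 k x))
    have e3 : ∑ k ∈ A (φ l), (1 / 2 ^ (k + 2) : ℝ) ≤ 1 / 2 ^ l :=
      E5_sum_le l _ (fun k hk => (hφ.le_apply).trans (hA.2.1 (φ l) k hk))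
    change |ev (∑ k ∈ A (φ l), y k) x - ∑ m ∈ x.support, (∑ k ∈ A (φ l), b k) m * x m| ≤ _
    rw [e1]
    refine e2.trans ?_
    rw [← Finset.sum_mul]
    exact mul_le_mul_of_nonneg_right e3 (nrm_nonneg _ _)
  · intro l x hx
    change dot (fabs (∑ k ∈ A (φ l), b k)) x ≤ _
    rw [hfw l]
    exact (hC (φ l) x hx).trans (mul_le_mul_of_nonneg_right (le_max_left _ _) (nrm_nonneg _ _))
  · intro F hFc lam hlam
    obtain ⟨x, h1, h2, h3⟩ := hF F hFc lam hlam
    refine ⟨x, h1, h2, h3.trans (le_of_eq ?_)⟩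
    refine Finset.sum_congr rfl (fun l _ => ?_)
    change _ = lam l * dot (fabs (∑ k ∈ A (φ l), b k)) x
    rw [hfw l]

/-! ### Part E6 -/

private theorem E6_sch0_card (F : Finset ℕ) (h : Schreier 0 F) : F.card ≤ 1 := by
  simpa [Schreier] using h

/-- `F ∈ S_1` means `card F ≤ min F`. -/
theorem schreier_one_card (F : Finset ℕ) (h : Schreier 1 F) : ∀ l ∈ F, F.card ≤ l := by
  intro l hl
  obtain ⟨d, E, h1, -, h3, rfl⟩ := h
  have hc : (Finset.univ.biUnion E).card ≤ d := by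
    calc (Finset.univ.biUnion E).card ≤ ∑ i : Fin d, (E i).card := Finset.card_biUnion_le
      _ ≤ ∑ _i : Fin d, 1 := Finset.sum_le_sum (fun i _ => E6_sch0_card (E i) (h3 i))
      _ = d := by simp
  obtain ⟨i, -, hi⟩ := Finset.mem_biUnion.1 hl
  exact hc.trans (h1 i l hi)

private theorem E6_fabs_apply (b : ℕ →₀ ℝ) (k : ℕ) : fabs b k = |b k| := by
  unfold fabs; rw [Finsupp.mapRange_apply]

private theorem E6_fabs_supp (b : ℕ →₀ ℝ) : (fabs b).support = b.support := by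
  ext k
  rw [Finsupp.mem_support_iff, Finsupp.mem_support_iff, E6_fabs_apply, abs_ne_zero]

private theorem E6_fabs_nonneg (b : ℕ →₀ ℝ) : 0 ≤ fabs b := by
  intro k; rw [E6_fabs_apply]; exact abs_nonneg _

private theorem E6_nrm_fabs (n : ℕ) (b : ℕ →₀ ℝ) : nrm n (fabs b) ≤ nrm n b :=
  nrm_mono_abs n _ _ (fun k => by rw [E6_fabs_apply, abs_abs])

/-- the sign-modified vector -/
private def E6_mod (W x : ℕ →₀ ℝ) : ℕ →₀ ℝ :=
  Finsupp.onFinset x.support (fun k => if 0 ≤ W k then x k else - x k) (by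
    intro k hk
    rw [Finsupp.mem_support_iff]
    intro h0
    apply hk
    rw [h0]; simp)

private theorem E6_mod_apply (W x : ℕ →₀ ℝ) (k : ℕ) :
    E6_mod W x k = if 0 ≤ W k then x k else - x k := rfl

private theorem E6_mod_abs (W x : ℕ →₀ ℝ) (k : ℕ) : |E6_mod W x k| = |x k| := by
  rw [E6_mod_apply]; split_ifs
  · rfl
  · exact abs_neg _

private theorem E6_mod_supp (W x : ℕ →₀ ℝ) : (E6_mod W x).support = x.support := by
  ext k
  rw [Finsupp.mem_support_iff, Finsupp.mem_support_iff, ← abs_ne_zero, E6_mod_abs, abs_ne_zero]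

private theorem E6_mod_mul (W x : ℕ →₀ ℝ) (k : ℕ) : W k * E6_mod W x k = |W k| * x k := by
  rw [E6_mod_apply]; split_ifs with h
  · rw [abs_of_nonneg h]
  · rw [abs_of_neg (not_le.1 h)]; ring

private theorem E6_norm_bound {ν : ℕ} (z : StrongDual ℝ (X01 (ν + 1))) (w : ℕ →₀ ℝ) (C e : ℝ)
    (hC : 0 ≤ C) (he : e ≤ 1)
    (h1 : ∀ x : ℕ →₀ ℝ, |ev z x - ∑ k ∈ x.support, w k * x k| ≤ e * nrm (ν + 1) x)
    (h2 : DB (ν + 1) (fabs w) C) : ‖z‖ ≤ C + 1 := by
  apply norm_le_ev z (C + 1) (by linarith)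
  intro x
  have h3 := h1 x
  have h4 : |∑ k ∈ x.support, w k * x k| ≤ C * nrm (ν + 1) x := by
    calc |∑ k ∈ x.support, w k * x k| ≤ ∑ k ∈ x.support, |w k * x k| :=
          Finset.abs_sum_le_sum_abs _ _
      _ = dot (fabs w) (fabs x) := by
          unfold dot
          rw [E6_fabs_supp]
          apply Finset.sum_congr rfl
          intro k _
          rw [E6_fabs_apply, E6_fabs_apply, abs_mul]
      _ ≤ C * nrm (ν + 1) (fabs x) := h2 _ (E6_fabs_nonneg x)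
      _ ≤ C * nrm (ν + 1) x := mul_le_mul_of_nonneg_left (E6_nrm_fabs _ x) hC
  have h5 : |ev z x| ≤ |ev z x - ∑ k ∈ x.support, w k * x k| + |∑ k ∈ x.support, w k * x k| := by
    have := abs_add_le (ev z x - ∑ k ∈ x.support, w k * x k) (∑ k ∈ x.support, w k * x k)
    rwa [sub_add_cancel] at this
  have h6 : e * nrm (ν + 1) x ≤ 1 * nrm (ν + 1) x :=
    mul_le_mul_of_nonneg_right he (nrm_nonneg _ _)
  linarith

private theorem E6_disj_abs (F : Finset ℕ) (w : ℕ → ℕ →₀ ℝ) (lam : ℕ → ℝ)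
    (hd : ∀ l l', l < l' → ∀ a ∈ (w l).support, ∀ k ∈ (w l').support, a < k) (k : ℕ) :
    |∑ l ∈ F, lam l * w l k| = ∑ l ∈ F, |lam l| * |w l k| := by
  by_cases hk : ∃ l ∈ F, w l k ≠ 0
  · obtain ⟨l, hl, hlk⟩ := hk
    have hz : ∀ l' ∈ F, l' ≠ l → w l' k = 0 := by
      intro l' _ hne
      by_contra hk'
      rcases lt_or_gt_of_ne hne with h | h
      · exact lt_irrefl _ (hd l' l h k (Finsupp.mem_support_iff.2 hk') k
          (Finsupp.mem_support_iff.2 hlk))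
      · exact lt_irrefl _ (hd l l' h k (Finsupp.mem_support_iff.2 hlk) k
          (Finsupp.mem_support_iff.2 hk'))
    rw [Finset.sum_eq_single_of_mem l hl (fun l' hl' hne => by rw [hz l' hl' hne, mul_zero]),
      Finset.sum_eq_single_of_mem l hl (fun l' hl' hne => by
        rw [hz l' hl' hne, abs_zero, mul_zero]), abs_mul]
  · have hz : ∀ l ∈ F, w l k = 0 := by
      intro l hl
      by_contra hne
      exact hk ⟨l, hl, hne⟩
    rw [Finset.sum_eq_zero (fun l hl => by rw [hz l hl, mul_zero]),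
      Finset.sum_eq_zero (fun l hl => by rw [hz l hl, abs_zero, mul_zero]), abs_zero]

/-- ROW E6 (`l_1` spreading model). Let `z, w, c, C` from `near_block` and `l0` with `1/2^l0 ≤ c/2`; `y l := z (l + l0)`. For `F` with `card F ≤ min F` and `lam`: `F' = F + l0` satisfies `card F' ≤ min F'`; the estimate for `|lam|` gives `x ≥ 0`; let `x' k = sgn (lam l * w k) x k` for
`k ∈ (w l).support` (`l` unique), `0` elsewhere: `∑_l lam l ∑_k w l k x' k = ∑ |lam l| dot (fabs (w l)) x ≥ c ∑ |lam l|`, `nrm x' ≤ 1`, and the errors are `≤ ∑ |lam l| /2^(l+l0) ≤ (c/2) ∑ |lam l|`. So `‖∑ lam l • y l‖ ≥ (c/2) ∑ |lam l|`.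
Seminormalized: lower bound from `F = {l}`, `l ≥ 1` (for `l = 0` replace the first member: shift once more so that index `0` is fine too: use `l0 ≥ 1` and the estimate with the set `{l + l0}`); upper bound `‖y l‖ ≤ C + 1` (`norm_le_ev`). Statement in the form needed later: -/
theorem l1_final (ν : ℕ) (Y : Submodule ℝ (StrongDual ℝ (X01 (ν + 1))))
    (hY : ¬ FiniteDimensional ℝ Y) :
    ∃ (z : ℕ → StrongDual ℝ (X01 (ν + 1))) (w : ℕ → ℕ →₀ ℝ) (c C : ℝ), 0 < c ∧ 0 ≤ C ∧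
      (∀ l, z l ∈ Y) ∧ (∀ l, ‖z l‖ ≤ C) ∧ (∀ l, ∀ k ∈ (w l).support, l < k) ∧
      (∀ l l', l < l' → ∀ a ∈ (w l).support, ∀ k ∈ (w l').support, a < k) ∧
      (∀ l (x : ℕ →₀ ℝ), |ev (z l) x - ∑ k ∈ x.support, w l k * x k| ≤
        (1 / 2 ^ l) * nrm (ν + 1) x) ∧
      (∀ l, DB (ν + 1) (fabs (w l)) C) ∧
      ∀ F : Finset ℕ, (∀ l ∈ F, F.card ≤ l + 1) → ∀ lam : ℕ → ℝ,
        c * ∑ l ∈ F, |lam l| ≤ ‖∑ l ∈ F, lam l • z l‖ := by
  obtain ⟨z, w, c, C, hc, hC, hzY, hlt, hsucc, herr, hDB, hl1⟩ := near_block ν Y hY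
  obtain ⟨l1, hl1'⟩ : ∃ l1 : ℕ, (1 / 2 : ℝ) ^ l1 < c / 2 :=
    exists_pow_lt_of_lt_one (by linarith) (by norm_num)
  set l0 := l1 + 1 with hl0
  have hl0c : (1 : ℝ) / 2 ^ l0 ≤ c / 2 := by
    have h1 : (1 : ℝ) / 2 ^ l0 = (1 / 2) * (1 / 2) ^ l1 := by
      rw [hl0, pow_succ, one_div_pow]; ring
    have h2 : (0 : ℝ) < (1 / 2) ^ l1 := by positivity
    rw [h1]; linarith
  have hpow : ∀ l : ℕ, (1 : ℝ) / 2 ^ (l + l0) ≤ 1 / 2 ^ l0 := by
    intro l
    apply one_div_le_one_div_of_le (by positivity)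
    exact pow_le_pow_right₀ (by norm_num) (by omega)
  have hpow' : ∀ l : ℕ, (1 : ℝ) / 2 ^ (l + l0) ≤ 1 / 2 ^ l := by
    intro l
    apply one_div_le_one_div_of_le (by positivity)
    exact pow_le_pow_right₀ (by norm_num) (by omega)
  have hpow1 : ∀ l : ℕ, (1 : ℝ) / 2 ^ l ≤ 1 := by
    intro l
    rw [div_le_one (by positivity)]
    exact one_le_pow₀ (by norm_num)
  refine ⟨fun l => z (l + l0), fun l => w (l + l0), c / 2, C + 1, by linarith, by linarith,
    fun l => hzY _, ?_, ?_, ?_, ?_, ?_, ?_⟩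
  · intro l
    exact E6_norm_bound (z (l + l0)) (w (l + l0)) C (1 / 2 ^ (l + l0)) hC (hpow1 _)
      (herr (l + l0)) (hDB _)
  · intro l k hk
    have := hlt (l + l0) k hk
    omega
  · intro l l' hll a ha k hk
    exact hsucc (l + l0) (l' + l0) (by omega) a ha k hk
  · intro l x
    exact (herr (l + l0) x).trans
      (mul_le_mul_of_nonneg_right (hpow' l) (nrm_nonneg _ _))
  · intro l x hx
    have h1 := hDB (l + l0) x hx
    have h2 : C * nrm (ν + 1) x ≤ (C + 1) * nrm (ν + 1) x :=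
      mul_le_mul_of_nonneg_right (by linarith) (nrm_nonneg _ _)
    exact h1.trans h2
  · intro F hF lam
    have hinj : Function.Injective (fun l : ℕ => l + l0) := fun a b h => by
      simpa using h
    obtain ⟨x, hx0, hx1, hx2⟩ := hl1 (F.image (fun l => l + l0)) (by
      intro l hl
      obtain ⟨m, hm, rfl⟩ := Finset.mem_image.1 hl
      have h1 := hF m hm
      have h2 : (F.image (fun l => l + l0)).card = F.card :=
        Finset.card_image_of_injective F hinj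
      rw [h2]; omega) (fun k => |lam (k - l0)|) (fun l _ => abs_nonneg _)
    rw [Finset.sum_image (fun a _ b _ h => hinj h), Finset.sum_image (fun a _ b _ h => hinj h)]
      at hx2
    have hsimp : ∀ l : ℕ, l + l0 - l0 = l := fun l => Nat.add_sub_cancel l l0
    simp only [hsimp] at hx2
    set W : ℕ →₀ ℝ := ∑ l ∈ F, lam l • w (l + l0) with hW
    have hWk : ∀ k, W k = ∑ l ∈ F, lam l * w (l + l0) k := by
      intro k
      rw [hW, Finsupp.finsetSum_apply]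
      apply Finset.sum_congr rfl
      intro l _
      rw [Finsupp.smul_apply, smul_eq_mul]
    have hWabs : ∀ k, |W k| = ∑ l ∈ F, |lam l| * |w (l + l0) k| := by
      intro k
      rw [hWk]
      exact E6_disj_abs F (fun l => w (l + l0)) lam
        (fun l l' hll => hsucc (l + l0) (l' + l0) (by omega)) k
    set x' := E6_mod W x with hx'
    have hx'1 : nrm (ν + 1) x' ≤ 1 :=
      (nrm_mono_abs (ν + 1) x' x (fun k => le_of_eq (E6_mod_abs W x k))).trans hx1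
    have hkey : ∑ l ∈ F, lam l * (∑ k ∈ x'.support, w (l + l0) k * x' k) =
        ∑ l ∈ F, |lam l| * dot (fabs (w (l + l0))) x := by
      have h1 : ∑ l ∈ F, lam l * (∑ k ∈ x'.support, w (l + l0) k * x' k) =
          ∑ k ∈ x'.support, W k * x' k := by
        simp only [Finset.mul_sum]
        rw [Finset.sum_comm]
        apply Finset.sum_congr rfl
        intro k _
        rw [hWk, Finset.sum_mul]
        apply Finset.sum_congr rfl
        intro l _
        ring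
      have h2 : ∑ l ∈ F, |lam l| * dot (fabs (w (l + l0))) x =
          ∑ k ∈ x.support, |W k| * x k := by
        unfold dot
        simp only [Finset.mul_sum]
        rw [Finset.sum_comm]
        apply Finset.sum_congr rfl
        intro k _
        rw [hWabs, Finset.sum_mul]
        apply Finset.sum_congr rfl
        intro l _
        rw [E6_fabs_apply]; ring
      rw [h1, h2, hx', E6_mod_supp]
      apply Finset.sum_congr rfl
      intro k _
      exact E6_mod_mul W x k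
    have hev : ev (∑ l ∈ F, lam l • z (l + l0)) x' = ∑ l ∈ F, lam l * ev (z (l + l0)) x' := by
      rw [ev_sum' F (fun l => lam l • z (l + l0)) x']
      apply Finset.sum_congr rfl
      intro l _
      exact ev_smul' _ _ _
    have hlow : ∑ l ∈ F, lam l * (∑ k ∈ x'.support, w (l + l0) k * x' k) -
        ∑ l ∈ F, |lam l| * (c / 2) ≤ ∑ l ∈ F, lam l * ev (z (l + l0)) x' := by
      rw [← Finset.sum_sub_distrib]
      apply Finset.sum_le_sum
      intro l _
      have h1 := herr (l + l0) x'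
      have h2 : (1 / 2 ^ (l + l0)) * nrm (ν + 1) x' ≤ c / 2 := by
        calc (1 / 2 ^ (l + l0)) * nrm (ν + 1) x' ≤ (1 / 2 ^ (l + l0)) * 1 :=
              mul_le_mul_of_nonneg_left hx'1 (by positivity)
          _ = 1 / 2 ^ (l + l0) := mul_one _
          _ ≤ 1 / 2 ^ l0 := hpow l
          _ ≤ c / 2 := hl0c
      have h3 := h1.trans h2
      have h4 : |lam l * (ev (z (l + l0)) x' - ∑ k ∈ x'.support, w (l + l0) k * x' k)| ≤
          |lam l| * (c / 2) := by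
        rw [abs_mul]
        exact mul_le_mul_of_nonneg_left h3 (abs_nonneg _)
      have h5 := (abs_le.1 h4).1
      rw [mul_sub] at h5
      linarith
    have hup : ev (∑ l ∈ F, lam l • z (l + l0)) x' ≤ ‖∑ l ∈ F, lam l • z (l + l0)‖ := by
      calc ev (∑ l ∈ F, lam l • z (l + l0)) x' ≤ |ev (∑ l ∈ F, lam l • z (l + l0)) x'| :=
            le_abs_self _
        _ ≤ ‖∑ l ∈ F, lam l • z (l + l0)‖ * nrm (ν + 1) x' := abs_ev_le _ _
        _ ≤ ‖∑ l ∈ F, lam l • z (l + l0)‖ * 1 :=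
            mul_le_mul_of_nonneg_left hx'1 (norm_nonneg _)
        _ = _ := mul_one _
    have hsum : ∑ l ∈ F, |lam l| * (c / 2) = (c / 2) * ∑ l ∈ F, |lam l| := by
      rw [← Finset.sum_mul]; ring
    have hgoal : c / 2 * ∑ l ∈ F, |lam l| ≤ ‖∑ l ∈ F, lam l • z (l + l0)‖ := by
      rw [hev] at hup
      rw [hkey, hsum] at hlow
      linarith
    exact hgoal

/-! ### Part E7 -/

/-- bound of the supports of the first members -/
def E7_B (w : ℕ → ℕ →₀ ℝ) (n : ℕ) : ℕ := (Finset.range n).sup fun l => (w l).support.sup id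

theorem E7_le_B (w : ℕ → ℕ →₀ ℝ) (n l : ℕ) (hl : l < n) (k : ℕ) (hk : k ∈ (w l).support) :
    k ≤ E7_B w n := by
  unfold E7_B
  refine le_trans ?_ (Finset.le_sup (f := fun l => (w l).support.sup id) (Finset.mem_range.2 hl))
  exact Finset.le_sup (f := id) hk

/-- the starts (and sizes) of the groups -/
def E7_t (w : ℕ → ℕ →₀ ℝ) : ℕ → ℕ
  | 0 => 2
  | (i + 1) => max (2 * E7_t w i) (E7_B w (2 * E7_t w i)) + 1

theorem E7_lt_succ (w : ℕ → ℕ →₀ ℝ) (i : ℕ) : 2 * E7_t w i < E7_t w (i + 1) := by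
  rw [E7_t]
  exact Nat.lt_succ_of_le (le_max_left _ _)

theorem E7_two_le (w : ℕ → ℕ →₀ ℝ) (i : ℕ) : 2 ≤ E7_t w i := by
  induction i with
  | zero => rw [E7_t]
  | succ i ih =>
    have := E7_lt_succ w i
    omega

theorem E7_mono (w : ℕ → ℕ →₀ ℝ) : StrictMono (E7_t w) := by
  refine strictMono_nat_of_lt_succ fun i => ?_
  have := E7_lt_succ w i
  omega

theorem E7_sep (w : ℕ → ℕ →₀ ℝ) (i i' : ℕ) (hi : i < i') (l : ℕ) (hl : l < 2 * E7_t w i) (k : ℕ)
    (hk : k ∈ (w l).support) : k < E7_t w i' := by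
  have h1 : k ≤ E7_B w (2 * E7_t w i) := E7_le_B w _ l hl k hk
  have h2 : E7_B w (2 * E7_t w i) < E7_t w (i + 1) := by
    rw [E7_t]
    exact Nat.lt_succ_of_le (le_max_right _ _)
  have h3 : E7_t w (i + 1) ≤ E7_t w i' := (E7_mono w).monotone hi
  omega

theorem E7_fabs_apply (b : ℕ →₀ ℝ) (k : ℕ) : fabs b k = |b k| := by
  unfold fabs
  rw [Finsupp.mapRange_apply]

theorem E7_fabs_nonneg (b : ℕ →₀ ℝ) : 0 ≤ fabs b := by
  intro k
  rw [E7_fabs_apply]
  exact abs_nonneg _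

theorem E7_pair (n : ℕ) (b x : ℕ →₀ ℝ) (C : ℝ) (h : DB n (fabs b) C) :
    |∑ k ∈ x.support, b k * x k| ≤ C * nrm n (rs (↑b.support : Set ℕ) (fabs x)) := by
  have h1 := h (rs (↑b.support : Set ℕ) (fabs x)) (rs_nonneg _ (E7_fabs_nonneg x))
  refine le_trans ?_ h1
  unfold dot
  have hsub : (rs (↑b.support : Set ℕ) (fabs x)).support ⊆ x.support := by
    intro k hk
    have hk' := (mem_support_rs.1 hk).2
    rw [Finsupp.mem_support_iff, E7_fabs_apply] at hk'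
    rw [Finsupp.mem_support_iff]
    intro h0
    exact hk' (by rw [h0, abs_zero])
  have hz : ∀ k ∈ x.support, k ∉ (rs (↑b.support : Set ℕ) (fabs x)).support → |b k * x k| = 0 := by
    intro k hk hk'
    have hb : b k = 0 := by
      by_contra hb
      apply hk'
      rw [mem_support_rs]
      refine ⟨Finset.mem_coe.2 (Finsupp.mem_support_iff.2 hb), ?_⟩
      rw [Finsupp.mem_support_iff, E7_fabs_apply]
      exact abs_ne_zero.2 (Finsupp.mem_support_iff.1 hk)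
    rw [hb, zero_mul, abs_zero]
  calc |∑ k ∈ x.support, b k * x k| ≤ ∑ k ∈ x.support, |b k * x k| := Finset.abs_sum_le_sum_abs _ _
    _ = ∑ k ∈ (rs (↑b.support : Set ℕ) (fabs x)).support, |b k * x k| := (Finset.sum_subset hsub hz).symm
    _ ≤ ∑ k ∈ (rs (↑b.support : Set ℕ) (fabs x)).support,
          fabs b k * (rs (↑b.support : Set ℕ) (fabs x)) k := by
        refine Finset.sum_le_sum fun k hk => ?_
        have hk' := (mem_support_rs.1 hk).1
        rw [rs_apply, if_pos hk', E7_fabs_apply, E7_fabs_apply, abs_mul]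

/-- points of the supports of the group with start `t` -/
def E7_E (w : ℕ → ℕ →₀ ℝ) (t : ℕ) : Set ℕ := {k | ∃ l ∈ Finset.Ico t (2 * t), k ∈ (w l).support}

theorem E7_block (n : ℕ) (w : ℕ → ℕ →₀ ℝ)
    (hw2 : ∀ l l', l < l' → ∀ a ∈ (w l).support, ∀ k ∈ (w l').support, a < k) (t : ℕ) (X : ℕ →₀ ℝ) :
    (1 / (t : ℝ)) * ∑ l ∈ Finset.Ico t (2 * t), nrm n (rs (↑(w l).support : Set ℕ) X)
      ≤ av n t (rs (E7_E w t) X) := by
  have h := av_ge n t (rs (E7_E w t) X) (fun p => (↑(w (t + p)).support : Set ℕ)) (by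
    intro p q hpq a ha b hb
    exact hw2 (t + p) (t + q) (by omega) a ha b hb)
  refine le_trans (le_of_eq ?_) h
  rw [Finset.sum_Ico_eq_sum_range]
  have e : 2 * t - t = t := by omega
  rw [e]
  congr 1
  refine Finset.sum_congr rfl fun p hp => ?_
  rw [rs_rs]
  congr 1
  refine rs_congr fun k _ => ⟨fun hk => ⟨hk, ?_⟩, fun hk => hk.1⟩
  have hp' := Finset.mem_range.1 hp
  exact ⟨t + p, Finset.mem_Ico.2 ⟨by omega, by omega⟩, hk⟩

theorem E7_geo (t i : ℕ) (ht : 1 ≤ t) (hi : i ≤ t) :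
    (1 / (t : ℝ)) * ∑ l ∈ Finset.Ico t (2 * t), (1 : ℝ) / 2 ^ l ≤ (1 / 2) ^ i := by
  have h1 : ∑ l ∈ Finset.Ico t (2 * t), (1 : ℝ) / 2 ^ l ≤ ∑ l ∈ Finset.Ico t (2 * t), (1 / 2 : ℝ) ^ i := by
    refine Finset.sum_le_sum fun l hl => ?_
    have hl' := (Finset.mem_Ico.1 hl).1
    rw [one_div_pow]
    exact one_div_le_one_div_of_le (by positivity) (pow_le_pow_right₀ (by norm_num) (hi.trans hl'))
  rw [Finset.sum_const, Nat.card_Ico, nsmul_eq_mul] at h1
  have e : 2 * t - t = t := by omega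
  rw [e] at h1
  have ht' : (0 : ℝ) < t := by exact_mod_cast ht
  calc (1 / (t : ℝ)) * ∑ l ∈ Finset.Ico t (2 * t), (1 : ℝ) / 2 ^ l
      ≤ (1 / (t : ℝ)) * ((t : ℝ) * (1 / 2 : ℝ) ^ i) := mul_le_mul_of_nonneg_left h1 (by positivity)
    _ = (1 / 2) ^ i := by field_simp

theorem E7_family (n : ℕ) (hn : 1 ≤ n) (w : ℕ → ℕ →₀ ℝ) (hw1 : ∀ l, ∀ k ∈ (w l).support, l < k)
    (F : Finset ℕ) (hF : Schreier n F) (X : ℕ →₀ ℝ) :
    ∑ i ∈ F, av n (E7_t w i) (rs (E7_E w (E7_t w i)) X) ≤ nrm n X := by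
  have hinj : Function.Injective (E7_t w) := (E7_mono w).injective
  have h := bd_nrm n hn X (F.image (E7_t w)) (E7_E w) (fun q => q) ?_ ?_
  · unfold val at h
    rw [Finset.sum_image fun a _ b _ hab => hinj hab] at h
    exact h
  · refine ⟨?_, ?_, ?_⟩
    · intro q hq k hk
      obtain ⟨l, hl, hk⟩ := hk
      have h1 := (Finset.mem_Ico.1 hl).1
      have h2 := hw1 l k hk
      omega
    · intro q hq q' hq' hlt k hk
      obtain ⟨i, _, rfl⟩ := Finset.mem_image.1 hq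
      obtain ⟨i', _, rfl⟩ := Finset.mem_image.1 hq'
      obtain ⟨l, hl, hk⟩ := hk
      have h1 := (Finset.mem_Ico.1 hl).2
      have h2 := E7_sep w i i' ((E7_mono w).lt_iff_lt.1 hlt) l h1 k hk
      exact ⟨h2, h2⟩
    · intro q hq
      obtain ⟨i, _, rfl⟩ := Finset.mem_image.1 hq
      exact E7_two_le w i
  · have hl : ∀ i, Function.invFun (E7_t w) (E7_t w i) = i := Function.leftInverse_invFun hinj
    refine sch_spread n (Function.invFun (E7_t w)) F _ ?_ ?_ ?_ ((sch_iff n F).2 hF)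
    · intro b hb
      obtain ⟨i, hi, rfl⟩ := Finset.mem_image.1 hb
      rw [hl]
      exact hi
    · intro b hb b' hb' hlt
      obtain ⟨i, _, rfl⟩ := Finset.mem_image.1 hb
      obtain ⟨i', _, rfl⟩ := Finset.mem_image.1 hb'
      rw [hl, hl]
      exact (E7_mono w).lt_iff_lt.1 hlt
    · intro b hb
      obtain ⟨i, _, rfl⟩ := Finset.mem_image.1 hb
      rw [hl]
      exact (E7_mono w).le_apply

/-- ROW E7 (`c_0^n` spreading model, n = ν + 1). Let `z, w, c, C` from `l1_final`. Choose recursively finite sets `G 0 < G 1 < ...` of indices and `m i = card (G i)`, `m i ≥ 2`, `i ≤ min (G i)`, `m i ≤ min (G i)`, `m i >` all points of the supports of `w l`, `l ∈ G i'`, `i' < i`, and `m i > m i'`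
(`G i` = an interval of `m i` integers starting late enough). `a i := (1/m i) • ∑_{l ∈ G i} z l ∈ Y`; `c ≤ ‖a i‖ ≤ C`.
For `F ∈ Schreier (ν+1)`, `|lam i| ≤ μ`, `x : ℕ →₀ ℝ`: `|ev (∑ lam i a i) x| ≤ μ ∑_{i ∈ F} (1/m i) ∑_{l ∈ G i} (|∑_k w l k x k| + 2^{-l} nrm x)`; `|∑_k w l k x k| ≤ dot (fabs (w l)) (fabs x) ≤ C nrm (rs (w l).support (fabs x))`; and
`∑_{i ∈ F} (1/m i) ∑_{l ∈ G i} nrm (rs (w l).support (fabs x)) ≤ ∑_{i ∈ F} av (m i) (rs (E i) (fabs x)) ≤ nrm x`, `E i = ⋃_{l ∈ G i} (w l).support` (`av_ge` with the successive sets `(w l).support`, `card (G i) = m i`), by `bd_nrm` for the family with markers `q = i ∈ F` itself: `i ≤ min (G i) <` points of `E i`,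
sets `E i`, sizes `m i`; `Fam.sep` needs `k < i'` for `k ∈ E i`, `i < i'`: this fails with markers `i`; so take as markers `q_i :=` the least element of `G i`... (points of `E i` are `> q_i`, but `k < q_{i'}` must hold: choose `G i'` beyond all points of `E i`, `i < i'`). `{q_i : i ∈ F}` is a spread of `F` as `q_i ≥ i`
(`sch_iff`, `sch_spread`). The errors: `∑_i (1/m i) ∑_{l ∈ G i} 2^{-l} ≤ ∑_l 2^{-l} ≤ 2`. So `‖∑ lam i • a i‖ ≤ (C + 2) μ`. -/
theorem c0_final (ν : ℕ) (Y : Submodule ℝ (StrongDual ℝ (X01 (ν + 1))))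
    (hY : ¬ FiniteDimensional ℝ Y) :
    ∃ (a : ℕ → StrongDual ℝ (X01 (ν + 1))), (∀ i, a i ∈ Y) ∧ SemiNormalized a ∧
      GenC0 (ν + 1) a := by
  obtain ⟨z, w, c, C, hc, hC, hz, hzn, hw1, hw2, herr, hDB, hl1⟩ := l1_final ν Y hY
  have ht2 := E7_two_le w
  have htp : ∀ i, (0 : ℝ) < (E7_t w i : ℝ) := fun i => by
    have := ht2 i
    exact_mod_cast (by omega : 0 < E7_t w i)
  have hcard : ∀ i, (Finset.Ico (E7_t w i) (2 * E7_t w i)).card = E7_t w i := fun i => by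
    rw [Nat.card_Ico]
    omega
  refine ⟨fun i => (1 / (E7_t w i : ℝ)) • ∑ l ∈ Finset.Ico (E7_t w i) (2 * E7_t w i), z l, ?_, ?_, ?_⟩
  · intro i
    exact Y.smul_mem _ (Y.sum_mem fun l _ => hz l)
  · refine ⟨c, C, hc, fun i => ⟨?_, ?_⟩⟩
    · have h := hl1 (Finset.Ico (E7_t w i) (2 * E7_t w i)) (by
        intro l hl
        rw [hcard]
        have := (Finset.mem_Ico.1 hl).1
        omega) fun _ => 1 / (E7_t w i : ℝ)
      rw [Finset.sum_const, hcard, nsmul_eq_mul, abs_of_pos (by have := htp i; positivity),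
        mul_one_div_cancel (htp i).ne', mul_one, ← Finset.smul_sum] at h
      exact h
    · show ‖(1 / (E7_t w i : ℝ)) • ∑ l ∈ Finset.Ico (E7_t w i) (2 * E7_t w i), z l‖ ≤ C
      rw [norm_smul, Real.norm_eq_abs, abs_of_pos (by have := htp i; positivity)]
      have h1 : ‖∑ l ∈ Finset.Ico (E7_t w i) (2 * E7_t w i), z l‖ ≤ (E7_t w i : ℝ) * C := by
        refine (norm_sum_le _ _).trans ?_
        refine (Finset.sum_le_sum fun l _ => hzn l).trans ?_
        rw [Finset.sum_const, hcard, nsmul_eq_mul]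
      calc (1 / (E7_t w i : ℝ)) * ‖∑ l ∈ Finset.Ico (E7_t w i) (2 * E7_t w i), z l‖
          ≤ (1 / (E7_t w i : ℝ)) * ((E7_t w i : ℝ) * C) :=
            mul_le_mul_of_nonneg_left h1 (by have := htp i; positivity)
        _ = C := by have := (htp i).ne'; field_simp
  · refine ⟨C + 2, fun F hF lam μ hlam hμ => ?_⟩
    refine norm_le_ev _ _ (by positivity) fun x => ?_
    have hN : 0 ≤ nrm (ν + 1) x := nrm_nonneg _ _
    have hX : nrm (ν + 1) (fabs x) ≤ nrm (ν + 1) x := nrm_mono_abs _ _ _ fun k => by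
      rw [E7_fabs_apply, abs_abs]
    have hone : ∀ i, |ev ((1 / (E7_t w i : ℝ)) • ∑ l ∈ Finset.Ico (E7_t w i) (2 * E7_t w i), z l) x|
        ≤ C * av (ν + 1) (E7_t w i) (rs (E7_E w (E7_t w i)) (fabs x)) + (1 / 2) ^ i * nrm (ν + 1) x := by
      intro i
      have hp : 0 < 1 / (E7_t w i : ℝ) := by have := htp i; positivity
      rw [ev_smul', ev_sum', abs_mul, abs_of_pos hp]
      have h1 : |∑ l ∈ Finset.Ico (E7_t w i) (2 * E7_t w i), ev (z l) x|
          ≤ C * ∑ l ∈ Finset.Ico (E7_t w i) (2 * E7_t w i),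
              nrm (ν + 1) (rs (↑(w l).support : Set ℕ) (fabs x))
            + (∑ l ∈ Finset.Ico (E7_t w i) (2 * E7_t w i), (1 : ℝ) / 2 ^ l) * nrm (ν + 1) x := by
        rw [Finset.mul_sum, Finset.sum_mul, ← Finset.sum_add_distrib]
        refine (Finset.abs_sum_le_sum_abs _ _).trans (Finset.sum_le_sum fun l _ => ?_)
        have e1 := herr l x
        have e2 := E7_pair (ν + 1) (w l) x C (hDB l)
        have e3 : |ev (z l) x| ≤ |∑ k ∈ x.support, w l k * x k|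
            + |ev (z l) x - ∑ k ∈ x.support, w l k * x k| := by
          have := abs_add_le (∑ k ∈ x.support, w l k * x k) (ev (z l) x - ∑ k ∈ x.support, w l k * x k)
          rwa [add_sub_cancel] at this
        linarith
      have h2 := E7_block (ν + 1) w hw2 (E7_t w i) (fabs x)
      have h3 := E7_geo (E7_t w i) i (by have := ht2 i; omega) (E7_mono w).le_apply
      have h4 := mul_le_mul_of_nonneg_left h1 hp.le
      have h5 := mul_le_mul_of_nonneg_left h2 hC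
      have h6 := mul_le_mul_of_nonneg_right h3 hN
      linarith
    have hsum : ev (∑ i ∈ F, lam i • ((1 / (E7_t w i : ℝ)) •
          ∑ l ∈ Finset.Ico (E7_t w i) (2 * E7_t w i), z l)) x
        = ∑ i ∈ F, lam i * ev ((1 / (E7_t w i : ℝ)) •
          ∑ l ∈ Finset.Ico (E7_t w i) (2 * E7_t w i), z l) x := by
      rw [ev_sum']
      exact Finset.sum_congr rfl fun i _ => by rw [ev_smul']
    rw [hsum]
    have hfam := E7_family (ν + 1) (by omega) w hw1 F hF (fabs x)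
    have hgeo : ∑ i ∈ F, (1 / 2 : ℝ) ^ i ≤ 2 :=
      sum_le_hasSum F (fun i _ => by positivity) hasSum_geometric_two
    calc |∑ i ∈ F, lam i * ev ((1 / (E7_t w i : ℝ)) •
          ∑ l ∈ Finset.Ico (E7_t w i) (2 * E7_t w i), z l) x|
        ≤ ∑ i ∈ F, |lam i * ev ((1 / (E7_t w i : ℝ)) •
          ∑ l ∈ Finset.Ico (E7_t w i) (2 * E7_t w i), z l) x| := Finset.abs_sum_le_sum_abs _ _
      _ ≤ ∑ i ∈ F, μ * (C * av (ν + 1) (E7_t w i) (rs (E7_E w (E7_t w i)) (fabs x))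
            + (1 / 2) ^ i * nrm (ν + 1) x) := by
          refine Finset.sum_le_sum fun i hi => ?_
          rw [abs_mul]
          exact mul_le_mul (hlam i hi) (hone i) (abs_nonneg _) hμ
      _ = μ * (C * ∑ i ∈ F, av (ν + 1) (E7_t w i) (rs (E7_E w (E7_t w i)) (fabs x))
            + (∑ i ∈ F, (1 / 2 : ℝ) ^ i) * nrm (ν + 1) x) := by
          rw [← Finset.mul_sum, Finset.sum_add_distrib, ← Finset.mul_sum, Finset.sum_mul]
      _ ≤ μ * (C * nrm (ν + 1) x + 2 * nrm (ν + 1) x) := by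
          refine mul_le_mul_of_nonneg_left (add_le_add ?_ ?_) hμ
          · exact mul_le_mul_of_nonneg_left (hfam.trans hX) hC
          · exact mul_le_mul_of_nonneg_right hgeo hN
      _ = (C + 2) * μ * nrm (ν + 1) x := by ring

/-! ### Part E8 -/

/-- ROW E8 (final theorem). `n = ν + 1`. `l_1`: `l1_final` (sets in `Schreier 1` satisfy `card F ≤ l ≤ l + 1`; seminormalized: `F = {l}` and `‖z l‖ ≤ C`). `c_0^k`, `1 ≤ k ≤ n`: `c0_final` and `schreier_up` (`schreier_pos`). -/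
theorem main (n : ℕ) (hn : 1 ≤ n) (Y : Submodule ℝ (StrongDual ℝ (X01 n)))
    (hY : ¬ FiniteDimensional ℝ Y) :
    (∀ k, 1 ≤ k → k ≤ n → ∃ y : ℕ → StrongDual ℝ (X01 n), (∀ i, y i ∈ Y) ∧ SemiNormalized y ∧
      GenC0 k y) ∧
    ∃ y : ℕ → StrongDual ℝ (X01 n), (∀ i, y i ∈ Y) ∧ SemiNormalized y ∧ GenL1 1 y := by
  obtain ⟨ν, rfl⟩ : ∃ ν, n = ν + 1 := ⟨n - 1, by omega⟩
  refine ⟨?_, ?_⟩
  · intro k hk hkn
    obtain ⟨a, haY, haS, C, hC⟩ := c0_final ν Y hY
    refine ⟨a, haY, haS, C, ?_⟩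
    intro F hF lam μ hlam hμ
    exact hC F (schreier_up hkn F (schreier_pos hk F hF) hF) lam μ hlam hμ
  · obtain ⟨z, w, c, C, hc, hC, hzY, hzC, -, -, -, -, hl⟩ := l1_final ν Y hY
    refine ⟨z, hzY, ⟨c, C, hc, fun i => ⟨?_, hzC i⟩⟩, ⟨c, hc, ?_⟩⟩
    · have h := hl {i} (by intro l _; simp) (fun _ => 1)
      simpa using h
    · intro F hF lam
      exact hl F (fun l hlF => (schreier_one_card F hF l hlF).trans (Nat.le_succ l)) lam

end Pool.Agent.Lib.MP_1bb70c_an
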