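import Pool.Agent.Lib.MP_1bb70c_an.Merging

set_option autoImplicit false

open Finset
open scoped Classical

noncomputable section

namespace Pool.Agent.Lib.MP_1bb70c_an

/-! ### Part L1 -/

private theorem L1_sum_if (s : Finset ℕ) (D : ℕ → Set ℕ) (k : ℕ) (c : ℝ) (hc : 0 ≤ c)
    (E : Set ℕ) (hE : ∀ p, D p ⊆ E) (hu : ∀ p ∈ s, ∀ q ∈ s, k ∈ D p → k ∈ D q → p = q) :
    ∑ p ∈ s, (if k ∈ D p then c else 0) ≤ if k ∈ E then c else 0 := by
  by_cases h : ∃ p ∈ s, k ∈ D p
  · obtain ⟨p0, hp0, hk0⟩ := h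
    rw [Finset.sum_eq_single p0]
    · rw [if_pos hk0, if_pos (hE p0 hk0)]
    · intro p hp hne
      rw [if_neg (fun hk => hne (hu p hp p0 hp0 hk hk0))]
    · intro hn
      exact absurd hp0 hn
  · push Not at h
    rw [Finset.sum_eq_zero (fun p hp => if_neg (h p hp))]
    split_ifs
    · exact hc
    · exact le_refl _

private theorem L1_succ_inj {D : ℕ → Set ℕ} (hD : SuccS D) {k p q : ℕ} (h1 : k ∈ D p)
    (h2 : k ∈ D q) : p = q := by
  rcases lt_trichotomy p q with h | h | h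
  · exact absurd (hD p q h k h1 k h2) (lt_irrefl _)
  · exact h
  · exact absurd (hD q p h k h2 k h1) (lt_irrefl _)

private theorem L1_sum_rs (y : ℕ →₀ ℝ) (F : Set ℕ) :
    ∑ k ∈ (rs F y).support, (rs F y) k = ∑ k ∈ y.support, (if k ∈ F then y k else 0) := by
  have h1 : (rs F y).support ⊆ y.support := fun k hk => (mem_support_rs.1 hk).2
  rw [Finset.sum_subset h1 (fun k _ hk => by simpa using hk)]
  exact Finset.sum_congr rfl (fun k _ => rs_apply F y k)

private theorem L1_abs (y : ℕ →₀ ℝ) (hy : 0 ≤ y) :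
    ∑ k ∈ y.support, |y k| = ∑ k ∈ y.support, y k :=
  Finset.sum_congr rfl (fun k _ => abs_of_nonneg (hy k))

private theorem L1_level (n : ℕ) (D : ℕ) (hD : 1 ≤ D) (τ : ℝ) (h0 : 0 ≤ τ) (l : ℕ) :
    ∀ y : ℕ →₀ ℝ, 0 ≤ y → (∀ k ∈ y.support, D ≤ k) → (∀ k, y k ≤ τ) →
      lev n l y ≤ τ + (1 / (D : ℝ)) * ∑ k ∈ y.support, y k := by
  have hD0 : (0 : ℝ) < D := by exact_mod_cast hD
  have hS : ∀ y : ℕ →₀ ℝ, 0 ≤ y → 0 ≤ (1 / (D : ℝ)) * ∑ k ∈ y.support, y k := fun y hy =>
    mul_nonneg (by positivity) (Finset.sum_nonneg (fun k _ => hy k))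
  induction l with
  | zero =>
    intro y hy hs hτ
    have h1 : lev n 0 y ≤ τ := supn_le y τ (fun k => by rw [abs_of_nonneg (hy k)]; exact hτ k)
    linarith [hS y hy]
  | succ l ih =>
    intro y hy hs hτ
    apply lev_succ_le
    · intro k
      rw [abs_of_nonneg (hy k)]
      linarith [hS y hy, hτ k]
    · intro Q E j hF _ D' hD' hsub
      obtain ⟨s, hs_def⟩ : ∃ s : ℕ → ℝ, ∀ q, s q = ∑ k ∈ y.support, (if k ∈ E q then y k else 0) :=
        ⟨_, fun _ => rfl⟩
      have hs0 : ∀ q, 0 ≤ s q := by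
        intro q
        rw [hs_def]
        apply Finset.sum_nonneg
        intro k _
        split_ifs
        · exact hy k
        · exact le_refl _
      -- the pieces of E q
      have hpieces : ∀ q, ∑ p ∈ range (j q), ∑ k ∈ y.support, (if k ∈ D' q p then y k else 0)
          ≤ s q := by
        intro q
        rw [Finset.sum_comm, hs_def]
        apply Finset.sum_le_sum
        intro k _
        exact L1_sum_if _ (D' q) k (y k) (hy k) (E q) (hsub q)
          (fun p _ p' _ h1 h2 => L1_succ_inj (hD' q) h1 h2)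
      -- total
      have htot : ∑ q ∈ Q, s q ≤ ∑ k ∈ y.support, y k := by
        have e1 : ∑ q ∈ Q, s q = ∑ q ∈ Q, ∑ k ∈ y.support, (if k ∈ E q then y k else 0) :=
          Finset.sum_congr rfl (fun q _ => hs_def q)
        rw [e1, Finset.sum_comm]
        apply Finset.sum_le_sum
        intro k _
        have h1 := L1_sum_if Q E k (y k) (hy k) Set.univ (fun p => Set.subset_univ _) (by
          intro p hp q hq h1 h2
          rcases lt_trichotomy p q with h | h | h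
          · have h3 := (hF.sep p hp q hq h k h1).1
            have h4 := hF.lb q hq k h2
            omega
          · exact h
          · have h3 := (hF.sep q hq p hp h k h2).1
            have h4 := hF.lb p hp k h1
            omega)
        rwa [if_pos (Set.mem_univ k)] at h1
      have hgen : ∀ q ∈ Q, (1 / (j q : ℝ)) * ∑ p ∈ range (j q), lev n l (rs (D' q p) y)
          ≤ (1 / (j q : ℝ)) * s q := by
        intro q _
        apply mul_le_mul_of_nonneg_left _ (by positivity)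
        refine le_trans (Finset.sum_le_sum (fun p _ => ?_)) (hpieces q)
        rw [← L1_sum_rs, ← L1_abs _ (rs_nonneg _ hy)]
        exact (nice_lev n l).l1 _
      have hfirst : ∀ q ∈ Q, (1 / (j q : ℝ)) * ∑ p ∈ range (j q), lev n l (rs (D' q p) y)
          ≤ τ + (1 / (D : ℝ)) * s q := by
        intro q hq
        have hj : 2 ≤ j q := hF.sz q hq
        have hj0 : (0 : ℝ) < j q := by exact_mod_cast (by omega : 0 < j q)
        have hj1 : (1 : ℝ) ≤ j q := by exact_mod_cast (by omega : 1 ≤ j q)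
        have h1 : ∑ p ∈ range (j q), lev n l (rs (D' q p) y) ≤
            ∑ p ∈ range (j q), (τ + (1 / (D : ℝ)) *
              ∑ k ∈ y.support, (if k ∈ D' q p then y k else 0)) := by
          apply Finset.sum_le_sum
          intro p _
          rw [← L1_sum_rs]
          apply ih _ (rs_nonneg _ hy)
          · intro k hk
            exact hs k (mem_support_rs.1 hk).2
          · intro k
            exact le_trans (rs_le _ hy k) (hτ k)
        rw [Finset.sum_add_distrib, Finset.sum_const, Finset.card_range, nsmul_eq_mul,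
          ← Finset.mul_sum] at h1
        have h2 : (1 / (D : ℝ)) * ∑ p ∈ range (j q), ∑ k ∈ y.support,
            (if k ∈ D' q p then y k else 0) ≤ (1 / (D : ℝ)) * s q :=
          mul_le_mul_of_nonneg_left (hpieces q) (by positivity)
        have h3 : ∑ p ∈ range (j q), lev n l (rs (D' q p) y) ≤ j q * (τ + (1 / (D : ℝ)) * s q) := by
          have h4 : 0 ≤ (1 / (D : ℝ)) * s q := mul_nonneg (by positivity) (hs0 q)
          have h5 : (1 / (D : ℝ)) * s q ≤ j q * ((1 / (D : ℝ)) * s q) := by nlinarith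
          calc ∑ p ∈ range (j q), lev n l (rs (D' q p) y) ≤ _ := h1
            _ ≤ j q * τ + (1 / (D : ℝ)) * s q := by linarith
            _ ≤ j q * τ + j q * ((1 / (D : ℝ)) * s q) := by linarith
            _ = _ := by ring
        rw [one_div, inv_mul_le_iff₀ hj0]
        exact h3
      -- combine
      obtain ⟨Q1, hQ1⟩ : ∃ Q1 : Finset ℕ, Q1 = Q.filter (fun q => ∃ k ∈ E q, k ∈ y.support) :=
        ⟨_, rfl⟩
      have hmem : ∀ q, q ∈ Q1 ↔ q ∈ Q ∧ ∃ k ∈ E q, k ∈ y.support := by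
        intro q; rw [hQ1, Finset.mem_filter]
      have hoff : ∀ q ∈ Q, q ∉ Q1 → (1 / (j q : ℝ)) * ∑ p ∈ range (j q),
          lev n l (rs (D' q p) y) ≤ (1 / (D : ℝ)) * s q := by
        intro q hq hn
        have h1 : s q = 0 := by
          rw [hs_def]
          apply Finset.sum_eq_zero
          intro k hk
          apply if_neg
          intro hkE
          exact hn ((hmem q).2 ⟨hq, k, hkE, hk⟩)
        have h2 := hgen q hq
        rw [h1, mul_zero] at h2
        rw [h1, mul_zero]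
        exact h2
      rcases Q1.eq_empty_or_nonempty with hem | hne
      · calc ∑ q ∈ Q, (1 / (j q : ℝ)) * ∑ p ∈ range (j q), lev n l (rs (D' q p) y)
            ≤ ∑ q ∈ Q, (1 / (D : ℝ)) * s q :=
              Finset.sum_le_sum (fun q hq => hoff q hq (by rw [hem]; exact Finset.notMem_empty q))
          _ = (1 / (D : ℝ)) * ∑ q ∈ Q, s q := by rw [Finset.mul_sum]
          _ ≤ (1 / (D : ℝ)) * ∑ k ∈ y.support, y k :=
              mul_le_mul_of_nonneg_left htot (by positivity)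
          _ ≤ _ := by linarith
      · obtain ⟨q1, hq1, hmin⟩ : ∃ q1 ∈ Q1, ∀ q ∈ Q1, q1 ≤ q :=
          ⟨Q1.min' hne, Q1.min'_mem hne, fun q hq => Q1.min'_le q hq⟩
        have hq1Q : q1 ∈ Q := ((hmem q1).1 hq1).1
        obtain ⟨k1, hk1E, hk1s⟩ := ((hmem q1).1 hq1).2
        have hterm : ∀ q ∈ Q, (1 / (j q : ℝ)) * ∑ p ∈ range (j q), lev n l (rs (D' q p) y)
            ≤ (if q = q1 then τ else 0) + (1 / (D : ℝ)) * s q := by
          intro q hq
          by_cases h : q = q1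
          · rw [if_pos h]
            exact hfirst q hq
          · rw [if_neg h, zero_add]
            by_cases hqQ : q ∈ Q1
            · have hlt : q1 < q := lt_of_le_of_ne (hmin q hqQ) (Ne.symm h)
              have h1 := (hF.sep q1 hq1Q q hq hlt k1 hk1E).2
              have h2 := hs k1 hk1s
              have h3 : (D : ℝ) ≤ j q := by exact_mod_cast (by omega : D ≤ j q)
              refine (hgen q hq).trans ?_
              exact mul_le_mul_of_nonneg_right (one_div_le_one_div_of_le hD0 h3) (hs0 q)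
            · exact hoff q hq hqQ
        calc ∑ q ∈ Q, (1 / (j q : ℝ)) * ∑ p ∈ range (j q), lev n l (rs (D' q p) y)
            ≤ ∑ q ∈ Q, ((if q = q1 then τ else 0) + (1 / (D : ℝ)) * s q) :=
              Finset.sum_le_sum hterm
          _ = τ + (1 / (D : ℝ)) * ∑ q ∈ Q, s q := by
              rw [Finset.sum_add_distrib, Finset.sum_ite_eq', if_pos hq1Q, Finset.mul_sum]
          _ ≤ τ + (1 / (D : ℝ)) * ∑ k ∈ y.support, y k := by
              have := mul_le_mul_of_nonneg_left htot (show 0 ≤ 1 / (D : ℝ) by positivity)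
              linarith

/-- ROW L1 (Lemma B). Support in `[D, 2D)`. Induction on the level: `lev n l y ≤ τ + (1/D) ∑ y k` for all `y ≥ 0`, `y k ≤ τ`, support in `[D,2D)`.
Step by `lev_succ_le`. Given `Q, E, j, D'` let `q1` be the least `q ∈ Q` with `E q ∩ y.support ≠ ∅`. For `q > q1` in `Q`: `j q > k ≥ D` (`k ∈ E q1 ∩ y.support`), and
`lev n l z ≤ ∑ |z k|`, so `(1/j q) ∑_p lev n l (rs (D' q p) y) ≤ (1/D) ∑_{k ∈ E q ∩ supp} y k`. For `q1`: by the induction hypothesis
`(1/j) ∑_{p<j} lev n l (rs (D' q1 p) y) ≤ (1/j) ∑_{p<j} (τ + (1/D) ∑_{D' q1 p} y) ≤ τ + (1/D) ∑_{E q1} y` (`j ≥ 2`). The `E q` are disjoint. -/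
theorem lemmaB (n : ℕ) (x : ℕ →₀ ℝ) (hx : 0 ≤ x) (D : ℕ) (hD : 1 ≤ D)
    (hsupp : ∀ k ∈ x.support, D ≤ k ∧ k < 2 * D) (τ : ℝ) (h0 : 0 ≤ τ) (hτ : ∀ k, x k ≤ τ) :
    nrm n x ≤ τ + (1 / (D : ℝ)) * ∑ k ∈ x.support, x k :=
  nrm_le n x _ (fun l => L1_level n D hD τ h0 l x hx (fun k hk => (hsupp k hk).1) hτ)

/-- with `av_eq_l1` (`card supp ≤ D`). -/
theorem lemmaB' (n : ℕ) (x : ℕ →₀ ℝ) (hx : 0 ≤ x) (D : ℕ) (hD : 1 ≤ D)
    (hsupp : ∀ k ∈ x.support, D ≤ k ∧ k < 2 * D) (τ : ℝ) (h0 : 0 ≤ τ) (hτ : ∀ k, x k ≤ τ) :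
    nrm n x ≤ τ + av n D x := by
  have h1 := lemmaB n x hx D hD hsupp τ h0 hτ
  have hcard : x.support.card ≤ D := by
    have h2 : x.support ⊆ Finset.Ico D (2 * D) := fun k hk => Finset.mem_Ico.2 (hsupp k hk)
    have h3 := Finset.card_le_card h2
    rw [Nat.card_Ico] at h3
    omega
  have h4 := av_eq_l1 n D x hcard
  rw [L1_abs x hx] at h4
  linarith

/-! ### Part L4 -/

/-- The claim of Lemma P for the level `l`, reference `R`, `k` steps, interval `[a,b]`: with a tail family behind `b`. -/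
def PClaim (ν : ℕ) (x : ℕ →₀ ℝ) (τ A : ℝ) (l R k a b : ℕ) : Prop :=
  ∀ (Q : Finset ℕ) (E : ℕ → Set ℕ) (j : ℕ → ℕ), Fam Q E j (b + 1) → (∀ q ∈ Q, b < q) →
    SchU ν (2 * R * k) Q →
    lev (ν + 1) l (rs (Set.Icc a b) x) + val (ν + 1) Q E j x ≤
      τ + 4 * A + 4 * A * ((2 : ℝ) ^ k / 2 ^ R + 1 / 2 ^ R)

private theorem L4_lev_zero (n l : ℕ) : lev n l 0 = 0 := by
  have := (nice_lev n l).hom 0 0
  simpa using this

private theorem L4_rs_zero_of {E : Set ℕ} {y : ℕ →₀ ℝ} (h : ∀ k ∈ E, k ∉ y.support) :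
    rs E y = 0 := by
  ext k
  rw [rs_apply]
  by_cases hk : k ∈ E
  · rw [if_pos hk]
    have := h k hk
    simpa using this
  · rw [if_neg hk]; rfl

private theorem L4_avg (J : ℕ) (hJ : 2 ≤ J) (v : ℕ → ℝ) (P : ℕ → Prop) (c e : ℝ) (he : 0 ≤ e)
    (h1 : ∀ p < J, ¬ P p → v p ≤ c) (h2 : ∀ p < J, P p → v p ≤ c + e)
    (hP : ∀ p p', P p → P p' → p = p') :
    (1 / (J : ℝ)) * ∑ p ∈ range J, v p ≤ c + e / 2 := by
  have hJ2 : (2 : ℝ) ≤ (J : ℝ) := by exact_mod_cast hJ
  have hJ0 : (0 : ℝ) < (J : ℝ) := by linarith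
  have h : ∑ p ∈ range J, v p ≤ (J : ℝ) * c + e := by
    calc ∑ p ∈ range J, v p ≤ ∑ p ∈ range J, (c + if P p then e else 0) := by
          apply Finset.sum_le_sum
          intro p hp
          rw [mem_range] at hp
          split_ifs with h
          · exact h2 p hp h
          · have := h1 p hp h
            linarith
      _ = (J : ℝ) * c + ∑ p ∈ range J, (if P p then e else 0) := by
          rw [Finset.sum_add_distrib]; simp
      _ ≤ (J : ℝ) * c + e := by
          have hc : ((range J).filter P).card ≤ 1 :=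
            Finset.card_le_one.2 (fun a ha b hb => hP a b (mem_filter.1 ha).2 (mem_filter.1 hb).2)
          have hc' : (((range J).filter P).card : ℝ) ≤ 1 := by exact_mod_cast hc
          rw [← Finset.sum_filter, Finset.sum_const, nsmul_eq_mul]
          nlinarith
  have h3 : (1 / (J : ℝ)) * ∑ p ∈ range J, v p ≤ (1 / (J : ℝ)) * ((J : ℝ) * c + e) :=
    mul_le_mul_of_nonneg_left h (by positivity)
  have h4 : (1 / (J : ℝ)) * ((J : ℝ) * c + e) = c + e / J := by
    field_simp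
  have h5 : e / (J : ℝ) ≤ e / 2 := div_le_div_of_nonneg_left he (by norm_num) hJ2
  linarith

private theorem L4_pow (R k : ℕ) (hR : 32 ≤ R) (hk : k < R) :
    (2 : ℝ) ^ ((k + 2) / 2) / 2 ^ (2 * R) + 1 / 2 ^ (2 * R) ≤ (1 / 2) / 2 ^ R := by
  have h1 : 2 ^ ((k + 2) / 2) ≤ 2 ^ (R - 2) := Nat.pow_le_pow_right (by norm_num) (by omega)
  have h2 : 1 ≤ 2 ^ (R - 2) := Nat.one_le_two_pow
  have h3 : 2 ^ (R - 2) * 4 = 2 ^ R := by
    have : R = (R - 2) + 2 := by omega
    conv_rhs => rw [this, pow_add]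
    norm_num
  have h4 : 2 ^ ((k + 2) / 2) * 2 + 2 ≤ 2 ^ R := by omega
  have h5 : ((2 : ℝ) ^ ((k + 2) / 2) + 1) * 2 ≤ 2 ^ R := by
    have : ((2 ^ ((k + 2) / 2) * 2 + 2 : ℕ) : ℝ) ≤ ((2 ^ R : ℕ) : ℝ) := by exact_mod_cast h4
    push_cast at this
    linarith
  have hp : (0 : ℝ) < 2 ^ R := by positivity
  rw [← add_div, two_mul, pow_add, div_div, div_le_div_iff₀ (by positivity) (by positivity)]
  nlinarith

/-- ROW L4 (Lemma P, main step). One family `Qh, Eh, jh, D` from the definition of `lev (l+1)` on `y = rs (Icc a b) x` whose first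
point is `< 2R`, together with a tail family `Q, E, j` behind `b`; `k < R`.
Notation: points = elements of `y.support` (they lie in `[a,b]`, `a ≥ R`). Let `q1 ∈ Qh` be the least one with `Eh q1 ∩ y.support ≠ ∅` (exists by `hfirst`; the `q < q1`
contribute `0`; the first point of `Eh q1` is `≤ k1 < 2R`); `J = jh q1 ≥ 2`. `Qh ∈ Sch (ν+1)` gives `d ≤ q1 ≤` first point `< 2R`. Put `Qt := {q ∈ Qh : q1 < q ≤ b}` (for `q > b` the set `Eh q ∩ Icc a b` is
empty) and `T := Qt ∪ Q` with `E' q = Eh q ∩ Icc a b`, `j' q = jh q` if `q ≤ b`, and `E' q = E q`, `j' q = j q` if `q > b`. `T` is in `SchU ν (d + 2Rk) ⊆ SchU ν (2R(k+1))`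
(`schU_union`, `schU_subset`, `schU_mono`); every marker `q` and every size `j' q` of `T` is bigger than all points of `Eh q1`. `H := val (ν+1) T E' j' x`.
(i) For `q > q1` in `Qh`: `(1/jh q) ∑_p lev l (rs (D q p) y) ≤ av (jh q) (rs (Eh q) y)` (`lev_le_nrm`, `av_ge` for `rs (Eh q) y`, `D q p ⊆ Eh q`), and `rs (Eh q) y = rs (Eh q ∩ Icc a b) x`. So
    the left hand side is `≤ (1/J) ∑_{p<J} lev l (rs (D q1 p) y) + H = (1/J) ∑_{p<J} (lev l (rs (D q1 p) y) + H)`.
(ii) `H ≤ 3A`: let `θ` = the largest point of `Eh q1`, `θ ≥ R ≥ 32`; `T` is a family with sizes `≥ θ+1` and sets beyond `θ`; apply `lemmaF` to `rs (Ioi θ) x` (`bd_rs`, `bd_mono_size`), `c = 2R(k+1) ≤ 2R^2 ≤ 2θ^2`.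
(iii) `p` with `D q1 p ∩ y.support = ∅`: `lev l 0 = 0`, so `0 + H ≤ 3A`.
For the other `p` let `a_p ≤ b_p` be the least and the largest point of `D q1 p`.
(iv) `b_p < 2R`: `lev l (rs (D q1 p) y) ≤ nrm (rs (D q1 p) y) ≤ τ + av R (rs (D q1 p) y) ≤ τ + A` (`lemmaB'` with `D = R`; `av R x ≤ A` by `bd_mono_size`, `av_le_of_bd_sch`). With `H ≤ 3A`: `≤ τ + 4A`.
(v) `a_p < 2R ≤ b_p`: at most one such `p` (the `D q1 p` are successive): by `IH` for `(R, k+1, a_p, b_p)`, the tail family `T`, and `rs (D q1 p) y ≤ rs (Icc a_p b_p) x` (levels are monotone, `nice_lev`):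
    `lev l (rs (D q1 p) y) + H ≤ τ+4A+4A(2^(k+1)/2^R+1/2^R)`.
(vi) `a_p ≥ 2R`: by `IH` for `(2R, k', a_p, b_p)` with `k' = (k+2)/2` (natural division; `2R(k+1) ≤ 2(2R)k'`, `schU_mono`; `k' ≤ 2R`): `≤ τ+4A+4A(2^k'/2^(2R) + 1/2^(2R)) ≤ τ+4A+4A(1/2)/2^R` since
    `2^k' + 1 ≤ 2^(R-1)` (`k' ≤ (R+1)/2`, `R ≥ 32`).
Total: `(1/J) ∑_{p<J} (lev l (rs (D q1 p) y) + H) ≤ τ + 4A + 4A * ( (1/J)(2^(k+1)/2^R + 1/2^R) + (1/2)/2^R )` and `1/J ≤ 1/2` gives the claim. (`0 ≤ A` by `bd_nonneg`.) -/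
theorem lemmaP_main (ν : ℕ) (x : ℕ →₀ ℝ) (hx : 0 ≤ x) (τ A : ℝ) (h0 : 0 ≤ τ)
    (hτ : ∀ k, x k ≤ τ) (R0 : ℕ) (hR0 : 32 ≤ R0) (hsupp : ∀ k ∈ x.support, R0 ≤ k)
    (hA : Bd (ν + 1) (Sch (ν + 1)) R0 x A) (l : ℕ)
    (IH : ∀ R k a b, R0 ≤ R → k ≤ R → R ≤ a → a ≤ b → PClaim ν x τ A l R k a b)
    (R k a b : ℕ) (hR : R0 ≤ R) (hk : k < R) (ha : R ≤ a) (hab : a ≤ b)
    (Qh : Finset ℕ) (Eh : ℕ → Set ℕ) (jh : ℕ → ℕ) (D : ℕ → ℕ → Set ℕ) (hFh : Fam Qh Eh jh 2)
    (hQh : Sch (ν + 1) Qh) (hD1 : ∀ q, SuccS (D q)) (hD2 : ∀ q p, D q p ⊆ Eh q)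
    (hfirst : ∃ q ∈ Qh, ∃ k1 ∈ Eh q, k1 ∈ (rs (Set.Icc a b) x).support ∧ k1 < 2 * R)
    (Q : Finset ℕ) (E : ℕ → Set ℕ) (j : ℕ → ℕ) (hF : Fam Q E j (b + 1)) (hQb : ∀ q ∈ Q, b < q)
    (hQ : SchU ν (2 * R * k) Q) :
    ∑ q ∈ Qh, (1 / (jh q : ℝ)) * ∑ p ∈ range (jh q),
        lev (ν + 1) l (rs (D q p) (rs (Set.Icc a b) x)) + val (ν + 1) Q E j x ≤
      τ + 4 * A + 4 * A * ((2 : ℝ) ^ k / 2 ^ R + 1 / 2 ^ R) := by
  have hA0 : 0 ≤ A := bd_nonneg (sch_empty (ν + 1)) hA
  obtain ⟨y, hy⟩ : ∃ y, y = rs (Set.Icc a b) x := ⟨_, rfl⟩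
  rw [← hy] at hfirst ⊢
  have hyn : 0 ≤ y := by rw [hy]; exact rs_nonneg _ hx
  have hysupp : ∀ k ∈ y.support, a ≤ k ∧ k ≤ b := by
    intro k hk
    rw [hy] at hk
    exact (mem_support_rs.1 hk).1
  -- the marker `q1`
  have hex : ∃ q, q ∈ Qh ∧ ∃ k1 ∈ Eh q, k1 ∈ y.support := by
    obtain ⟨q, hq, k1, h1, h2, _⟩ := hfirst
    exact ⟨q, hq, k1, h1, h2⟩
  obtain ⟨q1, hq1Q, hq1E, hq1min⟩ : ∃ q1, q1 ∈ Qh ∧ (∃ k1 ∈ Eh q1, k1 ∈ y.support) ∧
      ∀ q, q < q1 → q ∈ Qh → ∀ k ∈ Eh q, k ∉ y.support := by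
    refine ⟨Nat.find hex, (Nat.find_spec hex).1, (Nat.find_spec hex).2, ?_⟩
    intro q hq hqQ k hkE hky
    exact Nat.find_min hex hq ⟨hqQ, k, hkE, hky⟩
  obtain ⟨k0, hk0E, hk0y, hk0R⟩ : ∃ k0 ∈ Eh q1, k0 ∈ y.support ∧ k0 < 2 * R := by
    obtain ⟨q, hq, k1, h1, h2, h3⟩ := hfirst
    rcases lt_trichotomy q q1 with h | h | h
    · exact absurd h2 (hq1min q h hq k1 h1)
    · subst h; exact ⟨k1, h1, h2, h3⟩
    · obtain ⟨k', hk', hk'y⟩ := hq1E
      refine ⟨k', hk', hk'y, ?_⟩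
      have e1 := (hFh.sep q1 hq1Q q hq h k' hk').1
      have e2 := hFh.lb q hq k1 h1
      omega
  have hq1R : q1 < 2 * R := lt_of_le_of_lt (hFh.lb q1 hq1Q k0 hk0E) hk0R
  obtain ⟨d, hd1, hd2⟩ := hQh
  have hdR : d ≤ 2 * R := le_of_lt (lt_of_le_of_lt (hd1 q1 hq1Q) hq1R)
  -- the largest point of `Eh q1`
  obtain ⟨θ, hθE, hθy, hθmax⟩ : ∃ θ ∈ Eh q1, θ ∈ y.support ∧
      ∀ k ∈ Eh q1, k ∈ y.support → k ≤ θ := by
    have hP1 : (y.support.filter (fun k => k ∈ Eh q1)).Nonempty :=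
      ⟨k0, mem_filter.2 ⟨hk0y, hk0E⟩⟩
    have hm := Finset.max'_mem _ hP1
    rw [mem_filter] at hm
    exact ⟨_, hm.2, hm.1, fun k h1 h2 => Finset.le_max' _ k (mem_filter.2 ⟨h2, h1⟩)⟩
  have hθa : a ≤ θ := (hysupp θ hθy).1
  have hθb : θ ≤ b := (hysupp θ hθy).2
  -- the new tail family
  obtain ⟨Qt, hQt⟩ : ∃ Qt, Qt = Qh.filter (fun q => q1 < q ∧ q ≤ b) := ⟨_, rfl⟩
  obtain ⟨T, hT⟩ : ∃ T, T = Qt ∪ Q := ⟨_, rfl⟩
  obtain ⟨E', hE'⟩ : ∃ E' : ℕ → Set ℕ, E' = fun q => if q ≤ b then Eh q ∩ Set.Icc a b else E q :=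
    ⟨_, rfl⟩
  obtain ⟨j', hj'⟩ : ∃ j' : ℕ → ℕ, j' = fun q => if q ≤ b then jh q else j q := ⟨_, rfl⟩
  have hmemT : ∀ q ∈ T, (q ≤ b ∧ q1 < q ∧ q ∈ Qh ∧ E' q = Eh q ∩ Set.Icc a b ∧ j' q = jh q) ∨
      (b < q ∧ q ∈ Q ∧ E' q = E q ∧ j' q = j q) := by
    intro q hq
    rw [hT, mem_union, hQt, mem_filter] at hq
    rcases hq with ⟨h1, h2, h3⟩ | h1
    · left
      refine ⟨h3, h2, h1, ?_, ?_⟩
      · rw [hE']; simp [h3]
      · rw [hj']; simp [h3]
    · right
      have h3 := hQb q h1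
      refine ⟨h3, h1, ?_, ?_⟩
      · rw [hE']; simp [not_le.2 h3]
      · rw [hj']; simp [not_le.2 h3]
  have hTθ : ∀ q ∈ T, θ < q := by
    intro q hq
    rcases hmemT q hq with ⟨h1, h2, h3, h4, h5⟩ | ⟨h1, h2, h3, h4⟩
    · exact (hFh.sep q1 hq1Q q h3 h2 θ hθE).1
    · omega
  have hFT : Fam T E' j' (θ + 1) := by
    refine ⟨?_, ?_, ?_⟩
    · intro q hq k hkE
      rcases hmemT q hq with ⟨h1, h2, h3, h4, h5⟩ | ⟨h1, h2, h3, h4⟩
      · rw [h4] at hkE
        exact hFh.lb q h3 k hkE.1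
      · rw [h3] at hkE
        exact hF.lb q h2 k hkE
    · intro q hq q' hq' hlt k hkE
      rcases hmemT q hq with ⟨h1, h2, h3, h4, h5⟩ | ⟨h1, h2, h3, h4⟩
      · rw [h4] at hkE
        rcases hmemT q' hq' with ⟨g1, g2, g3, g4, g5⟩ | ⟨g1, g2, g3, g4⟩
        · rw [g5]
          exact hFh.sep q h3 q' g3 hlt k hkE.1
        · rw [g4]
          have e1 : k ≤ b := hkE.2.2
          have e2 := hF.sz q' g2
          constructor <;> omega
      · rw [h3] at hkE
        rcases hmemT q' hq' with ⟨g1, g2, g3, g4, g5⟩ | ⟨g1, g2, g3, g4⟩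
        · omega
        · rw [g4]
          exact hF.sep q h2 q' g2 hlt k hkE
    · intro q hq
      rcases hmemT q hq with ⟨h1, h2, h3, h4, h5⟩ | ⟨h1, h2, h3, h4⟩
      · rw [h5]
        exact (hFh.sep q1 hq1Q q h3 h2 θ hθE).2
      · rw [h4]
        have := hF.sz q h2
        omega
  have hTS : SchU ν (2 * R * (k + 1)) T := by
    have e1 : SchU ν d Qt := by
      rw [hQt]
      exact schU_subset ν d (Finset.filter_subset _ _) hd2
    have e2 : SchU ν (d + 2 * R * k) T := by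
      rw [hT]
      refine schU_union ν d (2 * R * k) Qt Q ?_ e1 hQ
      intro q hq q' hq'
      rw [hQt, mem_filter] at hq
      have := hQb q' hq'
      omega
    refine schU_mono ν ?_ e2
    have : 2 * R * (k + 1) = 2 * R * k + 2 * R := by ring
    omega
  -- the value of the tail
  obtain ⟨H, hH⟩ : ∃ H, H = val (ν + 1) T E' j' x := ⟨_, rfl⟩
  have hHsum : H = ∑ q ∈ Qt, av (ν + 1) (jh q) (rs (Eh q ∩ Set.Icc a b) x) +
      val (ν + 1) Q E j x := by
    rw [hH]
    unfold val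
    rw [hT, Finset.sum_union]
    · congr 1
      · apply Finset.sum_congr rfl
        intro q hq
        rw [hQt, mem_filter] at hq
        rw [hE', hj']
        simp [hq.2.2]
      · apply Finset.sum_congr rfl
        intro q hq
        have := hQb q hq
        rw [hE', hj']
        simp [not_le.2 this]
    · rw [Finset.disjoint_left]
      intro q hq hq'
      rw [hQt, mem_filter] at hq
      have := hQb q hq'
      omega
  have hH3 : H ≤ 3 * A := by
    have e1 : H = val (ν + 1) T E' j' (rs (Set.Ioi θ) x) := by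
      rw [hH]
      unfold val
      apply Finset.sum_congr rfl
      intro q hq
      rw [rs_rs]
      congr 1
      apply rs_congr
      intro k hk
      constructor
      · intro hkE
        refine ⟨hkE, ?_⟩
        have := hFT.lb q hq k hkE
        have := hTθ q hq
        simp only [Set.mem_Ioi]
        omega
      · intro h; exact h.1
    rw [e1]
    have hc : 2 * R * (k + 1) ≤ 2 * θ ^ 2 := by
      have e3 : R * (k + 1) ≤ θ * θ := Nat.mul_le_mul (by omega) (by omega)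
      calc 2 * R * (k + 1) = 2 * (R * (k + 1)) := by ring
        _ ≤ 2 * (θ * θ) := by omega
        _ = 2 * θ ^ 2 := by ring
    refine lemmaF ν (rs (Set.Ioi θ) x) (rs_nonneg _ hx) θ (2 * R * (k + 1)) (by omega) hc ?_ A
      (bd_rs hx _ (bd_mono_size (by omega) hA)) T E' j' hFT hTS
    intro k hk
    exact (mem_support_rs.1 hk).1
  -- reduction to `q1`
  have hlev0 : ∀ (q p : ℕ), (∀ k ∈ D q p, k ∉ y.support) → lev (ν + 1) l (rs (D q p) y) = 0 := by
    intro q p h
    rw [L4_rs_zero_of h, L4_lev_zero]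
  have hstep1 : ∑ q ∈ Qh, (1 / (jh q : ℝ)) * ∑ p ∈ range (jh q),
        lev (ν + 1) l (rs (D q p) y) + val (ν + 1) Q E j x ≤
      (1 / (jh q1 : ℝ)) * ∑ p ∈ range (jh q1), (lev (ν + 1) l (rs (D q1 p) y) + H) := by
    have hJ2 : 2 ≤ jh q1 := hFh.sz q1 hq1Q
    have hJ0 : ((jh q1 : ℕ) : ℝ) ≠ 0 := by
      have : (2 : ℝ) ≤ (jh q1 : ℝ) := by exact_mod_cast hJ2
      linarith
    have e1 : (1 / (jh q1 : ℝ)) * ∑ p ∈ range (jh q1), (lev (ν + 1) l (rs (D q1 p) y) + H) =
        (1 / (jh q1 : ℝ)) * ∑ p ∈ range (jh q1), lev (ν + 1) l (rs (D q1 p) y) + H := by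
      rw [Finset.sum_add_distrib, Finset.sum_const, card_range, nsmul_eq_mul]
      field_simp
    rw [e1, hHsum]
    have e2 : ∑ q ∈ Qh, (1 / (jh q : ℝ)) * ∑ p ∈ range (jh q), lev (ν + 1) l (rs (D q p) y) ≤
        (1 / (jh q1 : ℝ)) * ∑ p ∈ range (jh q1), lev (ν + 1) l (rs (D q1 p) y) +
        ∑ q ∈ Qt, av (ν + 1) (jh q) (rs (Eh q ∩ Set.Icc a b) x) := by
      have hins : insert q1 Qt ⊆ Qh := by
        intro q hq
        rw [mem_insert] at hq
        rcases hq with rfl | hq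
        · exact hq1Q
        · rw [hQt, mem_filter] at hq
          exact hq.1
      have hnot : q1 ∉ Qt := by
        rw [hQt, mem_filter]
        intro h
        omega
      have e3 : ∑ q ∈ Qh, (1 / (jh q : ℝ)) * ∑ p ∈ range (jh q), lev (ν + 1) l (rs (D q p) y) =
          ∑ q ∈ insert q1 Qt, (1 / (jh q : ℝ)) * ∑ p ∈ range (jh q),
            lev (ν + 1) l (rs (D q p) y) := by
        symm
        apply Finset.sum_subset hins
        intro q hqQ hqn
        have hzero : ∀ p ∈ range (jh q), lev (ν + 1) l (rs (D q p) y) = 0 := by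
          intro p _
          apply hlev0
          intro k hkD hky
          have hkE := hD2 q p hkD
          rcases lt_trichotomy q q1 with h | h | h
          · exact hq1min q h hqQ k hkE hky
          · apply hqn; rw [h]; exact mem_insert_self _ _
          · apply hqn
            apply mem_insert_of_mem
            rw [hQt, mem_filter]
            refine ⟨hqQ, h, ?_⟩
            have := hFh.lb q hqQ k hkE
            have := (hysupp k hky).2
            omega
        rw [Finset.sum_eq_zero hzero, mul_zero]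
      rw [e3, Finset.sum_insert hnot]
      apply add_le_add (le_refl _)
      apply Finset.sum_le_sum
      intro q hq
      have hrs : rs (Eh q ∩ Set.Icc a b) x = rs (Eh q) y := by rw [hy, rs_rs]
      rw [hrs]
      refine le_trans ?_ (av_ge (ν + 1) (jh q) (rs (Eh q) y) (D q) (hD1 q))
      apply mul_le_mul_of_nonneg_left _ (by positivity)
      apply Finset.sum_le_sum
      intro p _
      rw [rs_rs, Set.inter_eq_left.2 (hD2 q p)]
      exact lev_le_nrm _ _ _
    linarith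
  refine le_trans hstep1 ?_
  -- the average over `p`
  have hJ2 : 2 ≤ jh q1 := hFh.sz q1 hq1Q
  have hDy : ∀ p k, k ∈ D q1 p → k ∈ y.support → k ≤ θ := fun p k h1 h2 =>
    hθmax k (hD2 q1 p h1) h2
  have hpR : (0 : ℝ) < 2 ^ R := by positivity
  -- first and last points
  have hends : ∀ p, (∃ k ∈ D q1 p, k ∈ y.support) → ∃ ap bp, (ap ∈ D q1 p ∧ ap ∈ y.support) ∧
      (bp ∈ D q1 p ∧ bp ∈ y.support) ∧ (∀ k ∈ D q1 p, k ∈ y.support → ap ≤ k ∧ k ≤ bp) := by
    rintro p ⟨k, h1, h2⟩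
    have hne : (y.support.filter (fun k => k ∈ D q1 p)).Nonempty := ⟨k, mem_filter.2 ⟨h2, h1⟩⟩
    have m1 := Finset.min'_mem _ hne
    have m2 := Finset.max'_mem _ hne
    rw [mem_filter] at m1 m2
    refine ⟨_, _, ⟨m1.2, m1.1⟩, ⟨m2.2, m2.1⟩, ?_⟩
    intro k' g1 g2
    exact ⟨Finset.min'_le _ _ (mem_filter.2 ⟨g2, g1⟩), Finset.le_max' _ _ (mem_filter.2 ⟨g2, g1⟩)⟩
  -- use of the induction hypothesis
  have hIH : ∀ p R' k' ap bp, R0 ≤ R' → k' ≤ R' → R' ≤ ap → ap ≤ bp → bp ≤ θ →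
      2 * R * (k + 1) ≤ 2 * R' * k' →
      (∀ k ∈ D q1 p, k ∈ y.support → ap ≤ k ∧ k ≤ bp) →
      lev (ν + 1) l (rs (D q1 p) y) + H ≤
        τ + 4 * A + 4 * A * ((2 : ℝ) ^ k' / 2 ^ R' + 1 / 2 ^ R') := by
    intro p R' k' ap bp g1 g2 g3 g4 g5 g6 g7
    have e1 := IH R' k' ap bp g1 g2 g3 g4 T E' j'
      (hFT.sub (Finset.Subset.refl _) (fun q _ => Set.Subset.refl _) (fun q _ => le_refl _)
        (fun q hq => by have := hFT.sz q hq; omega))
      (fun q hq => by have := hTθ q hq; omega) (schU_mono ν g6 hTS)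
    have e2 : lev (ν + 1) l (rs (D q1 p) y) ≤ lev (ν + 1) l (rs (Set.Icc ap bp) x) := by
      apply (nice_lev (ν + 1) l).mono
      intro k
      rw [rs_apply]
      by_cases hkD : k ∈ D q1 p
      · rw [if_pos hkD]
        by_cases hky : k ∈ y.support
        · have := g7 k hkD hky
          rw [rs_apply, if_pos (show k ∈ Set.Icc ap bp from this), hy]
          exact abs_rs_le _ _ _
        · have : y k = 0 := by simpa using hky
          rw [this, abs_zero]
          exact abs_nonneg _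
      · rw [if_neg hkD, abs_zero]
        exact abs_nonneg _
    rw [← hH] at e1
    linarith
  have havA : av (ν + 1) R x ≤ A :=
    av_le_of_bd_sch (i := ν + 1) (fun k hk => by have := hsupp k hk; omega)
      (bd_mono_size hR hA)
  have hgoal := L4_avg (jh q1) hJ2 (fun p => lev (ν + 1) l (rs (D q1 p) y) + H)
    (fun p => (∃ k ∈ D q1 p, k ∈ y.support ∧ k < 2 * R) ∧
      (∃ k ∈ D q1 p, k ∈ y.support ∧ 2 * R ≤ k))
    (τ + 4 * A + 4 * A * ((1 / 2) / 2 ^ R)) (4 * A * ((2 : ℝ) ^ (k + 1) / 2 ^ R + 1 / 2 ^ R))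
    (by positivity) ?_ ?_ ?_
  · refine le_trans hgoal (le_of_eq ?_)
    rw [pow_succ]
    field_simp
    ring
  · -- the cases (iii), (iv), (vi)
    intro p _ hnp
    show lev (ν + 1) l (rs (D q1 p) y) + H ≤ τ + 4 * A + 4 * A * ((1 / 2) / 2 ^ R)
    have hpos : 0 ≤ 4 * A * ((1 / 2) / (2 : ℝ) ^ R) := by positivity
    by_cases hne : ∃ k ∈ D q1 p, k ∈ y.support
    · obtain ⟨ap, bp, ⟨g1, g2⟩, ⟨g3, g4⟩, g5⟩ := hends p hne
      by_cases hbp : bp < 2 * R
      · -- (iv)
        have e1 : lev (ν + 1) l (rs (D q1 p) y) ≤ τ + A := by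
          refine le_trans (lev_le_nrm _ _ _) ?_
          refine le_trans (lemmaB' (ν + 1) (rs (D q1 p) y) (rs_nonneg _ hyn) R (by omega) ?_ τ h0
            ?_) ?_
          · intro k hk
            have hk' := mem_support_rs.1 hk
            have := (hysupp k hk'.2).1
            have := (g5 k hk'.1 hk'.2).2
            constructor <;> omega
          · intro k
            have e3 : rs (D q1 p) y k ≤ y k := rs_le (D q1 p) hyn k
            have e4 : y k ≤ x k := by rw [hy]; exact rs_le _ hx k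
            exact e3.trans (e4.trans (hτ k))
          · have e3 : av (ν + 1) R (rs (D q1 p) y) ≤ av (ν + 1) R x := by
              refine (av_rs_le _ _ _ _).trans ?_
              rw [hy]
              exact av_rs_le _ _ _ _
            linarith
        linarith
      · have hap : 2 * R ≤ ap := by
          by_contra hlt
          exact hnp ⟨⟨ap, g1, g2, by omega⟩, ⟨bp, g3, g4, by omega⟩⟩
        -- (vi)
        have e1 := hIH p (2 * R) ((k + 2) / 2) ap bp (by omega) (by omega) hap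
          ((g5 bp g3 g4).1) (hDy p bp g3 g4) ?_ g5
        · have e2 := L4_pow R k (by omega) hk
          have e3 : 4 * A * ((2 : ℝ) ^ ((k + 2) / 2) / 2 ^ (2 * R) + 1 / 2 ^ (2 * R)) ≤
              4 * A * ((1 / 2) / 2 ^ R) := mul_le_mul_of_nonneg_left e2 (by positivity)
          linarith
        · have e4 : k + 1 ≤ 2 * ((k + 2) / 2) := by omega
          calc 2 * R * (k + 1) ≤ 2 * R * (2 * ((k + 2) / 2)) := Nat.mul_le_mul_left _ e4
            _ = 2 * (2 * R) * ((k + 2) / 2) := by ring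
    · -- (iii)
      have e1 : lev (ν + 1) l (rs (D q1 p) y) = 0 := by
        apply hlev0
        intro k h1 h2
        exact hne ⟨k, h1, h2⟩
      linarith
  · -- the case (v)
    rintro p _ ⟨⟨k1, h1, h2, h3⟩, ⟨k2, h4, h5, h6⟩⟩
    show lev (ν + 1) l (rs (D q1 p) y) + H ≤ τ + 4 * A + 4 * A * ((1 / 2) / 2 ^ R) +
      4 * A * ((2 : ℝ) ^ (k + 1) / 2 ^ R + 1 / 2 ^ R)
    have hpos : 0 ≤ 4 * A * ((1 / 2) / (2 : ℝ) ^ R) := by positivity
    obtain ⟨ap, bp, ⟨g1, g2⟩, ⟨g3, g4⟩, g5⟩ := hends p ⟨k1, h1, h2⟩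
    have e1 := hIH p R (k + 1) ap bp hR hk (le_trans ha (hysupp ap g2).1)
      ((g5 bp g3 g4).1) (hDy p bp g3 g4) (le_refl _) g5
    linarith
  · -- at most one
    rintro p p' ⟨⟨k1, h1, h2, h3⟩, ⟨k2, h4, h5, h6⟩⟩ ⟨⟨k1', h1', h2', h3'⟩, ⟨k2', h4', h5', h6'⟩⟩
    rcases lt_trichotomy p p' with h | h | h
    · have := hD1 q1 p p' h k2 h4 k1' h1'
      omega
    · exact h
    · have := hD1 q1 p' p h k2' h4' k1 h1
      omega

/-! ### Part L5 -/

private theorem L5_tail (ν : ℕ) (x : ℕ →₀ ℝ) (hx : 0 ≤ x) (A : ℝ)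
    (R : ℕ) (hR : 32 ≤ R) 
    (hA : Bd (ν + 1) (Sch (ν + 1)) R x A) (R' k b : ℕ) (hRR : R ≤ R') (hk : k ≤ R')
    (hb : R' ≤ b) (Q : Finset ℕ) (E : ℕ → Set ℕ) (j : ℕ → ℕ) (hF : Fam Q E j (b + 1))
    (hQb : ∀ q ∈ Q, b < q) (hQ : SchU ν (2 * R' * k) Q) :
    val (ν + 1) Q E j x ≤ 3 * A := by
  have hval : val (ν + 1) Q E j x = val (ν + 1) Q E j (rs (Set.Ioi b) x) := by
    unfold val
    refine Finset.sum_congr rfl (fun q hq => ?_)
    rw [rs_rs]
    congr 1
    apply rs_congr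
    intro κ _
    constructor
    · intro h
      exact ⟨h, lt_of_lt_of_le (hQb q hq) (hF.lb q hq κ h)⟩
    · intro h
      exact h.1
  rw [hval]
  have hA' : Bd (ν + 1) (Sch (ν + 1)) (b + 1) (rs (Set.Ioi b) x) A :=
    bd_mono_size (by omega) (bd_rs hx _ hA)
  have hc : 2 * R' * k ≤ 2 * b ^ 2 := by
    have h1 : k ≤ b := hk.trans hb
    calc 2 * R' * k ≤ 2 * b * b := Nat.mul_le_mul (Nat.mul_le_mul_left 2 hb) h1
      _ = 2 * b ^ 2 := by ring
  have hs : ∀ κ ∈ (rs (Set.Ioi b) x).support, b < κ := by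
    intro κ hκ
    exact (mem_support_rs.1 hκ).1
  exact lemmaF ν _ (rs_nonneg _ hx) b (2 * R' * k) (by omega) hc hs A hA' Q E j hF hQ

private theorem L5_pow (R k : ℕ) (R2 k2 : ℕ) (hR : R ≤ R2) (hk : k2 ≤ k) :
    ((2 : ℝ) ^ k2 / 2 ^ R2 + 1 / 2 ^ R2) ≤ ((2 : ℝ) ^ k / 2 ^ R + 1 / 2 ^ R) := by
  have h1 : (2 : ℝ) ^ k2 ≤ 2 ^ k := pow_le_pow_right₀ (by norm_num) hk
  have h2 : (2 : ℝ) ^ R ≤ 2 ^ R2 := pow_le_pow_right₀ (by norm_num) hR
  have h3 : (0 : ℝ) < 2 ^ R := by positivity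
  apply add_le_add
  · exact div_le_div₀ (by positivity) h1 h3 h2
  · exact div_le_div₀ (by norm_num) (le_refl _) h3 h2

private theorem L5_abs_le (x : ℕ →₀ ℝ) (hx : 0 ≤ x) (τ : ℝ) (h0 : 0 ≤ τ) (hτ : ∀ k, x k ≤ τ)
    (E : Set ℕ) (k : ℕ) : |rs E x k| ≤ τ := by
  rw [rs_apply]
  split_ifs
  · rw [abs_of_nonneg (hx k)]; exact hτ k
  · rw [abs_zero]; exact h0

private theorem L5_lev_zero (n l : ℕ) : lev n l 0 = 0 := by
  have h := (nice_lev n l).hom 0 (0 : ℕ →₀ ℝ)
  simpa using h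

/-- the case `k < R'` -/
private theorem L5_lt (ν : ℕ) (x : ℕ →₀ ℝ) (hx : 0 ≤ x) (τ A : ℝ) (h0 : 0 ≤ τ)
    (hτ : ∀ k, x k ≤ τ) (R : ℕ) (hR : 32 ≤ R) (hsupp : ∀ k ∈ x.support, R ≤ k)
    (hA : Bd (ν + 1) (Sch (ν + 1)) R x A) (l : ℕ)
    (IH : ∀ R' k a b, R ≤ R' → k ≤ R' → R' ≤ a → a ≤ b → PClaim ν x τ A l R' k a b)
    (R' k a b : ℕ) (hRR : R ≤ R') (hk : k < R') (ha : R' ≤ a) (hab : a ≤ b) :
    PClaim ν x τ A (l + 1) R' k a b := by
  intro Q E j hF hQb hQ
  have hA0 : 0 ≤ A := bd_nonneg (sch_empty _) hA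
  have htail : val (ν + 1) Q E j x ≤ 3 * A :=
    L5_tail ν x hx A R hR hA R' k b hRR hk.le (ha.trans hab) Q E j hF hQb hQ
  have hpos : 0 ≤ 4 * A * ((2 : ℝ) ^ k / 2 ^ R' + 1 / 2 ^ R') := by positivity
  have hmain : lev (ν + 1) (l + 1) (rs (Set.Icc a b) x) ≤
      τ + 4 * A + 4 * A * ((2 : ℝ) ^ k / 2 ^ R' + 1 / 2 ^ R') - val (ν + 1) Q E j x := by
    apply lev_succ_le
    · intro κ
      have := L5_abs_le x hx τ h0 hτ (Set.Icc a b) κ
      linarith
    · intro Qh Eh jh hFh hQh D hD1 hD2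
      by_cases hex : ∃ κ, ∃ q ∈ Qh, κ ∈ Eh q ∧ κ ∈ (rs (Set.Icc a b) x).support
      · -- least point
        have hspec := Nat.find_spec hex
        set a1 := Nat.find hex with ha1
        have hmin : ∀ q ∈ Qh, ∀ κ ∈ Eh q, κ ∈ (rs (Set.Icc a b) x).support → a1 ≤ κ := by
          intro q hq κ hκ hκs
          exact Nat.find_min' hex ⟨q, hq, hκ, hκs⟩
        obtain ⟨q1, hq1, ha1E, ha1s⟩ := hspec
        have ha1I : a ≤ a1 ∧ a1 ≤ b := (mem_support_rs.1 ha1s).1
        have ha1x : a1 ∈ x.support := (mem_support_rs.1 ha1s).2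
        by_cases hlt : a1 < 2 * R'
        · have := lemmaP_main ν x hx τ A h0 hτ R hR hsupp hA l IH R' k a b hRR hk ha hab
            Qh Eh jh D hFh hQh hD1 hD2 ⟨q1, hq1, a1, ha1E, ha1s, hlt⟩ Q E j hF hQb hQ
          linarith
        · have hge : 2 * R' ≤ a1 := not_lt.1 hlt
          have hk2 : (k + 1) / 2 ≤ k := by omega
          have hkk : k ≤ 2 * ((k + 1) / 2) := by omega
          have hmulle : 2 * R' * k ≤ 2 * a1 * ((k + 1) / 2) := by
            calc 2 * R' * k ≤ 2 * R' * (2 * ((k + 1) / 2)) := Nat.mul_le_mul_left _ hkk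
              _ = 2 * (2 * R') * ((k + 1) / 2) := by ring
              _ ≤ 2 * a1 * ((k + 1) / 2) :=
                  Nat.mul_le_mul_right _ (Nat.mul_le_mul_left 2 hge)
          have h1 := lemmaP_main ν x hx τ A h0 hτ R hR hsupp hA l IH a1 ((k + 1) / 2) a1 b
            (by omega) (by omega) (le_refl _) ha1I.2
            Qh Eh jh D hFh hQh hD1 hD2
            ⟨q1, hq1, a1, ha1E, mem_support_rs.2 ⟨⟨le_refl _, ha1I.2⟩, ha1x⟩, by omega⟩
            Q E j hF hQb (schU_mono ν hmulle hQ)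
          have h2 : ∀ q ∈ Qh, ∀ p, rs (D q p) (rs (Set.Icc a b) x) =
              rs (D q p) (rs (Set.Icc a1 b) x) := by
            intro q hq p
            rw [rs_rs, rs_rs]
            apply rs_congr
            intro κ hκ
            constructor
            · rintro ⟨hκ1, hκ2⟩
              refine ⟨hκ1, ?_, hκ2.2⟩
              exact hmin q hq κ (hD2 q p hκ1) (mem_support_rs.2 ⟨hκ2, hκ⟩)
            · rintro ⟨hκ1, hκ2⟩
              exact ⟨hκ1, ha1I.1.trans hκ2.1, hκ2.2⟩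
          have h3 : ∑ q ∈ Qh, (1 / (jh q : ℝ)) * ∑ p ∈ range (jh q),
              lev (ν + 1) l (rs (D q p) (rs (Set.Icc a b) x)) =
              ∑ q ∈ Qh, (1 / (jh q : ℝ)) * ∑ p ∈ range (jh q),
              lev (ν + 1) l (rs (D q p) (rs (Set.Icc a1 b) x)) := by
            refine Finset.sum_congr rfl (fun q hq => ?_)
            congr 1
            refine Finset.sum_congr rfl (fun p _ => ?_)
            rw [h2 q hq p]
          rw [h3]
          have h4 := L5_pow R' k a1 ((k + 1) / 2) (by omega) hk2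
          have h5 : 4 * A * ((2 : ℝ) ^ ((k + 1) / 2) / 2 ^ a1 + 1 / 2 ^ a1) ≤
              4 * A * ((2 : ℝ) ^ k / 2 ^ R' + 1 / 2 ^ R') :=
            mul_le_mul_of_nonneg_left h4 (by linarith)
          linarith
      · have hz : ∀ q ∈ Qh, ∀ p, rs (D q p) (rs (Set.Icc a b) x) = 0 := by
          intro q hq p
          rw [← Finsupp.support_eq_empty]
          rw [Finset.eq_empty_iff_forall_notMem]
          intro κ hκ
          obtain ⟨hκ1, hκ2⟩ := mem_support_rs.1 hκ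
          exact hex ⟨κ, q, hq, hD2 q p hκ1, hκ2⟩
        have : ∑ q ∈ Qh, (1 / (jh q : ℝ)) * ∑ p ∈ range (jh q),
              lev (ν + 1) l (rs (D q p) (rs (Set.Icc a b) x)) = 0 := by
          apply Finset.sum_eq_zero
          intro q hq
          rw [Finset.sum_eq_zero, mul_zero]
          intro p _
          rw [hz q hq p, L5_lev_zero]
        rw [this]
        linarith
  linarith

/-- ROW L5 (Lemma P). Support in `[R, ∞)`, `R ≥ 32`: `nrm x ≤ τ + 5 A`.
First `∀ l, ∀ R' k a b, R ≤ R' → k ≤ R' → R' ≤ a → a ≤ b → PClaim ν x τ A l R' k a b` by induction on `l`.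
In all cases the tail value is `≤ 3A` by `lemmaF` with `θ = b ≥ R' ≥ 32` on `rs (Ioi b) x`, `c = 2R'k ≤ 2b^2` (the tail family has markers and sizes `> b`, so only points `> b`).
`l = 0`: `lev 0 = supn ≤ τ` (`supn_le`).
`l + 1`, with `y = rs (Icc a b) x`:
 * `k < R'`: put `B := bound - tail value`; `|y k| ≤ τ ≤ B`, so by `lev_succ_le` it is enough to bound `∑ ... + tail` for every `Qh, Eh, jh, D`.
   - no `Eh q` (`q ∈ Qh`) meets `y.support`: all terms are `0`, `0 + 3A ≤ bound`.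
   - otherwise let `a1` be the least point of `y.support` in `⋃_{q ∈ Qh} Eh q`. If `a1 < 2R'`: `lemmaP_main`. If `a1 ≥ 2R'`: `lemmaP_main` with reference `R'' = a1`, `k'' = (k+1)/2 < R''` and interval `Icc a1 b`
     (the points of `y` in `Eh q` are `≥ a1`, so `rs (D q p) y = rs (D q p) (rs (Icc a1 b) x)`; `2R'k ≤ 2R''k''`, `schU_mono`), and
     `2^k''/2^R'' + 1/2^R'' ≤ 2^k/2^R' + 1/2^R'` since `k'' ≤ k`, `R'' ≥ R'`.
 * `k = R'`: tail `≤ 3A`, and the case `k = 0` (just proved for this `l + 1`; `0 < R'`) with the empty tail gives `lev (l+1) y ≤ τ + 4A + 4A * 2/2^R'`; total `≤ τ+4A+4A(1+1/2^R')`.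
Finally `k = 0`, empty tail, `R' = R`, `a = R`, `b` large: `lev l x ≤ τ + 4A + 4A*2/2^R ≤ τ + 5A`; `nrm_le`. -/
theorem lemmaP (ν : ℕ) (x : ℕ →₀ ℝ) (hx : 0 ≤ x) (τ A : ℝ) (h0 : 0 ≤ τ)
    (hτ : ∀ k, x k ≤ τ) (R : ℕ) (hR : 32 ≤ R) (hsupp : ∀ k ∈ x.support, R ≤ k)
    (hA : Bd (ν + 1) (Sch (ν + 1)) R x A) : nrm (ν + 1) x ≤ τ + 5 * A := by
  have hA0 : 0 ≤ A := bd_nonneg (sch_empty _) hA
  have h2R : ∀ R' : ℕ, R ≤ R' → (1 : ℝ) / 2 ^ R' ≤ 1 / 8 := by
    intro R' hR'
    have : (2 : ℝ) ^ 3 ≤ 2 ^ R' := pow_le_pow_right₀ (by norm_num) (by omega)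
    apply one_div_le_one_div_of_le (by norm_num)
    linarith
  have claim : ∀ l, ∀ R' k a b, R ≤ R' → k ≤ R' → R' ≤ a → a ≤ b →
      PClaim ν x τ A l R' k a b := by
    intro l
    induction l with
    | zero =>
      intro R' k a b hRR hk ha hab Q E j hF hQb hQ
      have htail : val (ν + 1) Q E j x ≤ 3 * A :=
        L5_tail ν x hx A R hR hA R' k b hRR hk (ha.trans hab) Q E j hF hQb hQ
      have hpos : 0 ≤ 4 * A * ((2 : ℝ) ^ k / 2 ^ R' + 1 / 2 ^ R') := by positivity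
      have h1 : lev (ν + 1) 0 (rs (Set.Icc a b) x) ≤ τ :=
        supn_le _ _ (fun κ => L5_abs_le x hx τ h0 hτ (Set.Icc a b) κ)
      linarith
    | succ l IH =>
      intro R' k a b hRR hk ha hab
      rcases hk.lt_or_eq with hlt | heq
      · exact L5_lt ν x hx τ A h0 hτ R hR hsupp hA l IH R' k a b hRR hlt ha hab
      · intro Q E j hF hQb hQ
        have htail : val (ν + 1) Q E j x ≤ 3 * A :=
          L5_tail ν x hx A R hR hA R' k b hRR hk (ha.trans hab) Q E j hF hQb hQ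
        have h1 := L5_lt ν x hx τ A h0 hτ R hR hsupp hA l IH R' 0 a b hRR (by omega) ha hab
          ∅ (fun _ => ∅) (fun _ => 0) (Fam.empty _ _ _) (by simp) (schU_empty _ _)
        rw [val_empty] at h1
        have h2 : (2 : ℝ) ^ k / 2 ^ R' = 1 := by
          rw [heq]; exact div_self (by positivity)
        rw [h2]
        have h3 := h2R R' hRR
        have h4 : A * (1 / 2 ^ R') ≤ A * (1 / 8) := mul_le_mul_of_nonneg_left h3 hA0
        have h5 : (2 : ℝ) ^ 0 / 2 ^ R' = 1 / 2 ^ R' := by rw [pow_zero]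
        rw [h5] at h1
        nlinarith [h1, htail, h4]
  apply nrm_le
  intro l
  set b := max R (x.support.sup id) with hb
  have hbR : R ≤ b := le_max_left _ _
  have h1 := claim l R 0 R b (le_refl _) (Nat.zero_le _) (le_refl _) hbR
    ∅ (fun _ => ∅) (fun _ => 0) (Fam.empty _ _ _) (by simp) (schU_empty _ _)
  rw [val_empty] at h1
  have h2 : rs (Set.Icc R b) x = x := by
    apply rs_self
    intro κ hκ
    refine ⟨hsupp κ hκ, ?_⟩
    exact le_trans (Finset.le_sup (f := id) hκ) (le_max_right _ _)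
  rw [h2] at h1
  have h3 := h2R R (le_refl _)
  have h4 : A * (1 / 2 ^ R) ≤ A * (1 / 8) := mul_le_mul_of_nonneg_left h3 hA0
  have h5 : (2 : ℝ) ^ 0 / 2 ^ R = 1 / 2 ^ R := by rw [pow_zero]
  rw [h5] at h1
  nlinarith [h1, h4]

/-! ### Part L6 -/

private theorem L6_mono (M : ℕ) (h : ℕ → ℕ) (hs : ∀ i < M, h i < h (i + 1)) :
    ∀ i i' : ℕ, i < i' → i' ≤ M → h i < h i' := by
  intro i i' hii
  induction i' with
  | zero => omega
  | succ i' ih =>
    intro hM
    rcases Nat.lt_or_ge i i' with h1 | h1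
    · exact (ih h1 (by omega)).trans (hs i' (by omega))
    · have : i = i' := by omega
      subst this
      exact hs i (by omega)

/-- one full piece has a big average -/
private theorem L6_piece (n : ℕ) (x : ℕ →₀ ℝ) (c : ℝ) (P : Finset ℕ) (j : ℕ) (hj : 1 ≤ j)
    (hP : P.card = j) (hbig : ∀ k ∈ P, c < x k) (hc : 0 < c) (E : Set ℕ)
    (hE : ∀ k, k ∈ E ↔ k ∈ P) : c < av n j (rs E x) := by
  have hsupp : (rs E x).support = P := by
    ext k
    rw [mem_support_rs, hE]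
    constructor
    · exact fun h => h.1
    · intro h
      refine ⟨h, Finsupp.mem_support_iff.2 ?_⟩
      exact (hc.trans (hbig k h)).ne'
  have h1 := av_eq_l1 n j (rs E x) (by rw [hsupp, hP])
  rw [hsupp] at h1
  refine lt_of_lt_of_le ?_ h1
  have hjr : (0 : ℝ) < (j : ℝ) := by exact_mod_cast hj
  have hne : P.Nonempty := by
    rw [← Finset.card_pos, hP]; exact hj
  have h2 : ∑ k ∈ P, c < ∑ k ∈ P, |rs E x k| := by
    apply Finset.sum_lt_sum_of_nonempty hne
    intro k hk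
    rw [rs_apply, if_pos ((hE k).2 hk)]
    exact lt_of_lt_of_le (hbig k hk) (le_abs_self _)
  rw [Finset.sum_const, hP, nsmul_eq_mul] at h2
  rw [one_div, ← div_eq_inv_mul, lt_div_iff₀ hjr]
  linarith

/-- ROW L6 (Lemma A, level sets). `x' := rs {k | T / M < x k} x`, support `A0`. Enumerate `A0` increasingly and cut it into consecutive
pieces: the first piece has `σ` elements, and a piece after the point `ζ` (= maximum of the previous piece) has `ζ + 1` elements (the last piece may be shorter).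
A full piece `P` has `av j x ≥ (1/j) ∑_{P} x k > T/M` with `j = card P` = `σ` or `ζ+1` (`av_eq_l1`). If there were `M` full pieces, they would be a family with `M ≤ 3M` sets, sizes `≥ σ`
(`ζ ≥ σ` as the support is in `[σ,∞)`), and value `> T`. So there are at most `M` pieces (`≤ M-1` full ones and a last one). Now `merge_blocks` with these pieces as blocks (`L = M`; `B b` = the interval
`(ζ_{b-1}, ζ_b]`, `ζ_{-1} = 0`... so that `SuccS` holds; blocks `b ≥` number of pieces: empty): a point `k` of a piece after `ζ` is `≥ ζ + 1`, and the piece has at most `ζ+1` elements; the first piece has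
at most `σ ≤ k`. Formal hint: a recursive definition of the `ζ_i`: `ζ_0 = 0`; `ζ_{i+1}` = least `z > ζ_i` such that `A0 ∩ (ζ_i, z]` has at least `max σ (ζ_i + 1)` elements. This is the lemma
`greedy` (file G1) with `Good a b := (A0 ∩ Ioc a b).card < max σ (a+1)`, `L = M`. -/
theorem lemmaA (ν : ℕ) (x : ℕ →₀ ℝ) (hx : 0 ≤ x) (σ M : ℕ) (hσ : 1 ≤ σ) (hM : 1 ≤ M)
    (hsupp : ∀ k ∈ x.support, σ ≤ k) (T : ℝ) (hT : 0 < T)
    (h : Bd (ν + 1) (SchU 0 (3 * M)) σ x T) (G : Finset ℕ → Prop) :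
    Bd (ν + 1) G σ (rs {k | T / M < x k} x) T := by
  set x' := rs {k | T / M < x k} x with hx'
  have hMr : (0 : ℝ) < (M : ℝ) := by exact_mod_cast hM
  have hc : 0 < T / M := div_pos hT hMr
  have hA0 : ∀ k ∈ x'.support, T / M < x k ∧ k ∈ x.support := by
    intro k hk
    rw [hx', mem_support_rs] at hk
    exact hk
  obtain ⟨r, hr, g, hg, hg0, hgH, hgood⟩ := greedy
    (fun a b => (x'.support.filter (fun k => a < k ∧ k ≤ b)).card < max σ (a + 1))
    (by
      intro a b hab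
      have : x'.support.filter (fun k => a < k ∧ k ≤ b) = ∅ := by
        rw [Finset.filter_eq_empty_iff]
        intro k _ hk
        omega
      rw [this, Finset.card_empty]
      omega) 0 M (x'.support.sup id) (by
      intro hh hh0 hstep
      have hmono := L6_mono M hh (fun i hi => (hstep i hi).1)
      have hPex : ∀ i : ℕ, ∃ P : Finset ℕ, i < M →
          (P ⊆ x'.support.filter (fun k => hh i < k ∧ k ≤ hh (i + 1)) ∧
            P.card = max σ (hh i + 1)) := by
        intro i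
        by_cases hi : i < M
        · have h1 := (hstep i hi).2
          rw [not_lt] at h1
          obtain ⟨P, hP1, hP2⟩ := Finset.exists_subset_card_eq h1
          exact ⟨P, fun _ => ⟨hP1, hP2⟩⟩
        · exact ⟨∅, fun h => absurd h hi⟩
      choose P hP using hPex
      have hinj : ∀ i < M, ∀ i' < M, hh i + 1 = hh i' + 1 → i = i' := by
        intro i hi i' hi' heq
        rcases lt_trichotomy i i' with h1 | h1 | h1
        · have := hmono i i' h1 (by omega); omega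
        · exact h1
        · have := hmono i' i h1 (by omega); omega
      have hPm : ∀ i < M, ∀ k ∈ P i, (T / M < x k) ∧ hh i < k ∧ k ≤ hh (i + 1) := by
        intro i hi k hk
        have h1 := (hP i hi).1 hk
        have h2 := Finset.mem_filter.1 h1
        exact ⟨(hA0 k h2.1).1, h2.2⟩
      have hF : Fam ((range M).image (fun i => hh i + 1))
          (fun q => {k | ∃ i < M, q = hh i + 1 ∧ k ∈ P i}) (fun q => max σ q) σ := by
        refine ⟨?_, ?_, ?_⟩
        · intro q _ k hk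
          obtain ⟨i, hi, hqi, hki⟩ := hk
          have := (hPm i hi k hki).2.1
          omega
        · intro q _ q' hq' hlt k hk
          obtain ⟨i, hi, hqi, hki⟩ := hk
          obtain ⟨i', hi', hqi'⟩ := Finset.mem_image.1 hq'
          rw [Finset.mem_range] at hi'
          have h1 := (hPm i hi k hki).2.2
          have h2 : i < i' := by
            by_contra hcon
            rcases Nat.lt_or_ge i' i with h3 | h3
            · have := hmono i' i h3 (by omega); omega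
            · have : i = i' := by omega
              subst this; omega
          have h3 : hh (i + 1) ≤ hh i' := by
            rcases Nat.lt_or_ge (i + 1) i' with h4 | h4
            · exact (hmono (i + 1) i' h4 (by omega)).le
            · have : i + 1 = i' := by omega
              rw [this]
          have h4 : k < q' := by omega
          exact ⟨h4, lt_of_lt_of_le h4 (le_max_right _ _)⟩
        · intro q _
          exact le_max_left _ _
      have hval := h _ _ _ hF ((schU_zero _ _).2 (by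
        refine Finset.card_image_le.trans ?_
        rw [Finset.card_range]; omega))
      have hbig : T < val (ν + 1) ((range M).image (fun i => hh i + 1))
          (fun q => {k | ∃ i < M, q = hh i + 1 ∧ k ∈ P i}) (fun q => max σ q) x := by
        unfold val
        rw [Finset.sum_image (fun i hi i' hi' heq =>
          hinj i (Finset.mem_range.1 hi) i' (Finset.mem_range.1 hi') heq)]
        have hne : (range M).Nonempty := by
          rw [Finset.nonempty_range_iff]; omega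
        have h1 : ∑ i ∈ range M, T / M < ∑ i ∈ range M, av (ν + 1) (max σ (hh i + 1))
            (rs {k | ∃ i' < M, hh i + 1 = hh i' + 1 ∧ k ∈ P i'} x) := by
          apply Finset.sum_lt_sum_of_nonempty hne
          intro i hi
          rw [Finset.mem_range] at hi
          refine L6_piece (ν + 1) x (T / M) (P i) (max σ (hh i + 1)) (by omega) (hP i hi).2
            (fun k hk => (hPm i hi k hk).1) hc _ ?_
          intro k
          constructor
          · rintro ⟨i', hi', heq, hk⟩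
            rw [hinj i hi i' hi' heq]
            exact hk
          · intro hk
            exact ⟨i, hi, rfl, hk⟩
        rw [Finset.sum_const, Finset.card_range, nsmul_eq_mul, mul_div_cancel₀ _ hMr.ne'] at h1
        exact h1
      exact absurd hval (not_le.2 hbig))
  have hsup : ∀ k ∈ x'.support, k ≤ x'.support.sup id := fun k hk =>
    Finset.le_sup (f := id) hk
  refine merge_blocks (ν + 1) x' M (fun b => {k | g b < k ∧ k ≤ g (b + 1)}) ?_ ?_ ?_ σ hσ T
    (bd_rs hx _ h) G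
  · intro p q hpq a ha b hb
    have h1 : g (p + 1) ≤ g q := hg.monotone hpq
    exact lt_of_le_of_lt (ha.2.trans h1) hb.1
  · intro k hk
    have hk1 : 0 < k := lt_of_lt_of_le hσ (hsupp k (hA0 k hk).2)
    have hk2 : k < g (r + 1) := lt_of_le_of_lt (hsup k hk) hgH
    have hfind : ∀ t : ℕ, k ≤ g t → ∃ b < t, g b < k ∧ k ≤ g (b + 1) := by
      intro t
      induction t with
      | zero => intro h0; rw [hg0] at h0; omega
      | succ t ih =>
        intro ht
        by_cases h2 : k ≤ g t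
        · obtain ⟨b, hb, h3, h4⟩ := ih h2
          exact ⟨b, by omega, h3, h4⟩
        · exact ⟨t, by omega, by omega, ht⟩
    obtain ⟨b, hb, h3, h4⟩ := hfind (r + 1) hk2.le
    exact ⟨b, by omega, h3, h4⟩
  · intro b _ k hk hkb
    have hb1 : b ≤ r := by
      by_contra hcon
      have h1 : g (r + 1) ≤ g b := hg.monotone (by omega)
      have h2 := hsup k hk
      have h3 : g b < k := hkb.1
      omega
    have hlt : g b < g (b + 1) := hg (Nat.lt_succ_self b)
    have h1 := hgood b hb1 (g (b + 1) - 1) (by omega)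
    have h3 := Finset.card_insert_le (g (b + 1)) (x'.support.filter
          (fun k => g b < k ∧ k ≤ g (b + 1) - 1))
    have h4 : g b < k := hkb.1
    have h5 := hsupp k (hA0 k hk).2
    have h6 : max σ (g b + 1) ≤ k := max_le h5 h4
    refine (Finset.card_le_card (t := insert (g (b + 1)) (x'.support.filter
          (fun k => g b < k ∧ k ≤ g (b + 1) - 1))) ?_).trans (h3.trans ?_)
    · intro l hl
      simp only [Finset.mem_filter] at hl
      have hl2 : g b < l ∧ l ≤ g (b + 1) := hl.2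
      simp only [Finset.mem_insert, Finset.mem_filter]
      by_cases h7 : l = g (b + 1)
      · exact Or.inl h7
      · exact Or.inr ⟨hl.1, hl2.1, by omega⟩
    · omega

/-- with Lemma P (`R = σ`). -/
theorem lemmaA' (ν : ℕ) (x : ℕ →₀ ℝ) (hx : 0 ≤ x) (σ M : ℕ) (hσ : 32 ≤ σ) (hM : 1 ≤ M)
    (hsupp : ∀ k ∈ x.support, σ ≤ k) (T τ : ℝ) (hT : 0 < T) (h0 : 0 ≤ τ) (hτ : ∀ k, x k ≤ τ)
    (h : Bd (ν + 1) (SchU 0 (3 * M)) σ x T) :
    nrm (ν + 1) (rs {k | T / M < x k} x) ≤ τ + 5 * T := by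
  refine lemmaP ν _ (rs_nonneg _ hx) τ T h0 ?_ σ hσ ?_
    (lemmaA ν x hx σ M (by omega) hM hsupp T hT h (Sch (ν + 1)))
  · intro k
    exact (rs_le _ hx k).trans (hτ k)
  · intro k hk
    exact hsupp k (mem_support_rs.1 hk).2

/-! ### Part I1 -/

private theorem I1_num (t : ℕ) (ht : 13 ≤ t) : 357 * (t + 1) ≤ 2 ^ t := by
  induction t, ht using Nat.le_induction with
  | base => norm_num
  | succ t ht ih =>
    rw [pow_succ]
    omega

/-- the reference points -/
private def I1_R (x : ℕ →₀ ℝ) (D : ℕ → Set ℕ) (θ p : ℕ) : ℕ :=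
  if h : ((rs (D p) x).support).Nonempty then (rs (D p) x).support.min' h
  else θ + 1 + (x.support.sup id)

private theorem I1_R_lb (x : ℕ →₀ ℝ) (D : ℕ → Set ℕ) (θ p : ℕ) :
    ∀ k ∈ (rs (D p) x).support, I1_R x D θ p ≤ k := by
  intro k hk
  have hne : ((rs (D p) x).support).Nonempty := ⟨k, hk⟩
  unfold I1_R
  rw [dif_pos hne]
  exact Finset.min'_le _ _ hk

private theorem I1_R_ge (x : ℕ →₀ ℝ) (D : ℕ → Set ℕ) (θ p : ℕ)
    (hsupp : ∀ k ∈ x.support, θ < k) : θ + 1 ≤ I1_R x D θ p := by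
  unfold I1_R
  split_ifs with h
  · exact hsupp _ (mem_support_rs.1 (Finset.min'_mem _ h)).2
  · omega

private theorem I1_R_gt (x : ℕ →₀ ℝ) (D : ℕ → Set ℕ) (hD : SuccS D) (θ p : ℕ) :
    ∀ p' < p, ∀ k ∈ D p', k ∈ x.support → k < I1_R x D θ p := by
  intro p' hp' k hk hkx
  unfold I1_R
  split_ifs with h
  · exact hD p' p hp' k hk _ (mem_support_rs.1 (Finset.min'_mem _ h)).1
  · have : k ≤ x.support.sup id := Finset.le_sup (f := id) hkx
    omega

/-- ROW I1 (initial parts). Support in `(θ, θ^120]`, coordinates `≤ η`, `S_1`-families with sizes `≥ θ+1` are `≤ A`. Then any `d` successive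
pieces have total norm `≤ d η + 5 A`.
Proof. `r := 119 * (Nat.log 2 θ + 1)`: `2^r θ ≥ θ^120` and `3 r ≤ θ` for `θ ≥ 8192` (`357 (log_2 θ + 1) ≤ θ`: with `t = log_2 θ ≥ 13`, `357 (t+1) ≤ 2^t`).
All families with sizes `≥ θ+1` are `≤ A`: `dyadic`, `bd_beyond` (`3r ≤ θ < k`), `schU_mono`.
For `p < d` with `D p ∩ supp x ≠ ∅` let `R_p` be the least point of `D p ∩ supp x`, `R_p = ` (any number, e.g. `θ + 1 +` maximum of supp) otherwise. `lemmaP` for `rs (D p) x`, `R = R_p ≥ θ + 1 ≥ 32`: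
`nrm (rs (D p) x) ≤ η + 5 * bn (Sch (ν+1)) R_p (rs (D p) x)` (`bn_spec`). By `sum_bn_le_all` (`ρ p = R_p`; `R_p > ` points of `D p'`, `p' < p`): the sum of the `bn` is `≤ A`.
(For the empty pieces the norm is `0`; to satisfy the hypotheses of `sum_bn_le_all` for them choose `R_p` larger than all points.) -/
theorem init_bound (ν : ℕ) (x : ℕ →₀ ℝ) (hx : 0 ≤ x) (θ : ℕ) (hθ : 8192 ≤ θ)
    (hsupp : ∀ k ∈ x.support, θ < k ∧ k ≤ θ ^ 120) (η A : ℝ) (hη : 0 ≤ η) (h : ∀ k, x k ≤ η)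
    (hA : Bd (ν + 1) (Sch 1) (θ + 1) x A) (d : ℕ) (D : ℕ → Set ℕ) (hD : SuccS D) :
    ∑ p ∈ range d, nrm (ν + 1) (rs (D p) x) ≤ d * η + 5 * A := by
  -- the number of dyadic steps
  have hθ0 : θ ≠ 0 := by omega
  have ht13 : 13 ≤ Nat.log 2 θ := by
    have h1 : Nat.log 2 (2 ^ 13) ≤ Nat.log 2 θ := Nat.log_mono_right (by norm_num; exact hθ)
    rwa [Nat.log_pow (by norm_num)] at h1
  have hpow : 2 ^ Nat.log 2 θ ≤ θ := Nat.pow_log_le_self 2 hθ0
  have hnum := I1_num (Nat.log 2 θ) ht13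
  have h3r : 3 * (119 * (Nat.log 2 θ + 1)) ≤ θ := by omega
  have h2r : θ ^ 120 ≤ 2 ^ (119 * (Nat.log 2 θ + 1)) * θ := by
    have h1 : θ ≤ 2 ^ (Nat.log 2 θ + 1) := (Nat.lt_pow_succ_log_self (by norm_num) θ).le
    calc θ ^ 120 = θ ^ 119 * θ := by rw [← pow_succ]
      _ ≤ (2 ^ (Nat.log 2 θ + 1)) ^ 119 * θ :=
          Nat.mul_le_mul_right _ (Nat.pow_le_pow_left h1 119)
      _ = 2 ^ (119 * (Nat.log 2 θ + 1)) * θ := by rw [← pow_mul, Nat.mul_comm 119]
  -- all families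
  have hAll : Bd (ν + 1) (fun _ => True) (θ + 1) x A := by
    refine dyadic (ν + 1) x θ (119 * (Nat.log 2 θ + 1)) (θ + 1) (by omega) (by omega)
      (fun k hk => ⟨(hsupp k hk).1, (hsupp k hk).2.trans h2r⟩) A ?_ _
    exact bd_beyond (i := 0) (fun k hk => by have := (hsupp k hk).1; omega) hA
  have hθs : ∀ k ∈ x.support, θ < k := fun k hk => (hsupp k hk).1
  -- each piece
  have hpiece : ∀ p, nrm (ν + 1) (rs (D p) x)
      ≤ η + 5 * bn (ν + 1) (Sch (ν + 1)) (I1_R x D θ p) (rs (D p) x) := by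
    intro p
    refine lemmaP ν (rs (D p) x) (rs_nonneg _ hx) η _ hη
      (fun k => (rs_le (D p) hx k).trans (h k)) (I1_R x D θ p) ?_ (I1_R_lb x D θ p) (bn_spec _)
    have := I1_R_ge x D θ p hθs
    omega
  have hsum := sum_bn_le_all (ν + 1) x d D hD (θ + 1) (I1_R x D θ)
    (fun p _ => I1_R_ge x D θ p hθs) (fun p _ => I1_R_gt x D hD θ p) (Sch (ν + 1))
    (sch_empty (ν + 1)) A hAll
  calc ∑ p ∈ range d, nrm (ν + 1) (rs (D p) x)
      ≤ ∑ p ∈ range d,
          (η + 5 * bn (ν + 1) (Sch (ν + 1)) (I1_R x D θ p) (rs (D p) x)) :=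
        Finset.sum_le_sum (fun p _ => hpiece p)
    _ = d * η + 5 * ∑ p ∈ range d,
          bn (ν + 1) (Sch (ν + 1)) (I1_R x D θ p) (rs (D p) x) := by
        rw [Finset.sum_add_distrib, Finset.sum_const, Finset.card_range, nsmul_eq_mul,
          Finset.mul_sum]
    _ ≤ d * η + 5 * A := by linarith

end Pool.Agent.Lib.MP_1bb70c_an
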