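import Pool.Agent.Lib.MP_1bb70c_an.Families

set_option autoImplicit false

open Finset
open scoped Classical

noncomputable section

namespace Pool.Agent.Lib.MP_1bb70c_an

/-! ### Part F9 -/

/-- the merged sets -/
private def F9_E (Q : Finset ℕ) (E : ℕ → Set ℕ) (ρ : ℕ → ℕ) (a : ℕ) : Set ℕ :=
  {k | ∃ q ∈ Q, ρ q = a ∧ k ∈ E q}

/-- the merged sizes -/
private def F9_j (Q : Finset ℕ) (j : ℕ → ℕ) (ρ : ℕ → ℕ) (a : ℕ) : ℕ :=
  sInf {m | ∃ q ∈ Q, ρ q = a ∧ j q = m}

private theorem F9_j_mem (Q : Finset ℕ) (j : ℕ → ℕ) (ρ : ℕ → ℕ) (a : ℕ) (h : ∃ q ∈ Q, ρ q = a) :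
    ∃ q ∈ Q, ρ q = a ∧ j q = F9_j Q j ρ a := by
  obtain ⟨q, hq, hqa⟩ := h
  have hne : ({m | ∃ q ∈ Q, ρ q = a ∧ j q = m} : Set ℕ).Nonempty := ⟨j q, q, hq, hqa, rfl⟩
  exact Nat.sInf_mem hne

private theorem F9_j_le (Q : Finset ℕ) (j : ℕ → ℕ) (ρ : ℕ → ℕ) (a q : ℕ) (hq : q ∈ Q)
    (hqa : ρ q = a) : F9_j Q j ρ a ≤ j q :=
  Nat.sInf_le ⟨q, hq, hqa, rfl⟩

private theorem F9_fam (Q : Finset ℕ) (E : ℕ → Set ℕ) (j : ℕ → ℕ) (σ : ℕ)
    (hF : Fam Q E j σ) (ρ : ℕ → ℕ)
    (h2 : ∀ q ∈ Q, ρ q ≤ q) (h1 : ∀ q ∈ Q, ρ q ∈ Q) (h3 : ∀ q ∈ Q, ρ (ρ q) = ρ q)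
    (h4 : ∀ q ∈ Q, ∀ q' ∈ Q, q ≤ q' → ρ q ≤ ρ q') :
    Fam (Q.image ρ) (F9_E Q E ρ) (F9_j Q j ρ) σ where
  lb := by
    intro a _ k hk
    obtain ⟨q, hq, hqa, hkq⟩ := hk
    have := hF.lb q hq k hkq
    have := h2 q hq
    omega
  sep := by
    intro a _ a' ha' hlt k hk
    obtain ⟨q, hq, hqa, hkq⟩ := hk
    obtain ⟨q1, hq1, hq1a⟩ := Finset.mem_image.1 ha'
    have ha'Q : a' ∈ Q := hq1a ▸ h1 q1 hq1
    have hρa' : ρ a' = a' := by rw [← hq1a]; exact h3 q1 hq1
    have hqa' : q < a' := by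
      by_contra hcon
      have := h4 a' ha'Q q hq (by omega)
      omega
    refine ⟨(hF.sep q hq a' ha'Q hqa' k hkq).1, ?_⟩
    obtain ⟨q', hq', hq'a, hj⟩ := F9_j_mem Q j ρ a' ⟨q1, hq1, hq1a⟩
    have hqq' : q < q' := by
      by_contra hcon
      have := h4 q' hq' q hq (by omega)
      omega
    rw [← hj]
    exact (hF.sep q hq q' hq' hqq' k hkq).2
  sz := by
    intro a ha
    obtain ⟨q1, hq1, hq1a⟩ := Finset.mem_image.1 ha
    obtain ⟨q', hq', hq'a, hj⟩ := F9_j_mem Q j ρ a ⟨q1, hq1, hq1a⟩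
    rw [← hj]
    exact hF.sz q' hq'

private theorem F9_support (x : ℕ →₀ ℝ) (Q : Finset ℕ) (E : ℕ → Set ℕ) (ρ : ℕ → ℕ) (a : ℕ) :
    (rs (F9_E Q E ρ a) x).support
      = (Q.filter (fun q => ρ q = a)).biUnion (fun q => (rs (E q) x).support) := by
  ext k
  rw [mem_support_rs, Finset.mem_biUnion]
  constructor
  · rintro ⟨⟨q, hq, hqa, hkq⟩, hk⟩
    exact ⟨q, Finset.mem_filter.2 ⟨hq, hqa⟩, mem_support_rs.2 ⟨hkq, hk⟩⟩
  · rintro ⟨q, hq, hk⟩
    obtain ⟨hq, hqa⟩ := Finset.mem_filter.1 hq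
    obtain ⟨hkq, hk⟩ := mem_support_rs.1 hk
    exact ⟨⟨q, hq, hqa, hkq⟩, hk⟩

private theorem F9_class (n : ℕ) (x : ℕ →₀ ℝ) (Q : Finset ℕ) (E : ℕ → Set ℕ) (j : ℕ → ℕ) (σ : ℕ)
    (hσ : 1 ≤ σ) (hF : Fam Q E j σ) (ρ : ℕ → ℕ) (a : ℕ) (ha : ∃ q ∈ Q, ρ q = a)
    (h5 : ∀ q ∈ Q, ρ q = a →
        (x.support.filter (fun k => ∃ q' ∈ Q, ρ q' = a ∧ k ∈ E q')).card ≤ j q) :
    ∑ q ∈ Q.filter (fun q => ρ q = a), av n (j q) (rs (E q) x)
      ≤ av n (F9_j Q j ρ a) (rs (F9_E Q E ρ a) x) := by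
  obtain ⟨q0, hq0, hq0a, hj0⟩ := F9_j_mem Q j ρ a ha
  have hJ1 : 1 ≤ F9_j Q j ρ a := by
    rw [← hj0]; exact hσ.trans (hF.sz q0 hq0)
  have hJpos : (0 : ℝ) < (F9_j Q j ρ a : ℝ) := by exact_mod_cast hJ1
  -- cardinality
  have hcard : (rs (F9_E Q E ρ a) x).support.card ≤ F9_j Q j ρ a := by
    rw [← hj0]
    refine le_trans (le_of_eq ?_) (h5 q0 hq0 hq0a)
    congr 1
    ext k
    rw [mem_support_rs, Finset.mem_filter]
    exact ⟨fun h => ⟨h.2, h.1⟩, fun h => ⟨h.2, h.1⟩⟩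
  refine le_trans ?_ (av_eq_l1 n (F9_j Q j ρ a) _ hcard)
  rw [F9_support, Finset.sum_biUnion, Finset.mul_sum]
  · refine Finset.sum_le_sum (fun q hq => ?_)
    obtain ⟨hq, hqa⟩ := Finset.mem_filter.1 hq
    refine (av_l1 n (j q) _).trans ?_
    have hle : (F9_j Q j ρ a : ℝ) ≤ (j q : ℝ) := by
      exact_mod_cast F9_j_le Q j ρ a q hq hqa
    have h1 : (1 / (j q : ℝ)) ≤ 1 / (F9_j Q j ρ a : ℝ) :=
      one_div_le_one_div_of_le hJpos hle
    have h2 : ∑ k ∈ (rs (E q) x).support, |rs (F9_E Q E ρ a) x k|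
        = ∑ k ∈ (rs (E q) x).support, |rs (E q) x k| := by
      refine Finset.sum_congr rfl (fun k hk => ?_)
      obtain ⟨hkq, _⟩ := mem_support_rs.1 hk
      have hkE : k ∈ F9_E Q E ρ a := ⟨q, hq, hqa, hkq⟩
      rw [rs_apply, rs_apply, if_pos hkE, if_pos hkq]
    rw [h2]
    exact mul_le_mul_of_nonneg_right h1 (Finset.sum_nonneg (fun _ _ => abs_nonneg _))
  · intro q hq q' hq' hne
    rw [Finset.mem_coe, Finset.mem_filter] at hq hq'
    rw [Function.onFun, Finset.disjoint_left]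
    intro k hk hk'
    obtain ⟨hkq, _⟩ := mem_support_rs.1 hk
    obtain ⟨hkq', _⟩ := mem_support_rs.1 hk'
    rcases lt_or_gt_of_ne hne with hlt | hlt
    · have h1 := (hF.sep q hq.1 q' hq'.1 hlt k hkq).1
      have h2 := hF.lb q' hq'.1 k hkq'
      omega
    · have h1 := (hF.sep q' hq'.1 q hq.1 hlt k hkq').1
      have h2 := hF.lb q hq.1 k hkq
      omega

/-- ROW F9 (merging classes). A family `Q, E, j` and a representative map `ρ` on `Q`: `ρ q ∈ Q`, `ρ q ≤ q`, `ρ (ρ q) = ρ q`,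
monotone on `Q`. Suppose that every class `{q ∈ Q : ρ q = a}` is either a singleton or satisfies: the union of the sets
`E q ∩ x.support`, `ρ q = a`, has at most `j q` elements for every `q` of the class. Then the merged family (index `a = ρ a`, set
`⋃_{ρ q = a} E q`, size `min_{ρ q = a} j q`) is a family with the same `σ` and a value which is not smaller.
`Fam.sep` for `a < a'`: `k ∈ E q`, `ρ q = a`; every `q'` with `ρ q' = a'` satisfies `q < q'` (monotonicity), in particular `q < a'` as `ρ a' = a'`.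
Value of a class with the cardinality condition, `J = min j`: `∑_{q} av (j q) (rs (E q) x) ≤ ∑_q (1 / j q) ∑_{k ∈ E q ∩ supp} |x k| ≤ (1/J) ∑_{k ∈ ⋃} |x k| ≤ av J (rs (⋃ E q) x)`
(`av_l1`, the sets `E q` are pairwise disjoint by `Fam.sep`/`lb`, `av_eq_l1` as `card ≤ J`). -/
theorem merge_classes (n : ℕ) (x : ℕ →₀ ℝ) (Q : Finset ℕ) (E : ℕ → Set ℕ) (j : ℕ → ℕ) (σ : ℕ)
    (hσ : 1 ≤ σ) (hF : Fam Q E j σ) (ρ : ℕ → ℕ) (h1 : ∀ q ∈ Q, ρ q ∈ Q)
    (h2 : ∀ q ∈ Q, ρ q ≤ q) (h3 : ∀ q ∈ Q, ρ (ρ q) = ρ q)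
    (h4 : ∀ q ∈ Q, ∀ q' ∈ Q, q ≤ q' → ρ q ≤ ρ q')
    (h5 : ∀ a ∈ Q, (∀ q ∈ Q, ρ q = a → q = a) ∨
      (∀ q ∈ Q, ρ q = a →
        (x.support.filter (fun k => ∃ q' ∈ Q, ρ q' = a ∧ k ∈ E q')).card ≤ j q)) :
    ∃ (E' : ℕ → Set ℕ) (j' : ℕ → ℕ), Fam (Q.image ρ) E' j' σ ∧
      val n Q E j x ≤ val n (Q.image ρ) E' j' x := by
  refine ⟨F9_E Q E ρ, F9_j Q j ρ, F9_fam Q E j σ hF ρ h2 h1 h3 h4, ?_⟩
  unfold val
  rw [← Finset.sum_fiberwise_of_maps_to (s := Q) (t := Q.image ρ) (g := ρ)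
    (fun q hq => Finset.mem_image_of_mem ρ hq)]
  refine Finset.sum_le_sum (fun a ha => ?_)
  obtain ⟨q1, hq1, hq1a⟩ := Finset.mem_image.1 ha
  have haQ : a ∈ Q := hq1a ▸ h1 q1 hq1
  have hρa : ρ a = a := by rw [← hq1a]; exact h3 q1 hq1
  rcases h5 a haQ with hs | hc
  · -- singleton class
    have hfil : Q.filter (fun q => ρ q = a) = {a} := by
      ext q
      rw [Finset.mem_filter, Finset.mem_singleton]
      constructor
      · rintro ⟨hq, hqa⟩; exact hs q hq hqa
      · rintro rfl; exact ⟨haQ, hρa⟩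
    have hE : F9_E Q E ρ a = E a := by
      ext k
      constructor
      · rintro ⟨q, hq, hqa, hk⟩
        rw [← hs q hq hqa]; exact hk
      · intro hk; exact ⟨a, haQ, hρa, hk⟩
    have hj : F9_j Q j ρ a = j a := by
      obtain ⟨q, hq, hqa, hjq⟩ := F9_j_mem Q j ρ a ⟨a, haQ, hρa⟩
      rw [← hjq, hs q hq hqa]
    rw [hfil, Finset.sum_singleton, hE, hj]
  · exact F9_class n x Q E j σ hσ hF ρ a ⟨a, haQ, hρa⟩ hc

/-! ### Part F10 -/

/-- markers whose set is contained in the block `b` -/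
private def F10_C (Q : Finset ℕ) (E : ℕ → Set ℕ) (bl : ℕ → ℕ) (b : ℕ) : Set ℕ :=
  {q | q ∈ Q ∧ bl q = b ∧ ∀ k ∈ E q, bl k = b}

/-- the first contained marker -/
private def F10_f (Q : Finset ℕ) (E : ℕ → Set ℕ) (bl : ℕ → ℕ) (b : ℕ) : ℕ :=
  sInf (F10_C Q E bl b)

/-- the second contained marker -/
private def F10_s (Q : Finset ℕ) (E : ℕ → Set ℕ) (bl : ℕ → ℕ) (b : ℕ) : ℕ :=
  sInf {q | q ∈ F10_C Q E bl b ∧ F10_f Q E bl b < q}

/-- the condition for moving -/
private def F10_P (Q : Finset ℕ) (E : ℕ → Set ℕ) (bl : ℕ → ℕ) (q : ℕ) : Prop :=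
  q ∈ F10_C Q E bl (bl q) ∧ F10_f Q E bl (bl q) < q

/-- the representative -/
private def F10_r (Q : Finset ℕ) (E : ℕ → Set ℕ) (bl : ℕ → ℕ) (q : ℕ) : ℕ :=
  if F10_P Q E bl q then F10_s Q E bl (bl q) else q

private theorem F10_f_mem {Q : Finset ℕ} {E : ℕ → Set ℕ} {bl : ℕ → ℕ} {b q : ℕ}
    (h : q ∈ F10_C Q E bl b) : F10_f Q E bl b ∈ F10_C Q E bl b :=
  Nat.sInf_mem ⟨q, h⟩

private theorem F10_f_le {Q : Finset ℕ} {E : ℕ → Set ℕ} {bl : ℕ → ℕ} {b q : ℕ}
    (h : q ∈ F10_C Q E bl b) : F10_f Q E bl b ≤ q :=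
  Nat.sInf_le h

private theorem F10_s_mem {Q : Finset ℕ} {E : ℕ → Set ℕ} {bl : ℕ → ℕ} {b q : ℕ}
    (h : q ∈ F10_C Q E bl b) (h2 : F10_f Q E bl b < q) :
    F10_s Q E bl b ∈ F10_C Q E bl b ∧ F10_f Q E bl b < F10_s Q E bl b := by
  have hne : ({q | q ∈ F10_C Q E bl b ∧ F10_f Q E bl b < q} : Set ℕ).Nonempty := ⟨q, h, h2⟩
  exact Nat.sInf_mem hne

private theorem F10_s_le {Q : Finset ℕ} {E : ℕ → Set ℕ} {bl : ℕ → ℕ} {b q : ℕ}
    (h : q ∈ F10_C Q E bl b) (h2 : F10_f Q E bl b < q) : F10_s Q E bl b ≤ q :=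
  Nat.sInf_le ⟨h, h2⟩

private theorem F10_core (n : ℕ) (x : ℕ →₀ ℝ) (L : ℕ) (bl : ℕ → ℕ)
    (hblL : ∀ k ∈ x.support, bl k < L)
    (hmono : ∀ k ∈ x.support, ∀ l ∈ x.support, k ≤ l → bl k ≤ bl l)
    (hcard : ∀ k ∈ x.support, (x.support.filter (fun l => bl l = bl k)).card ≤ k + 1)
    (Q : Finset ℕ) (E : ℕ → Set ℕ) (j : ℕ → ℕ) (σ : ℕ) (hσ : 1 ≤ σ) (hF : Fam Q E j σ)
    (hQ : ∀ q ∈ Q, q ∈ x.support) (hqE : ∀ q ∈ Q, q ∈ E q)
    (hE : ∀ q ∈ Q, ∀ k ∈ E q, k ∈ x.support) :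
    ∃ (Q' : Finset ℕ) (E' : ℕ → Set ℕ) (j' : ℕ → ℕ), Fam Q' E' j' σ ∧ Q'.card ≤ 3 * L ∧
      val n Q E j x ≤ val n Q' E' j' x := by
  -- moved markers
  have hP : ∀ q, F10_P Q E bl q → F10_r Q E bl q = F10_s Q E bl (bl q) := by
    intro q h; unfold F10_r; rw [if_pos h]
  have hN : ∀ q, ¬ F10_P Q E bl q → F10_r Q E bl q = q := by
    intro q h; unfold F10_r; rw [if_neg h]
  -- properties of s
  have hsP : ∀ q, F10_P Q E bl q → bl (F10_s Q E bl (bl q)) = bl q ∧
      F10_s Q E bl (bl q) ∈ F10_C Q E bl (bl q) ∧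
      F10_f Q E bl (bl q) < F10_s Q E bl (bl q) ∧ F10_s Q E bl (bl q) ≤ q := by
    intro q h
    have h1 := F10_s_mem h.1 h.2
    exact ⟨h1.1.2.1, h1.1, h1.2, F10_s_le h.1 h.2⟩
  have h1 : ∀ q ∈ Q, F10_r Q E bl q ∈ Q := by
    intro q hq
    by_cases h : F10_P Q E bl q
    · rw [hP q h]; exact (hsP q h).2.1.1
    · rw [hN q h]; exact hq
  have h2 : ∀ q ∈ Q, F10_r Q E bl q ≤ q := by
    intro q hq
    by_cases h : F10_P Q E bl q
    · rw [hP q h]; exact (hsP q h).2.2.2
    · rw [hN q h]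
  have h3 : ∀ q ∈ Q, F10_r Q E bl (F10_r Q E bl q) = F10_r Q E bl q := by
    intro q hq
    by_cases h : F10_P Q E bl q
    · obtain ⟨ha, hb, hc, _⟩ := hsP q h
      rw [hP q h]
      have hPs : F10_P Q E bl (F10_s Q E bl (bl q)) := by
        unfold F10_P
        rw [ha]
        exact ⟨hb, hc⟩
      rw [hP _ hPs, ha]
    · rw [hN q h, hN q h]
  have h4 : ∀ q ∈ Q, ∀ q' ∈ Q, q ≤ q' → F10_r Q E bl q ≤ F10_r Q E bl q' := by
    intro q hq q' hq' hle
    by_cases h' : F10_P Q E bl q'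
    · obtain ⟨ha, hb, hc, hd⟩ := hsP q' h'
      rw [hP q' h']
      by_cases hqs : q ≤ F10_s Q E bl (bl q')
      · exact (h2 q hq).trans hqs
      · push Not at hqs
        -- q lies in the same block and is contained
        have hbq : bl q = bl q' := by
          apply le_antisymm (hmono q (hQ q hq) q' (hQ q' hq') hle)
          rw [← ha]
          exact hmono _ (hQ _ hb.1) q (hQ q hq) hqs.le
        have hPq : F10_P Q E bl q := by
          rcases hle.lt_or_eq with hlt | heq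
          · refine ⟨⟨hq, rfl, ?_⟩, ?_⟩
            · intro k hk
              have hkx := hE q hq k hk
              have hk1 := hF.lb q hq k hk
              have hk2 := (hF.sep q hq q' hq' hlt k hk).1
              apply le_antisymm
              · rw [hbq]; exact hmono k hkx q' (hQ q' hq') hk2.le
              · exact hmono q (hQ q hq) k hkx hk1
            · rw [hbq]; exact hc.trans hqs
          · rw [heq]; exact h'
        rw [hP q hPq, hbq]
    · rw [hN q' h']
      exact (h2 q hq).trans hle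
  have h5 : ∀ a ∈ Q, (∀ q ∈ Q, F10_r Q E bl q = a → q = a) ∨
      (∀ q ∈ Q, F10_r Q E bl q = a →
        (x.support.filter (fun k => ∃ q' ∈ Q, F10_r Q E bl q' = a ∧ k ∈ E q')).card ≤ j q) := by
    intro a ha
    by_cases hsing : ∀ q ∈ Q, F10_r Q E bl q = a → q = a
    · exact Or.inl hsing
    · right
      push Not at hsing
      obtain ⟨q0, hq0, hr0, hne0⟩ := hsing
      have hP0 : F10_P Q E bl q0 := by
        by_contra hcon
        rw [hN q0 hcon] at hr0
        exact hne0 hr0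
      obtain ⟨hc1, hc2, hc3, hc4⟩ := hsP q0 hP0
      have has : F10_s Q E bl (bl q0) = a := by rw [← hP q0 hP0]; exact hr0
      rw [has] at hc1 hc2 hc3 hc4
      -- all members are contained in the block `bl a`
      have hmem : ∀ q ∈ Q, F10_r Q E bl q = a →
          q ∈ F10_C Q E bl (bl a) ∧ F10_f Q E bl (bl a) < q := by
        intro q hq hr
        by_cases h : F10_P Q E bl q
        · obtain ⟨hd1, hd2, hd3, hd4⟩ := hsP q h
          have : F10_s Q E bl (bl q) = a := by rw [← hP q h]; exact hr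
          rw [this] at hd1
          rw [hd1]
          exact h
        · rw [hN q h] at hr
          rw [hr, hc1]
          exact ⟨hc2, hc3⟩
      intro q hq hr
      obtain ⟨hqC, hqf⟩ := hmem q hq hr
      have hf := F10_f_mem hqC
      have hfx := hQ _ hf.1
      have hlt := (hF.sep _ hf.1 q hq hqf _ (hqE _ hf.1)).2
      refine le_trans ?_ (Nat.succ_le_of_lt hlt)
      refine le_trans (Finset.card_le_card ?_) (hcard _ hfx)
      intro k hk
      obtain ⟨hkx, q', hq', hr', hkq'⟩ := Finset.mem_filter.1 hk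
      refine Finset.mem_filter.2 ⟨hkx, ?_⟩
      rw [hf.2.1]
      exact (hmem q' hq' hr').1.2.2 k hkq'
  obtain ⟨E', j', hF', hval⟩ := merge_classes n x Q E j σ hσ hF (F10_r Q E bl) h1 h2 h3 h4 h5
  refine ⟨Q.image (F10_r Q E bl), E', j', hF', ?_, hval⟩
  -- cardinality
  have hX : (Q.filter (fun q => q ∉ F10_C Q E bl (bl q))).card ≤ L := by
    rw [← Finset.card_range L]
    refine Finset.card_le_card_of_injOn bl ?_ ?_
    · intro q hq
      rw [Finset.mem_coe, Finset.mem_filter] at hq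
      rw [Finset.mem_coe, Finset.mem_range]
      exact hblL q (hQ q hq.1)
    · -- no two crossing markers are in the same block
      have key : ∀ q ∈ Q, q ∉ F10_C Q E bl (bl q) → ∀ q' ∈ Q, q < q' → bl q ≠ bl q' := by
        intro q hq hqC q' hq' hlt heq
        apply hqC
        refine ⟨hq, rfl, fun k hk => ?_⟩
        have hkx := hE q hq k hk
        have hk1 := hF.lb q hq k hk
        have hk2 := (hF.sep q hq q' hq' hlt k hk).1
        apply le_antisymm
        · rw [heq]; exact hmono k hkx q' (hQ q' hq') hk2.le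
        · exact hmono q (hQ q hq) k hkx hk1
      intro q hq q' hq' heq
      rw [Finset.mem_coe, Finset.mem_filter] at hq hq'
      rcases lt_trichotomy q q' with hlt | heq' | hlt
      · exact absurd heq (key q hq.1 hq.2 q' hq'.1 hlt)
      · exact heq'
      · exact absurd heq.symm (key q' hq'.1 hq'.2 q hq.1 hlt)
  have hsub : Q.image (F10_r Q E bl) ⊆ (Q.filter (fun q => q ∉ F10_C Q E bl (bl q))) ∪
      ((range L).image (F10_f Q E bl) ∪ (range L).image (F10_s Q E bl)) := by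
    intro a ha
    obtain ⟨q, hq, rfl⟩ := Finset.mem_image.1 ha
    by_cases h : F10_P Q E bl q
    · rw [hP q h]
      refine Finset.mem_union_right _ (Finset.mem_union_right _ ?_)
      exact Finset.mem_image_of_mem _ (Finset.mem_range.2 (hblL q (hQ q hq)))
    · rw [hN q h]
      by_cases hC : q ∈ F10_C Q E bl (bl q)
      · refine Finset.mem_union_right _ (Finset.mem_union_left _ ?_)
        have h6 : ¬ F10_f Q E bl (bl q) < q := fun hlt => h ⟨hC, hlt⟩
        have h7 := F10_f_le hC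
        have h8 : F10_f Q E bl (bl q) = q := by omega
        exact Finset.mem_image.2 ⟨bl q, Finset.mem_range.2 (hblL q (hQ q hq)), h8⟩
      · exact Finset.mem_union_left _ (Finset.mem_filter.2 ⟨hq, hC⟩)
  have hc1 := Finset.card_le_card hsub
  have hc2 := Finset.card_union_le (Q.filter (fun q => q ∉ F10_C Q E bl (bl q)))
    ((range L).image (F10_f Q E bl) ∪ (range L).image (F10_s Q E bl))
  have hc3 := Finset.card_union_le ((range L).image (F10_f Q E bl))
    ((range L).image (F10_s Q E bl))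
  have hc4 : ((range L).image (F10_f Q E bl)).card ≤ L := by
    have := Finset.card_image_le (s := range L) (f := F10_f Q E bl)
    rwa [Finset.card_range] at this
  have hc5 : ((range L).image (F10_s Q E bl)).card ≤ L := by
    have := Finset.card_image_le (s := range L) (f := F10_s Q E bl)
    rwa [Finset.card_range] at this
  omega

/-- ROW F10 (merging in blocks). Blocks `B 0 < ... < B (L-1)` covering the support of `x` such that every block has at most `k+1` points of the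
support for every point `k` of the block. Then every family on `x` with sizes `≥ σ` is dominated by one with at most `3 L` sets.
Proof: re-mark (`remark_fam`), so `q ∈ E q`, `E q ⊆ x.support`. Call `q` contained in `b` if `E q ⊆ B b` (unique `b < L`), otherwise crossing. Representative map: if `q` is
contained in `b` and there is a smaller one contained in `b`, then `ρ q` = the second smallest `q' ∈ Q` contained in `b` (i.e. the least one that is not the first); otherwise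
`ρ q = q`. Classes are order convex: if `q < q'' < q'` and `q, q'` are contained in `b`, then so is `q''` (points between points of `B b` lie in `B b` because all points of the support are
covered and the blocks are successive). Non singleton classes: the union of the `E q` is `⊆ B b ∩ x.support`, and all its members `q` have
`j q > k` for a `k ∈ E q_first`, so `j q ≥ k + 1 ≥ card`. Apply `merge_classes`. Number of representatives: crossing ones `≤ L` (map a crossing `q` to the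
largest `b` it meets: injective), the first contained ones `≤ L`, the second ones `≤ L`. So the merged index set has at most `3L` elements: `schU_zero`. -/
theorem merge_blocks (n : ℕ) (x : ℕ →₀ ℝ) (L : ℕ) (B : ℕ → Set ℕ) (hB : SuccS B)
    (hcov : ∀ k ∈ x.support, ∃ b < L, k ∈ B b)
    (hcard : ∀ b < L, ∀ k ∈ x.support, k ∈ B b →
      (x.support.filter (fun l => l ∈ B b)).card ≤ k + 1)
    (σ : ℕ) (hσ : 1 ≤ σ) (A : ℝ) (h : Bd n (SchU 0 (3 * L)) σ x A) (G : Finset ℕ → Prop) :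
    Bd n G σ x A := by
  choose! bl hbl using hcov
  have hmono : ∀ k ∈ x.support, ∀ l ∈ x.support, k ≤ l → bl k ≤ bl l := by
    intro k hk l hl hkl
    by_contra hcon
    push Not at hcon
    have := hB (bl l) (bl k) hcon l (hbl l hl).2 k (hbl k hk).2
    omega
  have hcard' : ∀ k ∈ x.support, (x.support.filter (fun l => bl l = bl k)).card ≤ k + 1 := by
    intro k hk
    refine le_trans (Finset.card_le_card ?_) (hcard (bl k) (hbl k hk).1 k hk (hbl k hk).2)
    intro l hl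
    obtain ⟨hlx, hll⟩ := Finset.mem_filter.1 hl
    refine Finset.mem_filter.2 ⟨hlx, ?_⟩
    rw [← hll]
    exact (hbl l hlx).2
  intro Q0 E0 j0 hF0 _
  obtain ⟨Q, φ, _, _, _, hQ, hF, hv⟩ := remark_fam n x Q0 E0 j0 σ hF0
  obtain ⟨Q', E', j', hF', hc', hv'⟩ := F10_core n x L bl (fun k hk => (hbl k hk).1) hmono hcard'
    Q _ _ σ hσ hF (fun q hq => (hQ q hq).1)
    (fun q hq => ⟨(hQ q hq).2.1, Finset.mem_coe.2 (hQ q hq).1⟩)
    (fun q _ k hk => Finset.mem_coe.1 hk.2)
  rw [hv]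
  exact hv'.trans (h Q' E' j' hF' ((schU_zero (3 * L) Q').2 hc'))

/-! ### Part L2 -/

private theorem L2_find (θ k : ℕ) (h1 : θ < k) :
    ∀ r : ℕ, k ≤ 2 ^ r * θ → ∃ b < r, 2 ^ b * θ < k ∧ k ≤ 2 ^ (b + 1) * θ := by
  intro r
  induction r with
  | zero =>
    intro h
    rw [pow_zero, one_mul] at h
    omega
  | succ r ih =>
    intro h
    by_cases h2 : k ≤ 2 ^ r * θ
    · obtain ⟨b, hb, h3, h4⟩ := ih h2
      exact ⟨b, by omega, h3, h4⟩
    · exact ⟨r, by omega, by omega, h⟩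

/-- ROW L2 (dyadic merging). `merge_blocks` with the blocks `(2^b θ, 2^(b+1) θ]`, `b < r` (for `b ≥ r` as well, as `B b` in `ℕ`-indexed
form): `card ≤ 2^b θ ≤ k`. -/
theorem dyadic (n : ℕ) (x : ℕ →₀ ℝ) (θ r σ : ℕ) (hθ : 1 ≤ θ) (hσ : 1 ≤ σ)
    (hsupp : ∀ k ∈ x.support, θ < k ∧ k ≤ 2 ^ r * θ) (A : ℝ)
    (h : Bd n (SchU 0 (3 * r)) σ x A) (G : Finset ℕ → Prop) : Bd n G σ x A := by
  refine merge_blocks n x r (fun b => Set.Ioc (2 ^ b * θ) (2 ^ (b + 1) * θ)) ?_ ?_ ?_ σ hσ A h G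
  · intro p q hpq a ha b hb
    have h1 : 2 ^ (p + 1) ≤ 2 ^ q := Nat.pow_le_pow_right (by norm_num) hpq
    have h2 : 2 ^ (p + 1) * θ ≤ 2 ^ q * θ := Nat.mul_le_mul_right θ h1
    exact lt_of_le_of_lt (ha.2.trans h2) hb.1
  · intro k hk
    obtain ⟨h1, h2⟩ := hsupp k hk
    obtain ⟨b, hb, h3, h4⟩ := L2_find θ k h1 r h2
    exact ⟨b, hb, h3, h4⟩
  · intro b _ k _ hkb
    have h2 : 2 ^ (b + 1) * θ = 2 ^ b * θ + 2 ^ b * θ := by rw [pow_succ]; ring
    have h3 : 2 ^ b * θ < k := hkb.1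
    refine (Finset.card_le_card (t := Finset.Ioc (2 ^ b * θ) (2 ^ (b + 1) * θ)) ?_).trans ?_
    · intro l hl
      simp only [Finset.mem_filter] at hl
      exact Finset.mem_Ioc.2 hl.2
    · rw [Nat.card_Ioc]
      omega

/-! ### Part L3 -/

/-- ROW L3 (Lemma F). `r := Nat.log 2 θ + 2`: `2^r ≥ 2θ` and `3 r ≤ θ` (as `θ ≥ 32`). Given a family `Q, E, j` with sizes `≥ θ+1`, split `Q`:
`Q1` = the `q` with all points of `E q ∩ x.support` `≤ 2^r θ`; `Q3` = the `q ∉ Q1` with all points `> 2^r θ`; `Q2` = the rest (both kinds of points): at most one.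
`Q1`: value at `x` = value at `x1 = rs (Iic (2^r θ)) x`, and `Bd (SchU 0 (3r)) (θ+1) x1 A` (from `hA`: `bd_rs`, `bd_sch_up` to `Sch 1`, `bd_beyond` as `3 r ≤ θ < k`), so `≤ A` by `dyadic`.
`Q2`: one average (`bd_sch_up` to `Sch 0`): `≤ A`. `Q3`: value at `x3 = rs (Ioi (2^r θ)) x`, whose support is beyond `2^r θ ≥ 2 θ^2 ≥ c`: `bd_beyond`, `schU_subset`: `≤ A`. -/
theorem lemmaF (ν : ℕ) (x : ℕ →₀ ℝ) (hx : 0 ≤ x) (θ c : ℕ) (hθ : 32 ≤ θ) (hc : c ≤ 2 * θ ^ 2)
    (hsupp : ∀ k ∈ x.support, θ < k) (A : ℝ) (hA : Bd (ν + 1) (Sch (ν + 1)) (θ + 1) x A) :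
    Bd (ν + 1) (SchU ν c) (θ + 1) x (3 * A) := by
  classical
  have hlog : 2 ^ (Nat.log 2 θ) ≤ θ := Nat.pow_log_le_self 2 (by omega)
  have hlog2 : θ < 2 ^ (Nat.log 2 θ + 1) := Nat.lt_pow_succ_log_self (by norm_num) θ
  have hlog5 : 5 ≤ Nat.log 2 θ := Nat.le_log_of_pow_le (by norm_num) (by omega)
  have hr2 : 2 * θ ≤ 2 ^ (Nat.log 2 θ + 2) := by
    rw [pow_succ]; omega
  have hr3 : 3 * (Nat.log 2 θ + 2) ≤ θ := by
    refine le_trans ?_ hlog
    generalize Nat.log 2 θ = L at hlog5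
    induction L, hlog5 using Nat.le_induction with
    | base => norm_num
    | succ m hm ih => rw [pow_succ]; omega
  generalize Nat.log 2 θ + 2 = r at hr2 hr3
  clear hlog hlog2 hlog5
  have hpos : ∀ k ∈ x.support, 1 ≤ k := fun k hk => by have := hsupp k hk; omega
  intro Q E j hF hQ
  -- the three parts
  set W : ℕ := 2 ^ r * θ with hW
  have hWc : c ≤ W := by
    refine hc.trans ?_
    rw [hW]
    have h := Nat.mul_le_mul_right θ hr2
    nlinarith [h]
  set P1 : ℕ → Prop := fun q => ∀ k ∈ x.support, k ∈ E q → k ≤ W with hP1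
  set P3 : ℕ → Prop := fun q => ∀ k ∈ x.support, k ∈ E q → W < k with hP3
  have hsplit : val (ν + 1) Q E j x = val (ν + 1) (Q.filter P1) E j x +
      (val (ν + 1) ((Q.filter (fun q => ¬ P1 q)).filter P3) E j x +
        val (ν + 1) ((Q.filter (fun q => ¬ P1 q)).filter (fun q => ¬ P3 q)) E j x) := by
    unfold val
    rw [Finset.sum_filter_add_sum_filter_not (Q.filter (fun q => ¬ P1 q)) P3,
      Finset.sum_filter_add_sum_filter_not Q P1]
  -- part 1
  have h1 : val (ν + 1) (Q.filter P1) E j x ≤ A := by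
    have e : val (ν + 1) (Q.filter P1) E j x =
        val (ν + 1) (Q.filter P1) E j (rs (Set.Iic W) x) := by
      unfold val
      refine Finset.sum_congr rfl fun q hq => ?_
      rw [rs_rs]
      congr 1
      refine rs_congr fun k hk => ⟨fun h => ⟨h, ?_⟩, fun h => h.1⟩
      exact (Finset.mem_filter.1 hq).2 k hk h
    rw [e]
    have hx1 : Bd (ν + 1) (Sch (ν + 1)) (θ + 1) (rs (Set.Iic W) x) A := bd_rs hx _ hA
    have hpos1 : ∀ k ∈ (rs (Set.Iic W) x).support, 1 ≤ k := fun k hk =>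
      hpos k (mem_support_rs.1 hk).2
    have hx2 : Bd (ν + 1) (Sch (0 + 1)) (θ + 1) (rs (Set.Iic W) x) A :=
      bd_sch_up (by omega) hpos1 hx1
    have hx3 : Bd (ν + 1) (SchU 0 (3 * r)) (θ + 1) (rs (Set.Iic W) x) A := by
      refine bd_beyond (fun k hk => ?_) hx2
      have := hsupp k (mem_support_rs.1 hk).2
      omega
    have hx4 : Bd (ν + 1) (fun _ => True) (θ + 1) (rs (Set.Iic W) x) A := by
      refine dyadic (ν + 1) _ θ r (θ + 1) (by omega) (by omega) (fun k hk => ?_) A hx3 _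
      exact ⟨hsupp k (mem_support_rs.1 hk).2, (mem_support_rs.1 hk).1⟩
    exact hx4 _ E j (hF.sub (Finset.filter_subset _ _) (fun q _ => le_refl _)
      (fun q _ => le_refl _) (fun q hq => hF.sz q (Finset.mem_filter.1 hq).1)) trivial
  -- part 3
  have h3 : val (ν + 1) ((Q.filter (fun q => ¬ P1 q)).filter P3) E j x ≤ A := by
    have hsub : (Q.filter (fun q => ¬ P1 q)).filter P3 ⊆ Q :=
      (Finset.filter_subset _ _).trans (Finset.filter_subset _ _)
    have e : val (ν + 1) ((Q.filter (fun q => ¬ P1 q)).filter P3) E j x =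
        val (ν + 1) ((Q.filter (fun q => ¬ P1 q)).filter P3) E j (rs (Set.Ioi W) x) := by
      unfold val
      refine Finset.sum_congr rfl fun q hq => ?_
      rw [rs_rs]
      congr 1
      refine rs_congr fun k hk => ⟨fun h => ⟨h, ?_⟩, fun h => h.1⟩
      exact (Finset.mem_filter.1 hq).2 k hk h
    rw [e]
    have hx1 : Bd (ν + 1) (Sch (ν + 1)) (θ + 1) (rs (Set.Ioi W) x) A := bd_rs hx _ hA
    have hx2 : Bd (ν + 1) (SchU ν c) (θ + 1) (rs (Set.Ioi W) x) A := by
      refine bd_beyond (fun k hk => ?_) hx1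
      have h5 : W < k := (mem_support_rs.1 hk).1
      omega
    exact hx2 _ E j (hF.sub hsub (fun q _ => le_refl _)
      (fun q _ => le_refl _) (fun q hq => hF.sz q (hsub hq))) (schU_subset ν c hsub hQ)
  -- part 2
  have h2 : val (ν + 1) ((Q.filter (fun q => ¬ P1 q)).filter (fun q => ¬ P3 q)) E j x ≤ A := by
    have hsub : (Q.filter (fun q => ¬ P1 q)).filter (fun q => ¬ P3 q) ⊆ Q :=
      (Finset.filter_subset _ _).trans (Finset.filter_subset _ _)
    have hx1 : Bd (ν + 1) (Sch 0) (θ + 1) x A := bd_sch_up (Nat.zero_le _) hpos hA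
    refine hx1 _ E j (hF.sub hsub (fun q _ => le_refl _)
      (fun q _ => le_refl _) (fun q hq => hF.sz q (hsub hq))) ?_
    have key : ∀ q q', q ∈ (Q.filter (fun q => ¬ P1 q)).filter (fun q => ¬ P3 q) →
        q' ∈ (Q.filter (fun q => ¬ P1 q)).filter (fun q => ¬ P3 q) → ¬ q < q' := by
      intro q q' hq hq' hlt
      have a1 := (Finset.mem_filter.1 (Finset.mem_filter.1 hq).1).2
      have a2 := (Finset.mem_filter.1 hq').2
      simp only [hP1, hP3, not_forall, not_le, not_lt] at a1 a2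
      obtain ⟨k, hk, hkE, hkW⟩ := a1
      obtain ⟨k', hk', hkE', hkW'⟩ := a2
      have b1 := (hF.sep q (hsub hq) q' (hsub hq') hlt k hkE).1
      have b2 := hF.lb q' (hsub hq') k' hkE'
      omega
    show Finset.card _ ≤ 1
    rw [Finset.card_le_one]
    intro a ha b hb
    by_contra hne
    rcases Nat.lt_or_gt_of_ne hne with h | h
    · exact key a b ha hb h
    · exact key b a hb ha h
  rw [hsplit]
  linarith

/-! ### Part G1 -/

/-- the greedy sequence -/
private def G1_seq (Good : ℕ → ℕ → Prop) (g0 : ℕ) : ℕ → ℕ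
  | 0 => g0
  | (i + 1) => if h : ∃ b, ¬ Good (G1_seq Good g0 i) b then Nat.find h else 0

/-- ROW G1 (greedy points). Pure combinatorics. Starting from `g0`, as long as there is `b` with `¬ Good a b` let the next point be the least such
`b` (it is `> a` by `hself`). By `hL` there are fewer than `L` steps; `r` = number of steps. After the last point `g r`: all `Good (g r) b`; put `g (r+1) = max H (g r) + 1` and
`g (r+1+t) = g (r+1) + t`. -/
theorem greedy (Good : ℕ → ℕ → Prop)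
    (hself : ∀ a b, b ≤ a → Good a b) (g0 L H : ℕ)
    (hL : ∀ h : ℕ → ℕ, h 0 = g0 → (∀ i < L, h i < h (i + 1) ∧ ¬ Good (h i) (h (i + 1))) → False) :
    ∃ r < L, ∃ g : ℕ → ℕ, StrictMono g ∧ g 0 = g0 ∧ H < g (r + 1) ∧
      ∀ i ≤ r, ∀ b < g (i + 1), Good (g i) b := by
  set s := G1_seq Good g0 with hs
  have hs0 : s 0 = g0 := by simp [hs, G1_seq]
  have hsucc : ∀ i, ∀ h : (∃ b, ¬ Good (s i) b), s (i + 1) = Nat.find h := by
    intro i h
    have : s (i + 1) = if h : ∃ b, ¬ Good (s i) b then Nat.find h else 0 := by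
      simp only [hs, G1_seq]
    rw [this, dif_pos h]
  have hex : ∃ i, i < L ∧ ∀ b, Good (s i) b := by
    by_contra hcon
    push Not at hcon
    refine hL s hs0 ?_
    intro i hi
    obtain ⟨b, hb⟩ := hcon i hi
    have h : ∃ b, ¬ Good (s i) b := ⟨b, hb⟩
    have hf := Nat.find_spec h
    rw [hsucc i h]
    refine ⟨?_, hf⟩
    by_contra hle
    exact hf (hself _ _ (not_lt.mp hle))
  obtain ⟨hrL, hrG⟩ := Nat.find_spec hex
  set r := Nat.find hex with hr
  have hlt : ∀ i, i < r → ∃ b, ¬ Good (s i) b := by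
    intro i hi
    have := Nat.find_min hex hi
    push Not at this
    exact this (by omega)
  refine ⟨r, hrL, fun i => if i ≤ r then s i else max H (s r) + 1 + (i - (r + 1)), ?_, ?_, ?_, ?_⟩
  · refine strictMono_nat_of_lt_succ ?_
    intro i
    by_cases h1 : i + 1 ≤ r
    · have h2 : i ≤ r := by omega
      simp only [h1, h2, if_true]
      have h := hlt i (by omega)
      have hf := Nat.find_spec h
      rw [hsucc i h]
      by_contra hle
      exact hf (hself _ _ (not_lt.mp hle))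
    · by_cases h2 : i ≤ r
      · have h3 : i = r := by omega
        simp only [h1, h2, if_true, if_false]
        rw [h3]
        have : s r ≤ max H (s r) := le_max_right _ _
        omega
      · simp only [h1, h2, if_false]
        omega
  · simp [hs0]
  · have h1 : ¬ (r + 1 ≤ r) := by omega
    simp only [h1, if_false]
    have : H ≤ max H (s r) := le_max_left _ _
    omega
  · intro i hi b hb
    simp only [hi, if_true]
    by_cases h1 : i + 1 ≤ r
    · simp only [h1, if_true] at hb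
      have h := hlt i (by omega)
      rw [hsucc i h] at hb
      have := Nat.find_min h hb
      push Not at this
      exact this
    · have h3 : i = r := by omega
      rw [h3]
      exact hrG b

/-! ### Part BS1 -/

private theorem BS1_succ_disj {D : ℕ → Set ℕ} (hD : SuccS D) {p q k : ℕ} (hp : k ∈ D p)
    (hq : k ∈ D q) : p = q := by
  rcases lt_trichotomy p q with h | h | h
  · exact absurd (hD p q h k hp k hq) (lt_irrefl _)
  · exact h
  · exact absurd (hD q p h k hq k hp) (lt_irrefl _)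

/-- ROW BS1. Calculus of `BS n L τ u` (every `d` successive pieces have total norm `≤ τ (d + L)`). -/
theorem bs_of_nrm (n : ℕ) (u : ℕ →₀ ℝ) (τ : ℝ) (h : nrm n u ≤ τ) : BS n 0 τ u := by
  intro d D _
  calc ∑ p ∈ range d, nrm n (rs (D p) u) ≤ ∑ _p ∈ range d, τ :=
        Finset.sum_le_sum (fun p _ => (nrm_rs_le n (D p) u).trans h)
    _ = τ * (d + 0) := by
        rw [Finset.sum_const, Finset.card_range, nsmul_eq_mul, add_zero, mul_comm]

theorem bs_mono {n : ℕ} {u : ℕ →₀ ℝ} {L L' τ τ' : ℝ} (hτ : 0 ≤ τ) (hL : 0 ≤ L) (h1 : L ≤ L')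
    (h2 : τ ≤ τ') (h : BS n L τ u) : BS n L' τ' u := by
  intro d D hD
  have hd : (0 : ℝ) ≤ d := Nat.cast_nonneg d
  calc ∑ p ∈ range d, nrm n (rs (D p) u) ≤ τ * (d + L) := h d D hD
    _ ≤ τ' * (d + L') := mul_le_mul h2 (by linarith) (by linarith) (hτ.trans h2)

theorem bs_add {n : ℕ} {u u' : ℕ →₀ ℝ} {L τ τ' : ℝ} (h : BS n L τ u) (h' : BS n L τ' u') :
    BS n L (τ + τ') (u + u') := by
  intro d D hD
  calc ∑ p ∈ range d, nrm n (rs (D p) (u + u'))
      ≤ ∑ p ∈ range d, (nrm n (rs (D p) u) + nrm n (rs (D p) u')) := by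
        refine Finset.sum_le_sum (fun p _ => ?_)
        rw [rs_add]
        exact nrm_add_le n _ _
    _ = ∑ p ∈ range d, nrm n (rs (D p) u) + ∑ p ∈ range d, nrm n (rs (D p) u') :=
        Finset.sum_add_distrib
    _ ≤ τ * (d + L) + τ' * (d + L) := add_le_add (h d D hD) (h' d D hD)
    _ = (τ + τ') * (d + L) := by ring

theorem bs_zero (n : ℕ) (L τ : ℝ) (hL : 0 ≤ L) (hτ : 0 ≤ τ) : BS n L τ 0 := by
  intro d D _
  have h1 : ∑ p ∈ range d, nrm n (rs (D p) (0 : ℕ →₀ ℝ)) = 0 := by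
    apply Finset.sum_eq_zero
    intro p _
    rw [rs_zero, nrm_zero]
  rw [h1]
  have hd : (0 : ℝ) ≤ d := Nat.cast_nonneg d
  exact mul_nonneg hτ (by linarith)

private theorem BS1_sum_rs (u : ℕ →₀ ℝ) (E : Set ℕ) :
    ∑ k ∈ (rs E u).support, |rs E u k| = ∑ k ∈ u.support, if k ∈ E then |u k| else 0 := by
  have h1 : (rs E u).support ⊆ u.support := by
    intro k hk
    exact (mem_support_rs.1 hk).2
  rw [Finset.sum_subset h1 (f := fun k => |rs E u k|)]
  · refine Finset.sum_congr rfl (fun k _ => ?_)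
    rw [rs_apply]
    split_ifs
    · rfl
    · exact abs_zero
  · intro k _ hk
    have : rs E u k = 0 := by simpa using hk
    rw [this, abs_zero]

private theorem BS1_sum_le (u : ℕ →₀ ℝ) (d : ℕ) (D : ℕ → Set ℕ) (hD : SuccS D) :
    ∑ p ∈ range d, ∑ k ∈ (rs (D p) u).support, |rs (D p) u k| ≤ ∑ k ∈ u.support, |u k| := by
  have h1 : ∑ p ∈ range d, ∑ k ∈ (rs (D p) u).support, |rs (D p) u k| =
      ∑ k ∈ u.support, ∑ p ∈ range d, if k ∈ D p then |u k| else 0 := by
    rw [Finset.sum_comm]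
    exact Finset.sum_congr rfl (fun p _ => BS1_sum_rs u (D p))
  rw [h1]
  refine Finset.sum_le_sum (fun k _ => ?_)
  by_cases hex : ∃ p ∈ range d, k ∈ D p
  · obtain ⟨p, hp, hk⟩ := hex
    rw [Finset.sum_eq_single p]
    · rw [if_pos hk]
    · intro q _ hqp
      rw [if_neg]
      intro hkq
      exact hqp (BS1_succ_disj hD hkq hk)
    · intro h
      exact absurd hp h
  · rw [Finset.sum_eq_zero]
    · exact abs_nonneg _
    · intro p hp
      rw [if_neg]
      intro hk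
      exact hex ⟨p, hp, hk⟩

/-- vectors with at most `N` coordinates of modulus `≤ τ` (`nrm_l1`). -/
theorem bs_card (n : ℕ) (u : ℕ →₀ ℝ) (N : ℕ) (τ : ℝ) (h0 : 0 ≤ τ) (hc : u.support.card ≤ N)
    (h : ∀ k, |u k| ≤ τ) : BS n N τ u := by
  intro d D hD
  have hd : (0 : ℝ) ≤ d := Nat.cast_nonneg d
  have hN : (u.support.card : ℝ) ≤ N := by exact_mod_cast hc
  calc ∑ p ∈ range d, nrm n (rs (D p) u)
      ≤ ∑ p ∈ range d, ∑ k ∈ (rs (D p) u).support, |rs (D p) u k| :=
        Finset.sum_le_sum (fun p _ => nrm_l1 n _)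
    _ ≤ ∑ k ∈ u.support, |u k| := BS1_sum_le u d D hD
    _ ≤ ∑ _k ∈ u.support, τ := Finset.sum_le_sum (fun k _ => h k)
    _ = τ * u.support.card := by rw [Finset.sum_const, nsmul_eq_mul, mul_comm]
    _ ≤ τ * (d + N) := mul_le_mul_of_nonneg_left (by linarith) h0

theorem bs_av {n : ℕ} {u : ℕ →₀ ℝ} {L τ : ℝ} (h : BS n L τ u) (j : ℕ) (hj : 1 ≤ j) :
    av n j u ≤ τ * (1 + L / j) := by
  have hj0 : (0 : ℝ) < j := by exact_mod_cast hj
  apply av_le
  intro D hD
  calc (1 / (j : ℝ)) * ∑ p ∈ range j, nrm n (rs (D p) u)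
      ≤ (1 / (j : ℝ)) * (τ * (j + L)) :=
        mul_le_mul_of_nonneg_left (h j D hD) (by positivity)
    _ = τ * (1 + L / j) := by field_simp

/-- Finset indexed version: only the pieces `p ∈ P` (re-index them increasingly). -/
theorem bs_finset {n : ℕ} {u : ℕ →₀ ℝ} {L τ : ℝ} (h : BS n L τ u) (D : ℕ → Set ℕ)
    (hD : SuccS D) (P : Finset ℕ) : ∑ p ∈ P, nrm n (rs (D p) u) ≤ τ * (P.card + L) := by
  set D' : ℕ → Set ℕ := fun i => if hi : i < P.card then D (P.orderEmbOfFin rfl ⟨i, hi⟩) else ∅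
    with hD'
  have hS : SuccS D' := by
    intro p q hpq a ha b hb
    rw [hD'] at ha hb
    simp only at ha hb
    by_cases hp : p < P.card
    · by_cases hq : q < P.card
      · rw [dif_pos hp] at ha
        rw [dif_pos hq] at hb
        refine hD _ _ ?_ a ha b hb
        exact (P.orderEmbOfFin rfl).strictMono (by exact hpq)
      · rw [dif_neg hq] at hb
        exact absurd hb (Set.notMem_empty b)
    · rw [dif_neg hp] at ha
      exact absurd ha (Set.notMem_empty a)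
  have h1 := h P.card D' hS
  have h2 : ∑ p ∈ range P.card, nrm n (rs (D' p) u) = ∑ p ∈ P, nrm n (rs (D p) u) := by
    rw [Finset.sum_range]
    conv_rhs => rw [← Finset.map_orderEmbOfFin_univ P rfl]
    rw [Finset.sum_map]
    refine Finset.sum_congr rfl (fun i _ => ?_)
    rw [hD']
    simp only
    rw [dif_pos i.2]
    rfl
  rw [← h2]
  exact h1

/-- Counting pairs: `(p,b) ↦ p + b` is injective on the pairs with `D p ∩ B b ∩ S ≠ ∅`. -/
theorem pairs_card (D B : ℕ → Set ℕ) (hD : SuccS D) (hB : SuccS B) (S : Set ℕ) (d r : ℕ) :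
    (((range d) ×ˢ (range r)).filter (fun p => (D p.1 ∩ B p.2 ∩ S).Nonempty)).card ≤ d + r := by
  rw [← Finset.card_range (d + r)]
  apply Finset.card_le_card_of_injOn (fun p => p.1 + p.2)
  · intro p hp
    have hp' := Finset.mem_coe.1 hp
    rw [Finset.mem_filter, Finset.mem_product, Finset.mem_range, Finset.mem_range] at hp'
    rw [Finset.mem_coe, Finset.mem_range]
    show p.1 + p.2 < d + r
    omega
  · intro p hp q hq hpq
    have hp' := (Finset.mem_filter.1 (Finset.mem_coe.1 hp)).2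
    have hq' := (Finset.mem_filter.1 (Finset.mem_coe.1 hq)).2
    obtain ⟨a, ⟨haD, haB⟩, _⟩ := hp'
    obtain ⟨b, ⟨hbD, hbB⟩, _⟩ := hq'
    have hsum : p.1 + p.2 = q.1 + q.2 := hpq
    rcases lt_trichotomy p.1 q.1 with h | h | h
    · have h1 := hD _ _ h a haD b hbD
      have h2 := hB _ _ (show q.2 < p.2 by omega) b hbB a haB
      omega
    · exact Prod.ext h (by omega)
    · have h1 := hD _ _ h b hbD a haD
      have h2 := hB _ _ (show p.2 < q.2 by omega) a haB b hbB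
      omega

private theorem BS1_decomp (u : ℕ →₀ ℝ) (r : ℕ) (B : ℕ → Set ℕ) (hB : SuccS B)
    (hcov : ∀ k ∈ u.support, ∃ b < r, k ∈ B b) : u = ∑ b ∈ range r, rs (B b) u := by
  ext k
  rw [Finsupp.finsetSum_apply]
  by_cases hk : k ∈ u.support
  · obtain ⟨b, hb, hkb⟩ := hcov k hk
    rw [Finset.sum_eq_single b]
    · rw [rs_apply, if_pos hkb]
    · intro c _ hc
      rw [rs_apply, if_neg]
      intro hkc
      exact hc (BS1_succ_disj hB hkc hkb)
    · intro h
      exact absurd (Finset.mem_range.2 hb) h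
  · have h0 : u k = 0 := by simpa using hk
    rw [h0, Finset.sum_eq_zero]
    intro b _
    rw [rs_apply, h0]
    split_ifs <;> rfl

/-- Gluing over `r` successive blocks: cut every piece `D p` by the blocks; in the block `b` only the pieces meeting it count
(`bs_finset`), and the total number of pairs is `≤ d + r`. -/
theorem bs_blocks (n : ℕ) (u : ℕ →₀ ℝ) (r : ℕ) (B : ℕ → Set ℕ) (hB : SuccS B)
    (hcov : ∀ k ∈ u.support, ∃ b < r, k ∈ B b) (L τ : ℝ) (hL : 0 ≤ L) (hτ : 0 ≤ τ)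
    (h : ∀ b < r, BS n L τ (rs (B b) u)) : BS n (r * (L + 1)) τ u := by
  intro d D hD
  set S : Set ℕ := {k | k ∈ u.support} with hS
  set P : ℕ → Finset ℕ := fun b => (range d).filter (fun p => (D p ∩ B b ∩ S).Nonempty) with hP
  have h1 : ∀ p, nrm n (rs (D p) u) ≤ ∑ b ∈ range r, nrm n (rs (D p) (rs (B b) u)) := by
    intro p
    conv_lhs => rw [BS1_decomp u r B hB hcov]
    rw [rs_sum]
    exact nrm_sum_le n _ _
  have h2 : ∀ b ∈ range r, ∑ p ∈ range d, nrm n (rs (D p) (rs (B b) u)) ≤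
      τ * ((P b).card + L) := by
    intro b hb
    have h3 : ∑ p ∈ range d, nrm n (rs (D p) (rs (B b) u)) =
        ∑ p ∈ P b, nrm n (rs (D p) (rs (B b) u)) := by
      symm
      apply Finset.sum_subset
      · exact Finset.filter_subset _ _
      · intro p hp hpn
        have h4 : rs (D p) (rs (B b) u) = 0 := by
          rw [← Finsupp.support_eq_empty, Finset.eq_empty_iff_forall_notMem]
          intro κ hκ
          rw [rs_rs] at hκ
          obtain ⟨hκ1, hκ2⟩ := mem_support_rs.1 hκ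
          apply hpn
          rw [hP]
          simp only [Finset.mem_filter]
          exact ⟨hp, ⟨κ, hκ1, hκ2⟩⟩
        rw [h4, nrm_zero]
    rw [h3]
    exact bs_finset (h b (Finset.mem_range.1 hb)) D hD (P b)
  have hcount : ∑ b ∈ range r, ((P b).card : ℝ) ≤ d + r := by
    have h5 := pairs_card D B hD hB S d r
    have h6 : (((range d) ×ˢ (range r)).filter
        (fun p => (D p.1 ∩ B p.2 ∩ S).Nonempty)).card = ∑ b ∈ range r, (P b).card := by
      rw [Finset.card_filter, Finset.sum_product_right]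
      refine Finset.sum_congr rfl (fun b _ => ?_)
      rw [hP]
      simp only
      rw [Finset.card_filter]
    rw [h6] at h5
    exact_mod_cast h5
  calc ∑ p ∈ range d, nrm n (rs (D p) u)
      ≤ ∑ p ∈ range d, ∑ b ∈ range r, nrm n (rs (D p) (rs (B b) u)) :=
        Finset.sum_le_sum (fun p _ => h1 p)
    _ = ∑ b ∈ range r, ∑ p ∈ range d, nrm n (rs (D p) (rs (B b) u)) := Finset.sum_comm
    _ ≤ ∑ b ∈ range r, τ * ((P b).card + L) := Finset.sum_le_sum h2
    _ = τ * (∑ b ∈ range r, ((P b).card : ℝ) + r * L) := by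
        rw [← Finset.mul_sum, Finset.sum_add_distrib, Finset.sum_const, Finset.card_range,
          nsmul_eq_mul]
    _ ≤ τ * (d + r * (L + 1)) := by
        apply mul_le_mul_of_nonneg_left _ hτ
        have : (d : ℝ) + r * (L + 1) = (d + r) + r * L := by ring
        rw [this]
        linarith

end Pool.Agent.Lib.MP_1bb70c_an
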