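import Pool.Agent.Lib.MP_1bb70c_an.Def

set_option autoImplicit false

open Finset
open scoped Classical

noncomputable section

namespace Pool.Agent.Lib.MP_1bb70c_an

/-! ### Part D -/

/-- The `j`-average norm `‖x‖_j`. -/
def av (n j : ℕ) (x : ℕ →₀ ℝ) : ℝ := avg (nrm n) j x

/-! ### Internal notions -/

/-- Restriction to a set. -/
def rs (E : Set ℕ) (x : ℕ →₀ ℝ) : ℕ →₀ ℝ := x.filter (fun k => k ∈ E)

/-- `SchF P c Q`: `Q` is the union of at most `c` successive sets with the property `P`. -/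
def SchF (P : Finset ℕ → Prop) (c : ℕ) (Q : Finset ℕ) : Prop :=
  ∃ f : ℕ → ℕ, MonotoneOn f (↑Q : Set ℕ) ∧ (∀ q ∈ Q, f q < c) ∧
    ∀ a, P (Q.filter (fun q => f q = a))

/-- Schreier families, internal version. -/
def Sch : ℕ → Finset ℕ → Prop
  | 0, Q => Q.card ≤ 1
  | (i + 1), Q => ∃ d : ℕ, (∀ q ∈ Q, d ≤ q) ∧ SchF (Sch i) d Q

/-- Unions of at most `c` successive `S_i` sets. -/
def SchU (i c : ℕ) (Q : Finset ℕ) : Prop := SchF (Sch i) c Q

/-- A family: indices (markers) `q ∈ Q`, sets `E q ⊆ [q, next marker)`, sizes `j q ≥ σ` with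
`j q'` bigger than all elements of the earlier sets. -/
structure Fam (Q : Finset ℕ) (E : ℕ → Set ℕ) (j : ℕ → ℕ) (σ : ℕ) : Prop where
  lb : ∀ q ∈ Q, ∀ k ∈ E q, q ≤ k
  sep : ∀ q ∈ Q, ∀ q' ∈ Q, q < q' → ∀ k ∈ E q, k < q' ∧ k < j q'
  sz : ∀ q ∈ Q, σ ≤ j q

/-- The value of a family at a vector. -/
def val (n : ℕ) (Q : Finset ℕ) (E : ℕ → Set ℕ) (j : ℕ → ℕ) (x : ℕ →₀ ℝ) : ℝ :=
  ∑ q ∈ Q, av n (j q) (rs (E q) x)

/-- `Bd n G σ x B` : `|x|_{G,σ} ≤ B`. -/
def Bd (n : ℕ) (G : Finset ℕ → Prop) (σ : ℕ) (x : ℕ →₀ ℝ) (B : ℝ) : Prop :=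
  ∀ (Q : Finset ℕ) (E : ℕ → Set ℕ) (j : ℕ → ℕ), Fam Q E j σ → G Q → val n Q E j x ≤ B

/-- The number `|x|_{G,σ}`. -/
def bn (n : ℕ) (G : Finset ℕ → Prop) (σ : ℕ) (x : ℕ →₀ ℝ) : ℝ :=
  sSup {r | ∃ (Q : Finset ℕ) (E : ℕ → Set ℕ) (j : ℕ → ℕ), Fam Q E j σ ∧ G Q ∧ r = val n Q E j x}

/-- Successive sets. -/
def SuccS (D : ℕ → Set ℕ) : Prop := ∀ p q, p < q → ∀ a ∈ D p, ∀ b ∈ D q, a < b

/-- `BS n L τ u`: any `d` successive pieces of `u` have total norm at most `τ (d + L)`. -/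
def BS (n : ℕ) (L τ : ℝ) (u : ℕ →₀ ℝ) : Prop :=
  ∀ (d : ℕ) (D : ℕ → Set ℕ), SuccS D → ∑ p ∈ range d, nrm n (rs (D p) u) ≤ τ * (d + L)

/-- Good properties of a candidate norm. -/
structure Nice (ν : (ℕ →₀ ℝ) → ℝ) : Prop where
  nn : ∀ x, 0 ≤ ν x
  mono : ∀ x y : ℕ →₀ ℝ, (∀ k, |x k| ≤ |y k|) → ν x ≤ ν y
  sub : ∀ x y, ν (x + y) ≤ ν x + ν y
  hom : ∀ (c : ℝ) (x : ℕ →₀ ℝ), ν (c • x) = |c| * ν x
  l1 : ∀ x : ℕ →₀ ℝ, ν x ≤ ∑ k ∈ x.support, |x k|
  sup : ∀ (x : ℕ →₀ ℝ) (k : ℕ), |x k| ≤ ν x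

/-- Pairing of a finitely supported functional with a vector. -/
def dot (y x : ℕ →₀ ℝ) : ℝ := ∑ k ∈ x.support, y k * x k

/-- The functional `y ≥ 0` has dual norm at most `C`. -/
def DB (n : ℕ) (y : ℕ →₀ ℝ) (C : ℝ) : Prop := ∀ x : ℕ →₀ ℝ, 0 ≤ x → dot y x ≤ C * nrm n x

/-- Block sequences (with `i ≤ min supp (y i)`). -/
def Blk (y : ℕ → ℕ →₀ ℝ) : Prop :=
  (∀ i, ∀ k ∈ (y i).support, i ≤ k) ∧
  (∀ i i', i < i' → ∀ a ∈ (y i).support, ∀ b ∈ (y i').support, a < b)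

/-- Condition (*). `n = ν + 1`. -/
def Star (ν : ℕ) (y : ℕ → ℕ →₀ ℝ) : Prop :=
  ∀ δ : ℝ, 0 < δ → ∀ s : ℕ → ℕ, ∃ M i0 : ℕ, ∀ i, i0 ≤ i → ∀ x : ℕ →₀ ℝ, 0 ≤ x →
    nrm (ν + 1) x ≤ 1 → (∀ m : ℕ, 1 ≤ m → m ≤ M → Bd (ν + 1) (Sch ν) (s m) x (1 / (m : ℝ))) →
    dot (y i) x ≤ δ

/-- The constants of Theorem M. -/
def Gam (i : ℕ) : ℝ := 240 + 260 * (i : ℝ)

/-- The integer `1/ε` of Theorem M. -/
def hh (ν : ℕ) : ℕ := 1000 * (ν + 1)

/-- The lower bound for `m` in Theorem M. -/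
def m0 (ν : ℕ) : ℕ := 1000 * (hh ν) ^ 2

/-- Theorem M(0), strong version, for the vector `x`. -/
def MH0 (ν : ℕ) (x : ℕ →₀ ℝ) : Prop :=
  ∀ m s : ℕ, m0 ν ≤ m → m ^ 3 ≤ s → (∀ k ∈ x.support, s ^ 10 < k) → ∀ T : ℝ, 0 ≤ T →
    Bd (ν + 1) (SchU 0 (3 * hh ν * m)) (s / m ^ 2) x T →
    ∃ u v : ℕ →₀ ℝ, 0 ≤ u ∧ 0 ≤ v ∧ x = u + v ∧ nrm (ν + 1) u ≤ Gam 0 * T ∧
      Bd (ν + 1) (Sch 0) s v (Gam 0 * T / m)

/-- Theorem M(i), common version, for the vector `x`. -/
def MH (ν i : ℕ) (x : ℕ →₀ ℝ) : Prop :=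
  ∀ m s : ℕ, m0 ν ≤ m → m ^ 6 ≤ s → (∀ k ∈ x.support, s ^ 10 < k) → ∀ T : ℝ, 0 ≤ T →
    Bd (ν + 1) (SchU i (3 * hh ν * m ^ 2)) (s / m ^ 4) x T →
    ∃ u v : ℕ →₀ ℝ, 0 ≤ u ∧ 0 ≤ v ∧ x = u + v ∧ nrm (ν + 1) u ≤ Gam i * T ∧
      Bd (ν + 1) (Sch i) s v (Gam i * T / m)

/-! ### Elementary facts on restrictions -/

theorem rs_apply (E : Set ℕ) (x : ℕ →₀ ℝ) (k : ℕ) : rs E x k = if k ∈ E then x k else 0 := by
  unfold rs; rw [Finsupp.filter_apply]

theorem rs_nonneg (E : Set ℕ) {x : ℕ →₀ ℝ} (hx : 0 ≤ x) : 0 ≤ rs E x := by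
  intro k; rw [rs_apply]; split_ifs
  · exact hx k
  · exact le_refl _

theorem rs_le (E : Set ℕ) {x : ℕ →₀ ℝ} (hx : 0 ≤ x) : rs E x ≤ x := by
  intro k; rw [rs_apply]; split_ifs
  · exact le_refl _
  · exact hx k

theorem rs_mono (E : Set ℕ) {x y : ℕ →₀ ℝ} (h : x ≤ y) : rs E x ≤ rs E y := by
  intro k; rw [rs_apply, rs_apply]; split_ifs
  · exact h k
  · exact le_refl _

theorem rs_mono_set {E F : Set ℕ} (hEF : E ⊆ F) {x : ℕ →₀ ℝ} (hx : 0 ≤ x) :
    rs E x ≤ rs F x := by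
  intro k; rw [rs_apply, rs_apply]
  by_cases h : k ∈ E
  · rw [if_pos h, if_pos (hEF h)]
  · rw [if_neg h]; split_ifs
    · exact hx k
    · exact le_refl _

theorem abs_rs_le (E : Set ℕ) (x : ℕ →₀ ℝ) (k : ℕ) : |rs E x k| ≤ |x k| := by
  rw [rs_apply]; split_ifs
  · exact le_refl _
  · rw [abs_zero]; exact abs_nonneg _

theorem rs_rs (E F : Set ℕ) (x : ℕ →₀ ℝ) : rs E (rs F x) = rs (E ∩ F) x := by
  ext k; rw [rs_apply, rs_apply, rs_apply]
  by_cases hE : k ∈ E <;> by_cases hF : k ∈ F <;> simp [hE, hF]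

theorem rs_add (E : Set ℕ) (x y : ℕ →₀ ℝ) : rs E (x + y) = rs E x + rs E y := by
  ext k; rw [Finsupp.add_apply, rs_apply, rs_apply, rs_apply, Finsupp.add_apply]
  split_ifs <;> simp

theorem rs_smul (E : Set ℕ) (c : ℝ) (x : ℕ →₀ ℝ) : rs E (c • x) = c • rs E x := by
  ext k; rw [Finsupp.smul_apply, rs_apply, rs_apply, Finsupp.smul_apply]
  split_ifs <;> simp

theorem rs_zero (E : Set ℕ) : rs E (0 : ℕ →₀ ℝ) = 0 := by
  ext k; rw [rs_apply]; split_ifs <;> simp

theorem rs_sum {ι : Type} (E : Set ℕ) (s : Finset ι) (f : ι → ℕ →₀ ℝ) :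
    rs E (∑ i ∈ s, f i) = ∑ i ∈ s, rs E (f i) := by
  classical
  induction s using Finset.induction_on with
  | empty => simp [rs_zero]
  | insert a s ha ih => rw [Finset.sum_insert ha, Finset.sum_insert ha, rs_add, ih]

theorem mem_support_rs {E : Set ℕ} {x : ℕ →₀ ℝ} {k : ℕ} :
    k ∈ (rs E x).support ↔ k ∈ E ∧ k ∈ x.support := by
  rw [Finsupp.mem_support_iff, Finsupp.mem_support_iff, rs_apply]
  by_cases h : k ∈ E <;> simp [h]

theorem rs_self {E : Set ℕ} {x : ℕ →₀ ℝ} (h : ∀ k ∈ x.support, k ∈ E) : rs E x = x := by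
  ext k; rw [rs_apply]
  by_cases hk : k ∈ E
  · rw [if_pos hk]
  · rw [if_neg hk]
    by_contra hne
    exact hk (h k (Finsupp.mem_support_iff.2 (fun h0 => hne h0.symm)))

theorem rs_congr {E F : Set ℕ} {x : ℕ →₀ ℝ} (h : ∀ k ∈ x.support, (k ∈ E ↔ k ∈ F)) :
    rs E x = rs F x := by
  ext k; rw [rs_apply, rs_apply]
  by_cases hk : k ∈ x.support
  · by_cases hE : k ∈ E
    · rw [if_pos hE, if_pos ((h k hk).1 hE)]
    · rw [if_neg hE, if_neg (fun hF => hE ((h k hk).2 hF))]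
  · have : x k = 0 := by simpa using hk
    rw [this]; split_ifs <;> rfl

theorem rs_empty (x : ℕ →₀ ℝ) : rs ∅ x = 0 := by
  ext k; rw [rs_apply]; simp

theorem rs_univ (x : ℕ →₀ ℝ) : rs Set.univ x = x := rs_self (fun _ _ => Set.mem_univ _)

theorem rs_union {E F : Set ℕ} (h : Disjoint E F) (x : ℕ →₀ ℝ) :
    rs (E ∪ F) x = rs E x + rs F x := by
  ext k; rw [Finsupp.add_apply, rs_apply, rs_apply, rs_apply]
  by_cases hE : k ∈ E
  · have hF : k ∉ F := fun hF => Set.disjoint_left.1 h hE hF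
    simp [hE, hF]
  · by_cases hF : k ∈ F <;> simp [hE, hF]

theorem rs_compl (E : Set ℕ) (x : ℕ →₀ ℝ) : rs E x + rs Eᶜ x = x := by
  ext k; rw [Finsupp.add_apply, rs_apply, rs_apply]
  by_cases hE : k ∈ E <;> simp [hE]

/-! ### Part N1 -/

/-- ROW N1. The sup norm is nice. `supn x = ⨆ k, |x k|` (a real supremum over `ℕ`, bounded because the
support is finite: `|x k| ≤ ∑ l ∈ x.support, |x l|` for all `k`). -/
theorem supn_le (x : ℕ →₀ ℝ) (B : ℝ) (h : ∀ k, |x k| ≤ B) : supn x ≤ B :=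
  ciSup_le h

private theorem N1_l1 (x : ℕ →₀ ℝ) (k : ℕ) : |x k| ≤ ∑ l ∈ x.support, |x l| := by
  by_cases hk : k ∈ x.support
  · exact Finset.single_le_sum (f := fun l => |x l|) (fun l _ => abs_nonneg _) hk
  · rw [Finsupp.notMem_support_iff.mp hk, abs_zero]
    exact Finset.sum_nonneg (fun l _ => abs_nonneg _)

private theorem N1_bdd (x : ℕ →₀ ℝ) : BddAbove (Set.range fun k => |x k|) := by
  refine ⟨∑ l ∈ x.support, |x l|, ?_⟩
  rintro _ ⟨k, rfl⟩
  exact N1_l1 x k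

private theorem N1_le (x : ℕ →₀ ℝ) (k : ℕ) : |x k| ≤ supn x :=
  le_ciSup (N1_bdd x) k

theorem nice_supn : Nice supn where
  nn := fun x => le_trans (abs_nonneg (x 0)) (N1_le x 0)
  mono := fun x y h => supn_le x _ (fun k => le_trans (h k) (N1_le y k))
  sub := fun x y => supn_le _ _ (fun k => by
    have h1 := N1_le x k
    have h2 := N1_le y k
    have h3 : |(x + y) k| ≤ |x k| + |y k| := by
      rw [Finsupp.add_apply]
      exact abs_add_le _ _
    linarith)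
  hom := fun c x => by
    have h : ∀ (c : ℝ) (x : ℕ →₀ ℝ), supn (c • x) ≤ |c| * supn x := by
      intro c x
      refine supn_le _ _ (fun k => ?_)
      rw [Finsupp.smul_apply, smul_eq_mul, abs_mul]
      exact mul_le_mul_of_nonneg_left (N1_le x k) (abs_nonneg c)
    refine le_antisymm (h c x) ?_
    by_cases hc : c = 0
    · subst hc
      rw [abs_zero, zero_mul]
      exact le_trans (abs_nonneg _) (N1_le _ 0)
    · have h2 := h c⁻¹ (c • x)
      rw [smul_smul, inv_mul_cancel₀ hc, one_smul, abs_inv] at h2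
      have hpos : 0 < |c| := abs_pos.mpr hc
      calc |c| * supn x ≤ |c| * (|c|⁻¹ * supn (c • x)) :=
            mul_le_mul_of_nonneg_left h2 hpos.le
        _ = supn (c • x) := by
            rw [← mul_assoc, mul_inv_cancel₀ hpos.ne', one_mul]
  l1 := fun x => supn_le x _ (N1_l1 x)
  sup := N1_le

/-! ### Part N2 -/

/-- ROW N2. `avg` through sequences of sets indexed by `ℕ`.
Proof of `avg_ge`: put `E p = x.support.filter (· ∈ D p)` for `p : Fin j`; the restriction of `x` to `E p`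
equals `rs (D p) x`; `le_csSup`; the set in the definition of `avg` is bounded above by `(1/j) * ∑ |x k|`
(the `E p` are disjoint, `Nice.l1`). For `j = 0` both sides are `0` (`1 / 0 = 0`, all members of the set are `0`).
Proof of `avg_le`: `csSup_le` (nonempty: `d = 0`); given `E : Fin d → Finset ℕ`, `d ≤ j`, let
`D p = E ⟨p, _⟩` if `p < d` and `∅` otherwise; the extra terms are `ν (rs ∅ x) ≥ 0`. -/
theorem avg_bdd (ν : (ℕ →₀ ℝ) → ℝ) (hν : Nice ν) (j : ℕ) (x : ℕ →₀ ℝ) :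
    BddAbove {r | ∃ (d : ℕ) (E : Fin d → Finset ℕ), d ≤ j ∧
    (∀ p q, p < q → ∀ a ∈ E p, ∀ b ∈ E q, a < b) ∧
    r = (1 / (j : ℝ)) * ∑ p, ν (x.filter (fun k => k ∈ E p))} := by
  refine ⟨ν x, ?_⟩
  rintro r ⟨d, E, hd, -, rfl⟩
  have h1 : ∀ p : Fin d, ν (x.filter (fun k => k ∈ E p)) ≤ ν x := by
    intro p
    apply hν.mono
    intro k
    rw [Finsupp.filter_apply]
    split_ifs
    · exact le_refl _
    · rw [abs_zero]; exact abs_nonneg _
  have h2 : ∑ p, ν (x.filter (fun k => k ∈ E p)) ≤ (d : ℝ) * ν x := by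
    calc ∑ p, ν (x.filter (fun k => k ∈ E p)) ≤ ∑ _p : Fin d, ν x :=
          Finset.sum_le_sum (fun p _ => h1 p)
      _ = (d : ℝ) * ν x := by simp
  have h0 : 0 ≤ ν x := hν.nn x
  rcases Nat.eq_zero_or_pos j with hj | hj
  · subst hj
    simpa using h0
  · have hj' : (0 : ℝ) < j := by exact_mod_cast hj
    have hd' : (d : ℝ) ≤ j := by exact_mod_cast hd
    rw [one_div, inv_mul_le_iff₀ hj']
    exact h2.trans (mul_le_mul_of_nonneg_right hd' h0)

theorem avg_ge (ν : (ℕ →₀ ℝ) → ℝ) (hν : Nice ν) (j : ℕ) (x : ℕ →₀ ℝ) (D : ℕ → Set ℕ)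
    (hD : SuccS D) : (1 / (j : ℝ)) * ∑ p ∈ range j, ν (rs (D p) x) ≤ avg ν j x := by
  unfold avg
  apply le_csSup (avg_bdd ν hν j x)
  refine ⟨j, fun p => x.support.filter (fun k => k ∈ D p), le_refl _, ?_, ?_⟩
  · intro p q hpq a ha b hb
    exact hD p q hpq a (Finset.mem_filter.1 ha).2 b (Finset.mem_filter.1 hb).2
  · rw [Finset.sum_range (fun p => ν (rs (D p) x))]
    congr 1
    apply Finset.sum_congr rfl
    intro p _
    congr 1
    ext k
    rw [rs_apply, Finsupp.filter_apply]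
    by_cases hk : k ∈ D p
    · by_cases hx : k ∈ x.support
      · rw [if_pos hk, if_pos (Finset.mem_filter.2 ⟨hx, hk⟩)]
      · have h0 : x k = 0 := by simpa using hx
        rw [h0]; simp
    · rw [if_neg hk, if_neg (fun h => hk (Finset.mem_filter.1 h).2)]

theorem avg_le (ν : (ℕ →₀ ℝ) → ℝ) (hν : Nice ν) (j : ℕ) (x : ℕ →₀ ℝ) (B : ℝ)
    (h : ∀ D : ℕ → Set ℕ, SuccS D → (1 / (j : ℝ)) * ∑ p ∈ range j, ν (rs (D p) x) ≤ B) :
    avg ν j x ≤ B := by
  unfold avg
  apply csSup_le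
  · exact ⟨_, 0, fun p => p.elim0, Nat.zero_le _, fun p => p.elim0, rfl⟩
  · rintro r ⟨d, E, hd, hE, rfl⟩
    let D : ℕ → Set ℕ := fun p => if hp : p < d then (↑(E ⟨p, hp⟩) : Set ℕ) else ∅
    have hDs : SuccS D := by
      intro p q hpq a ha b hb
      by_cases hq : q < d
      · have hp : p < d := lt_trans hpq hq
        have ha' : a ∈ E ⟨p, hp⟩ := by
          have : D p = (↑(E ⟨p, hp⟩) : Set ℕ) := dif_pos hp
          rw [this] at ha; exact ha
        have hb' : b ∈ E ⟨q, hq⟩ := by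
          have : D q = (↑(E ⟨q, hq⟩) : Set ℕ) := dif_pos hq
          rw [this] at hb; exact hb
        exact hE ⟨p, hp⟩ ⟨q, hq⟩ hpq a ha' b hb'
      · have : D q = ∅ := dif_neg hq
        rw [this] at hb; exact hb.elim
    refine le_trans ?_ (h D hDs)
    apply mul_le_mul_of_nonneg_left _ (by positivity)
    have e1 : ∑ p, ν (x.filter (fun k => k ∈ E p)) = ∑ p ∈ range d, ν (rs (D p) x) := by
      rw [Finset.sum_range (fun p => ν (rs (D p) x))]
      apply Finset.sum_congr rfl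
      intro p _
      congr 1
      ext k
      rw [rs_apply, Finsupp.filter_apply]
      have hDp : D p = (↑(E p) : Set ℕ) := dif_pos p.2
      by_cases hk : k ∈ E p
      · rw [if_pos hk, if_pos (by rw [hDp]; exact hk)]
      · rw [if_neg hk, if_neg (by rw [hDp]; exact hk)]
    rw [e1]
    apply Finset.sum_le_sum_of_subset_of_nonneg
    · exact Finset.range_subset_range.2 hd
    · intro p _ _
      exact hν.nn _

/-! ### Part N3 -/

/-- ROW N3. Elementary properties of the average `avg ν j`, `ν` nice.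
All proofs by `avg_le`, `avg_ge`. `avg_anti`: given `D` with `j'` pieces, order the values
`ν (rs (D p) x)` and take the `j` pieces with the largest values (keeping their order as sets); the mean of
the `j` largest of `j'` nonnegative numbers is at least the mean of all. (Formally: the number
`a_p = ν (rs (D p) x)`, choose `s ⊆ range j'` with `s.card = j` maximising `∑ p ∈ s, a_p`; then
`j * ∑ p ∈ range j', a_p ≤ j' * ∑ p ∈ s, a_p`, e.g. because every element outside `s` is `≤` every element in `s`,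
or by averaging over all subsets of cardinality `j` (`Finset.powersetCard`), or by induction on `j' - j`: removing the
smallest of `j+1` numbers does not decrease the mean, so it is enough to treat `j' = j + 1`; for `j' = j+1`: remove the
piece `p0` with the smallest value and shift the later ones.)
`avg_eq_l1`: singletons `D p = {p-th element of the support}`, and `|x k| ≤ ν (rs {k} x)` by `Nice.sup`. -/
theorem avg_nonneg (ν : (ℕ →₀ ℝ) → ℝ) (hν : Nice ν) (j : ℕ) (x : ℕ →₀ ℝ) : 0 ≤ avg ν j x := by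
  have h := avg_ge ν hν j x (fun _ => ∅) (fun p q _ a ha => absurd ha (Set.notMem_empty a))
  refine le_trans ?_ h
  exact mul_nonneg (by positivity) (Finset.sum_nonneg fun p _ => hν.nn _)

theorem avg_mono (ν : (ℕ →₀ ℝ) → ℝ) (hν : Nice ν) (j : ℕ) (x y : ℕ →₀ ℝ)
    (h : ∀ k, |x k| ≤ |y k|) : avg ν j x ≤ avg ν j y := by
  refine avg_le ν hν j x _ fun D hD => ?_
  refine le_trans ?_ (avg_ge ν hν j y D hD)
  refine mul_le_mul_of_nonneg_left (Finset.sum_le_sum fun p _ => ?_) (by positivity)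
  apply hν.mono
  intro k
  rw [rs_apply, rs_apply]
  split_ifs
  · exact h k
  · exact le_refl _

theorem avg_sub (ν : (ℕ →₀ ℝ) → ℝ) (hν : Nice ν) (j : ℕ) (x y : ℕ →₀ ℝ) :
    avg ν j (x + y) ≤ avg ν j x + avg ν j y := by
  refine avg_le ν hν j _ _ fun D hD => ?_
  have h1 := avg_ge ν hν j x D hD
  have h2 := avg_ge ν hν j y D hD
  have h3 : ∑ p ∈ range j, ν (rs (D p) (x + y)) ≤
      ∑ p ∈ range j, ν (rs (D p) x) + ∑ p ∈ range j, ν (rs (D p) y) := by
    rw [← Finset.sum_add_distrib]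
    refine Finset.sum_le_sum fun p _ => ?_
    rw [rs_add]
    exact hν.sub _ _
  have h4 := mul_le_mul_of_nonneg_left h3 (by positivity : (0 : ℝ) ≤ 1 / (j : ℝ))
  rw [mul_add] at h4
  linarith

theorem N3_rs_smul_eq (ν : (ℕ →₀ ℝ) → ℝ) (hν : Nice ν) (j : ℕ) (c : ℝ) (x : ℕ →₀ ℝ)
    (D : ℕ → Set ℕ) : (1 / (j : ℝ)) * ∑ p ∈ range j, ν (rs (D p) (c • x)) =
      |c| * ((1 / (j : ℝ)) * ∑ p ∈ range j, ν (rs (D p) x)) := by
  have h : ∑ p ∈ range j, ν (rs (D p) (c • x)) = |c| * ∑ p ∈ range j, ν (rs (D p) x) := by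
    rw [Finset.mul_sum]
    refine Finset.sum_congr rfl fun p _ => ?_
    rw [rs_smul, hν.hom]
  rw [h]; ring

theorem avg_hom (ν : (ℕ →₀ ℝ) → ℝ) (hν : Nice ν) (j : ℕ) (c : ℝ) (x : ℕ →₀ ℝ) :
    avg ν j (c • x) = |c| * avg ν j x := by
  apply le_antisymm
  · refine avg_le ν hν j _ _ fun D hD => ?_
    rw [N3_rs_smul_eq ν hν]
    exact mul_le_mul_of_nonneg_left (avg_ge ν hν j x D hD) (abs_nonneg c)
  · by_cases hc : c = 0
    · subst hc
      rw [abs_zero, zero_mul]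
      exact avg_nonneg ν hν j _
    · have hc' : 0 < |c| := abs_pos.2 hc
      have h1 : avg ν j x ≤ avg ν j (c • x) / |c| := by
        refine avg_le ν hν j x _ fun D hD => ?_
        rw [le_div_iff₀ hc', mul_comm, ← N3_rs_smul_eq ν hν]
        exact avg_ge ν hν j _ D hD
      rw [le_div_iff₀ hc'] at h1
      linarith

theorem avg_le_self (ν : (ℕ →₀ ℝ) → ℝ) (hν : Nice ν) (j : ℕ) (x : ℕ →₀ ℝ) :
    avg ν j x ≤ ν x := by
  refine avg_le ν hν j x _ fun D _ => ?_
  have h1 : ∑ p ∈ range j, ν (rs (D p) x) ≤ (j : ℝ) * ν x := by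
    refine le_trans (Finset.sum_le_sum fun p _ => hν.mono _ x (abs_rs_le _ _)) ?_
    rw [Finset.sum_const, Finset.card_range, nsmul_eq_mul]
  rcases Nat.eq_zero_or_pos j with hj | hj
  · subst hj
    simpa using hν.nn x
  · have hj' : (0 : ℝ) < j := by exact_mod_cast hj
    rw [one_div, inv_mul_le_iff₀ hj']
    exact h1

theorem avg_l1 (ν : (ℕ →₀ ℝ) → ℝ) (hν : Nice ν) (j : ℕ) (x : ℕ →₀ ℝ) :
    avg ν j x ≤ (1 / (j : ℝ)) * ∑ k ∈ x.support, |x k| := by
  refine avg_le ν hν j x _ fun D hD => ?_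
  refine mul_le_mul_of_nonneg_left ?_ (by positivity)
  have h1 : ∀ p, ν (rs (D p) x) ≤ ∑ k ∈ x.support, if k ∈ D p then |x k| else 0 := by
    intro p
    refine (hν.l1 _).trans ?_
    have hsub : (rs (D p) x).support ⊆ x.support := fun k hk => (mem_support_rs.1 hk).2
    refine (Finset.sum_le_sum_of_subset_of_nonneg hsub fun k _ _ => abs_nonneg _).trans ?_
    refine Finset.sum_le_sum fun k _ => ?_
    rw [rs_apply]
    split_ifs
    · exact le_refl _
    · rw [abs_zero]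
  refine (Finset.sum_le_sum fun p _ => h1 p).trans ?_
  rw [Finset.sum_comm]
  refine Finset.sum_le_sum fun k _ => ?_
  by_cases hk : ∃ p ∈ range j, k ∈ D p
  · obtain ⟨p0, hp0, hkp⟩ := hk
    rw [Finset.sum_eq_single p0]
    · rw [if_pos hkp]
    · intro q _ hq
      rw [if_neg]
      intro hkq
      rcases lt_or_gt_of_ne hq with h | h
      · exact lt_irrefl _ (hD q p0 h k hkq k hkp)
      · exact lt_irrefl _ (hD p0 q h k hkp k hkq)
    · intro h; exact absurd hp0 h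
  · rw [Finset.sum_eq_zero]
    · exact abs_nonneg _
    · intro p hp
      rw [if_neg]
      intro h
      exact hk ⟨p, hp, h⟩

theorem N3_avg_succ (ν : (ℕ →₀ ℝ) → ℝ) (hν : Nice ν) (j : ℕ) (hj : 1 ≤ j)
    (x : ℕ →₀ ℝ) : avg ν (j + 1) x ≤ avg ν j x := by
  refine avg_le ν hν (j + 1) x _ fun D hD => ?_
  obtain ⟨p0, hp0, hmin⟩ := Finset.exists_min_image (range (j + 1)) (fun p => ν (rs (D p) x))
    ⟨0, by simp⟩
  have hp0' : p0 < j + 1 := Finset.mem_range.1 hp0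
  set D' : ℕ → Set ℕ := fun p => if p < p0 then D p else D (p + 1) with hD'
  have hsucc : SuccS D' := by
    intro p q hpq a ha b hb
    simp only [hD'] at ha hb
    split_ifs at ha hb
    · exact hD p q hpq a ha b hb
    · exact hD p (q + 1) (by omega) a ha b hb
    · omega
    · exact hD (p + 1) (q + 1) (by omega) a ha b hb
  refine le_trans ?_ (avg_ge ν hν j x D' hsucc)
  have hsum : ∑ p ∈ range j, ν (rs (D' p) x) + ν (rs (D p0) x) =
      ∑ p ∈ range (j + 1), ν (rs (D p) x) := by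
    have e1 : ∑ p ∈ range (j + 1), ν (rs (D p) x) =
        ∑ p ∈ range p0, ν (rs (D p) x) + ∑ p ∈ Finset.Ico p0 (j + 1), ν (rs (D p) x) :=
      (Finset.sum_range_add_sum_Ico _ (by omega)).symm
    have e2 : ∑ p ∈ range j, ν (rs (D' p) x) =
        ∑ p ∈ range p0, ν (rs (D' p) x) + ∑ p ∈ Finset.Ico p0 j, ν (rs (D' p) x) :=
      (Finset.sum_range_add_sum_Ico _ (by omega)).symm
    have e3 : ∑ p ∈ range p0, ν (rs (D' p) x) = ∑ p ∈ range p0, ν (rs (D p) x) := by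
      refine Finset.sum_congr rfl fun p hp => ?_
      simp only [hD']
      rw [if_pos (Finset.mem_range.1 hp)]
    have e4 : ∑ p ∈ Finset.Ico p0 j, ν (rs (D' p) x) =
        ∑ p ∈ Finset.Ico (p0 + 1) (j + 1), ν (rs (D p) x) := by
      rw [← Finset.sum_Ico_add' (fun p => ν (rs (D p) x)) p0 j 1]
      refine Finset.sum_congr rfl fun p hp => ?_
      simp only [hD']
      rw [if_neg (by have := (Finset.mem_Ico.1 hp).1; omega)]
    have e5 : ∑ p ∈ Finset.Ico p0 (j + 1), ν (rs (D p) x) =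
        ν (rs (D p0) x) + ∑ p ∈ Finset.Ico (p0 + 1) (j + 1), ν (rs (D p) x) :=
      Finset.sum_eq_sum_Ico_succ_bot hp0' _
    rw [e1, e2, e3, e4, e5]
    ring
  have hle : ((j : ℝ) + 1) * ν (rs (D p0) x) ≤ ∑ p ∈ range (j + 1), ν (rs (D p) x) := by
    have := Finset.card_nsmul_le_sum (range (j + 1)) (fun p => ν (rs (D p) x))
      (ν (rs (D p0) x)) hmin
    rw [Finset.card_range, nsmul_eq_mul] at this
    push_cast at this
    exact this
  have hj' : (0 : ℝ) < j := by exact_mod_cast hj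
  push_cast
  rw [one_div, one_div, inv_mul_le_iff₀ (by positivity)]
  have h5 : (j : ℝ) * ∑ p ∈ range (j + 1), ν (rs (D p) x) ≤
      ((j : ℝ) + 1) * ∑ p ∈ range j, ν (rs (D' p) x) := by
    rw [← hsum] at hle ⊢
    nlinarith
  have h6 : ∑ p ∈ range (j + 1), ν (rs (D p) x) ≤
      ((j : ℝ) + 1) * ((j : ℝ)⁻¹ * ∑ p ∈ range j, ν (rs (D' p) x)) := by
    have h7 : ((j : ℝ) + 1) * ((j : ℝ)⁻¹ * ∑ p ∈ range j, ν (rs (D' p) x)) =
        (((j : ℝ) + 1) * ∑ p ∈ range j, ν (rs (D' p) x)) / j := by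
      field_simp
    rw [h7, le_div_iff₀ hj']
    linarith
  exact h6

theorem avg_anti (ν : (ℕ →₀ ℝ) → ℝ) (hν : Nice ν) (j j' : ℕ) (hj : 1 ≤ j) (hjj : j ≤ j')
    (x : ℕ →₀ ℝ) : avg ν j' x ≤ avg ν j x := by
  induction j', hjj using Nat.le_induction with
  | base => exact le_refl _
  | succ m hm ih => exact (N3_avg_succ ν hν m (by omega) x).trans ih

theorem avg_eq_l1 (ν : (ℕ →₀ ℝ) → ℝ) (hν : Nice ν) (j : ℕ) (x : ℕ →₀ ℝ)
    (h : x.support.card ≤ j) : (1 / (j : ℝ)) * ∑ k ∈ x.support, |x k| ≤ avg ν j x := by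
  set r : ℕ → ℕ := fun k => (x.support.filter (fun l => l < k)).card with hr
  have hrmono : ∀ a b, a ≤ b → r a ≤ r b := by
    intro a b hab
    apply Finset.card_le_card
    intro l hl
    rw [Finset.mem_filter] at hl ⊢
    exact ⟨hl.1, by omega⟩
  have hrstrict : ∀ a ∈ x.support, ∀ b, a < b → r a < r b := by
    intro a ha b hab
    apply Finset.card_lt_card
    rw [Finset.ssubset_iff_of_subset]
    · exact ⟨a, Finset.mem_filter.2 ⟨ha, hab⟩, fun h' => absurd (Finset.mem_filter.1 h').2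
        (lt_irrefl a)⟩
    · intro l hl
      rw [Finset.mem_filter] at hl ⊢
      exact ⟨hl.1, by omega⟩
  set D : ℕ → Set ℕ := fun p => {k | k ∈ x.support ∧ r k = p} with hD
  have hsucc : SuccS D := by
    intro p q hpq a ha b hb
    by_contra hab
    have := hrmono b a (by omega)
    have h1 : r a = p := ha.2
    have h2 : r b = q := hb.2
    omega
  refine le_trans ?_ (avg_ge ν hν j x D hsucc)
  refine mul_le_mul_of_nonneg_left ?_ (by positivity)
  have hinj : Set.InjOn r (↑x.support : Set ℕ) := by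
    intro a ha b hb hab
    rcases lt_trichotomy a b with h' | h' | h'
    · exact absurd hab (hrstrict a ha b h').ne
    · exact h'
    · exact absurd hab (hrstrict b hb a h').ne'
  have h1 : ∑ k ∈ x.support, |x k| ≤ ∑ k ∈ x.support, ν (rs (D (r k)) x) := by
    refine Finset.sum_le_sum fun k hk => ?_
    have h2 := hν.sup (rs (D (r k)) x) k
    rw [rs_apply, if_pos (show k ∈ D (r k) from ⟨hk, rfl⟩)] at h2
    exact h2
  refine h1.trans ?_
  rw [← Finset.sum_image (f := fun p => ν (rs (D p) x)) hinj]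
  refine Finset.sum_le_sum_of_subset_of_nonneg ?_ fun p _ _ => hν.nn _
  intro p hp
  rw [Finset.mem_image] at hp
  obtain ⟨k, hk, rfl⟩ := hp
  rw [Finset.mem_range]
  refine lt_of_lt_of_le ?_ h
  apply Finset.card_lt_card
  rw [Finset.ssubset_iff_of_subset (Finset.filter_subset _ _)]
  exact ⟨k, hk, fun h' => absurd (Finset.mem_filter.1 h').2 (lt_irrefl k)⟩

theorem avg_mono_nu (ν ν' : (ℕ →₀ ℝ) → ℝ) (hν : Nice ν) (hν' : Nice ν')
    (h : ∀ x, ν x ≤ ν' x) (j : ℕ) (x : ℕ →₀ ℝ) : avg ν j x ≤ avg ν' j x := by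
  refine avg_le ν hν j x _ fun D hD => ?_
  refine le_trans ?_ (avg_ge ν' hν' j x D hD)
  exact mul_le_mul_of_nonneg_left (Finset.sum_le_sum fun p _ => h _) (by positivity)

/-! ### Part N4 -/

/-- ROW N4. The operator `stepN` preserves niceness. The set of values in `stepN` is nonempty (`d = 0`, `r = 0`)
and bounded by `∑ |x k|` (since `avg ν j y ≤ ν y ≤ ∑ |y k|` and the `E q` are disjoint), even by
`∑ |y k|` if `|x k| ≤ |y k|`. -/
theorem schreier_empty (n : ℕ) : Schreier n ∅ := by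
  cases n with
  | zero => simp [Schreier]
  | succ k =>
    refine ⟨0, fun i => i.elim0, fun i => i.elim0, fun i => i.elim0, fun i => i.elim0, ?_⟩
    simp

theorem supn_le_step (n : ℕ) (ν : (ℕ →₀ ℝ) → ℝ) (x : ℕ →₀ ℝ) : supn x ≤ stepN n ν x :=
  le_max_left _ _

private theorem N4_rs (E : Finset ℕ) (x : ℕ →₀ ℝ) :
    x.filter (fun k => k ∈ E) = rs (↑E : Set ℕ) x := by
  ext k
  rw [rs_apply, Finsupp.filter_apply]
  simp

private theorem N4_sum (x : ℕ →₀ ℝ) (d : ℕ) (E : Fin d → Finset ℕ)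
    (h2 : ∀ p q, p < q → ∀ k ∈ E p, ∀ l ∈ E q, k < l) :
    ∑ q, ∑ k ∈ (rs (↑(E q) : Set ℕ) x).support, |rs (↑(E q) : Set ℕ) x k|
      ≤ ∑ k ∈ x.support, |x k| := by
  have e : ∀ q, ∑ k ∈ (rs (↑(E q) : Set ℕ) x).support, |rs (↑(E q) : Set ℕ) x k|
      = ∑ k ∈ (rs (↑(E q) : Set ℕ) x).support, |x k| := by
    intro q
    refine Finset.sum_congr rfl fun k hk => ?_
    rw [rs_apply, if_pos (mem_support_rs.1 hk).1]
  simp only [e]
  rw [← Finset.sum_biUnion]
  · apply Finset.sum_le_sum_of_subset_of_nonneg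
    · intro k hk
      rw [Finset.mem_biUnion] at hk
      obtain ⟨q, _, hq⟩ := hk
      exact (mem_support_rs.1 hq).2
    · intro k _ _
      exact abs_nonneg _
  · intro p _ q _ hpq
    change Disjoint _ _
    rw [Finset.disjoint_left]
    intro k hk hk'
    have h1 : k ∈ E p := (mem_support_rs.1 hk).1
    have h3 : k ∈ E q := (mem_support_rs.1 hk').1
    rcases lt_or_gt_of_ne hpq with h | h
    · exact lt_irrefl _ (h2 p q h k h1 k h3)
    · exact lt_irrefl _ (h2 q p h k h3 k h1)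

private theorem N4_bound (ν : (ℕ →₀ ℝ) → ℝ) (hν : Nice ν) (x : ℕ →₀ ℝ) (d : ℕ)
    (E : Fin d → Finset ℕ) (j : Fin d → ℕ)
    (h2 : ∀ p q, p < q → ∀ k ∈ E p, ∀ l ∈ E q, k < l) :
    ∑ q, avg ν (j q) (rs (↑(E q) : Set ℕ) x) ≤ ∑ k ∈ x.support, |x k| := by
  refine le_trans (Finset.sum_le_sum fun q _ => ?_) (N4_sum x d E h2)
  exact (avg_le_self ν hν (j q) _).trans (hν.l1 _)

theorem step_ge (n : ℕ) (ν : (ℕ →₀ ℝ) → ℝ) (hν : Nice ν) (x : ℕ →₀ ℝ) (d : ℕ)
    (E : Fin d → Finset ℕ) (a j : Fin d → ℕ)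
    (h1 : ∀ q, IsLeast (↑(E q) : Set ℕ) (a q))
    (h2 : ∀ p q, p < q → ∀ k ∈ E p, ∀ l ∈ E q, k < l)
    (h3 : Schreier n (Finset.univ.image a))
    (h4 : ∀ q, 2 ≤ j q) (h5 : StrictMono j) (h6 : ∀ p q, p < q → ∀ k ∈ E p, k < j q) :
    ∑ q, avg ν (j q) (rs (↑(E q) : Set ℕ) x) ≤ stepN n ν x := by
  refine le_trans ?_ (le_max_right _ _)
  apply le_csSup
  · refine ⟨∑ k ∈ x.support, |x k|, ?_⟩
    rintro r ⟨d', E', a', j', -, h2', -, -, -, -, rfl⟩
    simp only [N4_rs]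
    exact N4_bound ν hν x d' E' j' h2'
  · refine ⟨d, E, a, j, h1, h2, h3, h4, h5, h6, ?_⟩
    simp only [N4_rs]

theorem step_le (n : ℕ) (ν : (ℕ →₀ ℝ) → ℝ) (hν : Nice ν) (x : ℕ →₀ ℝ) (B : ℝ)
    (hB : supn x ≤ B)
    (h : ∀ (d : ℕ) (E : Fin d → Finset ℕ) (a j : Fin d → ℕ),
      (∀ q, IsLeast (↑(E q) : Set ℕ) (a q)) →
      (∀ p q, p < q → ∀ k ∈ E p, ∀ l ∈ E q, k < l) →
      Schreier n (Finset.univ.image a) →
      (∀ q, 2 ≤ j q) → StrictMono j → (∀ p q, p < q → ∀ k ∈ E p, k < j q) →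
      ∑ q, avg ν (j q) (rs (↑(E q) : Set ℕ) x) ≤ B) :
    stepN n ν x ≤ B := by
  refine max_le hB (csSup_le ?_ ?_)
  · refine ⟨0, 0, fun i => i.elim0, fun i => i.elim0, fun i => i.elim0, fun i => i.elim0,
      fun i => i.elim0, ?_, fun i => i.elim0, fun i => i.elim0, fun i => i.elim0, ?_⟩
    · simpa using schreier_empty n
    · simp
  · rintro r ⟨d', E', a', j', h1', h2', h3', h4', h5', h6', rfl⟩
    simp only [N4_rs]
    exact h d' E' a' j' h1' h2' h3' h4' h5' h6'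

private theorem N4_hom_le (n : ℕ) (ν : (ℕ →₀ ℝ) → ℝ) (hν : Nice ν) (c : ℝ) (x : ℕ →₀ ℝ) :
    stepN n ν (c • x) ≤ |c| * stepN n ν x := by
  apply step_le n ν hν
  · rw [nice_supn.hom]
    exact mul_le_mul_of_nonneg_left (supn_le_step n ν x) (abs_nonneg c)
  · intro d E a j h1 h2 h3 h4 h5 h6
    have e : ∀ q, avg ν (j q) (rs (↑(E q) : Set ℕ) (c • x))
        = |c| * avg ν (j q) (rs (↑(E q) : Set ℕ) x) := by
      intro q
      rw [rs_smul, avg_hom ν hν]
    simp only [e]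
    rw [← Finset.mul_sum]
    exact mul_le_mul_of_nonneg_left (step_ge n ν hν x d E a j h1 h2 h3 h4 h5 h6) (abs_nonneg c)

theorem nice_step (n : ℕ) (ν : (ℕ →₀ ℝ) → ℝ) (hν : Nice ν) : Nice (stepN n ν) := by
  have hnn : ∀ x, 0 ≤ stepN n ν x := fun x => (nice_supn.nn x).trans (supn_le_step n ν x)
  refine ⟨hnn, ?_, ?_, ?_, ?_, ?_⟩
  · intro x y hxy
    apply step_le n ν hν
    · exact (nice_supn.mono x y hxy).trans (supn_le_step n ν y)
    · intro d E a j h1 h2 h3 h4 h5 h6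
      refine le_trans (Finset.sum_le_sum fun q _ => ?_)
        (step_ge n ν hν y d E a j h1 h2 h3 h4 h5 h6)
      apply avg_mono ν hν
      intro k
      rw [rs_apply, rs_apply]
      split_ifs
      · exact hxy k
      · exact le_refl _
  · intro x y
    apply step_le n ν hν
    · exact (nice_supn.sub x y).trans
        (add_le_add (supn_le_step n ν x) (supn_le_step n ν y))
    · intro d E a j h1 h2 h3 h4 h5 h6
      refine le_trans (Finset.sum_le_sum fun q _ => ?_)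
        (le_trans (le_of_eq Finset.sum_add_distrib)
          (add_le_add (step_ge n ν hν x d E a j h1 h2 h3 h4 h5 h6)
            (step_ge n ν hν y d E a j h1 h2 h3 h4 h5 h6)))
      rw [rs_add]
      exact avg_sub ν hν _ _ _
  · intro c x
    apply le_antisymm (N4_hom_le n ν hν c x)
    by_cases hc : c = 0
    · rw [hc, abs_zero, zero_mul]
      exact hnn _
    · have h := N4_hom_le n ν hν c⁻¹ (c • x)
      rw [smul_smul, inv_mul_cancel₀ hc, one_smul, abs_inv] at h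
      have hc' : 0 < |c| := abs_pos.2 hc
      calc |c| * stepN n ν x ≤ |c| * (|c|⁻¹ * stepN n ν (c • x)) :=
            mul_le_mul_of_nonneg_left h hc'.le
        _ = stepN n ν (c • x) := by
            rw [← mul_assoc, mul_inv_cancel₀ hc'.ne', one_mul]
  · intro x
    apply step_le n ν hν
    · exact nice_supn.l1 x
    · intro d E a j _ h2 _ _ _ _
      exact N4_bound ν hν x d E j h2
  · intro x k
    exact (nice_supn.sup x k).trans (supn_le_step n ν x)

theorem step_mono (n : ℕ) (ν ν' : (ℕ →₀ ℝ) → ℝ) (hν : Nice ν) (hν' : Nice ν')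
    (h : ∀ x, ν x ≤ ν' x) (x : ℕ →₀ ℝ) : stepN n ν x ≤ stepN n ν' x := by
  apply step_le n ν hν
  · exact supn_le_step n ν' x
  · intro d E a j h1 h2 h3 h4 h5 h6
    refine le_trans (Finset.sum_le_sum fun q _ => ?_)
      (step_ge n ν' hν' x d E a j h1 h2 h3 h4 h5 h6)
    exact avg_mono_nu ν ν' hν hν' h _ _

/-! ### Part N5 -/

/-- ROW N5. Levels and the norm. Induction on `l` (`lev_mono`: `lev 0 = supn ≤ stepN`, then `step_mono`);
`nrm` is the supremum of an increasing sequence of nice functions bounded by `∑ |x k|`. -/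
theorem nice_lev (n l : ℕ) : Nice (lev n l) := by
  induction l with
  | zero => exact nice_supn
  | succ l ih => exact nice_step n (lev n l) ih

theorem lev_mono (n l : ℕ) (x : ℕ →₀ ℝ) : lev n l x ≤ lev n (l + 1) x := by
  induction l generalizing x with
  | zero => exact supn_le_step n (lev n 0) x
  | succ l ih => exact step_mono n (lev n l) (lev n (l + 1)) (nice_lev n l) (nice_lev n (l + 1)) ih x

theorem lev_mono' (n : ℕ) {l l' : ℕ} (h : l ≤ l') (x : ℕ →₀ ℝ) : lev n l x ≤ lev n l' x := by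
  exact monotone_nat_of_le_succ (f := fun l => lev n l x) (fun l => lev_mono n l x) h

theorem lev_le_nrm (n l : ℕ) (x : ℕ →₀ ℝ) : lev n l x ≤ nrm n x := by
  have hb : BddAbove (Set.range (fun l => lev n l x)) := by
    refine ⟨∑ k ∈ x.support, |x k|, ?_⟩
    rintro _ ⟨l, rfl⟩
    exact (nice_lev n l).l1 x
  exact le_ciSup hb l

theorem nrm_le (n : ℕ) (x : ℕ →₀ ℝ) (B : ℝ) (h : ∀ l, lev n l x ≤ B) : nrm n x ≤ B := by
  exact ciSup_le h

theorem lev_approx (n : ℕ) (x : ℕ →₀ ℝ) (ε : ℝ) (hε : 0 < ε) : ∃ l, nrm n x - ε < lev n l x := by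
  have h : nrm n x - ε < nrm n x := by linarith
  exact exists_lt_of_lt_ciSup h

theorem nice_nrm (n : ℕ) : Nice (nrm n) := by
  refine ⟨?_, ?_, ?_, ?_, ?_, ?_⟩
  · intro x
    exact ((nice_lev n 0).nn x).trans (lev_le_nrm n 0 x)
  · intro x y h
    exact nrm_le n x _ fun l => ((nice_lev n l).mono x y h).trans (lev_le_nrm n l y)
  · intro x y
    refine nrm_le n (x + y) _ fun l => ((nice_lev n l).sub x y).trans ?_
    exact add_le_add (lev_le_nrm n l x) (lev_le_nrm n l y)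
  · intro c x
    apply le_antisymm
    · refine nrm_le n (c • x) _ fun l => ?_
      rw [(nice_lev n l).hom c x]
      exact mul_le_mul_of_nonneg_left (lev_le_nrm n l x) (abs_nonneg c)
    · by_cases hc : c = 0
      · rw [hc, abs_zero, zero_mul]
        exact ((nice_lev n 0).nn _).trans (lev_le_nrm n 0 _)
      · have hc' : 0 < |c| := abs_pos.2 hc
        rw [← le_div_iff₀' hc']
        refine nrm_le n x _ fun l => ?_
        rw [le_div_iff₀' hc', ← (nice_lev n l).hom c x]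
        exact lev_le_nrm n l (c • x)
  · intro x
    exact nrm_le n x _ fun l => (nice_lev n l).l1 x
  · intro x k
    exact ((nice_lev n 0).sup x k).trans (lev_le_nrm n 0 x)

/-! ### Part N6 -/

private theorem N6_common (n : ℕ) {ι : Type} (s : Finset ι) (f : ι → ℕ →₀ ℝ) (δ : ℝ) (hδ : 0 < δ) :
    ∃ l, ∀ i ∈ s, nrm n (f i) - δ < lev n l (f i) := by
  classical
  choose g hg using fun i => lev_approx n (f i) δ hδ
  refine ⟨s.sup g, fun i hi => ?_⟩
  exact lt_of_lt_of_le (hg i) (lev_mono' n (Finset.le_sup hi) (f i))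

private theorem N6_sup (n : ℕ) (x : ℕ →₀ ℝ) : supn x ≤ nrm n x := lev_le_nrm n 0 x

/-- ROW N6. The implicit equation: `nrm n x = stepN n (nrm n) x`.
`≤`: `nrm_le`, `lev (l+1) = stepN (lev l) ≤ stepN (nrm)` by `step_mono`, and `lev 0 = supn`.
`≥`: by `step_le`: `supn x = lev 0 x ≤ nrm x`; for a family `(E, a, j)`:
`∑ q, avg (nrm n) (j q) (rs (E q) x) ≤ nrm n x`. Given `ε > 0`, for every `q` choose (by `avg_le` in the contrapositive form) sets
`D q` with `(1/j q) ∑_{p < j q} nrm n (rs (D q p) (rs (E q) x)) > avg (nrm n) (j q) (rs (E q) x) - ε`, then (finitely many `(q,p)`, `lev_approx`,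
`lev_mono'`) one level `l` with `nrm n (..) - ε < lev n l (..)` for all of them; so
`∑ q, avg (nrm n) (j q) (rs (E q) x) ≤ ∑ q, avg (lev n l) (j q) (rs (E q) x) + 2 d ε ≤ lev n (l+1) x + 2 d ε ≤ nrm n x + 2 d ε`.
A cleaner way: first prove `avg (nrm n) j y ≤ B` if `avg (lev n l) j y ≤ B` for all `l`, and in the form
`∀ ε > 0, ∃ l, avg (nrm n) j y - ε < avg (lev n l) j y`, then take the maximum of the levels over the `q : Fin d`. -/
theorem avg_approx (n j : ℕ) (y : ℕ →₀ ℝ) (ε : ℝ) (hε : 0 < ε) :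
    ∃ l, avg (nrm n) j y - ε < avg (lev n l) j y := by
  by_contra hcon
  push Not at hcon
  have key : avg (nrm n) j y ≤ avg (nrm n) j y - ε := by
    refine avg_le (nrm n) (nice_nrm n) j y _ ?_
    intro D hD
    refine le_of_forall_pos_le_add ?_
    intro δ hδ
    obtain ⟨l, hl⟩ := N6_common n (range j) (fun p => rs (D p) y) δ hδ
    have h1 : ∑ p ∈ range j, nrm n (rs (D p) y)
        ≤ ∑ p ∈ range j, lev n l (rs (D p) y) + (j : ℝ) * δ := by
      have h2 : ∑ p ∈ range j, nrm n (rs (D p) y)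
          ≤ ∑ p ∈ range j, (lev n l (rs (D p) y) + δ) := by
        refine Finset.sum_le_sum ?_
        intro p hp
        have := hl p hp
        linarith
      refine h2.trans (le_of_eq ?_)
      rw [Finset.sum_add_distrib, Finset.sum_const, Finset.card_range, nsmul_eq_mul]
    have h3 := avg_ge (lev n l) (nice_lev n l) j y D hD
    have h4 := hcon l
    have hj : (0 : ℝ) ≤ 1 / (j : ℝ) := by positivity
    have h5 : (1 / (j : ℝ)) * ((j : ℝ) * δ) ≤ δ := by
      rcases Nat.eq_zero_or_pos j with h0 | h0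
      · subst h0; simp; exact hδ.le
      · have : (j : ℝ) ≠ 0 := by positivity
        have h6 : (1 / (j : ℝ)) * ((j : ℝ) * δ) = δ := by field_simp
        exact h6.le
    calc (1 / (j : ℝ)) * ∑ p ∈ range j, nrm n (rs (D p) y)
        ≤ (1 / (j : ℝ)) * (∑ p ∈ range j, lev n l (rs (D p) y) + (j : ℝ) * δ) :=
          mul_le_mul_of_nonneg_left h1 hj
      _ = (1 / (j : ℝ)) * ∑ p ∈ range j, lev n l (rs (D p) y) + (1 / (j : ℝ)) * ((j : ℝ) * δ) := by ring
      _ ≤ (avg (nrm n) j y - ε) + δ := by linarith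
  linarith

theorem nrm_fix (n : ℕ) (x : ℕ →₀ ℝ) : nrm n x = stepN n (nrm n) x := by
  refine le_antisymm ?_ ?_
  · refine nrm_le n x _ ?_
    intro l
    cases l with
    | zero => exact supn_le_step n (nrm n) x
    | succ l =>
      exact step_mono n (lev n l) (nrm n) (nice_lev n l) (nice_nrm n) (lev_le_nrm n l) x
  · refine step_le n (nrm n) (nice_nrm n) x _ (N6_sup n x) ?_
    intro d E a j h1 h2 h3 h4 h5 h6
    refine le_of_forall_pos_le_add ?_
    intro ε hε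
    have hd : (0 : ℝ) < (d : ℝ) + 1 := by positivity
    have hδ : 0 < ε / ((d : ℝ) + 1) := by positivity
    choose g hg using fun q : Fin d =>
      avg_approx n (j q) (rs (↑(E q) : Set ℕ) x) (ε / ((d : ℝ) + 1)) hδ
    have hl : ∀ q : Fin d, avg (nrm n) (j q) (rs (↑(E q) : Set ℕ) x)
        ≤ avg (lev n (Finset.univ.sup g)) (j q) (rs (↑(E q) : Set ℕ) x) + ε / ((d : ℝ) + 1) := by
      intro q
      have h7 := hg q
      have h8 : avg (lev n (g q)) (j q) (rs (↑(E q) : Set ℕ) x)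
          ≤ avg (lev n (Finset.univ.sup g)) (j q) (rs (↑(E q) : Set ℕ) x) :=
        avg_mono_nu _ _ (nice_lev n _) (nice_lev n _)
          (fun z => lev_mono' n (Finset.le_sup (Finset.mem_univ q)) z) _ _
      linarith
    have h9 := step_ge n (lev n (Finset.univ.sup g)) (nice_lev n _) x d E a j h1 h2 h3 h4 h5 h6
    have h10 : stepN n (lev n (Finset.univ.sup g)) x ≤ nrm n x :=
      lev_le_nrm n (Finset.univ.sup g + 1) x
    have h11 : ∑ q, avg (nrm n) (j q) (rs (↑(E q) : Set ℕ) x)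
        ≤ ∑ q, avg (lev n (Finset.univ.sup g)) (j q) (rs (↑(E q) : Set ℕ) x)
          + (d : ℝ) * (ε / ((d : ℝ) + 1)) := by
      refine (Finset.sum_le_sum (fun q _ => hl q)).trans (le_of_eq ?_)
      rw [Finset.sum_add_distrib, Finset.sum_const, Finset.card_univ, Fintype.card_fin,
        nsmul_eq_mul]
    have h12 : (d : ℝ) * (ε / ((d : ℝ) + 1)) ≤ ε := by
      rw [mul_div_assoc', div_le_iff₀ hd]
      nlinarith
    linarith

/-! ### Part A1 -/

/-! API for `nrm` and `av` (proved). -/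

theorem nrm_nonneg (n : ℕ) (x : ℕ →₀ ℝ) : 0 ≤ nrm n x := (nice_nrm n).nn x

theorem nrm_mono_abs (n : ℕ) (x y : ℕ →₀ ℝ) (h : ∀ k, |x k| ≤ |y k|) : nrm n x ≤ nrm n y :=
  (nice_nrm n).mono x y h

theorem abs_le_abs_of_le {x y : ℕ →₀ ℝ} (hx : 0 ≤ x) (h : x ≤ y) (k : ℕ) : |x k| ≤ |y k| := by
  have h1 : 0 ≤ x k := hx k
  have h2 : x k ≤ y k := h k
  rw [abs_of_nonneg h1, abs_of_nonneg (h1.trans h2)]; exact h2

theorem nrm_mono (n : ℕ) {x y : ℕ →₀ ℝ} (hx : 0 ≤ x) (h : x ≤ y) : nrm n x ≤ nrm n y :=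
  nrm_mono_abs n x y (abs_le_abs_of_le hx h)

theorem nrm_rs_le (n : ℕ) (E : Set ℕ) (x : ℕ →₀ ℝ) : nrm n (rs E x) ≤ nrm n x :=
  nrm_mono_abs n _ _ (abs_rs_le E x)

theorem nrm_add_le (n : ℕ) (x y : ℕ →₀ ℝ) : nrm n (x + y) ≤ nrm n x + nrm n y :=
  (nice_nrm n).sub x y

theorem nrm_smul (n : ℕ) (c : ℝ) (x : ℕ →₀ ℝ) : nrm n (c • x) = |c| * nrm n x :=
  (nice_nrm n).hom c x

theorem nrm_l1 (n : ℕ) (x : ℕ →₀ ℝ) : nrm n x ≤ ∑ k ∈ x.support, |x k| := (nice_nrm n).l1 x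

theorem coord_le_nrm (n : ℕ) (x : ℕ →₀ ℝ) (k : ℕ) : |x k| ≤ nrm n x := (nice_nrm n).sup x k

theorem nrm_zero (n : ℕ) : nrm n 0 = 0 := by
  have := nrm_smul n 0 (0 : ℕ →₀ ℝ)
  simpa using this

theorem nrm_sum_le {ι : Type} (n : ℕ) (s : Finset ι) (f : ι → ℕ →₀ ℝ) :
    nrm n (∑ i ∈ s, f i) ≤ ∑ i ∈ s, nrm n (f i) := by
  classical
  induction s using Finset.induction_on with
  | empty => simp [nrm_zero]
  | insert a s ha ih =>
    rw [Finset.sum_insert ha, Finset.sum_insert ha]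
    exact (nrm_add_le n _ _).trans (add_le_add (le_refl _) ih)

theorem av_nonneg (n j : ℕ) (x : ℕ →₀ ℝ) : 0 ≤ av n j x := avg_nonneg _ (nice_nrm n) j x

theorem av_mono_abs (n j : ℕ) (x y : ℕ →₀ ℝ) (h : ∀ k, |x k| ≤ |y k|) : av n j x ≤ av n j y :=
  avg_mono _ (nice_nrm n) j x y h

theorem av_mono (n j : ℕ) {x y : ℕ →₀ ℝ} (hx : 0 ≤ x) (h : x ≤ y) : av n j x ≤ av n j y :=
  av_mono_abs n j x y (abs_le_abs_of_le hx h)

theorem av_rs_le (n j : ℕ) (E : Set ℕ) (x : ℕ →₀ ℝ) : av n j (rs E x) ≤ av n j x :=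
  av_mono_abs n j _ _ (abs_rs_le E x)

theorem av_add_le (n j : ℕ) (x y : ℕ →₀ ℝ) : av n j (x + y) ≤ av n j x + av n j y :=
  avg_sub _ (nice_nrm n) j x y

theorem av_smul (n j : ℕ) (c : ℝ) (x : ℕ →₀ ℝ) : av n j (c • x) = |c| * av n j x :=
  avg_hom _ (nice_nrm n) j c x

theorem av_zero (n j : ℕ) : av n j 0 = 0 := by
  have := av_smul n j 0 (0 : ℕ →₀ ℝ)
  simpa using this

theorem av_sum_le {ι : Type} (n j : ℕ) (s : Finset ι) (f : ι → ℕ →₀ ℝ) :
    av n j (∑ i ∈ s, f i) ≤ ∑ i ∈ s, av n j (f i) := by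
  classical
  induction s using Finset.induction_on with
  | empty => simp [av_zero]
  | insert a s ha ih =>
    rw [Finset.sum_insert ha, Finset.sum_insert ha]
    exact (av_add_le n j _ _).trans (add_le_add (le_refl _) ih)

theorem av_le_nrm (n j : ℕ) (x : ℕ →₀ ℝ) : av n j x ≤ nrm n x := avg_le_self _ (nice_nrm n) j x

theorem av_l1 (n j : ℕ) (x : ℕ →₀ ℝ) : av n j x ≤ (1 / (j : ℝ)) * ∑ k ∈ x.support, |x k| :=
  avg_l1 _ (nice_nrm n) j x

theorem av_anti (n : ℕ) {j j' : ℕ} (hj : 1 ≤ j) (hjj : j ≤ j') (x : ℕ →₀ ℝ) :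
    av n j' x ≤ av n j x := avg_anti _ (nice_nrm n) j j' hj hjj x

theorem av_eq_l1 (n j : ℕ) (x : ℕ →₀ ℝ) (h : x.support.card ≤ j) :
    (1 / (j : ℝ)) * ∑ k ∈ x.support, |x k| ≤ av n j x := avg_eq_l1 _ (nice_nrm n) j x h

theorem av_ge (n j : ℕ) (x : ℕ →₀ ℝ) (D : ℕ → Set ℕ) (hD : SuccS D) :
    (1 / (j : ℝ)) * ∑ p ∈ range j, nrm n (rs (D p) x) ≤ av n j x :=
  avg_ge _ (nice_nrm n) j x D hD

theorem av_le (n j : ℕ) (x : ℕ →₀ ℝ) (B : ℝ)
    (h : ∀ D : ℕ → Set ℕ, SuccS D → (1 / (j : ℝ)) * ∑ p ∈ range j, nrm n (rs (D p) x) ≤ B) :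
    av n j x ≤ B := avg_le _ (nice_nrm n) j x B h

theorem val_nonneg (n : ℕ) (Q : Finset ℕ) (E : ℕ → Set ℕ) (j : ℕ → ℕ) (x : ℕ →₀ ℝ) :
    0 ≤ val n Q E j x := Finset.sum_nonneg (fun q _ => av_nonneg n (j q) _)

theorem val_mono (n : ℕ) (Q : Finset ℕ) (E : ℕ → Set ℕ) (j : ℕ → ℕ) {x y : ℕ →₀ ℝ}
    (hx : 0 ≤ x) (h : x ≤ y) : val n Q E j x ≤ val n Q E j y :=
  Finset.sum_le_sum (fun q _ => av_mono n (j q) (rs_nonneg (E q) hx) (rs_mono (E q) h))

theorem val_empty (n : ℕ) (E : ℕ → Set ℕ) (j : ℕ → ℕ) (x : ℕ →₀ ℝ) : val n ∅ E j x = 0 := by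
  simp [val]

theorem val_subset (n : ℕ) {Q' Q : Finset ℕ} (h : Q' ⊆ Q) (E : ℕ → Set ℕ) (j : ℕ → ℕ)
    (x : ℕ →₀ ℝ) : val n Q' E j x ≤ val n Q E j x :=
  Finset.sum_le_sum_of_subset_of_nonneg h (fun q _ _ => av_nonneg n (j q) _)

/-- subfamilies and smaller sets -/
theorem Fam.sub {Q : Finset ℕ} {E : ℕ → Set ℕ} {j : ℕ → ℕ} {σ : ℕ} (hF : Fam Q E j σ)
    {Q' : Finset ℕ} {E' : ℕ → Set ℕ} {j' : ℕ → ℕ} {σ' : ℕ} (hQ : Q' ⊆ Q)
    (hE : ∀ q ∈ Q', E' q ⊆ E q) (hj : ∀ q ∈ Q', j q ≤ j' q) (hσ : ∀ q ∈ Q', σ' ≤ j' q) :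
    Fam Q' E' j' σ' where
  lb := fun q hq k hk => hF.lb q (hQ hq) k (hE q hq hk)
  sep := fun q hq q' hq' hlt k hk =>
    ⟨(hF.sep q (hQ hq) q' (hQ hq') hlt k (hE q hq hk)).1,
      lt_of_lt_of_le (hF.sep q (hQ hq) q' (hQ hq') hlt k (hE q hq hk)).2 (hj q' hq')⟩
  sz := fun q hq => hσ q hq

/-- the empty family -/
theorem Fam.empty (E : ℕ → Set ℕ) (j : ℕ → ℕ) (σ : ℕ) : Fam ∅ E j σ where
  lb := by simp
  sep := by simp
  sz := by simp

/-- one-element families -/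
theorem Fam.single (q : ℕ) (E : ℕ → Set ℕ) (j : ℕ → ℕ) (σ : ℕ) (h1 : ∀ k ∈ E q, q ≤ k)
    (h2 : σ ≤ j q) : Fam {q} E j σ where
  lb := by
    intro q' hq' k hk
    rw [Finset.mem_singleton] at hq'; subst hq'; exact h1 k hk
  sep := by
    intro q' hq' q'' hq'' hlt
    rw [Finset.mem_singleton] at hq' hq''; omega
  sz := by
    intro q' hq'
    rw [Finset.mem_singleton] at hq'; subst hq'; exact h2

/-! ### Part S1 -/

private theorem S1_F {P : Finset ℕ → Prop}
    (hP : ∀ (φ : ℕ → ℕ) (Q Q' : Finset ℕ), (∀ b ∈ Q', φ b ∈ Q) →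
      (∀ b ∈ Q', ∀ b' ∈ Q', b < b' → φ b < φ b') → (∀ b ∈ Q', φ b ≤ b) → P Q → P Q')
    (c : ℕ) (φ : ℕ → ℕ) (Q Q' : Finset ℕ) (h1 : ∀ b ∈ Q', φ b ∈ Q)
    (h2 : ∀ b ∈ Q', ∀ b' ∈ Q', b < b' → φ b < φ b') (h3 : ∀ b ∈ Q', φ b ≤ b)
    (h : SchF P c Q) : SchF P c Q' := by
  obtain ⟨f, hf1, hf2, hf3⟩ := h
  refine ⟨fun b => f (φ b), ?_, fun q hq => hf2 _ (h1 q hq), fun a => ?_⟩
  · intro b hb b' hb' hbb
    rcases eq_or_lt_of_le hbb with h | h
    · subst h; exact le_refl _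
    · exact hf1 (h1 b hb) (h1 b' hb') (h2 b hb b' hb' h).le
  · refine hP φ (Q.filter (fun q => f q = a)) _ ?_ ?_ ?_ (hf3 a)
    · intro b hb
      rw [Finset.mem_filter] at hb ⊢
      exact ⟨h1 b hb.1, hb.2⟩
    · intro b hb b' hb' hbb
      exact h2 b (Finset.mem_filter.1 hb).1 b' (Finset.mem_filter.1 hb').1 hbb
    · intro b hb
      exact h3 b (Finset.mem_filter.1 hb).1

/-- ROW S1. Schreier families (internal version `Sch`, `SchU i c = SchF (Sch i) c`).
`sch_spread`: if `φ` maps `Q'` strictly increasingly into `Q`, `φ b ≤ b`, then `Sch i Q → Sch i Q'`: induction on `i`;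
for `i+1` use `f ∘ φ`: the class `{b ∈ Q' : f (φ b) = a}` is mapped by `φ` into `{q ∈ Q : f q = a}`. -/
theorem sch_empty (i : ℕ) : Sch i ∅ := by
  induction i with
  | zero => show (∅ : Finset ℕ).card ≤ 1; simp
  | succ i ih =>
    refine ⟨0, by simp, fun _ => 0, ?_, by simp, ?_⟩
    · intro a ha; simp at ha
    · intro a; simpa using ih

theorem sch_spread (i : ℕ) (φ : ℕ → ℕ) (Q Q' : Finset ℕ) (h1 : ∀ b ∈ Q', φ b ∈ Q)
    (h2 : ∀ b ∈ Q', ∀ b' ∈ Q', b < b' → φ b < φ b') (h3 : ∀ b ∈ Q', φ b ≤ b) (h : Sch i Q) :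
    Sch i Q' := by
  induction i generalizing φ Q Q' with
  | zero =>
    have h' : Q.card ≤ 1 := h
    show Q'.card ≤ 1
    rw [Finset.card_le_one] at h' ⊢
    intro a ha b hb
    by_contra hne
    rcases lt_or_gt_of_ne hne with hlt | hlt
    · exact absurd (h' _ (h1 a ha) _ (h1 b hb)) (h2 a ha b hb hlt).ne
    · exact absurd (h' _ (h1 b hb) _ (h1 a ha)) (h2 b hb a ha hlt).ne
  | succ i ih =>
    obtain ⟨d, hd, hF⟩ := h
    exact ⟨d, fun q hq => (hd _ (h1 q hq)).trans (h3 q hq),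
      S1_F (P := Sch i) ih d φ Q Q' h1 h2 h3 hF⟩

theorem schU_spread (i c : ℕ) (φ : ℕ → ℕ) (Q Q' : Finset ℕ) (h1 : ∀ b ∈ Q', φ b ∈ Q)
    (h2 : ∀ b ∈ Q', ∀ b' ∈ Q', b < b' → φ b < φ b') (h3 : ∀ b ∈ Q', φ b ≤ b) (h : SchU i c Q) :
    SchU i c Q' :=
  S1_F (P := Sch i) (fun φ Q Q' => sch_spread i φ Q Q') c φ Q Q' h1 h2 h3 h

theorem sch_subset (i : ℕ) {Q Q' : Finset ℕ} (h : Q' ⊆ Q) (hQ : Sch i Q) : Sch i Q' :=
  sch_spread i id Q Q' (fun _ hb => h hb) (fun _ _ _ _ hb => hb) (fun _ _ => le_refl _) hQ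

theorem schU_subset (i c : ℕ) {Q Q' : Finset ℕ} (h : Q' ⊆ Q) (hQ : SchU i c Q) :
    SchU i c Q' :=
  schU_spread i c id Q Q' (fun _ hb => h hb) (fun _ _ _ _ hb => hb) (fun _ _ => le_refl _) hQ

theorem schU_mono (i : ℕ) {c c' : ℕ} (h : c ≤ c') {Q : Finset ℕ} (hQ : SchU i c Q) :
    SchU i c' Q := by
  obtain ⟨f, hf1, hf2, hf3⟩ := hQ
  exact ⟨f, hf1, fun q hq => (hf2 q hq).trans_le h, hf3⟩

theorem schU_empty (i c : ℕ) : SchU i c ∅ := by
  refine ⟨fun _ => 0, ?_, by simp, ?_⟩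
  · intro a ha; simp at ha
  · intro a; simpa using sch_empty i

theorem schU_one (i : ℕ) (Q : Finset ℕ) : SchU i 1 Q ↔ Sch i Q := by
  constructor
  · rintro ⟨f, hf1, hf2, hf3⟩
    have h := hf3 0
    rwa [Finset.filter_true_of_mem (fun q hq => by have := hf2 q hq; omega)] at h
  · intro h
    refine ⟨fun _ => 0, fun _ _ _ _ _ => le_refl _, fun _ _ => Nat.one_pos, fun a => ?_⟩
    exact sch_subset i (Finset.filter_subset _ _) h

/-- `SchU 0 c Q` says that `Q` has at most `c` elements (colour `Q` by the rank). -/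
theorem schU_zero (c : ℕ) (Q : Finset ℕ) : SchU 0 c Q ↔ Q.card ≤ c := by
  constructor
  · rintro ⟨f, hf1, hf2, hf3⟩
    have hinj : Set.InjOn f (↑Q : Set ℕ) := by
      intro a ha b hb hab
      have h : (Q.filter (fun q => f q = f b)).card ≤ 1 := hf3 (f b)
      rw [Finset.card_le_one] at h
      exact h a (Finset.mem_filter.2 ⟨ha, hab⟩) b (Finset.mem_filter.2 ⟨hb, rfl⟩)
    have h := Finset.card_le_card_of_injOn (s := Q) (t := Finset.range c) f
      (fun q hq => by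
        have := hf2 q hq
        simpa using this) hinj
    simpa using h
  · intro h
    have hlt : ∀ a ∈ Q, ∀ b, a < b →
        (Q.filter (fun q => q < a)).card < (Q.filter (fun q => q < b)).card := by
      intro a ha b hab
      apply Finset.card_lt_card
      rw [Finset.ssubset_iff_of_subset]
      · exact ⟨a, Finset.mem_filter.2 ⟨ha, hab⟩, fun h => lt_irrefl _ (Finset.mem_filter.1 h).2⟩
      · intro q hq
        rw [Finset.mem_filter] at hq ⊢
        exact ⟨hq.1, hq.2.trans hab⟩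
    refine ⟨fun b => (Q.filter (fun q => q < b)).card, ?_, ?_, ?_⟩
    · intro a ha b hb hab
      rcases eq_or_lt_of_le hab with h' | h'
      · subst h'; exact le_refl _
      · exact (hlt a ha b h').le
    · intro q hq
      refine lt_of_lt_of_le (Finset.card_lt_card ?_) h
      rw [Finset.ssubset_iff_of_subset (Finset.filter_subset _ _)]
      exact ⟨q, hq, fun h => lt_irrefl _ (Finset.mem_filter.1 h).2⟩
    · intro a
      show (Q.filter (fun q => (Q.filter (fun q' => q' < q)).card = a)).card ≤ 1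
      rw [Finset.card_le_one]
      intro x hx y hy
      rw [Finset.mem_filter] at hx hy
      by_contra hne
      rcases lt_or_gt_of_ne hne with hl | hl
      · have := hlt x hx.1 y hl
        omega
      · have := hlt y hy.1 x hl
        omega

theorem schU_union (i c1 c2 : ℕ) (Q1 Q2 : Finset ℕ) (h : ∀ a ∈ Q1, ∀ b ∈ Q2, a < b)
    (h1 : SchU i c1 Q1) (h2 : SchU i c2 Q2) : SchU i (c1 + c2) (Q1 ∪ Q2) := by
  obtain ⟨f, hf1, hf2, hf3⟩ := h1
  obtain ⟨g, hg1, hg2, hg3⟩ := h2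
  have hmem : ∀ q ∈ Q1 ∪ Q2, q ∉ Q1 → q ∈ Q2 := fun q hq hn =>
    (Finset.mem_union.1 hq).resolve_left hn
  refine ⟨fun q => if q ∈ Q1 then f q else c1 + g q, ?_, ?_, ?_⟩
  · intro a ha b hb hab
    have ha' : a ∈ Q1 ∪ Q2 := ha
    have hb' : b ∈ Q1 ∪ Q2 := hb
    by_cases ha1 : a ∈ Q1 <;> by_cases hb1 : b ∈ Q1
    · simp only [ha1, hb1, if_true]
      exact hf1 ha1 hb1 hab
    · simp only [ha1, hb1, if_true, if_false]
      have := hf2 a ha1
      omega
    · exact absurd (h b hb1 a (hmem a ha' ha1)) (not_lt.2 hab)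
    · simp only [ha1, hb1, if_false]
      have := hg1 (hmem a ha' ha1) (hmem b hb' hb1) hab
      omega
  · intro q hq
    by_cases h1 : q ∈ Q1
    · simp only [h1, if_true]
      have := hf2 q h1
      omega
    · simp only [h1, if_false]
      have := hg2 q (hmem q hq h1)
      omega
  · intro a
    by_cases hac : a < c1
    · refine sch_subset i ?_ (hf3 a)
      intro q hq
      rw [Finset.mem_filter] at hq ⊢
      by_cases h1 : q ∈ Q1
      · refine ⟨h1, ?_⟩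
        have := hq.2
        simpa only [h1, if_true] using this
      · exfalso
        have := hq.2
        simp only [h1, if_false] at this
        omega
    · refine sch_subset i ?_ (hg3 (a - c1))
      intro q hq
      rw [Finset.mem_filter] at hq ⊢
      by_cases h1 : q ∈ Q1
      · exfalso
        have h3 := hq.2
        simp only [h1, if_true] at h3
        have := hf2 q h1
        omega
      · refine ⟨hmem q hq.1 h1, ?_⟩
        have h3 := hq.2
        simp only [h1, if_false] at h3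
        omega

theorem sch_succ_of (i c : ℕ) (Q : Finset ℕ) (hc : ∀ q ∈ Q, c ≤ q) (h : SchU i c Q) :
    Sch (i + 1) Q :=
  ⟨c, hc, h⟩

/-! ### Part S2 -/

/-- ROW S2. The internal Schreier families coincide with the official ones. Induction on `i`.
`→`: from `d, f` take `E c = Q.filter (f · = c)`, `c : Fin d`. `←`: from `d, E` let `f q` be the index `i` with `q ∈ E i`
(unique because the `E i` are successive, hence disjoint; `0` if there is none; on `Q` there is one); `Q.filter (f · = a) = E a` for `a < d`, `∅` for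
`a ≥ d`. -/
theorem sch_iff (i : ℕ) (Q : Finset ℕ) : Sch i Q ↔ Schreier i Q := by
  induction i generalizing Q with
  | zero => exact Iff.rfl
  | succ i ih =>
    constructor
    · rintro ⟨d, hd, f, hmono, hlt, hP⟩
      refine ⟨d, fun c => Q.filter (fun q => f q = (c : ℕ)), ?_, ?_, ?_, ?_⟩
      · intro c a ha
        exact hd a (Finset.mem_filter.1 ha).1
      · intro c c' hcc a ha b hb
        obtain ⟨haQ, hfa⟩ := Finset.mem_filter.1 ha
        obtain ⟨hbQ, hfb⟩ := Finset.mem_filter.1 hb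
        by_contra hab
        have h1 : f b ≤ f a := hmono (Finset.mem_coe.2 hbQ) (Finset.mem_coe.2 haQ) (not_lt.1 hab)
        have h2 : (c : ℕ) < (c' : ℕ) := hcc
        omega
      · intro c
        exact (ih _).1 (hP c)
      · ext q
        rw [Finset.mem_biUnion]
        constructor
        · intro hq
          exact ⟨⟨f q, hlt q hq⟩, Finset.mem_univ _, Finset.mem_filter.2 ⟨hq, rfl⟩⟩
        · rintro ⟨c, _, hc⟩
          exact (Finset.mem_filter.1 hc).1
    · rintro ⟨d, E, h1, h2, h3, h4⟩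
      have huniq : ∀ (a b : Fin d) (q : ℕ), q ∈ E a → q ∈ E b → a = b := by
        intro a b q ha hb
        rcases lt_trichotomy a b with h | h | h
        · exact absurd (h2 a b h q ha q hb) (lt_irrefl q)
        · exact h
        · exact absurd (h2 b a h q hb q ha) (lt_irrefl q)
      have hmem : ∀ q, q ∈ Q ↔ ∃ a : Fin d, q ∈ E a := by
        intro q
        rw [h4, Finset.mem_biUnion]
        constructor
        · rintro ⟨a, _, ha⟩
          exact ⟨a, ha⟩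
        · rintro ⟨a, ha⟩
          exact ⟨a, Finset.mem_univ _, ha⟩
      have hf : ∃ f : ℕ → ℕ, ∀ (a : Fin d) (q : ℕ), q ∈ E a → f q = (a : ℕ) := by
        refine ⟨fun q => if h : ∃ a : Fin d, q ∈ E a then ((Classical.choose h : Fin d) : ℕ) else 0,
          ?_⟩
        intro a q ha
        have hex : ∃ a : Fin d, q ∈ E a := ⟨a, ha⟩
        show (if h : ∃ a : Fin d, q ∈ E a then ((Classical.choose h : Fin d) : ℕ) else 0) = (a : ℕ)
        rw [dif_pos hex, huniq _ a q (Classical.choose_spec hex) ha]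
      obtain ⟨f, hf⟩ := hf
      refine ⟨d, ?_, f, ?_, ?_, ?_⟩
      · intro q hq
        obtain ⟨a, ha⟩ := (hmem q).1 hq
        exact h1 a q ha
      · intro q hq q' hq' hle
        obtain ⟨a, ha⟩ := (hmem q).1 (Finset.mem_coe.1 hq)
        obtain ⟨b, hb⟩ := (hmem q').1 (Finset.mem_coe.1 hq')
        rw [hf a q ha, hf b q' hb]
        by_contra hlt
        have hba : b < a := by
          rw [Fin.lt_def]; omega
        have := h2 b a hba q' hb q ha
        omega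
      · intro q hq
        obtain ⟨a, ha⟩ := (hmem q).1 hq
        rw [hf a q ha]
        exact a.2
      · intro c
        by_cases hc : c < d
        · have hE : Q.filter (fun q => f q = c) = E ⟨c, hc⟩ := by
            ext q
            rw [Finset.mem_filter]
            constructor
            · rintro ⟨hq, hfq⟩
              obtain ⟨a, ha⟩ := (hmem q).1 hq
              have h5 : (a : ℕ) = c := by rw [← hf a q ha]; exact hfq
              have h6 : a = ⟨c, hc⟩ := Fin.ext h5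
              rw [← h6]; exact ha
            · intro hq
              exact ⟨(hmem q).2 ⟨_, hq⟩, hf _ q hq⟩
          rw [hE]
          exact (ih _).2 (h3 _)
        · have hE : Q.filter (fun q => f q = c) = ∅ := by
            rw [Finset.filter_eq_empty_iff]
            intro q hq hfq
            obtain ⟨a, ha⟩ := (hmem q).1 hq
            rw [hf a q ha] at hfq
            exact hc (hfq ▸ a.2)
          rw [hE]
          exact sch_empty i

/-- `S_i ⊆ S_{i'}` for `i ≤ i'` for sets of positive integers (one step: `d = 1`). -/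
theorem schreier_up {i i' : ℕ} (h : i ≤ i') (Q : Finset ℕ) (hQ : ∀ q ∈ Q, 1 ≤ q)
    (hS : Schreier i Q) : Schreier i' Q := by
  induction i', h using Nat.le_induction with
  | base => exact hS
  | succ k hk ih =>
    refine ⟨1, fun _ => Q, ?_, ?_, ?_, ?_⟩
    · intro _ a ha
      exact hQ a ha
    · intro a b hab
      exact absurd hab (by rw [Subsingleton.elim a b]; exact lt_irrefl b)
    · intro _
      exact ih
    · ext q
      rw [Finset.mem_biUnion]
      constructor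
      · intro hq
        exact ⟨0, Finset.mem_univ _, hq⟩
      · rintro ⟨_, _, hq⟩
        exact hq

/-- for `i ≥ 1` the sets in `S_i` do not contain `0`. -/
theorem schreier_pos {i : ℕ} (hi : 1 ≤ i) (Q : Finset ℕ) (hS : Schreier i Q) :
    ∀ q ∈ Q, 1 ≤ q := by
  obtain ⟨k, rfl⟩ : ∃ k, i = k + 1 := ⟨i - 1, by omega⟩
  obtain ⟨d, E, h1, h2, h3, h4⟩ := hS
  intro q hq
  rw [h4, Finset.mem_biUnion] at hq
  obtain ⟨a, _, ha⟩ := hq
  have := h1 a q ha
  have := a.2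
  omega

/-- for `i ≥ 1` an `S_i` set which contains `1` is `{1}`. -/
theorem schreier_one {i : ℕ} (Q : Finset ℕ) (hi : 1 ≤ i) (hS : Schreier i Q) (h : 1 ∈ Q) :
    Q = {1} := by
  induction i, hi using Nat.le_induction generalizing Q with
  | base =>
    obtain ⟨d, E, h1, h2, h3, h4⟩ := hS
    have hq := h
    rw [h4, Finset.mem_biUnion] at hq
    obtain ⟨a, _, ha⟩ := hq
    have h5 := h1 a 1 ha
    have h6 := a.2
    obtain rfl : d = 1 := by omega
    have h7 : Q = E a := by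
      rw [h4]
      ext q
      rw [Finset.mem_biUnion]
      constructor
      · rintro ⟨b, _, hb⟩
        rw [Subsingleton.elim a b]; exact hb
      · intro hq
        exact ⟨a, Finset.mem_univ _, hq⟩
    have h8 : (E a).card ≤ 1 := h3 a
    rw [← h7] at h8
    exact Finset.eq_singleton_iff_unique_mem.2 ⟨h, fun b hb => Finset.card_le_one.1 h8 b hb 1 h⟩
  | succ k hk ih =>
    obtain ⟨d, E, h1, h2, h3, h4⟩ := hS
    have hq := h
    rw [h4, Finset.mem_biUnion] at hq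
    obtain ⟨a, _, ha⟩ := hq
    have h5 := h1 a 1 ha
    have h6 := a.2
    obtain rfl : d = 1 := by omega
    have h7 : Q = E a := by
      rw [h4]
      ext q
      rw [Finset.mem_biUnion]
      constructor
      · rintro ⟨b, _, hb⟩
        rw [Subsingleton.elim a b]; exact hb
      · intro hq
        exact ⟨a, Finset.mem_univ _, hq⟩
    exact ih Q (by rw [h7]; exact h3 a) h

/-- spreading and heredity for the official families. -/
theorem schreier_spread (i : ℕ) (φ : ℕ → ℕ) (Q Q' : Finset ℕ) (h1 : ∀ b ∈ Q', φ b ∈ Q)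
    (h2 : ∀ b ∈ Q', ∀ b' ∈ Q', b < b' → φ b < φ b') (h3 : ∀ b ∈ Q', φ b ≤ b)
    (h : Schreier i Q) : Schreier i Q' :=
  (sch_iff i Q').1 (sch_spread i φ Q Q' h1 h2 h3 ((sch_iff i Q).2 h))

end Pool.Agent.Lib.MP_1bb70c_an
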