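import Pool.Agent.Lib.MP_1bb70c_an.Norm

set_option autoImplicit false

open Finset
open scoped Classical

noncomputable section

namespace Pool.Agent.Lib.MP_1bb70c_an

/-! ### Part E1 -/

/-! ### The space `X^n_{0,1}` and spreading models (official definitions) -/

/-- `c_00`: finitely supported real sequences indexed by the positive integers (`x 0 = 0`). -/
def c00 : Submodule ℝ (ℕ →₀ ℝ) := LinearMap.ker (Finsupp.lapply (R := ℝ) 0)

/-- `c_00` with the norm of `X^n_{0,1}`. -/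
def V (n : ℕ) : Type := c00

instance (n : ℕ) : AddCommGroup (V n) := Submodule.addCommGroup c00

instance (n : ℕ) : Module ℝ (V n) := Submodule.module c00

/-- the underlying sequence -/
def V.seq {n : ℕ} (x : V n) : ℕ →₀ ℝ := Subtype.val (p := fun x => x ∈ c00) x

theorem V.seq_add {n : ℕ} (x y : V n) : (x + y).seq = x.seq + y.seq := rfl

theorem V.seq_smul {n : ℕ} (c : ℝ) (x : V n) : (c • x).seq = c • x.seq := rfl

theorem V.seq_neg {n : ℕ} (x : V n) : (-x).seq = -x.seq := rfl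

theorem V.seq_zero {n : ℕ} : (0 : V n).seq = 0 := rfl

theorem V.seq_inj {n : ℕ} {x y : V n} (h : x.seq = y.seq) : x = y := Subtype.ext h

/-- the norm of `X^n_{0,1}` on `c_00` -/
def nrmAG (n : ℕ) : AddGroupNorm (V n) where
  toFun := fun x => nrm n x.seq
  map_zero' := by
    show nrm n (V.seq 0) = 0
    rw [V.seq_zero]; exact nrm_zero n
  add_le' := by
    intro x y
    show nrm n (V.seq (x + y)) ≤ nrm n x.seq + nrm n y.seq
    rw [V.seq_add]; exact nrm_add_le n _ _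
  neg' := by
    intro x
    show nrm n (V.seq (-x)) = nrm n x.seq
    rw [V.seq_neg]
    have := nrm_smul n (-1) x.seq
    simpa using this
  eq_zero_of_map_eq_zero' := by
    intro x hx
    have hx' : nrm n x.seq = 0 := hx
    apply V.seq_inj
    rw [V.seq_zero]
    ext k
    have h := coord_le_nrm n x.seq k
    rw [hx'] at h
    exact abs_nonpos_iff.1 h

instance (n : ℕ) : NormedAddCommGroup (V n) := (nrmAG n).toNormedAddCommGroup

theorem V.norm_def {n : ℕ} (x : V n) : ‖x‖ = nrm n x.seq := rfl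

instance (n : ℕ) : NormedSpace ℝ (V n) where
  norm_smul_le := by
    intro c x
    rw [V.norm_def, V.norm_def, V.seq_smul, nrm_smul]
    exact le_of_eq rfl

/-- The Banach space `X^n_{0,1}`. -/
abbrev X01 (n : ℕ) : Type := UniformSpace.Completion (V n)

/-- seminormalized sequences -/
def SemiNormalized {Z : Type} [NormedAddCommGroup Z] (y : ℕ → Z) : Prop :=
  ∃ c C : ℝ, 0 < c ∧ ∀ i, c ≤ ‖y i‖ ∧ ‖y i‖ ≤ C

/-- `(y_i)` generates an `ℓ_1^k` spreading model. -/
def GenL1 {Z : Type} [NormedAddCommGroup Z] [NormedSpace ℝ Z] (k : ℕ) (y : ℕ → Z) : Prop :=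
  ∃ C : ℝ, 0 < C ∧ ∀ F : Finset ℕ, Schreier k F → ∀ lam : ℕ → ℝ,
    C * ∑ i ∈ F, |lam i| ≤ ‖∑ i ∈ F, lam i • y i‖

/-- `(y_i)` generates a `c_0^k` spreading model. -/
def GenC0 {Z : Type} [NormedAddCommGroup Z] [NormedSpace ℝ Z] (k : ℕ) (y : ℕ → Z) : Prop :=
  ∃ C : ℝ, ∀ F : Finset ℕ, Schreier k F → ∀ (lam : ℕ → ℝ) (μ : ℝ), (∀ i ∈ F, |lam i| ≤ μ) →
    0 ≤ μ → ‖∑ i ∈ F, lam i • y i‖ ≤ C * μ

/-- The dual of `X^n_{0,1}`. -/
def XDual (n : ℕ) : Type := StrongDual ℝ (X01 n)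

instance (n : ℕ) : NormedAddCommGroup (XDual n) :=
  (ContinuousLinearMap.toNormedAddCommGroup : NormedAddCommGroup (StrongDual ℝ (X01 n)))

instance (n : ℕ) : NormedSpace ℝ (XDual n) :=
  (ContinuousLinearMap.toNormedSpace : NormedSpace ℝ (StrongDual ℝ (X01 n)))

/-- `Y` is infinite-dimensional. -/
def InfDim {Z : Type} [NormedAddCommGroup Z] [NormedSpace ℝ Z] (Y : Submodule ℝ Z) : Prop :=
  ¬ FiniteDimensional ℝ Y

/-- `Y` contains a seminormalized sequence generating a `c_0^k` spreading model. -/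
def AdmitsC0 {Z : Type} [NormedAddCommGroup Z] [NormedSpace ℝ Z] (Y : Submodule ℝ Z) (k : ℕ) :
    Prop := ∃ y : ℕ → Z, (∀ i, y i ∈ Y) ∧ SemiNormalized y ∧ GenC0 k y

/-- `Y` contains a seminormalized sequence generating an `ℓ_1^k` spreading model. -/
def AdmitsL1 {Z : Type} [NormedAddCommGroup Z] [NormedSpace ℝ Z] (Y : Submodule ℝ Z) (k : ℕ) :
    Prop := ∃ y : ℕ → Z, (∀ i, y i ∈ Y) ∧ SemiNormalized y ∧ GenL1 k y

end Pool.Agent.Lib.MP_1bb70c_an
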