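import Pool.Agent.Lib.MP_1bb70c_an.ThmMzero

set_option autoImplicit false

open Finset
open scoped Classical

noncomputable section

namespace Pool.Agent.Lib.MP_1bb70c_an

/-! ### Part M6 -/

private lemma M6_exists_block (θ : ℕ → ℕ) (K k : ℕ) (h0 : θ 0 ≤ k) (hK : k < θ (K + 1)) :
    ∃ b ≤ K, θ b ≤ k ∧ k < θ (b + 1) := by
  induction K with
  | zero => exact ⟨0, le_refl _, h0, hK⟩
  | succ K ih =>
    by_cases h : k < θ (K + 1)
    · obtain ⟨b, hb, h1, h2⟩ := ih h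
      exact ⟨b, by omega, h1, h2⟩
    · exact ⟨K + 1, le_refl _, by omega, hK⟩

private lemma M6_block_unique (θ : ℕ → ℕ) (hθ : StrictMono θ) {b b' k : ℕ} (h1 : θ b ≤ k)
    (h2 : k < θ (b + 1)) (h3 : θ b' ≤ k) (h4 : k < θ (b' + 1)) : b = b' := by
  by_contra hne
  rcases lt_or_gt_of_ne hne with h | h
  · have := hθ.monotone (show b + 1 ≤ b' from h); omega
  · have := hθ.monotone (show b' + 1 ≤ b from h); omega

private lemma M6_decomp (x : ℕ →₀ ℝ) (θ : ℕ → ℕ) (hθ : StrictMono θ) (K : ℕ)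
    (h0 : ∀ k ∈ x.support, θ 0 < k) (hK : ∀ k ∈ x.support, k < θ (K + 1)) :
    x = rs {k | ∃ b, 1 ≤ b ∧ b ≤ K ∧ k = θ b} x
      + ∑ b ∈ range (K + 1), rs (Set.Ioo (θ b) (θ (b + 1))) x := by
  ext k
  rw [Finsupp.add_apply, Finsupp.finsetSum_apply]
  simp only [rs_apply, Set.mem_ofPred_eq, Set.mem_Ioo]
  by_cases hk : k ∈ x.support
  · obtain ⟨b, hb, h1, h2⟩ := M6_exists_block θ K k (h0 k hk).le (hK k hk)
    by_cases he : k = θ b
    · have hb1 : 1 ≤ b := by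
        rcases Nat.eq_zero_or_pos b with h | h
        · subst h; have := h0 k hk; omega
        · exact h
      rw [if_pos ⟨b, hb1, hb, he⟩, Finset.sum_eq_zero, add_zero]
      intro b' _
      rw [if_neg]
      rintro ⟨h3, h4⟩
      have := M6_block_unique θ hθ h1 h2 h3.le h4
      subst this; omega
    · rw [if_neg, Finset.sum_eq_single b, if_pos ⟨by omega, h2⟩, zero_add]
      · intro b' _ hne
        rw [if_neg]
        rintro ⟨h3, h4⟩
        exact hne (M6_block_unique θ hθ h3.le h4 h1 h2)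
      · intro h
        exact absurd (Finset.mem_range.2 (by omega)) h
      · rintro ⟨b', _, _, h3⟩
        have h4 : k < θ (b' + 1) := by rw [h3]; exact hθ (Nat.lt_succ_self b')
        have := M6_block_unique θ hθ h1 h2 h3.ge h4
        subst this; exact he h3
  · have h : x k = 0 := by simpa using hk
    simp [h]

private lemma M6_split (x : ℕ →₀ ℝ) (U : Set ℕ) (a : ℕ) :
    rs U x = rs (U ∩ Set.Iic a) x + rs (U ∩ Set.Ioi a) x := by
  ext k
  rw [Finsupp.add_apply, rs_apply, rs_apply, rs_apply]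
  by_cases hU : k ∈ U
  · by_cases ha : k ≤ a
    · have h2 : ¬ a < k := by omega
      simp [hU, ha, h2]
    · have h2 : a < k := by omega
      simp [hU, ha, h2]
  · simp [hU]

private lemma M6_le_of_add {x u v : ℕ →₀ ℝ} (hu : 0 ≤ u) (h : x = u + v) : v ≤ x := by
  intro k
  rw [h, Finsupp.add_apply]
  have : 0 ≤ u k := hu k
  linarith

private lemma M6_le_of_add' {x u v : ℕ →₀ ℝ} (hv : 0 ≤ v) (h : x = u + v) : u ≤ x := by
  intro k
  rw [h, Finsupp.add_apply]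
  have : 0 ≤ v k := hv k
  linarith

private lemma M6_supp_of_le {x y : ℕ →₀ ℝ} (hy : 0 ≤ y) (h : y ≤ x) : y.support ⊆ x.support := by
  intro k hk
  rw [Finsupp.mem_support_iff] at hk ⊢
  intro h0
  apply hk
  have h1 : 0 ≤ y k := hy k
  have h2 : y k ≤ x k := h k
  linarith

private lemma M6_nrm_points (n : ℕ) (x : ℕ →₀ ℝ) (hx : 0 ≤ x) (θ : ℕ → ℕ) (K : ℕ) (η : ℝ)
    (hη0 : 0 ≤ η) (hη : ∀ k, x k ≤ η) :
    nrm n (rs {k | ∃ b, 1 ≤ b ∧ b ≤ K ∧ k = θ b} x) ≤ K * η := by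
  set p := rs {k | ∃ b, 1 ≤ b ∧ b ≤ K ∧ k = θ b} x with hp
  refine (nrm_l1 n p).trans ?_
  have h1 : ∀ k ∈ p.support, |p k| ≤ η := by
    intro k _
    have h0 : 0 ≤ p k := (rs_nonneg _ hx) k
    rw [abs_of_nonneg h0]
    exact ((rs_le _ hx) k).trans (hη k)
  refine (Finset.sum_le_card_nsmul _ _ _ h1).trans ?_
  rw [nsmul_eq_mul]
  refine mul_le_mul_of_nonneg_right ?_ hη0
  have h2 : p.support ⊆ (Finset.Icc 1 K).image θ := by
    intro k hk
    obtain ⟨⟨b, hb1, hb2, hb3⟩, _⟩ := mem_support_rs.1 hk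
    exact Finset.mem_image.2 ⟨b, Finset.mem_Icc.2 ⟨hb1, hb2⟩, hb3.symm⟩
  have h3 := (Finset.card_le_card h2).trans Finset.card_image_le
  rw [Nat.card_Icc] at h3
  exact_mod_cast (by omega : p.support.card ≤ K)

private lemma M6_hh (ν : ℕ) : 1000 ≤ hh ν := by unfold hh; omega

private lemma M6_m0 (ν : ℕ) : 10 ^ 9 ≤ m0 ν := by
  unfold m0
  have h := Nat.pow_le_pow_left (M6_hh ν) 2
  omega

private lemma M6_hh_m0 (ν : ℕ) : hh ν ≤ m0 ν := by
  unfold m0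
  have h := M6_hh ν
  nlinarith

private lemma M6_Gam_le (ν i : ℕ) (hi : i + 1 ≤ ν) : Gam i ≤ (hh ν : ℝ) := by
  unfold Gam hh
  push_cast
  have : (i : ℝ) + 1 ≤ ν := by exact_mod_cast hi
  nlinarith

private lemma M6_Gam_nonneg (i : ℕ) : 0 ≤ Gam i := by unfold Gam; positivity

/-- the initial part of a block -/
private lemma M6_init (ν i : ℕ) (x : ℕ →₀ ℝ) (hx : 0 ≤ x) (θ θ' : ℕ) (hθ : 8192 ≤ θ)
    (η τ : ℝ) (hη0 : 0 ≤ η) (hη : ∀ k, x k ≤ η)
    (hτ : Bd (ν + 1) (SchU (i + 1) 1) (θ + 1) (rs (Set.Ioo θ θ') x) τ) :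
    nrm (ν + 1) (rs (Set.Ioo θ θ' ∩ Set.Iic (θ ^ 120)) x) ≤ η + 5 * τ := by
  set y := rs (Set.Ioo θ θ' ∩ Set.Iic (θ ^ 120)) x with hy
  have hy0 : 0 ≤ y := rs_nonneg _ hx
  have hyx : y ≤ rs (Set.Ioo θ θ') x := rs_mono_set Set.inter_subset_left hx
  have hsup : ∀ k ∈ y.support, θ < k ∧ k ≤ θ ^ 120 := by
    intro k hk
    obtain ⟨⟨h1, h2⟩, _⟩ := mem_support_rs.1 hk
    exact ⟨h1.1, h2⟩
  have h1 : Bd (ν + 1) (Sch (i + 1)) (θ + 1) y τ :=
    bd_mono_G (fun Q hQ => (schU_one (i + 1) Q).2 hQ) (bd_mono_x hy0 hyx hτ)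
  have h2 : Bd (ν + 1) (Sch 1) (θ + 1) y τ :=
    bd_sch_up (by omega) (fun k hk => by have := (hsup k hk).1; omega) h1
  have h3 := init_bound ν y hy0 θ hθ hsup η τ hη0
    (fun k => ((rs_le _ hx) k).trans (hη k)) h2 1 (fun p => {k | p = 0}) (by
      intro p q hpq a _ b hb
      have : q = 0 := hb
      omega)
  rw [Finset.sum_range_one] at h3
  have h4 : rs {k | (0 : ℕ) = 0} y = y := rs_self (fun _ _ => rfl)
  rw [h4] at h3
  simpa using h3

/-- the induction hypothesis on the far part of a block -/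
private lemma M6_far (ν i : ℕ) (x : ℕ →₀ ℝ) (hx : 0 ≤ x) (θ θ' : ℕ) (hθ : m0 ν ≤ θ)
    (τ : ℝ) (hτ0 : 0 ≤ τ)
    (hτ : Bd (ν + 1) (SchU (i + 1) 1) (θ + 1) (rs (Set.Ioo θ θ') x) τ)
    (IH : ∀ y : ℕ →₀ ℝ, 0 ≤ y → y.support ⊆ x.support → MH ν i y) :
    ∃ u v : ℕ →₀ ℝ, 0 ≤ u ∧ 0 ≤ v ∧ rs (Set.Ioo θ θ' ∩ Set.Ioi (θ ^ 120)) x = u + v ∧
      nrm (ν + 1) u ≤ Gam i * τ ∧
      Bd (ν + 1) (Sch i) (θ ^ 12) v (Gam i * τ / ((θ : ℝ) ^ 2)) := by
  set y := rs (Set.Ioo θ θ' ∩ Set.Ioi (θ ^ 120)) x with hy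
  have hy0 : 0 ≤ y := rs_nonneg _ hx
  have hyx : y ≤ rs (Set.Ioo θ θ') x := rs_mono_set Set.inter_subset_left hx
  have hyx' : y.support ⊆ x.support := by
    intro k hk; exact (mem_support_rs.1 hk).2
  have hsup : ∀ k ∈ y.support, θ ^ 120 < k := by
    intro k hk
    exact (mem_support_rs.1 hk).1.2
  have hm9 := M6_m0 ν
  have hθ1 : 10 ^ 9 ≤ θ := hm9.trans hθ
  have hθpos : 0 < θ := by omega
  have h1 : Bd (ν + 1) (Sch (i + 1)) (θ + 1) y τ :=
    bd_mono_G (fun Q hQ => (schU_one (i + 1) Q).2 hQ) (bd_mono_x hy0 hyx hτ)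
  have hdiv : θ ^ 12 / (θ ^ 2) ^ 4 = θ ^ 4 := by
    have h : θ ^ 12 = θ ^ 4 * (θ ^ 2) ^ 4 := by ring
    rw [h]
    exact Nat.mul_div_cancel _ (by positivity)
  have hθ4 : θ + 1 ≤ θ ^ 4 := by
    have h2 : θ ^ 4 = θ * θ ^ 3 := by ring
    have h3 : 2 ≤ θ ^ 3 := by
      calc 2 ≤ θ := by omega
        _ = θ ^ 1 := (pow_one _).symm
        _ ≤ θ ^ 3 := Nat.pow_le_pow_right hθpos (by norm_num)
    rw [h2]
    exact (by omega : θ + 1 ≤ θ * 2).trans (Nat.mul_le_mul_left θ h3)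
  have h2 : Bd (ν + 1) (SchU i (3 * hh ν * (θ ^ 2) ^ 2)) (θ ^ 12 / (θ ^ 2) ^ 4) y τ := by
    rw [hdiv]
    refine bd_beyond ?_ (bd_mono_size hθ4 h1)
    intro k hk
    have h3 := hsup k hk
    have h4 : 3 * hh ν * (θ ^ 2) ^ 2 ≤ θ ^ 120 := by
      have h5 : hh ν ≤ θ := (M6_hh_m0 ν).trans hθ
      have h6 : 3 ≤ θ := by omega
      calc 3 * hh ν * (θ ^ 2) ^ 2 ≤ θ * θ * (θ ^ 2) ^ 2 :=
            Nat.mul_le_mul (Nat.mul_le_mul h6 h5) (le_refl _)
        _ = θ ^ 6 := by ring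
        _ ≤ θ ^ 120 := Nat.pow_le_pow_right hθpos (by norm_num)
    omega
  have hmθ : m0 ν ≤ θ ^ 2 := by
    calc m0 ν ≤ θ := hθ
      _ = θ ^ 1 := (pow_one _).symm
      _ ≤ θ ^ 2 := Nat.pow_le_pow_right hθpos (by norm_num)
  have h3 := IH y hy0 hyx' (θ ^ 2) (θ ^ 12) hmθ (le_of_eq (by rw [← pow_mul]))
    (fun k hk => by
      have h4 := hsup k hk
      have h5 : (θ ^ 12) ^ 10 = θ ^ 120 := by rw [← pow_mul]
      rw [h5]; exact h4) τ hτ0 h2
  obtain ⟨u, v, hu, hv, huv, hu2, hv2⟩ := h3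
  refine ⟨u, v, hu, hv, huv, hu2, ?_⟩
  have h4 : ((θ ^ 2 : ℕ) : ℝ) = (θ : ℝ) ^ 2 := by push_cast; ring
  rw [h4] at hv2
  exact hv2

/-- ROW M6 (Theorem M(i+1) for small coordinates, normalized), `i + 1 ≤ ν`. `σ = s/m^4`, `c = 3 hh m^2`, `g0 = s^10`.
Points: `greedy` with `Good a b := Bd (ν+1) (SchU (i+1) 1) (a+1) (rs (Ioc a b) x) (1/m)`, start `s^10`, `L = m`: a chain of length `m` contradicts `bd_chain` (`m * (1/m) < 1`; `m * 1 ≤ c`, `schU_mono`; sizes `σ ≤ s^10+1`).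
So `K < m` and `θ : ℕ → ℕ` strictly increasing, `θ 0 = s^10`, support `< θ (K+1)`. `U_b = Ioo (θ b) (θ (b+1))`, `b ≤ K`; `τ_b := bn (ν+1) (SchU (i+1) 1) (θ b + 1) (rs U_b x)`: `0 ≤ τ_b ≤ 1/m` (`bn_le`) and `∑_{b ≤ K} τ_b ≤ 1`
(`sum_bn_le`, `(K+1)*1 ≤ c`). For each `b ≤ K`:
* `y_b = rs (U_b ∩ Iic (θ b ^ 120)) x`: `nrm y_b ≤ 1/m + 5 τ_b` by `init_bound` with `d = 1` (`Bd (Sch 1)` from `bn_spec`, `schU_one`, `bd_sch_up`); `x_b = rs (U_b ∩ Ioi (θ b ^ 120)) x`.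
* `IH` for `x_b` and `i`, `m := θ b ^ 2`, `s := θ b ^ 12`, `T := τ_b`: `m0 ≤ θ^2`; `(θ^2)^6 = θ^12`; support beyond `(θ^12)^10`; `Bd (SchU i (3 hh (θ^2)^2)) (θ^12/(θ^2)^4) x_b τ_b`: `θ^12/θ^8 = θ^4 ≥ θ + 1`, and `3 hh θ^4 ≤ θ^120 ≤ k`: `bd_beyond`, `bn_spec`.
  `x_b = u_b + v_b`, `nrm u_b ≤ Gam i τ_b`, `Bd (Sch i) (θ b ^ 12) v_b (Gam i τ_b / (θ b)^2)`.
`p = rs {θ 1, ..., θ K} x`: `nrm p ≤ K * (1/m) ≤ 1` (`nrm_l1`). `z = ∑ v_b`. `IH0` for `z`, `m := m^2`, `s`, `T = 1`: `(m^2)^3 = m^6 ≤ s`; `s/(m^2)^2 = s/m^4`; `3 hh m^2 = c`; `Bd (SchU 0 c) σ z 1` from `hB` (`z ≤ x`; `Sch 0`-unions are `Sch (i+1)`-unions: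
 re-mark; supports `≥ 1`: use `bd_beyond`-like argument: a set with `≤ c` elements `≥ 1` is in `SchU (i+1) c`). `z = u'' + v''`, `nrm u'' ≤ Gam 0`, `Bd (Sch 0) s v'' (Gam 0/m^2)`.
`u = p + ∑ y_b + ∑ u_b + u''`: `nrm u ≤ 1 + (K+1)/m + 5 + Gam i + Gam 0 ≤ 7 + Gam i + Gam 0`. `v = v''`.
`Bd (Sch (i+1)) s v'' ((2 Gam 0 + 2)/m)`: `block_lemma` (n = ν+1, i): `B b = U_b` (`b ≤ K`, `∅` beyond), `σ b = s`, `ρ b = θ b ^ 12`, `α b = Gam 0/m^2`, `β b = Gam i τ_b/(θ b)^2`, `γ b = Gam 0/m^2 + τ_b` (`bd_first_rest` with `ρ = θ b`, `bn_spec`);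
`v''` restricted to `U_b` is `≤ v_b`, which lives beyond `θ b ^ 120`. `hC`: `P < θ (b0+1) ≤ θ b`: `γ b0 + ∑_{b > b0} (α b + P β b) ≤ (K+1) Gam 0/m^2 + 1/m + ∑ Gam i τ_b / θ b ≤ Gam 0/m + 1/m + Gam i/s^10 ≤ (Gam 0 + 2)/m`. (`Fam` with sizes `≥ s ≥ 1`.) -/
theorem Micore (ν i : ℕ) (hi : i + 1 ≤ ν) (m s : ℕ) (hm : m0 ν ≤ m) (hs : m ^ 6 ≤ s)
    (x : ℕ →₀ ℝ) (hx : 0 ≤ x) (hsupp : ∀ k ∈ x.support, s ^ 10 < k)
    (hη : ∀ k, x k ≤ 1 / (m : ℝ))
    (hB : Bd (ν + 1) (SchU (i + 1) (3 * hh ν * m ^ 2)) (s / m ^ 4) x 1)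
    (IH : ∀ y : ℕ →₀ ℝ, 0 ≤ y → y.support ⊆ x.support → MH ν i y)
    (IH0 : ∀ y : ℕ →₀ ℝ, 0 ≤ y → y.support ⊆ x.support → MH0 ν y) :
    ∃ u v : ℕ →₀ ℝ, 0 ≤ u ∧ 0 ≤ v ∧ x = u + v ∧ nrm (ν + 1) u ≤ 7 + Gam i + Gam 0 ∧
      Bd (ν + 1) (Sch (i + 1)) s v ((2 * Gam 0 + 2) / m) := by
  have hm9 := M6_m0 ν
  have hm1 : 10 ^ 9 ≤ m := hm9.trans hm
  have hmpos : 0 < m := by omega
  have hmR : (0 : ℝ) < m := by exact_mod_cast hmpos
  have hm1R : (1 : ℝ) ≤ m := by exact_mod_cast (by omega : 1 ≤ m)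
  have hms : m ≤ s := by
    calc m = m ^ 1 := (pow_one _).symm
      _ ≤ m ^ 6 := Nat.pow_le_pow_right hmpos (by norm_num)
      _ ≤ s := hs
  have hspos : 0 < s := by omega
  have hs10 : s ≤ s ^ 10 := by
    calc s = s ^ 1 := (pow_one _).symm
      _ ≤ s ^ 10 := Nat.pow_le_pow_right hspos (by norm_num)
  have hms10 : m ^ 2 ≤ s ^ 10 := by
    calc m ^ 2 ≤ m ^ 6 := Nat.pow_le_pow_right hmpos (by norm_num)
      _ ≤ s := hs
      _ ≤ s ^ 10 := hs10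
  have hx1 : ∀ k ∈ x.support, 1 ≤ k := fun k hk => by have := hsupp k hk; omega
  have hη0 : (0 : ℝ) ≤ 1 / m := by positivity
  have hsz : s / m ^ 4 ≤ s ^ 10 + 1 := (Nat.div_le_self _ _).trans (by omega)
  have hc1 : m ≤ 3 * hh ν * m ^ 2 := by
    have h := M6_hh ν
    calc m = 1 * m ^ 1 := by ring
      _ ≤ 3 * hh ν * m ^ 2 := Nat.mul_le_mul (by omega) (Nat.pow_le_pow_right hmpos (by norm_num))
  -- the greedy points
  obtain ⟨K, hKm, θ, hθ, hθ0, hθH, hgood⟩ := greedy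
    (fun a b => Bd (ν + 1) (SchU (i + 1) 1) (a + 1) (rs (Set.Ioc a b) x) (1 / m))
    (by
      intro a b hab
      have h : rs (Set.Ioc a b) x = 0 := by
        rw [Set.Ioc_eq_empty (by omega), rs_empty]
      show Bd (ν + 1) (SchU (i + 1) 1) (a + 1) (rs (Set.Ioc a b) x) (1 / m)
      rw [h]
      exact bd_mono_B hη0 (bd_zero _ _ _)) (s ^ 10) m (x.support.sup id) (by
      intro h h0 hch
      have h1 : Bd (ν + 1) (SchU (i + 1) (m * 1)) (h 0 + 1) x 1 := by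
        rw [h0, mul_one]
        exact bd_mono_size hsz (bd_mono_G (fun Q hQ => schU_mono (i + 1) hc1 hQ) hB)
      have h2 := bd_chain (ν + 1) (i + 1) 1 m (by omega) x h (fun a ha => (hch a ha).1)
        (fun _ => 1 / (m : ℝ)) (fun a ha => (hch a ha).2) 1 h1
      rw [Finset.sum_const, Finset.card_range, nsmul_eq_mul, mul_one_div_cancel hmR.ne'] at h2
      exact lt_irrefl _ h2)
  have hxK : ∀ k ∈ x.support, k < θ (K + 1) := fun k hk =>
    lt_of_le_of_lt (Finset.le_sup (f := id) hk) hθH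
  have hx0 : ∀ k ∈ x.support, θ 0 < k := fun k hk => by rw [hθ0]; exact hsupp k hk
  have hθs : ∀ b, s ^ 10 ≤ θ b := fun b => by
    rw [← hθ0]; exact hθ.monotone (Nat.zero_le b)
  have hθm0 : ∀ b, m0 ν ≤ θ b := fun b =>
    hm.trans (hms.trans (hs10.trans (hθs b)))
  have hθ9 : ∀ b, 10 ^ 9 ≤ θ b := fun b => hm9.trans (hθm0 b)
  -- the numbers τ
  let τ : ℕ → ℝ := fun b =>
    bn (ν + 1) (SchU (i + 1) 1) (θ b + 1) (rs (Set.Ioo (θ b) (θ (b + 1))) x)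
  have hτ0 : ∀ b, 0 ≤ τ b := fun b => bn_nonneg (schU_empty _ _) _
  have hτB : ∀ b, Bd (ν + 1) (SchU (i + 1) 1) (θ b + 1)
      (rs (Set.Ioo (θ b) (θ (b + 1))) x) (τ b) := fun b => bn_spec _
  have hτm : ∀ b ≤ K, τ b ≤ 1 / m := by
    intro b hb
    refine bn_le (schU_empty _ _) ?_
    have h1 := hgood b hb (θ (b + 1) - 1) (by
      have := hθ (Nat.lt_succ_self b); simp only [Nat.succ_eq_add_one] at this; omega)
    have h2 : Set.Ioc (θ b) (θ (b + 1) - 1) = Set.Ioo (θ b) (θ (b + 1)) := by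
      ext k
      have := hθ (Nat.lt_succ_self b)
      simp only [Nat.succ_eq_add_one] at this
      simp only [Set.mem_Ioc, Set.mem_Ioo]
      omega
    rw [h2] at h1
    exact h1
  have hτsum : ∑ b ∈ range (K + 1), τ b ≤ 1 := by
    refine sum_bn_le (ν + 1) (i + 1) 1 (K + 1) x θ (fun a _ => hθ (Nat.lt_succ_self a)) 1 ?_
    rw [hθ0, mul_one]
    exact bd_mono_size hsz (bd_mono_G (fun Q hQ => schU_mono (i + 1)
      ((by omega : K + 1 ≤ m).trans hc1) hQ) hB)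
  -- the induction hypothesis in the blocks
  have hall : ∀ b, ∃ u v : ℕ →₀ ℝ, 0 ≤ u ∧ 0 ≤ v ∧
      rs (Set.Ioo (θ b) (θ (b + 1)) ∩ Set.Ioi (θ b ^ 120)) x = u + v ∧
      nrm (ν + 1) u ≤ Gam i * τ b ∧
      Bd (ν + 1) (Sch i) (θ b ^ 12) v (Gam i * τ b / ((θ b : ℝ) ^ 2)) := fun b =>
    M6_far ν i x hx (θ b) (θ (b + 1)) (hθm0 b) (τ b) (hτ0 b) (hτB b) IH
  choose u v hu hv huv hun hvb using hall
  let Y : ℕ → ℕ →₀ ℝ := fun b => rs (Set.Ioo (θ b) (θ (b + 1)) ∩ Set.Iic (θ b ^ 120)) x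
  have hY0 : ∀ b, 0 ≤ Y b := fun b => rs_nonneg _ hx
  have hYn : ∀ b, nrm (ν + 1) (Y b) ≤ 1 / m + 5 * τ b := fun b =>
    M6_init ν i x hx (θ b) (θ (b + 1)) (by have := hθ9 b; omega) (1 / m) (τ b) hη0 hη (hτB b)
  set p := rs {k | ∃ b, 1 ≤ b ∧ b ≤ K ∧ k = θ b} x with hp
  have hp0 : 0 ≤ p := rs_nonneg _ hx
  have hpn : nrm (ν + 1) p ≤ 1 := by
    refine (M6_nrm_points (ν + 1) x hx θ K (1 / m) hη0 hη).trans ?_
    rw [mul_one_div, div_le_one hmR]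
    exact_mod_cast hKm.le
  set z := ∑ b ∈ range (K + 1), v b with hz
  have hdec : x = p + ∑ b ∈ range (K + 1), Y b + ∑ b ∈ range (K + 1), u b + z := by
    have h1 := M6_decomp x θ hθ K hx0 hxK
    have h2 : ∑ b ∈ range (K + 1), rs (Set.Ioo (θ b) (θ (b + 1))) x
        = ∑ b ∈ range (K + 1), Y b + ∑ b ∈ range (K + 1), u b + z := by
      rw [hz, ← Finset.sum_add_distrib, ← Finset.sum_add_distrib]
      refine Finset.sum_congr rfl fun b _ => ?_
      rw [M6_split x (Set.Ioo (θ b) (θ (b + 1))) (θ b ^ 120), huv b, add_assoc]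
    rw [h2] at h1
    rw [← hp] at h1
    rw [add_assoc, add_assoc, ← add_assoc (∑ b ∈ range (K + 1), Y b)]
    exact h1
  have hsum0 : ∀ f : ℕ → ℕ →₀ ℝ, (∀ b, 0 ≤ f b) → 0 ≤ ∑ b ∈ range (K + 1), f b := fun f hf =>
    Finset.sum_nonneg fun b _ => hf b
  have hz0 : 0 ≤ z := hsum0 v hv
  have hzx : z ≤ x := M6_le_of_add
    (add_nonneg (add_nonneg hp0 (hsum0 Y hY0)) (hsum0 u hu)) hdec
  have hzsupp : z.support ⊆ x.support := M6_supp_of_le hz0 hzx
  -- M(0) for z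
  have hB0 : Bd (ν + 1) (SchU 0 (3 * hh ν * m ^ 2)) (s / (m ^ 2) ^ 2) z 1 := by
    have h1 : (m ^ 2) ^ 2 = m ^ 4 := by ring
    rw [h1]
    exact bd_few_of_bdU (fun k hk => hx1 k (hzsupp hk)) (bd_mono_x hz0 hzx hB)
  obtain ⟨u', v', hu', hv', huv', hun', hvb'⟩ := IH0 z hz0 hzsupp (m ^ 2) s
    (hm.trans (by
      calc m = m ^ 1 := (pow_one _).symm
        _ ≤ m ^ 2 := Nat.pow_le_pow_right hmpos (by norm_num)))
    ((le_of_eq (by rw [← pow_mul])).trans hs) (fun k hk => hsupp k (hzsupp hk)) 1 zero_le_one hB0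
  have hcast : ((m ^ 2 : ℕ) : ℝ) = (m : ℝ) ^ 2 := by push_cast; ring
  rw [hcast, mul_one] at hvb'
  rw [mul_one] at hun'
  have hv'z : v' ≤ z := M6_le_of_add hu' huv'
  have hG0 : 0 ≤ Gam 0 := M6_Gam_nonneg 0
  have hGi : 0 ≤ Gam i := M6_Gam_nonneg i
  refine ⟨p + ∑ b ∈ range (K + 1), Y b + ∑ b ∈ range (K + 1), u b + u', v',
    add_nonneg (add_nonneg (add_nonneg hp0 (hsum0 Y hY0)) (hsum0 u hu)) hu', hv', ?_, ?_, ?_⟩
  · rw [add_assoc _ u' v', ← huv']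
    exact hdec
  · have h1 := nrm_add_le (ν + 1)
      (p + ∑ b ∈ range (K + 1), Y b + ∑ b ∈ range (K + 1), u b) u'
    have h2 := nrm_add_le (ν + 1) (p + ∑ b ∈ range (K + 1), Y b) (∑ b ∈ range (K + 1), u b)
    have h3 := nrm_add_le (ν + 1) p (∑ b ∈ range (K + 1), Y b)
    have h4 : nrm (ν + 1) (∑ b ∈ range (K + 1), Y b) ≤ 6 := by
      refine (nrm_sum_le _ _ _).trans ((Finset.sum_le_sum fun b _ => hYn b).trans ?_)
      rw [Finset.sum_add_distrib, Finset.sum_const, Finset.card_range, nsmul_eq_mul,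
        ← Finset.mul_sum]
      have h5 : ((K + 1 : ℕ) : ℝ) * (1 / m) ≤ 1 := by
        rw [mul_one_div, div_le_one hmR]
        exact_mod_cast hKm
      linarith
    have h5 : nrm (ν + 1) (∑ b ∈ range (K + 1), u b) ≤ Gam i := by
      refine (nrm_sum_le _ _ _).trans ((Finset.sum_le_sum fun b _ => hun b).trans ?_)
      rw [← Finset.mul_sum]
      calc Gam i * ∑ b ∈ range (K + 1), τ b ≤ Gam i * 1 := mul_le_mul_of_nonneg_left hτsum hGi
        _ = Gam i := mul_one _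
    linarith
  · -- the bound for v'
    have hmem : ∀ b k, v b k ≠ 0 → k ∈ Set.Ioo (θ b) (θ (b + 1)) ∧ θ b ^ 120 < k := by
      intro b k hk
      have h1 : rs (Set.Ioo (θ b) (θ (b + 1)) ∩ Set.Ioi (θ b ^ 120)) x k ≠ 0 := by
        intro h0
        have h2 := congrArg (fun f : ℕ →₀ ℝ => f k) (huv b)
        simp only [Finsupp.add_apply] at h2
        rw [h0] at h2
        have h3 : 0 ≤ u b k := hu b k
        have h4 : 0 ≤ v b k := hv b k
        apply hk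
        linarith
      have h2 := mem_support_rs.1 (Finsupp.mem_support_iff.2 h1)
      exact h2.1
    have hzk : ∀ b ≤ K, ∀ k ∈ Set.Ioo (θ b) (θ (b + 1)), z k = v b k := by
      intro b hb k hk
      rw [hz, Finsupp.finsetSum_apply]
      refine Finset.sum_eq_single_of_mem b (Finset.mem_range.2 (by omega)) ?_
      intro b' _ hne
      by_contra hcon
      have h1 := (hmem b' k hcon).1
      exact hne (M6_block_unique θ hθ h1.1.le h1.2 hk.1.le hk.2)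
    have hv'k : ∀ k ∈ v'.support, ∃ b ≤ K, k ∈ Set.Ioo (θ b) (θ (b + 1)) ∧ θ b ^ 120 < k := by
      intro k hk
      have h1 : 0 < z k := by
        have h2 : 0 ≤ v' k := hv' k
        have h3 : v' k ≤ z k := hv'z k
        have h4 : v' k ≠ 0 := Finsupp.mem_support_iff.1 hk
        have h5 : 0 < v' k := lt_of_le_of_ne h2 (Ne.symm h4)
        linarith
      rw [hz, Finsupp.finsetSum_apply] at h1
      obtain ⟨b, hb, hbk⟩ := Finset.exists_ne_zero_of_sum_ne_zero h1.ne'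
      exact ⟨b, by have := Finset.mem_range.1 hb; omega, hmem b k hbk⟩
    intro Q E j hF hQ
    have hG : Gam i / (s : ℝ) ^ 10 ≤ 1 / m := by
      have h1 : Gam i ≤ m := (M6_Gam_le ν i hi).trans (by
        exact_mod_cast (M6_hh_m0 ν).trans hm)
      have h2 : (m : ℝ) ^ 2 ≤ (s : ℝ) ^ 10 := by exact_mod_cast hms10
      have h3 : (0 : ℝ) < (s : ℝ) ^ 10 := by
        have : (0 : ℝ) < s := by exact_mod_cast hspos
        positivity
      rw [div_le_div_iff₀ h3 hmR, one_mul]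
      calc Gam i * m ≤ (m : ℝ) * m := mul_le_mul_of_nonneg_right h1 hmR.le
        _ = (m : ℝ) ^ 2 := by ring
        _ ≤ (s : ℝ) ^ 10 := h2
    refine block_lemma (ν + 1) i v' K
      (fun b => if b ≤ K then Set.Ioo (θ b) (θ (b + 1)) else ∅) ?_ ?_ (fun _ => s)
      (fun b => θ b ^ 12) (fun _ => Gam 0 / (m : ℝ) ^ 2)
      (fun b => Gam i * τ b / ((θ b : ℝ) ^ 2)) (fun b => Gam 0 / (m : ℝ) ^ 2 + τ b) ?_ ?_ ?_ ?_ ?_
      ((2 * Gam 0 + 2) / m) ?_ ?_ Q E j ⟨hF.lb, hF.sep, fun q hq => by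
        have := hF.sz q hq; omega⟩ hQ ?_
    · intro b b' hbb a ha a' ha'
      simp only at ha ha'
      by_cases h1 : b ≤ K
      · by_cases h2 : b' ≤ K
        · rw [if_pos h1] at ha
          rw [if_pos h2] at ha'
          have h3 := hθ.monotone (show b + 1 ≤ b' from hbb)
          have h4 := ha.2
          have h5 := ha'.1
          omega
        · rw [if_neg h2] at ha'
          exact absurd ha' (Set.notMem_empty _)
      · rw [if_neg h1] at ha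
        exact absurd ha (Set.notMem_empty _)
    · intro k hk
      obtain ⟨b, hb, h1, _⟩ := hv'k k hk
      refine ⟨b, hb, ?_⟩
      rw [if_pos hb]
      exact h1
    · intro b
      have := hτ0 b
      positivity
    · intro b hb
      rw [if_pos hb]
      refine bd_first_rest (ν + 1) (i + 1) _ s (θ b) ?_ _ _ (bd_rs hv' _ hvb') ?_
      · intro k hk
        exact (mem_support_rs.1 hk).1.1.le
      · refine bd_mono_x (rs_nonneg _ hv') (rs_mono _ (hv'z.trans hzx)) ?_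
        exact bd_mono_G (fun Q hQ => (schU_one (i + 1) Q).2 hQ) (hτB b)
    · intro b hb
      exact bd_rs hv' _ hvb'
    · intro b hb
      rw [if_pos hb]
      refine bd_mono_x (rs_nonneg _ hv') ?_ (hvb b)
      intro k
      rw [rs_apply]
      by_cases hk : k ∈ Set.Ioo (θ b) (θ (b + 1))
      · rw [if_pos hk, ← hzk b hb k hk]
        exact hv'z k
      · rw [if_neg hk]
        exact hv b k
    · intro b hb k hk hks
      rw [if_pos hb] at hk
      obtain ⟨b', hb', h1, h2⟩ := hv'k k hks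
      have h3 : b = b' := M6_block_unique θ hθ hk.1.le hk.2 h1.1.le h1.2
      subst h3
      have h4 : θ b ^ 12 ≤ θ b ^ 120 :=
        Nat.pow_le_pow_right (by have := hθ9 b; omega) (by norm_num)
      show θ b ^ 12 ≤ k + 1
      omega
    · positivity
    · intro b0 hb0 P hP hPb
      rw [if_pos hb0] at hPb
      have hsum : ∑ b ∈ Finset.Ioc b0 K, min (Gam 0 / (m : ℝ) ^ 2 + τ b)
          (Gam 0 / (m : ℝ) ^ 2 + (P : ℝ) * (Gam i * τ b / ((θ b : ℝ) ^ 2)))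
          ≤ ∑ b ∈ Finset.Ioc b0 K, (Gam 0 / (m : ℝ) ^ 2 + Gam i / (s : ℝ) ^ 10 * τ b) := by
        refine Finset.sum_le_sum fun b hb => (min_le_right _ _).trans ?_
        have hb1 := Finset.mem_Ioc.1 hb
        have hPθ : (P : ℝ) ≤ θ b := by
          have h1 := hθ.monotone (show b0 + 1 ≤ b from hb1.1)
          have h2 := hPb.2
          exact_mod_cast (by omega : P ≤ θ b)
        have hθsR : (s : ℝ) ^ 10 ≤ θ b := by exact_mod_cast hθs b
        have hs0 : (0 : ℝ) < (s : ℝ) ^ 10 := by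
          have : (0 : ℝ) < s := by exact_mod_cast hspos
          positivity
        have hθ0R : (0 : ℝ) < θ b := lt_of_lt_of_le hs0 hθsR
        have h3 : (P : ℝ) * (Gam i * τ b / ((θ b : ℝ) ^ 2)) ≤ Gam i * τ b / θ b := by
          have h4 : Gam i * τ b / (θ b : ℝ) = (θ b : ℝ) * (Gam i * τ b / ((θ b : ℝ) ^ 2)) := by
            field_simp
          rw [h4]
          exact mul_le_mul_of_nonneg_right hPθ (by have := hτ0 b; positivity)
        have h5 : Gam i * τ b / θ b ≤ Gam i / (s : ℝ) ^ 10 * τ b := by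
          rw [div_mul_eq_mul_div]
          exact div_le_div_of_nonneg_left (mul_nonneg hGi (hτ0 b)) hs0 hθsR
        linarith
      have hsub : Finset.Ioc b0 K ⊆ range (K + 1) := by
        intro b hb
        have := Finset.mem_Ioc.1 hb
        exact Finset.mem_range.2 (by omega)
      have hsum2 : ∑ b ∈ Finset.Ioc b0 K, τ b ≤ 1 :=
        (Finset.sum_le_sum_of_subset_of_nonneg hsub fun b _ _ => hτ0 b).trans hτsum
      rw [Finset.sum_add_distrib, Finset.sum_const, ← Finset.mul_sum, nsmul_eq_mul,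
        Nat.card_Ioc] at hsum
      have hs0 : (0 : ℝ) < (s : ℝ) ^ 10 := by
        have : (0 : ℝ) < s := by exact_mod_cast hspos
        positivity
      have h6 : Gam i / (s : ℝ) ^ 10 * ∑ b ∈ Finset.Ioc b0 K, τ b ≤ 1 / m := by
        calc Gam i / (s : ℝ) ^ 10 * ∑ b ∈ Finset.Ioc b0 K, τ b ≤ Gam i / (s : ℝ) ^ 10 * 1 :=
              mul_le_mul_of_nonneg_left hsum2 (by positivity)
          _ ≤ 1 / m := by rw [mul_one]; exact hG
      have h7 : ((K - b0 : ℕ) : ℝ) * (Gam 0 / (m : ℝ) ^ 2) + Gam 0 / (m : ℝ) ^ 2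
          ≤ Gam 0 / m := by
        have h8 : ((K - b0 : ℕ) : ℝ) + 1 ≤ m := by
          exact_mod_cast (by omega : K - b0 + 1 ≤ m)
        have h9 : Gam 0 / (m : ℝ) = m * (Gam 0 / (m : ℝ) ^ 2) := by field_simp
        have h10 : 0 ≤ Gam 0 / (m : ℝ) ^ 2 := by positivity
        have h14 : ((K - b0 : ℕ) : ℝ) * (Gam 0 / (m : ℝ) ^ 2) + Gam 0 / (m : ℝ) ^ 2
            = (((K - b0 : ℕ) : ℝ) + 1) * (Gam 0 / (m : ℝ) ^ 2) := by ring
        rw [h9, h14]
        exact mul_le_mul_of_nonneg_right h8 h10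
      have h11 := hτm b0 hb0
      have h12 : (2 * Gam 0 + 2) / (m : ℝ) = 2 * (Gam 0 / m) + 2 * (1 / m) := by ring
      have h13 : 0 ≤ Gam 0 / (m : ℝ) := by positivity
      rw [h12]
      linarith
    · intro q hq b _ k _ _ _
      exact hF.sz q hq

/-! ### Part M7 -/

private theorem M7_hh_pos (ν : ℕ) : 1000 ≤ hh ν := by
  unfold hh; nlinarith [Nat.zero_le ν]

private theorem M7_m0_ge (ν : ℕ) : 1000 ≤ m0 ν := by
  have h := M7_hh_pos ν
  unfold m0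
  have h2 : 1 ≤ hh ν ^ 2 := Nat.one_le_iff_ne_zero.2 (pow_ne_zero 2 (by omega))
  omega

private theorem M7_zero (n i c σ : ℕ) (hc : 1 ≤ c) (hσ : 1 ≤ σ) (x : ℕ →₀ ℝ)
    (hsupp : ∀ k ∈ x.support, 1 ≤ k) (hB : Bd n (SchU i c) σ x 0) : x = 0 := by
  have h1 : av n σ x ≤ 0 := av_le_of_bdU hc hsupp hB
  ext k
  have h2 : av n σ (rs {k} x) ≤ 0 := (av_rs_le n σ {k} x).trans h1
  have hs : (rs {k} x).support ⊆ {k} := by
    intro l hl
    rw [mem_support_rs] at hl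
    rw [Finset.mem_singleton]
    exact hl.1
  have hcard : (rs {k} x).support.card ≤ σ := by
    refine le_trans (Finset.card_le_card hs) ?_
    rw [Finset.card_singleton]; exact hσ
  have h3 := av_eq_l1 n σ (rs {k} x) hcard
  have h4 : (1 / (σ : ℝ)) * ∑ l ∈ (rs {k} x).support, |rs {k} x l| ≤ 0 := h3.trans h2
  have hσ' : 0 < (1 / (σ : ℝ)) := by
    have : (0 : ℝ) < σ := by exact_mod_cast hσ
    positivity
  have h5 : ∑ l ∈ (rs {k} x).support, |rs {k} x l| ≤ 0 := by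
    by_contra hcon
    push Not at hcon
    have := mul_pos hσ' hcon
    linarith
  by_contra hne
  have hk : k ∈ (rs {k} x).support := by
    rw [mem_support_rs]
    exact ⟨rfl, Finsupp.mem_support_iff.2 hne⟩
  have h6 : |rs {k} x k| ≤ ∑ l ∈ (rs {k} x).support, |rs {k} x l| :=
    Finset.single_le_sum (f := fun l => |rs {k} x l|) (fun l _ => abs_nonneg _) hk
  have h7 : |rs {k} x k| ≤ 0 := h6.trans h5
  have h8 : rs {k} x k ≠ 0 := Finsupp.mem_support_iff.1 hk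
  exact h8 (abs_eq_zero.1 (le_antisymm h7 (abs_nonneg _)))

/-- ROW M7a (step for `MH (i+1)`). -/
theorem step_MH (ν i : ℕ) (hi : i + 1 ≤ ν) (x : ℕ →₀ ℝ) (hx : 0 ≤ x)
    (IH : ∀ y : ℕ →₀ ℝ, 0 ≤ y → y.support ⊆ x.support → MH ν i y)
    (IH0 : ∀ y : ℕ →₀ ℝ, 0 ≤ y → y.support ⊆ x.support → MH0 ν y) : MH ν (i + 1) x := by
  intro m s hm hs hsupp T hT hB
  have hh1 := M7_hh_pos ν
  have hm1000 : 1000 ≤ m := (M7_m0_ge ν).trans hm
  have hm1 : 1 ≤ m := by omega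
  have hmpos : 0 < m := by omega
  have hm4 : 0 < m ^ 4 := Nat.pow_pos hmpos
  have hσ0 : m ^ 2 ≤ s / m ^ 4 := by
    rw [Nat.le_div_iff_mul_le hm4]
    calc m ^ 2 * m ^ 4 = m ^ 6 := by ring
      _ ≤ s := hs
  have hσ32 : 32 ≤ s / m ^ 4 := by
    refine le_trans ?_ hσ0
    calc 32 ≤ 1000 ^ 2 := by norm_num
      _ ≤ m ^ 2 := Nat.pow_le_pow_left hm1000 2
  have hσs : s / m ^ 4 * m ^ 4 ≤ s := Nat.div_mul_le_self s (m ^ 4)
  have hσle : s / m ^ 4 ≤ s := Nat.div_le_self s (m ^ 4)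
  have hs10 : s ≤ s ^ 10 := Nat.le_self_pow (by norm_num) s
  have hc : 3 * m ≤ 3 * hh ν * m ^ 2 := by
    have h1 : m ≤ m ^ 2 := Nat.le_self_pow (by norm_num) m
    calc 3 * m ≤ 3 * m ^ 2 := Nat.mul_le_mul_left 3 h1
      _ = 3 * 1 * m ^ 2 := by ring
      _ ≤ 3 * hh ν * m ^ 2 :=
        Nat.mul_le_mul_right _ (Nat.mul_le_mul_left 3 (by omega))
  have hmR : (1000 : ℝ) ≤ (m : ℝ) := by exact_mod_cast hm1000
  have hmRpos : (0 : ℝ) < (m : ℝ) := by linarith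
  have hGi : (0 : ℝ) ≤ Gam i := by unfold Gam; positivity
  have hGi1 : Gam (i + 1) = Gam i + 260 := by unfold Gam; push_cast; ring
  have hG0 : Gam 0 = 240 := by unfold Gam; push_cast; ring
  have hGi240 : (240 : ℝ) ≤ Gam i := by
    unfold Gam
    have : (0 : ℝ) ≤ (i : ℝ) := Nat.cast_nonneg i
    linarith
  rcases hT.eq_or_lt with hT0 | hTpos
  · -- `T = 0`
    rw [← hT0] at hB
    have hx0 : x = 0 := M7_zero (ν + 1) (i + 1) (3 * hh ν * m ^ 2) (s / m ^ 4)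
      (by omega) (by omega) x (fun k hk => by have := hsupp k hk; omega) hB
    refine ⟨0, 0, le_refl _, le_refl _, ?_, ?_, ?_⟩
    · rw [hx0]; simp
    · rw [nrm_zero, ← hT0]; simp
    · rw [← hT0]; simpa using bd_zero (ν + 1) (Sch (i + 1)) s
  · -- `T > 0`
    have hTinv : 0 ≤ T⁻¹ := inv_nonneg.2 hT
    have hx'0 : 0 ≤ T⁻¹ • x := by
      intro k
      rw [Finsupp.smul_apply, smul_eq_mul]
      exact mul_nonneg hTinv (hx k)
    have hsub : (T⁻¹ • x).support ⊆ x.support := Finsupp.support_smul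
    have hB' : Bd (ν + 1) (SchU (i + 1) (3 * hh ν * m ^ 2)) (s / m ^ 4) (T⁻¹ • x) 1 := by
      have h := bd_smul T⁻¹ hTinv hB
      rwa [inv_mul_cancel₀ hTpos.ne'] at h
    obtain ⟨d, a, y, hd, ha, hy, hxe, hyx, hys, hyη, hna, hBd⟩ :=
      large_coords ν (i + 1) m (3 * hh ν * m ^ 2) s (s / m ^ 4) (m ^ 4) hm1 hc hσ32
        (Nat.one_le_iff_ne_zero.2 hm4.ne') hσs (T⁻¹ • x) hx'0
        (fun k hk => by have := hsupp k (hsub hk); omega) hB' (Sch (i + 1))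
    have hysx : y.support ⊆ x.support := hys.trans hsub
    obtain ⟨u, v, hu, hv, hyuv, hnu, hBv⟩ :=
      Micore ν i hi m s hm hs y hy (fun k hk => hsupp k (hysx hk)) hyη
        (bd_mono_x hy hyx hB') (fun z hz hzs => IH z hz (hzs.trans hysx))
        (fun z hz hzs => IH0 z hz (hzs.trans hysx))
    have hsm : ∀ z : ℕ →₀ ℝ, 0 ≤ z → 0 ≤ T • z := by
      intro z hz k
      rw [Finsupp.smul_apply, smul_eq_mul]
      exact mul_nonneg hT (hz k)
    refine ⟨T • (a + u), T • (d + v), hsm _ (add_nonneg ha hu), hsm _ (add_nonneg hd hv),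
      ?_, ?_, ?_⟩
    · have h1 : x = T • (T⁻¹ • x) := by
        rw [smul_smul, mul_inv_cancel₀ hTpos.ne', one_smul]
      rw [h1, hxe, hyuv, ← smul_add]
      congr 1
      abel
    · rw [nrm_smul, abs_of_pos hTpos]
      have h1 : nrm (ν + 1) (a + u) ≤ 6 + (7 + Gam i + Gam 0) :=
        (nrm_add_le _ a u).trans (add_le_add hna hnu)
      have h2 : nrm (ν + 1) (a + u) ≤ Gam (i + 1) := by rw [hGi1]; linarith
      calc T * nrm (ν + 1) (a + u) ≤ T * Gam (i + 1) := mul_le_mul_of_nonneg_left h2 hT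
        _ = Gam (i + 1) * T := mul_comm _ _
    · have h1 := bd_smul T hT (bd_add hBd hBv)
      refine bd_mono_B ?_ h1
      have h2 : (1 : ℝ) / ((m ^ 4 : ℕ) : ℝ) ≤ 1 / (m : ℝ) := by
        apply one_div_le_one_div_of_le hmRpos
        exact_mod_cast Nat.le_self_pow (by norm_num) m
      have h3 : 1 / ((m ^ 4 : ℕ) : ℝ) + (2 * Gam 0 + 2) / (m : ℝ) ≤ Gam (i + 1) / (m : ℝ) := by
        calc 1 / ((m ^ 4 : ℕ) : ℝ) + (2 * Gam 0 + 2) / (m : ℝ)
            ≤ 1 / (m : ℝ) + (2 * Gam 0 + 2) / (m : ℝ) := by linarith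
          _ = (1 + (2 * Gam 0 + 2)) / (m : ℝ) := by ring
          _ ≤ Gam (i + 1) / (m : ℝ) := by
            apply div_le_div_of_nonneg_right _ hmRpos.le
            rw [hGi1, hG0]; linarith
      calc T * (1 / ((m ^ 4 : ℕ) : ℝ) + (2 * Gam 0 + 2) / (m : ℝ))
          ≤ T * (Gam (i + 1) / (m : ℝ)) := mul_le_mul_of_nonneg_left h3 hT
        _ = Gam (i + 1) * T / (m : ℝ) := by ring

/-- ROW M7b (Theorem M). -/
theorem theoremM (ν : ℕ) (x : ℕ →₀ ℝ) (hx : 0 ≤ x) : MH0 ν x ∧ ∀ i ≤ ν, MH ν i x := by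
  have key : ∀ N : ℕ, ∀ x : ℕ →₀ ℝ, 0 ≤ x → x.support.card ≤ N →
      MH0 ν x ∧ ∀ i ≤ ν, MH ν i x := by
    intro N
    induction N with
    | zero =>
      intro x hx hcard
      have h0 : ∀ z : ℕ →₀ ℝ, 0 ≤ z → z.support.card ≤ 0 → MH0 ν z := by
        intro z hz hzc
        exact step_MH0 ν z hz (fun y _ hyc => absurd hyc (by omega))
      have h1 : ∀ i : ℕ, i ≤ ν → ∀ z : ℕ →₀ ℝ, 0 ≤ z → z.support.card ≤ 0 → MH ν i z := by
        intro i
        induction i with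
        | zero =>
          intro _ z hz hzc
          exact MH_of_MH0 ν z (h0 z hz hzc)
        | succ i ih =>
          intro hi z hz hzc
          exact step_MH ν i hi z hz
            (fun y hy hys => ih (by omega) y hy ((Finset.card_le_card hys).trans hzc))
            (fun y hy hys => h0 y hy ((Finset.card_le_card hys).trans hzc))
      exact ⟨h0 x hx hcard, fun i hi => h1 i hi x hx hcard⟩
    | succ N IHN =>
      intro x hx hcard
      have h0 : ∀ z : ℕ →₀ ℝ, 0 ≤ z → z.support.card ≤ N + 1 → MH0 ν z := by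
        intro z hz hzc
        exact step_MH0 ν z hz (fun y hy hyc => (IHN y hy (by omega)).2)
      have h1 : ∀ i : ℕ, i ≤ ν → ∀ z : ℕ →₀ ℝ, 0 ≤ z → z.support.card ≤ N + 1 →
          MH ν i z := by
        intro i
        induction i with
        | zero =>
          intro _ z hz hzc
          exact MH_of_MH0 ν z (h0 z hz hzc)
        | succ i ih =>
          intro hi z hz hzc
          exact step_MH ν i hi z hz
            (fun y hy hys => ih (by omega) y hy ((Finset.card_le_card hys).trans hzc))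
            (fun y hy hys => h0 y hy ((Finset.card_le_card hys).trans hzc))
      exact ⟨h0 x hx hcard, fun i hi => h1 i hi x hx hcard⟩
  exact key x.support.card x hx (le_refl _)

end Pool.Agent.Lib.MP_1bb70c_an
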