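import Pool.Agent.Lib.MP_1bb70c_an.Cells

set_option autoImplicit false

open Finset
open scoped Classical

noncomputable section

namespace Pool.Agent.Lib.MP_1bb70c_an

/-! ### Part M1 -/

/-- fifth roots -/
theorem M1_root (N : ℕ) : ∃ t : ℕ, t ^ 5 ≤ N ∧ N < (t + 1) ^ 5 := by
  induction N with
  | zero => exact ⟨0, by norm_num, by norm_num⟩
  | succ N ih =>
    obtain ⟨t, h1, h2⟩ := ih
    by_cases h : N + 1 < (t + 1) ^ 5
    · exact ⟨t, by omega, h⟩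
    · refine ⟨t + 1, by omega, ?_⟩
      have h3 : (t + 1) ^ 5 < (t + 1 + 1) ^ 5 := Nat.pow_lt_pow_left (by omega) (by norm_num)
      omega

theorem M1_root_unique {N t t' : ℕ} (h1 : t ^ 5 ≤ N) (h2 : N < (t + 1) ^ 5) (h1' : t' ^ 5 ≤ N)
    (h2' : N < (t' + 1) ^ 5) : t = t' := by
  have a : t < t' + 1 := lt_of_pow_lt_pow_left₀ 5 (by omega) (lt_of_le_of_lt h1 h2')
  have b : t' < t + 1 := lt_of_pow_lt_pow_left₀ 5 (by omega) (lt_of_le_of_lt h1' h2)
  omega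

theorem M1_hh (ν : ℕ) : 1000 ≤ hh ν := by
  unfold hh; nlinarith

theorem M1_m0 (ν : ℕ) : 1000000000 ≤ m0 ν := by
  have h := M1_hh ν
  unfold m0
  nlinarith [Nat.mul_le_mul h h]

/-- one application of the cell lemma -/
theorem M1_step (ν m e ζ i t : ℕ) (hi : i ≤ ν) (hm : m0 ν ≤ m) (hζ : m ^ 10 ≤ ζ) (hζe : ζ ≤ e)
    (ht1 : t ^ 5 ≤ ζ) (ht2 : ζ < (t + 1) ^ 5) (y : ℕ →₀ ℝ) (hy : 0 ≤ y)
    (hsupp : ∀ k ∈ y.support, e ^ 20 < k) (hD : Bd (ν + 1) (Sch (i + 1)) (e ^ 20 + 1) y 20)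
    (hav : av (ν + 1) (ζ + 1) y ≤ 1 / (2 * ((hh ν * m : ℕ) : ℝ)))
    (IH : ∀ z : ℕ →₀ ℝ, 0 ≤ z → z.support ⊆ y.support → MH ν i z) :
    ∃ p u v : ℕ →₀ ℝ, 0 ≤ p ∧ 0 ≤ u ∧ 0 ≤ v ∧ y = p + u + v ∧
      p.support.card ≤ 40 * (hh ν * m) ∧
      BS (ν + 1) ((40 * (hh ν * m) : ℕ) : ℝ) (Gam i * (1 / ((hh ν * m : ℕ) : ℝ))) u ∧
      Bd (ν + 1) (Sch i) (ζ ^ 2) v (40 * Gam i / t) := by
  have hh1 := M1_hh ν
  have hm0 := M1_m0 ν
  have hm9 : 1000000000 ≤ m := hm0.trans hm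
  have hM0 : 0 < hh ν * m := Nat.mul_pos (by omega) (by omega)
  have hMr : (0 : ℝ) < ((hh ν * m : ℕ) : ℝ) := by exact_mod_cast hM0
  have hmt : m ^ 2 ≤ t := by
    have h1 : (m ^ 2) ^ 5 < (t + 1) ^ 5 := by
      have : (m ^ 2) ^ 5 = m ^ 10 := by rw [← pow_mul]
      rw [this]; exact lt_of_le_of_lt hζ ht2
    have h2 : m ^ 2 < t + 1 := lt_of_pow_lt_pow_left₀ 5 (by omega) h1
    omega
  have hmt1 : m ≤ t := (Nat.le_self_pow (by norm_num) m).trans hmt
  have htζ : t ≤ ζ := (Nat.le_self_pow (by norm_num) t).trans ht1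
  have hte : t ≤ e := htζ.trans hζe
  have hme : m ≤ e := hmt1.trans hte
  have ht2' : 2 ≤ t := by omega
  have hs : t ^ 6 ≤ ζ ^ 2 := by
    have h1 : (t ^ 5) ^ 2 ≤ ζ ^ 2 := Nat.pow_le_pow_left ht1 2
    have h2 : t ^ 6 ≤ t ^ 10 := Nat.pow_le_pow_right (by omega) (by norm_num)
    have h3 : (t ^ 5) ^ 2 = t ^ 10 := by rw [← pow_mul]
    omega
  have hg0 : (ζ ^ 2) ^ 10 ≤ e ^ 20 := by
    have : (ζ ^ 2) ^ 10 = ζ ^ 20 := by rw [← pow_mul]
    rw [this]; exact Nat.pow_le_pow_left hζe 20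
  have hhm : 120 * (hh ν) ^ 2 ≤ m := by
    have h1 : m0 ν = 1000 * (hh ν) ^ 2 := rfl
    have h2 : 120 * (hh ν) ^ 2 ≤ 1000 * (hh ν) ^ 2 := Nat.mul_le_mul_right _ (by norm_num)
    rw [h1] at hm
    exact h2.trans hm
  have hL : (40 * (hh ν * m)) * (3 * hh ν * t ^ 2) ≤ e ^ 20 + 1 := by
    have h1 : (40 * (hh ν * m)) * (3 * hh ν * t ^ 2) = (120 * (hh ν) ^ 2) * (m * t ^ 2) := by ring
    have h2 : (120 * (hh ν) ^ 2) * (m * t ^ 2) ≤ m * (m * t ^ 2) := Nat.mul_le_mul_right _ hhm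
    have h3 : m * (m * t ^ 2) ≤ e * (e * e ^ 2) :=
      Nat.mul_le_mul hme (Nat.mul_le_mul hme (Nat.pow_le_pow_left hte 2))
    have h4 : e * (e * e ^ 2) = e ^ 4 := by ring
    have h5 : e ^ 4 ≤ e ^ 20 := Nat.pow_le_pow_right (by omega) (by norm_num)
    omega
  have hdiv : ζ + 1 ≤ ζ ^ 2 / t ^ 4 := by
    rw [Nat.le_div_iff_mul_le (by positivity)]
    have h1 : (ζ + 1) * t ^ 4 ≤ (ζ * t) * t ^ 4 := by
      apply Nat.mul_le_mul_right
      have h5 : ζ * 2 ≤ ζ * t := Nat.mul_le_mul_left _ ht2'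
      omega
    have h2 : (ζ * t) * t ^ 4 = ζ * t ^ 5 := by ring
    have h3 : ζ * t ^ 5 ≤ ζ * ζ := Nat.mul_le_mul_left _ ht1
    have h4 : ζ ^ 2 = ζ * ζ := by ring
    omega
  have havg : av (ν + 1) (ζ ^ 2 / t ^ 4) y ≤ (1 / ((hh ν * m : ℕ) : ℝ)) / 2 := by
    refine (av_anti (ν + 1) (by omega) hdiv y).trans (hav.trans (le_of_eq ?_))
    rw [mul_comm, ← div_div]
  obtain ⟨p, u, v, hp, hu, hv, hsum, hcard, hbs, hbd⟩ := cell ν i hi y hy t (ζ ^ 2) (e ^ 20)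
    (hm.trans hmt1) hs hg0 hsupp (1 / ((hh ν * m : ℕ) : ℝ)) 20 (by positivity)
    (40 * (hh ν * m)) (by omega) hD
    (by
      push_cast at hMr ⊢
      field_simp
      norm_num) hL havg IH
  refine ⟨p, u, v, hp, hu, hv, hsum, hcard, hbs, ?_⟩
  have htr : (0 : ℝ) < (t : ℝ) := by exact_mod_cast (by omega : 0 < t)
  have heq : ((40 * (hh ν * m) : ℕ) : ℝ) * (Gam i * (1 / ((hh ν * m : ℕ) : ℝ)) / (t : ℝ)) =
      40 * Gam i / t := by
    push_cast at hMr ⊢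
    field_simp
  rw [heq] at hbd
  exact hbd

/-- ROW M1 (one block of the decomposition, i = 0). -/
theorem fblock (ν m e ζ : ℕ) (hm : m0 ν ≤ m) (hζ : m ^ 10 ≤ ζ) (hζe : ζ ≤ e) (x : ℕ →₀ ℝ)
    (hx : 0 ≤ x) (hsupp : ∀ k ∈ x.support, e < k)
    (hη : ∀ k, x k ≤ 1 / ((hh ν * m : ℕ) : ℝ)) (hN : nrm (ν + 1) x ≤ 20)
    (hav : av (ν + 1) (ζ + 1) x ≤ 1 / (2 * ((hh ν * m : ℕ) : ℝ)))
    (IH : ∀ y : ℕ →₀ ℝ, 0 ≤ y → y.support ⊆ x.support → ∀ i ≤ ν, MH ν i y) :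
    ∃ v w : ℕ →₀ ℝ, 0 ≤ v ∧ 0 ≤ w ∧ x = v + w ∧
      BS (ν + 1) (100 * ((hh ν * m : ℕ) : ℝ)) ((3 + Gam 0 + Gam ν) / ((hh ν * m : ℕ) : ℝ)) v ∧
      (∀ k ∈ w.support, e ^ 20 < k) ∧
      (∀ t : ℕ, t ^ 5 ≤ ζ → ζ < (t + 1) ^ 5 →
        Bd (ν + 1) (Sch 0) (ζ ^ 2) w (40 * Gam 0 / t)) ∧
      (∀ t : ℕ, t ^ 5 ≤ e → e < (t + 1) ^ 5 →
        Bd (ν + 1) (Sch ν) (e ^ 2) w (40 * Gam ν / t)) := by
  have hh1 := M1_hh ν
  have hm0 := M1_m0 ν
  have hm9 : 1000000000 ≤ m := hm0.trans hm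
  have hM0 : 0 < hh ν * m := Nat.mul_pos (by omega) (by omega)
  have hMr : (0 : ℝ) < ((hh ν * m : ℕ) : ℝ) := by exact_mod_cast hM0
  have hme : m ≤ e := by
    have h1 : m ^ 1 ≤ m ^ 10 := Nat.pow_le_pow_right (by omega) (by norm_num)
    rw [pow_one] at h1
    exact h1.trans (hζ.trans hζe)
  have he9 : 1000000000 ≤ e := hm9.trans hme
  have he20 : 2 ≤ e ^ 20 + 1 := by
    have : 1 ≤ e ^ 20 := Nat.one_le_pow _ _ (by omega)
    omega
  -- supports
  have suppsub : ∀ {y z : ℕ →₀ ℝ}, 0 ≤ y → y ≤ z → y.support ⊆ z.support := by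
    intro y z hy hyz k hk
    rw [Finsupp.mem_support_iff] at hk ⊢
    have h1 : 0 ≤ y k := hy k
    have h2 : y k ≤ z k := hyz k
    intro h0
    exact hk (le_antisymm (h0 ▸ h2) h1)
  -- basic bound
  have hBd : Bd (ν + 1) (Sch (ν + 1)) 2 x 20 := bd_mono_B hN (bd_nrm (ν + 1) (by omega) x)
  have hBd1 : Bd (ν + 1) (Sch 1) 2 x 20 :=
    bd_sch_up (by omega) (fun k hk => by have := hsupp k hk; omega) hBd
  -- the pieces
  set v0 : ℕ →₀ ℝ := rs (Set.Iic (e ^ 20)) x with hv0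
  set x' : ℕ →₀ ℝ := rs (Set.Ioi (e ^ 20)) x with hx'
  have hsplit : v0 + x' = x := by
    have := rs_compl (Set.Iic (e ^ 20)) x
    rwa [Set.compl_Iic] at this
  have hv00 : 0 ≤ v0 := rs_nonneg _ hx
  have hx'0 : 0 ≤ x' := rs_nonneg _ hx
  have hx'le : x' ≤ x := rs_le _ hx
  have hv0le : v0 ≤ x := rs_le _ hx
  have hx's : ∀ k ∈ x'.support, e ^ 20 < k := fun k hk => (mem_support_rs.1 hk).1
  -- W-step
  obtain ⟨t, ht1, ht2⟩ := M1_root ζ
  obtain ⟨p, u, x1, hp, hu, hx1, hsum, hcard, hbs, hbd⟩ := M1_step ν m e ζ 0 t (by omega) hm hζ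
    hζe ht1 ht2 x' hx'0 hx's
    (bd_mono_x hx'0 hx'le (bd_mono_size he20 hBd1))
    ((av_mono (ν + 1) (ζ + 1) hx'0 hx'le).trans hav)
    (fun z hz hzs => IH z hz (hzs.trans (suppsub hx'0 hx'le)) 0 (by omega))
  have hx1le' : x1 ≤ x' := by
    intro k
    have := congrArg (fun f : ℕ →₀ ℝ => f k) hsum
    simp only [Finsupp.add_apply] at this
    have h1 : 0 ≤ p k := hp k
    have h2 : 0 ≤ u k := hu k
    linarith
  have hx1le : x1 ≤ x := hx1le'.trans hx'le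
  have hx1s : ∀ k ∈ x1.support, e ^ 20 < k := fun k hk => hx's k (suppsub hx1 hx1le' hk)
  -- F-step
  obtain ⟨t', ht1', ht2'⟩ := M1_root e
  obtain ⟨p', u', w, hp', hu', hw, hsum', hcard', hbs', hbd'⟩ := M1_step ν m e e ν t' (le_refl _)
    hm (hζ.trans hζe) (le_refl _) ht1' ht2' x1 hx1 hx1s
    (bd_mono_x hx1 hx1le (bd_mono_size he20 hBd))
    ((av_anti (ν + 1) (by omega) (by omega : ζ + 1 ≤ e + 1) x1).trans
      ((av_mono (ν + 1) (ζ + 1) hx1 hx1le).trans hav))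
    (fun z hz hzs => IH z hz (hzs.trans (suppsub hx1 hx1le)) ν (le_refl _))
  have hwle' : w ≤ x1 := by
    intro k
    have := congrArg (fun f : ℕ →₀ ℝ => f k) hsum'
    simp only [Finsupp.add_apply] at this
    have h1 : 0 ≤ p' k := hp' k
    have h2 : 0 ≤ u' k := hu' k
    linarith
  have hple : p ≤ x := by
    intro k
    have := congrArg (fun f : ℕ →₀ ℝ => f k) hsum
    simp only [Finsupp.add_apply] at this
    have h1 : 0 ≤ x1 k := hx1 k
    have h2 : 0 ≤ u k := hu k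
    have h3 : x' k ≤ x k := hx'le k
    linarith
  have hp'le : p' ≤ x := by
    intro k
    have := congrArg (fun f : ℕ →₀ ℝ => f k) hsum'
    simp only [Finsupp.add_apply] at this
    have h1 : 0 ≤ w k := hw k
    have h2 : 0 ≤ u' k := hu' k
    have h3 : x1 k ≤ x k := hx1le k
    linarith
  have hη0 : (0 : ℝ) ≤ 1 / ((hh ν * m : ℕ) : ℝ) := by positivity
  have habs : ∀ {y : ℕ →₀ ℝ}, 0 ≤ y → y ≤ x → ∀ k, |y k| ≤ 1 / ((hh ν * m : ℕ) : ℝ) := by
    intro y hy hyx k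
    have h1 : 0 ≤ y k := hy k
    rw [abs_of_nonneg h1]
    exact (hyx k).trans (hη k)
  have hL40 : ((40 * (hh ν * m) : ℕ) : ℝ) ≤ 100 * ((hh ν * m : ℕ) : ℝ) := by
    rw [Nat.cast_mul 40]
    have h1 : ((40 : ℕ) : ℝ) ≤ 100 := by norm_num
    exact mul_le_mul_of_nonneg_right h1 hMr.le
  have hG0 : ∀ i, 0 ≤ Gam i := by
    intro i; unfold Gam; positivity
  have b0 : BS (ν + 1) (100 * ((hh ν * m : ℕ) : ℝ)) (1 / ((hh ν * m : ℕ) : ℝ)) v0 := by
    intro d D hD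
    have h1 := init_bound ν v0 hv00 e (by omega)
      (by
        intro k hk
        rw [hv0, mem_support_rs] at hk
        refine ⟨hsupp k hk.2, le_trans (Set.mem_Iic.1 hk.1) (Nat.pow_le_pow_right (by omega) (by norm_num))⟩)
      (1 / ((hh ν * m : ℕ) : ℝ)) 20 hη0
      (fun k => (hv0le k).trans (hη k))
      (bd_mono_x hv00 hv0le (bd_mono_size (by omega) hBd1)) d D hD
    refine h1.trans (le_of_eq ?_)
    rw [mul_add, mul_comm (100 : ℝ), ← mul_assoc, one_div, inv_mul_cancel₀ hMr.ne']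
    ring
  have b1 : BS (ν + 1) (100 * ((hh ν * m : ℕ) : ℝ)) (1 / ((hh ν * m : ℕ) : ℝ)) p :=
    bs_mono hη0 (by positivity) hL40 (le_refl _) (bs_card (ν + 1) p (40 * (hh ν * m)) _ hη0 hcard
      (habs hp hple))
  have b2 : BS (ν + 1) (100 * ((hh ν * m : ℕ) : ℝ)) (Gam 0 * (1 / ((hh ν * m : ℕ) : ℝ))) u :=
    bs_mono (mul_nonneg (hG0 0) hη0) (by positivity) hL40 (le_refl _) hbs
  have b3 : BS (ν + 1) (100 * ((hh ν * m : ℕ) : ℝ)) (1 / ((hh ν * m : ℕ) : ℝ)) p' :=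
    bs_mono hη0 (by positivity) hL40 (le_refl _) (bs_card (ν + 1) p' (40 * (hh ν * m)) _ hη0
      hcard' (habs hp' hp'le))
  have b4 : BS (ν + 1) (100 * ((hh ν * m : ℕ) : ℝ)) (Gam ν * (1 / ((hh ν * m : ℕ) : ℝ))) u' :=
    bs_mono (mul_nonneg (hG0 ν) hη0) (by positivity) hL40 (le_refl _) hbs'
  refine ⟨v0 + p + u + p' + u', w, ?_, hw, ?_, ?_, ?_, ?_, ?_⟩
  · exact add_nonneg (add_nonneg (add_nonneg (add_nonneg hv00 hp) hu) hp') hu'
  · calc x = v0 + x' := hsplit.symm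
      _ = v0 + (p + u + (p' + u' + w)) := by rw [← hsum', ← hsum]
      _ = v0 + p + u + p' + u' + w := by abel
  · have hb := bs_add (bs_add (bs_add (bs_add b0 b1) b2) b3) b4
    have heq : 1 / ((hh ν * m : ℕ) : ℝ) + 1 / ((hh ν * m : ℕ) : ℝ) +
        Gam 0 * (1 / ((hh ν * m : ℕ) : ℝ)) + 1 / ((hh ν * m : ℕ) : ℝ) +
        Gam ν * (1 / ((hh ν * m : ℕ) : ℝ)) = (3 + Gam 0 + Gam ν) / ((hh ν * m : ℕ) : ℝ) := by
      rw [one_div]; field_simp; ring
    rw [heq] at hb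
    exact hb
  · intro k hk
    exact hx1s k (suppsub hw hwle' hk)
  · intro s hs1 hs2
    have := M1_root_unique hs1 hs2 ht1 ht2
    subst this
    exact bd_mono_x hw hwle' hbd
  · intro s hs1 hs2
    have := M1_root_unique hs1 hs2 ht1' ht2'
    subst this
    exact hbd'

/-! ### Part M4 -/

/-- decomposition of `[e 0, e n)` into the points `e b` and the open intervals between them -/
private theorem M4_split (x : ℕ →₀ ℝ) (e : ℕ → ℕ) (he : StrictMono e) (n : ℕ) :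
    rs (Set.Ico (e 0) (e n)) x =
      rs (↑((range n).image e) : Set ℕ) x + ∑ b ∈ range n, rs (Set.Ioo (e b) (e (b + 1))) x := by
  induction n with
  | zero => simp [rs_empty]
  | succ n ih =>
    have h1 : e 0 ≤ e n := he.monotone (Nat.zero_le n)
    have h2 : e n < e (n + 1) := he (Nat.lt_succ_self n)
    have hA : (Set.Ico (e 0) (e (n + 1)) : Set ℕ) =
        Set.Ico (e 0) (e n) ∪ ({e n} ∪ Set.Ioo (e n) (e (n + 1))) := by
      ext k
      simp only [Set.mem_Ico, Set.mem_union, Set.mem_singleton_iff, Set.mem_Ioo]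
      omega
    have hd1 : Disjoint (Set.Ico (e 0) (e n) : Set ℕ) ({e n} ∪ Set.Ioo (e n) (e (n + 1))) := by
      rw [Set.disjoint_left]
      intro k hk hk'
      simp only [Set.mem_Ico, Set.mem_union, Set.mem_singleton_iff, Set.mem_Ioo] at hk hk'
      omega
    have hd2 : Disjoint ({e n} : Set ℕ) (Set.Ioo (e n) (e (n + 1))) := by
      rw [Set.disjoint_left]
      intro k hk hk'
      simp only [Set.mem_singleton_iff, Set.mem_Ioo] at hk hk'
      omega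
    have hB : (↑((range (n + 1)).image e) : Set ℕ) = ↑((range n).image e) ∪ {e n} := by
      ext k
      simp only [Finset.coe_image, Finset.coe_range, Set.mem_image, Set.mem_Iio, Set.mem_union,
        Set.mem_singleton_iff]
      constructor
      · rintro ⟨b, hb, rfl⟩
        rcases Nat.lt_succ_iff_lt_or_eq.1 hb with h | h
        · exact Or.inl ⟨b, h, rfl⟩
        · subst h; exact Or.inr rfl
      · rintro (⟨b, hb, rfl⟩ | h)
        · exact ⟨b, by omega, rfl⟩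
        · exact ⟨n, by omega, h.symm⟩
    have hd3 : Disjoint (↑((range n).image e) : Set ℕ) {e n} := by
      rw [Set.disjoint_left]
      intro k hk hk'
      simp only [Finset.coe_image, Finset.coe_range, Set.mem_image, Set.mem_Iio,
        Set.mem_singleton_iff] at hk hk'
      obtain ⟨b, hb, rfl⟩ := hk
      have := he hb
      omega
    rw [hA, rs_union hd1, rs_union hd2, hB, rs_union hd3, ih, Finset.sum_range_succ]
    abel

/-- numerical facts -/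
private theorem M4_num (h m s : ℕ) (hh1 : 1000 ≤ h) (hm : 1000 * h ^ 2 ≤ m) (hs : m ^ 3 ≤ s) :
    1 ≤ s / m ^ 2 ∧ (s / m ^ 2 + 2 * (h * m)) * (100 * (h * m) + 1) ≤ s ∧ m ≤ s ∧ 1 ≤ m := by
  have hm1 : 1 ≤ m := by nlinarith
  have hms : m ≤ s := by
    calc m = m ^ 1 := (pow_one m).symm
      _ ≤ m ^ 3 := Nat.pow_le_pow_right hm1 (by norm_num)
      _ ≤ s := hs
  have hpos : 0 < m ^ 2 := by positivity
  have h1 : m ≤ s / m ^ 2 := by
    rw [Nat.le_div_iff_mul_le hpos]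
    calc m * m ^ 2 = m ^ 3 := by ring
      _ ≤ s := hs
  have h2 : s / m ^ 2 * m ^ 2 ≤ s := Nat.div_mul_le_self s (m ^ 2)
  refine ⟨hm1.trans h1, ?_, hms, hm1⟩
  set σ := s / m ^ 2 with hσ
  have h3 : 404 * h ^ 2 ≤ m := by nlinarith
  have h4 : 202 * h ≤ m := by nlinarith
  have h5 : 100 * (h * m) + 1 ≤ 101 * (h * m) := by
    have : 1 ≤ h * m := Nat.one_le_iff_ne_zero.2 (by positivity)
    omega
  have h6 : 202 * h * (m * σ) ≤ m * (m * σ) := Nat.mul_le_mul_right _ h4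
  have h7 : 404 * h ^ 2 * m ^ 2 ≤ m * m ^ 2 := Nat.mul_le_mul_right _ h3
  have h8 : m * m ^ 2 ≤ s := by
    calc m * m ^ 2 = m ^ 3 := by ring
      _ ≤ s := hs
  calc (σ + 2 * (h * m)) * (100 * (h * m) + 1)
      ≤ (σ + 2 * (h * m)) * (101 * (h * m)) := Nat.mul_le_mul_left _ h5
    _ ≤ s := by
      have e1 : 2 * ((σ + 2 * (h * m)) * (101 * (h * m))) =
          202 * h * (m * σ) + 404 * h ^ 2 * m ^ 2 := by ring
      have e2 : m * (m * σ) = σ * m ^ 2 := by ring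
      rw [e2] at h6
      omega

/-- ROW M4 (Theorem M(0) for small coordinates, normalized). `M = hh ν * m`, `η = 1/M`, `σ = s / m^2` (`≥ m ≥ 1`, `σ ≤ s`). If `x = 0`: `u = v = 0`. Otherwise `structure0` (`M`, `σ`).
For `b ≤ r` let `x_b = rs (Ioo (e b) (e (b+1))) x`; `fblock` with `e := e b`, `ζ := ζ (κ b)` (`≥ e 0 > s^10 ≥ m^10`; `κ b ≥ 0` and `ζ` increasing) and the induction hypothesis (`x_b.support ⊂ x.support`, since `e 0` is missing: so the
cardinality is smaller). `x_b = v_b + w_b`. `w = ∑_{b ≤ r} w_b`, `v1 = ∑_{b ≤ r} v_b`, `p = rs {e 0, ..., e r} x`; `x = p + v1 + w` (every point of the support is `≥ e 0` and `< e (r+1)`).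
`u := w`, `v := p + v1`.
* `nrm w ≤ 1 + 5*42 = 211`: `lemmaP` with `τ = η ≤ 1`, `R = s^10 ≥ 32`, and `vw` (`r ≤ s`: `r < σ + 2M ≤ s/m^2 + 2 hh m ≤ s`), `bd_mono_size` (`σ ≤ s^10`).
* `Bd (Sch 0) s v (120/m)`, by `bd_zero_iff`: `av s p ≤ η (1 + (r+1)/s) ≤ 2η` (`bs_card`, `bs_av`); `av s v1 ≤ τ (1 + (r+1)(100M+1)/s)`, `τ = (3 + Gam 0 + Gam ν) η` (`bs_blocks` with `r+1` blocks, `bs_av`), and `(r+1)(100M+1) ≤ s`:
  `r + 1 ≤ s/m^2 + 2 hh m`, so `(r+1)(100M+1) ≤ 101 hh m (s/m^2 + 2 hh m) ≤ 101 hh s/m + 202 hh^2 m^2 ≤ s` as `m ≥ m0 = 1000 hh^2`, `s ≥ m^3`. Total `≤ 2η + 2 (3 + Gam 0 + Gam ν) η ≤ 8/m`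
  since `3 + Gam 0 + Gam ν ≤ hh ν` and `η = 1/(hh m)`. (So even `8/m`.) -/
theorem M0core (ν m s : ℕ) (hm : m0 ν ≤ m) (hs : m ^ 3 ≤ s) (x : ℕ →₀ ℝ) (hx : 0 ≤ x)
    (hsupp : ∀ k ∈ x.support, s ^ 10 < k) (hη : ∀ k, x k ≤ 1 / ((hh ν * m : ℕ) : ℝ))
    (hB : Bd (ν + 1) (SchU 0 (3 * (hh ν * m))) (s / m ^ 2) x 1)
    (IH : ∀ y : ℕ →₀ ℝ, 0 ≤ y → y.support.card < x.support.card → ∀ i ≤ ν, MH ν i y) :
    ∃ u v : ℕ →₀ ℝ, 0 ≤ u ∧ 0 ≤ v ∧ x = u + v ∧ nrm (ν + 1) u ≤ 211 ∧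
      Bd (ν + 1) (Sch 0) s v (8 / m) := by
  have hh1 : 1000 ≤ hh ν := by unfold hh; omega
  have hmm : 1000 * hh ν ^ 2 ≤ m := hm
  obtain ⟨hσ1, hprod, hms, hm1⟩ := M4_num (hh ν) m s hh1 hmm hs
  have hs1 : 1 ≤ s := hm1.trans hms
  have hbig : (0 : ℝ) ≤ 8 / (m : ℝ) := by positivity
  by_cases hne : x = 0
  · subst hne
    refine ⟨0, 0, le_refl _, le_refl _, by simp, ?_, ?_⟩
    · rw [nrm_zero]; norm_num
    · exact bd_mono_B hbig (bd_zero _ _ _)
  set M : ℕ := hh ν * m with hMdef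
  set σ : ℕ := s / m ^ 2 with hσdef
  have hM1 : 1 ≤ M := Nat.one_le_iff_ne_zero.2 (by positivity)
  have hMpos : (0 : ℝ) < (M : ℝ) := by exact_mod_cast hM1
  have hσs : σ ≤ s := Nat.div_le_self _ _
  have hs10 : s ≤ s ^ 10 := by
    calc s = s ^ 1 := (pow_one s).symm
      _ ≤ s ^ 10 := Nat.pow_le_pow_right hs1 (by norm_num)
  have hsupp' : ∀ k ∈ x.support, σ ≤ k := fun k hk => by
    have := hsupp k hk; omega
  obtain ⟨r, K, e, ζ, κ, he, hζ, he0, hmin, hζ0, hlast, hζK, hr, hK, hb⟩ :=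
    structure0 ν M σ hM1 hσ1 x hx hne hsupp' hB
  have he0s : s ^ 10 < e 0 := hsupp _ he0
  have hm10 : m ^ 10 ≤ s ^ 10 := Nat.pow_le_pow_left hms 10
  have key : ∀ b : ℕ, ∃ v w : ℕ →₀ ℝ, b ≤ r → 0 ≤ v ∧ 0 ≤ w ∧
      rs (Set.Ioo (e b) (e (b + 1))) x = v + w ∧
      BS (ν + 1) (100 * (M : ℝ)) ((3 + Gam 0 + Gam ν) / (M : ℝ)) v ∧
      (∀ k ∈ w.support, e b ^ 20 < k) ∧
      (∀ t : ℕ, t ^ 5 ≤ ζ (κ b) → ζ (κ b) < (t + 1) ^ 5 →
        Bd (ν + 1) (Sch 0) (ζ (κ b) ^ 2) w (40 * Gam 0 / t)) ∧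
      (∀ t : ℕ, t ^ 5 ≤ e b → e b < (t + 1) ^ 5 →
        Bd (ν + 1) (Sch ν) (e b ^ 2) w (40 * Gam ν / t)) := by
    intro b
    by_cases hbr : b ≤ r
    · obtain ⟨hb1, hb2, hb3, hb4, hb5⟩ := hb b hbr
      have hζb : e 0 ≤ ζ (κ b) := by
        rw [← hζ0]; exact hζ.monotone (Nat.zero_le _)
      obtain ⟨v, w, h1, h2, h3, h4, h5, h6, h7⟩ := fblock ν m (e b) (ζ (κ b)) hm
        (by omega) hb2 (rs (Set.Ioo (e b) (e (b + 1))) x) (rs_nonneg _ hx)
        (fun k hk => (mem_support_rs.1 hk).1.1)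
        (fun k => (rs_le _ hx k).trans (hη k)) hb4.le hb5
        (by
          intro y hy hsub i hi
          refine IH y hy ?_ i hi
          refine Finset.card_lt_card ?_
          rw [Finset.ssubset_iff_subset_ne]
          refine ⟨fun k hk => (mem_support_rs.1 (hsub hk)).2, ?_⟩
          intro heq
          have h0 : e 0 ∈ y.support := by rw [heq]; exact he0
          have h1 := (mem_support_rs.1 (hsub h0)).1.1
          have h2 : e 0 ≤ e b := he.monotone (Nat.zero_le _)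
          omega)
      exact ⟨v, w, fun _ => ⟨h1, h2, h3, h4, h5, h6, h7⟩⟩
    · exact ⟨0, 0, fun h => absurd h hbr⟩
  choose V W hVW using key
  -- the pieces live in their blocks
  have hVle : ∀ b ≤ r, V b ≤ rs (Set.Ioo (e b) (e (b + 1))) x := by
    intro b hbr k
    obtain ⟨h1, h2, h3, -⟩ := hVW b hbr
    rw [h3]
    have := h2 k
    simp only [Finsupp.add_apply, Finsupp.coe_zero, Pi.zero_apply] at this ⊢
    linarith
  have hWle : ∀ b ≤ r, W b ≤ rs (Set.Ioo (e b) (e (b + 1))) x := by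
    intro b hbr k
    obtain ⟨h1, h2, h3, -⟩ := hVW b hbr
    rw [h3]
    have := h1 k
    simp only [Finsupp.add_apply, Finsupp.coe_zero, Pi.zero_apply] at this ⊢
    linarith
  have hloc : ∀ (y : ℕ →₀ ℝ), 0 ≤ y → ∀ I : Set ℕ, y ≤ rs I x → ∀ k ∈ y.support, k ∈ I := by
    intro y hy I hle k hk
    by_contra hkI
    have h1 := hle k
    rw [rs_apply, if_neg hkI] at h1
    have h2 := hy k
    rw [Finsupp.mem_support_iff] at hk
    exact hk (le_antisymm h1 h2)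
  have hVloc : ∀ b ≤ r, ∀ k ∈ (V b).support, k ∈ Set.Ioo (e b) (e (b + 1)) := fun b hbr =>
    hloc (V b) (hVW b hbr).1 _ (hVle b hbr)
  have hWloc : ∀ b ≤ r, ∀ k ∈ (W b).support, k ∈ Set.Ioo (e b) (e (b + 1)) := fun b hbr =>
    hloc (W b) (hVW b hbr).2.1 _ (hWle b hbr)
  have hdisj : ∀ b b' k : ℕ, k ∈ Set.Ioo (e b) (e (b + 1)) → k ∈ Set.Ioo (e b') (e (b' + 1)) →
      b = b' := by
    intro b b' k hk hk'
    rcases lt_trichotomy b b' with h | h | h
    · have := he.monotone (show b + 1 ≤ b' from h)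
      have h1 := hk.2
      have h2 := hk'.1
      omega
    · exact h
    · have := he.monotone (show b' + 1 ≤ b from h)
      have h1 := hk'.2
      have h2 := hk.1
      omega
  have hrsSum : ∀ U : ℕ → ℕ →₀ ℝ,
      (∀ b ≤ r, ∀ k ∈ (U b).support, k ∈ Set.Ioo (e b) (e (b + 1))) →
      ∀ b ≤ r, rs (Set.Ioo (e b) (e (b + 1))) (∑ b' ∈ range (r + 1), U b') = U b := by
    intro U hU b hbr
    rw [rs_sum, Finset.sum_eq_single b]
    · exact rs_self (hU b hbr)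
    · intro b' hb' hbb'
      have hb'r : b' ≤ r := by have := Finset.mem_range.1 hb'; omega
      rw [rs_congr (F := ∅), rs_empty]
      intro k hk
      constructor
      · intro hk'
        exact absurd (hdisj b' b k (hU b' hb'r k hk) hk') hbb'
      · intro hk'
        exact absurd hk' (Set.notMem_empty k)
    · intro hb'
      exact absurd (Finset.mem_range.2 (by omega)) hb'
  have hsumSupp : ∀ U : ℕ → ℕ →₀ ℝ, ∀ k ∈ (∑ b' ∈ range (r + 1), U b').support,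
      ∃ b ≤ r, k ∈ (U b).support := by
    intro U k hk
    by_contra hcon
    push Not at hcon
    rw [Finsupp.mem_support_iff, Finsupp.finsetSum_apply] at hk
    refine hk (Finset.sum_eq_zero ?_)
    intro b hb'
    have := hcon b (by have := Finset.mem_range.1 hb'; omega)
    exact Finsupp.notMem_support_iff.1 this
  set w : ℕ →₀ ℝ := ∑ b ∈ range (r + 1), W b with hwdef
  set v1 : ℕ →₀ ℝ := ∑ b ∈ range (r + 1), V b with hv1def
  set p : ℕ →₀ ℝ := rs (↑((range (r + 1)).image e) : Set ℕ) x with hpdef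
  have hw0 : 0 ≤ w := Finset.sum_nonneg (fun b hb' => (hVW b (by
    have := Finset.mem_range.1 hb'; omega)).2.1)
  have hv10 : 0 ≤ v1 := Finset.sum_nonneg (fun b hb' => (hVW b (by
    have := Finset.mem_range.1 hb'; omega)).1)
  have hp0 : 0 ≤ p := rs_nonneg _ hx
  have hxsplit : x = w + (p + v1) := by
    have h1 : rs (Set.Ico (e 0) (e (r + 1))) x = x :=
      rs_self (fun k hk => ⟨hmin k hk, hlast k hk⟩)
    have h2 := M4_split x e he (r + 1)
    rw [h1] at h2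
    have h3 : ∑ b ∈ range (r + 1), rs (Set.Ioo (e b) (e (b + 1))) x = v1 + w := by
      rw [hv1def, hwdef, ← Finset.sum_add_distrib]
      exact Finset.sum_congr rfl (fun b hb' => (hVW b (by
        have := Finset.mem_range.1 hb'; omega)).2.2.1)
    rw [h3] at h2
    rw [h2]
    abel
  have hwx : w ≤ x := by
    intro k
    have h1 : x k = w k + (p k + v1 k) := by
      have := congrArg (fun f : ℕ →₀ ℝ => f k) hxsplit
      simpa using this
    have h2 : 0 ≤ p k := hp0 k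
    have h3 : 0 ≤ v1 k := hv10 k
    rw [h1]
    linarith
  have hrprod : (r + 1) * (100 * M + 1) ≤ s := by
    have h1 : r + 1 ≤ σ + 2 * M := hr
    calc (r + 1) * (100 * M + 1) ≤ (σ + 2 * M) * (100 * M + 1) := Nat.mul_le_mul_right _ h1
      _ ≤ s := hprod
  have hr1s : r + 1 ≤ s := by
    calc r + 1 = (r + 1) * 1 := (mul_one _).symm
      _ ≤ (r + 1) * (100 * M + 1) := Nat.mul_le_mul_left _ (by omega)
      _ ≤ s := hrprod
  have hm0s : m0 ν ≤ s := hm.trans hms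
  -- the good part
  have hgood : Bd (ν + 1) (Sch (ν + 1)) σ w 42 := by
    refine vw ν M s σ hM1 hm0s hσ1 x w hx hw0 hwx r K e ζ κ he hζ he0s hζ0 hζK (by omega) hK
      (fun b hbr => ⟨(hb b hbr).1, (hb b hbr).2.1, (hb b hbr).2.2.1, (hb b hbr).2.2.2.1⟩) hB
      ?_ ?_ ?_
    · intro k hk
      obtain ⟨b, hbr, hkb⟩ := hsumSupp W k hk
      have h1 := hWloc b hbr k hkb
      exact ⟨b, hbr, h1.1, h1.2, (hVW b hbr).2.2.2.2.1 k hkb⟩
    · intro b hbr t ht1 ht2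
      rw [hwdef, hrsSum W hWloc b hbr]
      exact (hVW b hbr).2.2.2.2.2.1 t ht1 ht2
    · intro b hbr t ht1 ht2
      rw [hwdef, hrsSum W hWloc b hbr]
      exact (hVW b hbr).2.2.2.2.2.2 t ht1 ht2
  have hηM : ∀ k, x k ≤ 1 := by
    intro k
    refine (hη k).trans ?_
    rw [div_le_one hMpos]
    exact_mod_cast hM1
  have hs32 : 32 ≤ s ^ 10 := by
    have h1 : 1000 * hh ν ^ 2 ≤ s := hmm.trans hms
    have h2 : 1000 * 1000 ^ 2 ≤ 1000 * hh ν ^ 2 :=
      Nat.mul_le_mul_left _ (Nat.pow_le_pow_left hh1 2)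
    omega
  have hnrm : nrm (ν + 1) w ≤ 211 := by
    have h1 := lemmaP ν w hw0 1 42 (by norm_num) (fun k => (hwx k).trans (hηM k)) (s ^ 10) hs32
      (fun k hk => by
        obtain ⟨b, hbr, hkb⟩ := hsumSupp W k hk
        have h1 := (hWloc b hbr k hkb).1
        have h2 : e 0 ≤ e b := he.monotone (Nat.zero_le _)
        omega)
      (bd_mono_size (hσs.trans hs10) hgood)
    linarith
  refine ⟨w, p + v1, hw0, add_nonneg hp0 hv10, hxsplit, hnrm, ?_⟩
  rw [bd_zero_iff (ν + 1) s hs1 (p + v1) (8 / m) hbig]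
  have hsR : (0 : ℝ) < (s : ℝ) := by exact_mod_cast hs1
  -- the points
  have hp1 : BS (ν + 1) ((r + 1 : ℕ) : ℝ) (1 / (M : ℝ)) p := by
    refine bs_card (ν + 1) p (r + 1) (1 / (M : ℝ)) (by positivity) ?_ ?_
    · calc p.support.card ≤ ((range (r + 1)).image e).card := by
            refine Finset.card_le_card ?_
            intro k hk
            have := (mem_support_rs.1 hk).1
            exact_mod_cast this
        _ ≤ (range (r + 1)).card := Finset.card_image_le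
        _ = r + 1 := Finset.card_range _
    · intro k
      rw [abs_of_nonneg (hp0 k)]
      exact (rs_le _ hx k).trans (hη k)
  have hp2 := bs_av hp1 s hs1
  -- the bad parts of the blocks
  have hGam0 : (0 : ℝ) ≤ 3 + Gam 0 + Gam ν := by unfold Gam; positivity
  have hv2 : BS (ν + 1) (((r + 1 : ℕ) : ℝ) * (100 * (M : ℝ) + 1))
      ((3 + Gam 0 + Gam ν) / (M : ℝ)) v1 := by
    refine bs_blocks (ν + 1) v1 (r + 1) (fun b => Set.Ioo (e b) (e (b + 1))) ?_ ?_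
      (100 * (M : ℝ)) ((3 + Gam 0 + Gam ν) / (M : ℝ)) (by positivity)
      (div_nonneg hGam0 hMpos.le) ?_
    · intro b b' hbb' k hk l hl
      have h1 := he.monotone (show b + 1 ≤ b' from hbb')
      have h2 := hk.2
      have h3 := hl.1
      omega
    · intro k hk
      obtain ⟨b, hbr, hkb⟩ := hsumSupp V k hk
      exact ⟨b, by omega, hVloc b hbr k hkb⟩
    · intro b hbr
      have hbr' : b ≤ r := by omega
      have h1 := hrsSum V hVloc b hbr'
      show BS (ν + 1) (100 * (M : ℝ)) ((3 + Gam 0 + Gam ν) / (M : ℝ))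
        (rs (Set.Ioo (e b) (e (b + 1))) v1)
      rw [hv1def, h1]
      exact (hVW b hbr').2.2.2.1
  have hv3 := bs_av hv2 s hs1
  have hq1 : ((r + 1 : ℕ) : ℝ) / (s : ℝ) ≤ 1 := by
    rw [div_le_one hsR]; exact_mod_cast hr1s
  have hq2 : ((r + 1 : ℕ) : ℝ) * (100 * (M : ℝ) + 1) / (s : ℝ) ≤ 1 := by
    rw [div_le_one hsR]
    have : (((r + 1) * (100 * M + 1) : ℕ) : ℝ) ≤ (s : ℝ) := by exact_mod_cast hrprod
    push_cast at this ⊢
    exact this
  have hA : av (ν + 1) s p ≤ 2 / (M : ℝ) := by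
    refine hp2.trans ?_
    calc 1 / (M : ℝ) * (1 + ((r + 1 : ℕ) : ℝ) / (s : ℝ)) ≤ 1 / (M : ℝ) * 2 :=
          mul_le_mul_of_nonneg_left (by linarith) (by positivity)
      _ = 2 / (M : ℝ) := by ring
  have hC : av (ν + 1) s v1 ≤ 2 * (3 + Gam 0 + Gam ν) / (M : ℝ) := by
    refine hv3.trans ?_
    calc (3 + Gam 0 + Gam ν) / (M : ℝ) *
          (1 + ((r + 1 : ℕ) : ℝ) * (100 * (M : ℝ) + 1) / (s : ℝ))
        ≤ (3 + Gam 0 + Gam ν) / (M : ℝ) * 2 :=
          mul_le_mul_of_nonneg_left (by linarith) (div_nonneg hGam0 hMpos.le)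
      _ = 2 * (3 + Gam 0 + Gam ν) / (M : ℝ) := by ring
  have hmR : (0 : ℝ) < (m : ℝ) := by exact_mod_cast hm1
  have hfin : 2 / (M : ℝ) + 2 * (3 + Gam 0 + Gam ν) / (M : ℝ) ≤ 8 / (m : ℝ) := by
    have hMR : (M : ℝ) = 1000 * ((ν : ℝ) + 1) * (m : ℝ) := by
      rw [hMdef]; unfold hh; push_cast; ring
    have hν : (0 : ℝ) ≤ (ν : ℝ) := Nat.cast_nonneg ν
    have hnum : 2 + 2 * (3 + Gam 0 + Gam ν) ≤ 8 * (1000 * ((ν : ℝ) + 1)) := by
      unfold Gam
      push_cast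
      linarith
    rw [← add_div, div_le_div_iff₀ hMpos hmR, hMR]
    calc (2 + 2 * (3 + Gam 0 + Gam ν)) * (m : ℝ) ≤ 8 * (1000 * ((ν : ℝ) + 1)) * (m : ℝ) :=
          mul_le_mul_of_nonneg_right hnum hmR.le
      _ = 8 * (1000 * ((ν : ℝ) + 1) * (m : ℝ)) := by ring
  exact (av_add_le _ _ _ _).trans ((add_le_add hA hC).trans hfin)

/-! ### Part M5 -/

/-- ROW M5a (removing large coordinates, all i). `T = 1`. `D = {k : 1 < x k}`, `A = {k : 1/M < x k ≤ 1}`. `σ := s / m^b`-type number with `σ * q ≤ s`.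
`D` has `< σ` elements: otherwise choose `σ` of them: `av σ x ≥ av σ (rs D' x) ≥ (1/σ) ∑_{D'} x k > 1` (`av_eq_l1`), contradiction to `hB` (`av_le_of_bdU`). So `(1/σ) ∑_D x k ≤ av σ (rs D x) ≤ 1`, and every family
with sizes `≥ s` has at `rs D x` value `≤ (1/s) ∑_D x k ≤ σ/s ≤ 1/q` (`bd_l1`). `nrm (rs A x) ≤ 1 + 5 = 6` by `lemmaA'` applied to `rs {k | x k ≤ 1} x` (`τ = 1`, `T = 1`). The rest `y = rs {k | x k ≤ 1/M} x`. -/
theorem large_coords (ν i : ℕ) (M c s σ q : ℕ) (hM : 1 ≤ M) (hc : 3 * M ≤ c) (hσ : 32 ≤ σ)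
    (hq : 1 ≤ q) (hσs : σ * q ≤ s) (x : ℕ →₀ ℝ) (hx : 0 ≤ x) (hsupp : ∀ k ∈ x.support, σ ≤ k)
    (hB : Bd (ν + 1) (SchU i c) σ x 1) (G : Finset ℕ → Prop) :
    ∃ d a y : ℕ →₀ ℝ, 0 ≤ d ∧ 0 ≤ a ∧ 0 ≤ y ∧ x = d + a + y ∧ y ≤ x ∧
      y.support ⊆ x.support ∧ (∀ k, y k ≤ 1 / (M : ℝ)) ∧
      nrm (ν + 1) a ≤ 6 ∧ Bd (ν + 1) G s d (1 / (q : ℝ)) := by
  have hM0 : (0 : ℝ) < M := by exact_mod_cast hM
  have hM1 : 1 / (M : ℝ) ≤ 1 := by
    rw [div_le_one hM0]; exact_mod_cast hM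
  have hMn : 0 ≤ 1 / (M : ℝ) := by positivity
  have hσ0 : (0 : ℝ) < σ := by
    have : 0 < σ := by omega
    exact_mod_cast this
  have hq0 : (0 : ℝ) < q := by exact_mod_cast hq
  have hx1 : ∀ k ∈ x.support, 1 ≤ k := fun k hk => le_trans (by omega) (hsupp k hk)
  have hav : av (ν + 1) σ x ≤ 1 := av_le_of_bdU (by omega) hx1 hB
  have hxk : ∀ k, 0 ≤ x k := fun k => hx k
  -- the number of big coordinates
  have hcard : (rs {k | 1 < x k} x).support.card ≤ σ := by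
    by_contra hcon
    push Not at hcon
    obtain ⟨D', hD', hD'c⟩ := Finset.exists_subset_card_eq hcon.le
    have hsub : (rs (↑D' : Set ℕ) x).support = D' := by
      ext k
      rw [mem_support_rs]
      constructor
      · rintro ⟨h1, _⟩; exact h1
      · intro hk
        exact ⟨hk, (mem_support_rs.1 (hD' hk)).2⟩
    have h1 := av_eq_l1 (ν + 1) σ (rs (↑D' : Set ℕ) x) (by rw [hsub, hD'c])
    have h2 := av_rs_le (ν + 1) σ (↑D' : Set ℕ) x
    have h3 : (σ : ℝ) < ∑ k ∈ D', |rs (↑D' : Set ℕ) x k| := by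
      have h4 : ∑ k ∈ D', (1 : ℝ) < ∑ k ∈ D', |rs (↑D' : Set ℕ) x k| := by
        apply Finset.sum_lt_sum_of_nonempty
        · rw [← Finset.card_pos, hD'c]; omega
        · intro k hk
          have h5 : (1 : ℝ) < x k := (mem_support_rs.1 (hD' hk)).1
          rw [rs_apply, if_pos (by exact_mod_cast hk), abs_of_nonneg (hxk k)]
          exact h5
      rw [Finset.sum_const, hD'c, nsmul_eq_mul, mul_one] at h4
      exact h4
    rw [hsub] at h1
    have h6 : 1 < 1 / (σ : ℝ) * ∑ k ∈ D', |rs (↑D' : Set ℕ) x k| := by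
      rw [one_div, ← div_eq_inv_mul, lt_div_iff₀ hσ0, one_mul]
      exact h3
    linarith
  have hsum : ∑ k ∈ (rs {k | 1 < x k} x).support, |rs {k | 1 < x k} x k| ≤ σ := by
    have h1 := av_eq_l1 (ν + 1) σ (rs {k | 1 < x k} x) hcard
    have h2 := av_rs_le (ν + 1) σ {k | 1 < x k} x
    have h3 : 1 / (σ : ℝ) * ∑ k ∈ (rs {k | 1 < x k} x).support, |rs {k | 1 < x k} x k| ≤ 1 := by
      linarith
    rw [one_div, ← div_eq_inv_mul, div_le_one hσ0] at h3
    exact h3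
  have hs1 : 1 ≤ s := by
    have : 1 * 1 ≤ σ * q := Nat.mul_le_mul (by omega) hq
    omega
  have hs0 : (0 : ℝ) < s := by exact_mod_cast hs1
  refine ⟨rs {k | 1 < x k} x, rs {k | 1 / (M : ℝ) < x k ∧ x k ≤ 1} x,
    rs {k | x k ≤ 1 / (M : ℝ)} x, rs_nonneg _ hx, rs_nonneg _ hx, rs_nonneg _ hx, ?_,
    rs_le _ hx, ?_, ?_, ?_, ?_⟩
  · ext k
    rw [Finsupp.add_apply, Finsupp.add_apply, rs_apply, rs_apply, rs_apply]
    simp only [Set.mem_ofPred_eq]
    by_cases h1 : 1 < x k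
    · rw [if_pos h1, if_neg (by rintro ⟨_, h⟩; linarith), if_neg (by linarith)]; ring
    · by_cases h2 : x k ≤ 1 / (M : ℝ)
      · rw [if_neg h1, if_neg (by rintro ⟨h, _⟩; linarith), if_pos h2]; ring
      · rw [if_neg h1, if_pos ⟨not_le.1 h2, not_lt.1 h1⟩, if_neg h2]; ring
  · intro k hk
    exact (mem_support_rs.1 hk).2
  · intro k
    rw [rs_apply]
    split_ifs with h
    · exact h
    · exact hMn
  · have hx' : 0 ≤ rs {k | x k ≤ 1} x := rs_nonneg _ hx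
    have hB' : Bd (ν + 1) (SchU 0 (3 * M)) σ (rs {k | x k ≤ 1} x) 1 :=
      bd_rs hx _ (bd_mono_G (fun Q hQ => schU_mono 0 hc hQ) (bd_few_of_bdU hx1 hB))
    have h := lemmaA' ν (rs {k | x k ≤ 1} x) hx' σ M hσ hM
      (fun k hk => hsupp k (mem_support_rs.1 hk).2) 1 1 one_pos zero_le_one (by
        intro k
        rw [rs_apply]
        split_ifs with h
        · exact h
        · exact zero_le_one) hB'
    have heq : rs {k | (1 : ℝ) / M < rs {k | x k ≤ 1} x k} (rs {k | x k ≤ 1} x)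
        = rs {k | 1 / (M : ℝ) < x k ∧ x k ≤ 1} x := by
      ext k
      have hk : rs {k | x k ≤ 1} x k = if x k ≤ 1 then x k else 0 := rs_apply _ _ _
      rw [rs_apply, rs_apply, rs_apply]
      simp only [Set.mem_ofPred_eq, hk]
      by_cases h1 : x k ≤ 1
      · simp only [h1, and_true, if_true]
      · simp only [h1, and_false, if_false, ite_self]
    rw [heq] at h
    linarith
  · refine bd_mono_B ?_ (bd_l1 (ν + 1) G s hs1 _)
    have h1 : 1 / (s : ℝ) * ∑ k ∈ (rs {k | 1 < x k} x).support, |rs {k | 1 < x k} x k|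
        ≤ 1 / (s : ℝ) * σ := mul_le_mul_of_nonneg_left hsum (by positivity)
    refine h1.trans ?_
    rw [one_div, ← div_eq_inv_mul, div_le_div_iff₀ hs0 hq0, one_mul]
    exact_mod_cast hσs

/-- ROW M5b (step for `MH0`). `T = 0`: then `x = 0` (`av_le_of_bdU`, `av_eq_l1` for single coordinates, or `coord`: a coordinate `x k > 0` gives `av σ (rs {k} x) = x k/σ > 0`), `u = v = 0`.
`T > 0`: scale: `x' = T⁻¹ • x` satisfies the hypotheses with `T = 1` (`bd_smul`). `large_coords` with `i = 0`, `M = hh ν * m`, `c = 3 M`, `σ = s/m^2`, `q = m^2`; then `M0core` for `y` (cardinality of the support `≤`).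
`u = a + u'`, `v = d + v'`: `nrm u ≤ 6 + 211 ≤ 240`, `Bd (Sch 0) s v (1/m^2 + 8/m)`, `≤ 240/m`. Scale back. (`M0core` needs the induction hypothesis for supports smaller than that of `y`.) -/
theorem step_MH0 (ν : ℕ) (x : ℕ →₀ ℝ) (hx : 0 ≤ x)
    (IH : ∀ y : ℕ →₀ ℝ, 0 ≤ y → y.support.card < x.support.card → ∀ i ≤ ν, MH ν i y) :
    MH0 ν x := by
  intro m s hm hs hsupp T hT hB
  have hhh : 1000 ≤ hh ν := by unfold hh; omega
  have hm1000 : 1000 ≤ m := by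
    refine le_trans ?_ hm
    unfold m0
    exact Nat.le_mul_of_pos_right _ (Nat.pow_pos (by omega))
  have hm3 : m * m ^ 2 ≤ s := by
    calc m * m ^ 2 = m ^ 3 := by ring
      _ ≤ s := hs
  have hm2 : 0 < m ^ 2 := by positivity
  have hσm : m ≤ s / m ^ 2 := (Nat.le_div_iff_mul_le hm2).2 hm3
  have hσs : s / m ^ 2 ≤ s := Nat.div_le_self _ _
  have hs1 : 1 ≤ s := by omega
  have hs10 : s ≤ s ^ 10 := Nat.le_self_pow (by norm_num) s
  have hx1 : ∀ k ∈ x.support, 1 ≤ k := fun k hk => by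
    have := hsupp k hk
    omega
  have hmR : (1000 : ℝ) ≤ m := by exact_mod_cast hm1000
  have hm0R : (0 : ℝ) < m := by linarith
  have hG0 : Gam 0 = 240 := by unfold Gam; norm_num
  have hhm : 1 ≤ hh ν * m := Nat.mul_pos (by omega) (by omega)
  have hBc : Bd (ν + 1) (SchU 0 (3 * (hh ν * m))) (s / m ^ 2) x T := by
    rw [← mul_assoc]; exact hB
  rcases hT.eq_or_lt with h0 | hTpos
  · -- `T = 0`
    subst h0
    have hx0 : x = 0 := by
      by_contra hne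
      obtain ⟨k, hk⟩ := Finsupp.ne_iff.1 hne
      rw [Finsupp.zero_apply] at hk
      have hks : k ∈ x.support := Finsupp.mem_support_iff.2 hk
      have hav : av (ν + 1) (s / m ^ 2) x ≤ 0 := av_le_of_bdU (by omega) hx1 hBc
      have hsub : (rs {k} x).support = {k} := by
        ext l
        rw [mem_support_rs, Finset.mem_singleton, Set.mem_singleton_iff]
        constructor
        · exact fun h => h.1
        · rintro rfl; exact ⟨rfl, hks⟩
      have h1 := av_eq_l1 (ν + 1) (s / m ^ 2) (rs {k} x) (by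
        rw [hsub, Finset.card_singleton]; omega)
      have h2 := av_rs_le (ν + 1) (s / m ^ 2) {k} x
      rw [hsub, Finset.sum_singleton, rs_apply, if_pos (Set.mem_singleton k)] at h1
      have h3 : 0 < |x k| := abs_pos.2 hk
      have h4 : (0 : ℝ) < (s / m ^ 2 : ℕ) := by
        have : 0 < s / m ^ 2 := by omega
        exact_mod_cast this
      have h5 : 0 < 1 / ((s / m ^ 2 : ℕ) : ℝ) * |x k| := by positivity
      linarith
    refine ⟨0, 0, le_refl _, le_refl _, by rw [hx0, add_zero], ?_, ?_⟩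
    · rw [nrm_zero, mul_zero]
    · rw [mul_zero, zero_div]; exact bd_zero _ _ _
  · -- `T > 0`
    have hTi : 0 < T⁻¹ := inv_pos.2 hTpos
    have hx' : 0 ≤ T⁻¹ • x := by
      intro k
      rw [Finsupp.smul_apply, smul_eq_mul]
      exact mul_nonneg hTi.le (hx k)
    have hsx : (T⁻¹ • x).support = x.support := by
      ext k
      rw [Finsupp.mem_support_iff, Finsupp.mem_support_iff, Finsupp.smul_apply, smul_eq_mul]
      simp [hTpos.ne']
    have hB' : Bd (ν + 1) (SchU 0 (3 * (hh ν * m))) (s / m ^ 2) (T⁻¹ • x) 1 := by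
      have := bd_smul T⁻¹ hTi.le hBc
      rwa [inv_mul_cancel₀ hTpos.ne'] at this
    obtain ⟨d, a, y, hd, ha, hy, hxe, hyx, hys, hyM, hna, hBd⟩ :=
      large_coords ν 0 (hh ν * m) (3 * (hh ν * m)) s (s / m ^ 2) (m ^ 2) hhm (le_refl _)
        (by omega) hm2 (Nat.div_mul_le_self s (m ^ 2)) (T⁻¹ • x) hx'
        (fun k hk => by
          rw [hsx] at hk
          have := hsupp k hk
          omega) hB' (Sch 0)
    have hys' : y.support ⊆ x.support := by rw [← hsx]; exact hys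
    obtain ⟨u', v', hu', hv', hye, hnu, hBv⟩ :=
      M0core ν m s hm hs y hy (fun k hk => hsupp k (hys' hk)) hyM (bd_mono_x hy hyx hB')
        (fun z hz hzc i hi => IH z hz (lt_of_lt_of_le hzc (Finset.card_le_card hys')) i hi)
    have hsm : ∀ z : ℕ →₀ ℝ, 0 ≤ z → 0 ≤ T • z := by
      intro z hz k
      rw [Finsupp.smul_apply, smul_eq_mul]
      exact mul_nonneg hTpos.le (hz k)
    refine ⟨T • (a + u'), T • (d + v'), hsm _ (add_nonneg ha hu'), hsm _ (add_nonneg hd hv'),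
      ?_, ?_, ?_⟩
    · have h1 : x = T • (T⁻¹ • x) := by
        rw [smul_smul, mul_inv_cancel₀ hTpos.ne', one_smul]
      rw [h1, hxe, hye, ← smul_add]
      congr 1
      abel
    · rw [nrm_smul, abs_of_pos hTpos, hG0]
      have h1 := nrm_add_le (ν + 1) a u'
      have h2 : T * nrm (ν + 1) (a + u') ≤ T * 240 :=
        mul_le_mul_of_nonneg_left (by linarith) hTpos.le
      linarith
    · have h1 := bd_smul T hTpos.le (bd_add hBd hBv)
      refine bd_mono_B ?_ h1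
      rw [hG0]
      have h2 : 1 / ((m ^ 2 : ℕ) : ℝ) ≤ 1 / m := by
        push_cast
        exact one_div_le_one_div_of_le hm0R (le_self_pow₀ (by linarith) (by norm_num))
      have h3 : 1 / ((m ^ 2 : ℕ) : ℝ) + 8 / m ≤ 240 / m := by
        have : (1 : ℝ) / m + 8 / m = 9 / m := by ring
        have h4 : (9 : ℝ) / m ≤ 240 / m := by
          apply div_le_div_of_nonneg_right (by norm_num) hm0R.le
        linarith
      calc T * (1 / ((m ^ 2 : ℕ) : ℝ) + 8 / m) ≤ T * (240 / m) :=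
            mul_le_mul_of_nonneg_left h3 hTpos.le
        _ = 240 * T / m := by ring

/-- ROW M5c (`MH0` implies the common version for `i = 0`): for `m ^ 6 ≤ s`: `m^3 ≤ s`, `SchU 0 (3 hh m) ⊆ SchU 0 (3 hh m^2)`, `s/m^4 ≤ s/m^2`. -/
theorem MH_of_MH0 (ν : ℕ) (x : ℕ →₀ ℝ) (h : MH0 ν x) : MH ν 0 x := by
  intro m s hm hs hsupp T hT hB
  have hhh : 1000 ≤ hh ν := by unfold hh; omega
  have hm1 : 1 ≤ m := by
    refine le_trans ?_ hm
    unfold m0
    exact Nat.mul_pos (by norm_num) (Nat.pow_pos (by omega))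
  refine h m s hm (le_trans (Nat.pow_le_pow_right hm1 (by norm_num)) hs) hsupp T hT ?_
  refine bd_mono_size ?_ (bd_mono_G (fun Q hQ => schU_mono 0 ?_ hQ) hB)
  · exact Nat.div_le_div_left (Nat.pow_le_pow_right hm1 (by norm_num)) (by positivity)
  · exact Nat.mul_le_mul_left _ (Nat.le_self_pow (by norm_num) m)

end Pool.Agent.Lib.MP_1bb70c_an
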